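import Pool.Agent.Helper23.XB.DefsA

/-! # Project XB, module A0 -/

set_option autoImplicit false

namespace Pool.Agent.Helper23.XB

open Cardinal Filter Set Pool.Agent.Helper33.HM

universe u v w

theorem nf_of_supercompact (κ : Cardinal.{u}) (hκ : Supercompact κ) (K : Type u) (hK : #K = κ)
    (X : Type u) : ∃ F : Ultrafilter (Set X), NF K F := by
  obtain ⟨F, h1, h2, h3, h4⟩ := hκ.2 X
  refine ⟨F, ?_, h2, ?_, h4⟩
  · rw [hK]; exact h1
  · intro ι A hι hA
    have : (⋂ i, A i) = ⋂₀ (range A) := by rw [sInter_range]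
    rw [this]
    refine h3 (range A) (mk_range_le.trans_lt (hK ▸ hι)) ?_
    rintro _ ⟨i, rfl⟩
    exact hA i

/-- The ultrafilter on the well-order. -/
private theorem exists_uf (κ : Cardinal.{u}) (hκ : Supercompact κ) :
    ∃ G : Ultrafilter κ.ord.ToType, (∀ i, Ioi i ∈ G) ∧
      ∀ (ι : Type u) (A : ι → Set κ.ord.ToType), #ι < κ → (∀ i, A i ∈ G) → (⋂ i, A i) ∈ G := by
  classical
  have hK : #κ.ord.ToType = κ := mk_ord_toType κ
  obtain ⟨F, hF⟩ := nf_of_supercompact κ hκ κ.ord.ToType hK κ.ord.ToType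
  have hne : Nonempty κ.ord.ToType := by
    rw [← mk_ne_zero_iff, hK]
    exact (aleph0_pos.trans hκ.1).ne'
  set m : Set κ.ord.ToType → κ.ord.ToType := fun y =>
    if h : (yᶜ).Nonempty then WellFounded.min wellFounded_lt (yᶜ) h
    else Classical.arbitrary _ with hm
  have hm1 : ∀ y : Set κ.ord.ToType, (yᶜ).Nonempty → m y ∈ yᶜ := by
    intro y hy
    simp only [hm, dif_pos hy]
    exact WellFounded.min_mem _ _ hy
  refine ⟨F.map m, ?_, ?_⟩
  · intro i
    have hIic : #(Iic i) < κ := by
      have h1 : #(Iio i) < κ := by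
        have := mk_Iio_lt i (by simp)
        rwa [hK] at this
      have h2 : Iic i = Iio i ∪ {i} := by
        ext x; simp [le_iff_lt_or_eq]
      rw [h2]
      refine (mk_union_le _ _).trans_lt (add_lt_of_lt hκ.1.le h1 ?_)
      rw [mk_singleton]
      exact one_lt_aleph0.trans hκ.1
    have h1 : (⋂ j : Iic i, {y : Set κ.ord.ToType | (j : κ.ord.ToType) ∈ y}) ∈ F := by
      refine hF.complete _ _ (hK.symm ▸ hIic) ?_
      intro j
      exact hF.fine j
    have h2 := hF.small
    rw [hK] at h2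
    have h3 : m ⁻¹' (Ioi i) ∈ F := by
      refine Filter.mem_of_superset (Filter.inter_mem h1 h2) ?_
      rintro y ⟨hy1, hy2⟩
      have hy3 : (yᶜ).Nonempty := by
        rw [nonempty_compl]
        rintro rfl
        simp only [mem_ofPred_eq, mk_univ] at hy2
        rw [hK] at hy2
        exact lt_irrefl _ hy2
      have hy4 := hm1 y hy3
      rw [mem_preimage, mem_Ioi]
      by_contra hcon
      rw [not_lt] at hcon
      have := mem_iInter.1 hy1 ⟨m y, hcon⟩
      exact hy4 this
    exact h3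
  · intro ι A hι hA
    have : (⋂ i, m ⁻¹' (A i)) ∈ F := hF.complete ι _ (hK.symm ▸ hι) hA
    rw [Ultrafilter.mem_map, preimage_iInter]
    exact this

/-- A0 -/
theorem supercompact_inaccessible (κ : Cardinal.{u}) (hκ : Supercompact κ) : IsInaccessible κ := by
  obtain ⟨G, hG1, hG2⟩ := exists_uf κ hκ
  refine ⟨hκ.1, ?_, ?_⟩
  · by_contra hcon
    rw [not_le] at hcon
    rw [← Ordinal.cof_toType] at hcon
    obtain ⟨s, hs1, hs2⟩ := Order.exists_cof_eq κ.ord.ToType
    have h1 : (⋂ i : s, Ioi (i : κ.ord.ToType)) ∈ G := by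
      refine hG2 _ _ (by rw [hs2]; exact hcon) fun i => hG1 i
    obtain ⟨x, hx⟩ := G.nonempty_of_mem h1
    obtain ⟨a, ha, hxa⟩ := hs1 x
    have := mem_iInter.1 hx ⟨a, ha⟩
    exact absurd hxa (not_le.2 this)
  · intro c hc
    by_contra hcon
    rw [not_lt] at hcon
    have h1 : #κ.ord.ToType ≤ #(Set c.out) := by
      rw [mk_ord_toType, mk_set, mk_out]; exact hcon
    obtain ⟨g⟩ := h1
    set A : c.out → Set κ.ord.ToType := fun a =>
      open Classical in if {k | a ∈ g k} ∈ G then {k | a ∈ g k} else {k | a ∈ g k}ᶜ with hA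
    have hA1 : ∀ a, A a ∈ G := by
      intro a
      simp only [hA]
      split_ifs with h
      · exact h
      · exact Ultrafilter.compl_mem_iff_notMem.2 h
    have hA2 : ∀ x ∈ ⋂ a, A a, ∀ y ∈ ⋂ a, A a, x = y := by
      intro x hx y hy
      apply g.injective
      ext a
      have hx' := mem_iInter.1 hx a
      have hy' := mem_iInter.1 hy a
      simp only [hA] at hx' hy'
      split_ifs at hx' hy' with h
      · exact iff_of_true hx' hy'
      · exact iff_of_false hx' hy'
    have h2 : (⋂ a, A a) ∈ G := hG2 _ _ (by rw [mk_out]; exact hc) hA1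
    obtain ⟨x, hx⟩ := G.nonempty_of_mem h2
    obtain ⟨y, hy1, hy2⟩ := G.nonempty_of_mem (Filter.inter_mem h2 (hG1 x))
    have := hA2 x hx y hy1
    subst this
    exact lt_irrefl x hy2

end Pool.Agent.Helper23.XB
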