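import Pool.Agent.Helper23.XB.A2a

/-! # Project XB, module A2b -/

set_option autoImplicit false

namespace Pool.Agent.Helper23.XB

open Cardinal Filter Set Pool.Agent.Helper33.HM

universe u v w

variable {K X : Type u} [LinearOrder K] [Inac K] {F : Ultrafilter (Set X)}

namespace H12

/-- Small sets do not contain the range of an injection. -/
theorem exists_notMem {y : Set X} (hy : #y < #K) (j : K → X) (hj : Function.Injective j) :
    {i | j i ∉ y}.Nonempty := by
  by_contra h
  rw [Set.not_nonempty_iff_eq_empty] at h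
  have h1 : ∀ i, j i ∈ y := by
    intro i
    by_contra hi
    have : i ∈ {i | j i ∉ y} := hi
    rw [h] at this
    exact this
  have h2 : #K ≤ #y := by
    refine mk_le_of_injective (f := fun i => (⟨j i, h1 i⟩ : y)) ?_
    intro a b hab
    exact hj (congrArg Subtype.val hab)
  exact absurd hy (not_lt.2 h2)

theorem kF_notMem {y : Set X} (hy : #y < #K) (j : K → X) (hj : Function.Injective j) :
    j (kF j y) ∉ y := by
  have h := exists_notMem hy j hj
  unfold kF
  rw [dif_pos h]
  exact WellFounded.min_mem wellFounded_lt {i | j i ∉ y} h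

theorem mem_of_lt {y : Set X} (hy : #y < #K) (j : K → X) (hj : Function.Injective j) {i : K}
    (hi : i < kF j y) : j i ∈ y := by
  have h := exists_notMem hy j hj
  unfold kF at hi
  rw [dif_pos h] at hi
  by_contra hn
  exact WellFounded.not_lt_min wellFounded_lt {i | j i ∉ y} (x := i) hn hi

theorem complete_lt (hF : NF K F) (i : K) (p : K → Set X → Prop)
    (h : ∀ i, ∀ᶠ y : Set X in (F : Filter (Set X)), p i y) :
    ∀ᶠ y : Set X in (F : Filter (Set X)), ∀ i' ≤ i, p i' y := by
  have h1 := hF.complete (Iic i) (fun i' => {y | p i'.1 y}) (H90.card_Iic i)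
    (fun i' => h i'.1)
  filter_upwards [h1] with y hy i' hi'
  rw [mem_iInter] at hy
  exact hy ⟨i', hi'⟩

end H12

theorem kF_iff (hF : NF K F) (j : K → X) (hj : Function.Injective j) :
    ∀ᶠ y : Set X in (F : Filter (Set X)), ∀ i, j i ∈ y ↔ i < kF j y := by
  have h1 : ∀ᶠ y : Set X in (F : Filter (Set X)), ∀ x ∈ y, ∀ i, j i = x → ∀ i' ≤ i, j i' ∈ y := by
    refine nf_diag hF (fun x y => ∀ i, j i = x → ∀ i' ≤ i, j i' ∈ y) fun x => ?_
    by_cases hx : ∃ i, j i = x
    · obtain ⟨i, rfl⟩ := hx
      filter_upwards [H12.complete_lt hF i (fun i' y => j i' ∈ y) fun i' => hF.fine (j i')]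
        with y hy k hk i' hi'
      rw [hj hk] at hi'
      exact hy i' hi'
    · exact Filter.Eventually.of_forall fun y i hi => absurd ⟨i, hi⟩ hx
  filter_upwards [h1, hF.small] with y hy hs i
  constructor
  · intro hi
    by_contra hn
    exact H12.kF_notMem hs j hj (hy (j i) hi i rfl _ (not_lt.1 hn))
  · exact H12.mem_of_lt hs j hj

theorem kF_unb (hF : NF K F) (j : K → X) (hj : Function.Injective j) (i : K) :
    ∀ᶠ y : Set X in (F : Filter (Set X)), i < kF j y := by
  filter_upwards [kF_iff hF j hj, hF.fine (j i)] with y hy hi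
  exact (hy i).1 hi

theorem kF_diag (hF : NF K F) (j : K → X) (hj : Function.Injective j) (p : K → Set X → Prop)
    (h : ∀ i, ∀ᶠ y : Set X in (F : Filter (Set X)), p i y) :
    ∀ᶠ y : Set X in (F : Filter (Set X)), ∀ i < kF j y, p i y := by
  have h1 : ∀ᶠ y : Set X in (F : Filter (Set X)), ∀ x ∈ y, ∀ i, j i = x → p i y := by
    refine nf_diag hF (fun x y => ∀ i, j i = x → p i y) fun x => ?_
    by_cases hx : ∃ i, j i = x
    · obtain ⟨i, rfl⟩ := hx
      filter_upwards [h i] with y hy k hk
      rw [hj hk]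
      exact hy
    · exact Filter.Eventually.of_forall fun y i hi => absurd ⟨i, hi⟩ hx
  filter_upwards [h1, kF_iff hF j hj] with y hy hk i hi
  exact hy (j i) ((hk i).2 hi) i rfl

theorem kF_enum (hF : NF K F) (j : K → X) (hj : Function.Injective j) (e : K → X) :
    ∀ᶠ y : Set X in (F : Filter (Set X)), ∀ x ∈ y, x ∈ range e → ∃ i < kF j y, e i = x := by
  classical
  filter_upwards [nf_closed hF (fun x => if h : x ∈ range e then j h.choose else x),
    kF_iff hF j hj] with y hy hk x hx hxe
  have h1 := hy x hx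
  rw [dif_pos hxe] at h1
  exact ⟨hxe.choose, (hk _).1 h1, hxe.choose_spec⟩

theorem kF_closed (hF : NF K F) (j : K → X) (hj : Function.Injective j) (g : K → K) :
    ∀ᶠ y : Set X in (F : Filter (Set X)), ∀ i < kF j y, g i < kF j y :=
  kF_diag hF j hj (fun i y => g i < kF j y) fun i => kF_unb hF j hj (g i)

end Pool.Agent.Helper23.XB
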