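import Pool.Agent.Helper23.XB.DefsE

/-! # Project XB, module E2a -/

set_option autoImplicit false
set_option linter.unusedSectionVars false

namespace Pool.Agent.Helper23.XB

open Cardinal Filter Set Pool.Agent.Helper33.HM Pool.Agent.Helper33.HMG Pool.Agent.Helper32.HB
open Pool.Agent.Helper87.Sym (Fml cons Sat IsTransModelZF)

universe u v w

variable {P : Type u} [Preorder P] [OrderTop P]

theorem veq_refl (σ : Nm P) : veq σ σ = ⊤ :=
  le_antisymm le_top fun p _ => feq_refl σ p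

theorem veq_comm (σ τ : Nm P) : veq σ τ = veq τ σ := RO.ext' fun _ => feq_comm

theorem veq_trans (ρ σ τ : Nm P) : veq ρ σ ⊓ veq σ τ ≤ veq ρ τ := fun _ h => feq_trans h.1 h.2

theorem vm_congr_left (σ σ' τ : Nm P) : veq σ σ' ⊓ vm σ τ ≤ vm σ' τ :=
  fun _ h => fmem_congr_left h.1 h.2

theorem vm_congr_right (σ τ τ' : Nm P) : veq τ τ' ⊓ vm σ τ ≤ vm σ τ' :=
  fun _ h => fmem_congr_right h.1 h.2

theorem vm_mk {ι : Type u} (x : ι → Nm P) (c : ι → P) (σ : Nm P) (p : P) :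
    p ∈ vm σ (.mk ι x c) ↔ ∀ q, q ≤ p → ∃ r, r ≤ q ∧ ∃ i, r ≤ c i ∧ r ∈ veq σ (x i) := Iff.rfl

namespace H4

theorem mem_up {ρ σ τ : Nm P} {p : P} (h : fmem ρ (upairN σ τ) p) (q : P) (hq : q ≤ p) :
    ∃ r, r ≤ q ∧ (feq ρ σ r ∨ feq ρ τ r) := by
  obtain ⟨s, hs, ⟨b⟩, -, hb⟩ := h q hq
  cases b with
  | true => exact ⟨s, hs, Or.inl hb⟩
  | false => exact ⟨s, hs, Or.inr hb⟩

theorem up_l (σ τ : Nm P) (p : P) : fmem σ (upairN σ τ) p :=
  fun q _ => ⟨q, le_rfl, ⟨true⟩, le_top, feq_refl _ _⟩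

theorem up_r (σ τ : Nm P) (p : P) : fmem τ (upairN σ τ) p :=
  fun q _ => ⟨q, le_rfl, ⟨false⟩, le_top, feq_refl _ _⟩

theorem up_congr {σ τ σ' τ' : Nm P} {p : P} (h : feq σ σ' p) (h' : feq τ τ' p) :
    feq (upairN σ τ) (upairN σ' τ') p := by
  rw [feq_iff]
  constructor
  · rintro ⟨b⟩ q hq -
    refine ⟨q, le_rfl, ⟨b⟩, le_top, ?_⟩
    cases b with
    | true => exact feq_mono h hq
    | false => exact feq_mono h' hq
  · rintro ⟨b⟩ q hq -
    refine ⟨q, le_rfl, ⟨b⟩, le_top, ?_⟩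
    cases b with
    | true => exact feq_mono h hq
    | false => exact feq_mono h' hq

theorem fst_eq {a b a' b' : Nm P} {p : P} (h : feq (pairN a b) (pairN a' b') p) :
    feq a a' p := by
  apply feq_dense
  intro q hq
  have h1 : fmem (upairN a a) (pairN a' b') q :=
    fmem_congr_right (feq_mono h hq) (up_l _ _ q)
  obtain ⟨r, hr, h2 | h2⟩ := mem_up h1 q le_rfl
  · obtain ⟨s, hs, h3 | h3⟩ := mem_up (fmem_congr_right h2 (up_l a a r)) r le_rfl
    · exact ⟨s, hs.trans hr, h3⟩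
    · exact ⟨s, hs.trans hr, h3⟩
  · obtain ⟨s, hs, h3 | h3⟩ := mem_up (fmem_congr_right (feq_symm h2) (up_l a' b' r)) r le_rfl
    · exact ⟨s, hs.trans hr, feq_symm h3⟩
    · exact ⟨s, hs.trans hr, feq_symm h3⟩

theorem snd_eq {a b a' b' : Nm P} {p : P} (h : feq (pairN a b) (pairN a' b') p) :
    feq b b' p := by
  have ha : feq a a' p := fst_eq h
  apply feq_dense
  intro q hq
  -- if `b` equals `a'` then `b'` equals `b`
  have key : ∀ s, s ≤ q → feq b a' s → ∃ t, t ≤ s ∧ feq b b' t := by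
    intro s hs hb
    have hsp : s ≤ p := hs.trans hq
    have h1 : fmem (upairN a' b') (pairN a b) s :=
      fmem_congr_right (feq_symm (feq_mono h hsp)) (up_r _ _ s)
    have fin : ∀ t, t ≤ s → (feq b' a t ∨ feq b' b t) → feq b b' t := by
      intro t ht h3
      rcases h3 with h3 | h3
      · exact feq_trans (feq_mono hb ht)
          (feq_trans (feq_symm (feq_mono ha (ht.trans hsp))) (feq_symm h3))
      · exact feq_symm h3
    obtain ⟨t, ht, h2 | h2⟩ := mem_up h1 s le_rfl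
    · obtain ⟨u, hu, h3 | h3⟩ := mem_up (fmem_congr_right h2 (up_r a' b' t)) t le_rfl
      · exact ⟨u, hu.trans ht, fin u (hu.trans ht) (Or.inl h3)⟩
      · exact ⟨u, hu.trans ht, fin u (hu.trans ht) (Or.inl h3)⟩
    · obtain ⟨u, hu, h3⟩ := mem_up (fmem_congr_right h2 (up_r a' b' t)) t le_rfl
      exact ⟨u, hu.trans ht, fin u (hu.trans ht) h3⟩
  have h1 : fmem (upairN a b) (pairN a' b') q :=
    fmem_congr_right (feq_mono h hq) (up_r _ _ q)
  obtain ⟨r, hr, h2 | h2⟩ := mem_up h1 q le_rfl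
  · obtain ⟨s, hs, h3 | h3⟩ := mem_up (fmem_congr_right h2 (up_r a b r)) r le_rfl
    · obtain ⟨t, ht, h4⟩ := key s (hs.trans hr) h3
      exact ⟨t, ht.trans (hs.trans hr), h4⟩
    · obtain ⟨t, ht, h4⟩ := key s (hs.trans hr) h3
      exact ⟨t, ht.trans (hs.trans hr), h4⟩
  · obtain ⟨s, hs, h3 | h3⟩ := mem_up (fmem_congr_right h2 (up_r a b r)) r le_rfl
    · obtain ⟨t, ht, h4⟩ := key s (hs.trans hr) h3
      exact ⟨t, ht.trans (hs.trans hr), h4⟩
    · exact ⟨s, hs.trans hr, h3⟩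

end H4

theorem veq_pairN (a b a' b' : Nm P) : veq (pairN a b) (pairN a' b') = veq a a' ⊓ veq b b' := by
  refine RO.ext' fun p => ⟨fun h => ⟨H4.fst_eq h, H4.snd_eq h⟩, fun h => ?_⟩
  exact H4.up_congr (H4.up_congr h.1 h.1) (H4.up_congr h.1 h.2)

theorem veq_of_vSub (a b : Nm P) : vSub a b ⊓ vSub b a ≤ veq a b := by
  intro p h
  refine feq_of_fmem' fun ρ q hq => ⟨fun h1 => ?_, fun h1 => ?_⟩
  · exact RO.mem_himp.1 (RO.mem_iInf.1 h.1 ρ) q hq h1
  · exact RO.mem_himp.1 (RO.mem_iInf.1 h.2 ρ) q hq h1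

end Pool.Agent.Helper23.XB
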