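import Pool.Agent.Helper23.XB.DefsE

/-! # Project XB, module E1a -/

set_option autoImplicit false

namespace Pool.Agent.Helper23.XB

open Cardinal Filter Set Pool.Agent.Helper33.HM Pool.Agent.Helper33.HMG Pool.Agent.Helper32.HB
open Pool.Agent.Helper87.Sym (Fml cons Sat IsTransModelZF)

universe u v w

namespace E1aAux

open Pool.Agent.Helper87.Sym

variable {M : Set ZFSet.{0}} {v : ℕ → ZFSet.{0}}

theorem sat_fSub (hM : IsTransModelZF M) {i j : ℕ} (hi : v i ∈ M) :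
    Sat M (fSub i j) v ↔ v i ⊆ v j :=
  ⟨fun h z hz => h z (hM.trans _ hi z hz) hz, fun h _ _ hz => h hz⟩

theorem sat_fUp (hM : IsTransModelZF M) {w i j : ℕ} (hw : v w ∈ M) (hi : v i ∈ M)
    (hj : v j ∈ M) : Sat M (fUp w i j) v ↔ v w = {v i, v j} := by
  have h0 : Sat M (fUp w i j) v ↔ ∀ x, x ∈ M → (x ∈ v w ↔ (x = v i ∨ x = v j)) := by
    rw [fUp, Sat_all]
    refine forall_congr' fun x => imp_congr_right fun _ => ?_
    rw [Sat_iff, Sat_or]
    exact Iff.rfl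
  rw [h0]
  constructor
  · intro h
    ext x
    rw [ZFSet.mem_pair]
    constructor
    · intro hx
      exact (h x (hM.trans _ hw x hx)).1 hx
    · rintro (rfl | rfl)
      · exact (h _ hi).2 (Or.inl rfl)
      · exact (h _ hj).2 (Or.inr rfl)
  · intro h x _
    rw [h, ZFSet.mem_pair]

theorem pair_mem (hM : IsTransModelZF M) {x y : ZFSet.{0}} (hx : x ∈ M) (hy : y ∈ M) :
    ZFSet.pair x y ∈ M := by
  have h1 := hM.pair x hx x hx
  have h2 := hM.pair x hx y hy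
  rw [ZFSet.pair_eq_singleton] at h1
  exact hM.pair _ h1 _ h2

theorem sat_fPair (hM : IsTransModelZF M) {z i j : ℕ} (hz : v z ∈ M) (hi : v i ∈ M)
    (hj : v j ∈ M) : Sat M (fPair z i j) v ↔ v z = ZFSet.pair (v i) (v j) := by
  have h0 : Sat M (fPair z i j) v ↔ ∃ x, x ∈ M ∧ ∃ y, y ∈ M ∧ (x = {v i, v i} ∧
      (y = {v i, v j} ∧ v z = {x, y})) := by
    rw [fPair, Sat_ex]
    refine exists_congr fun x => and_congr_right fun hx => ?_
    rw [Sat_ex]
    refine exists_congr fun y => and_congr_right fun hy => ?_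
    rw [Sat_and, Sat_and]
    exact and_congr (sat_fUp hM (v := cons y (cons x v)) (w := 1) (i := i + 2) (j := i + 2)
      hx hi hi) (and_congr (sat_fUp hM (v := cons y (cons x v)) (w := 0) (i := i + 2)
      (j := j + 2) hy hi hj) (sat_fUp hM (v := cons y (cons x v)) (w := z + 2) (i := 1)
      (j := 0) hz hx hy))
  rw [h0]
  constructor
  · rintro ⟨x, -, y, -, rfl, rfl, h⟩
    rw [h, ZFSet.pair_eq_singleton]
    rfl
  · intro h
    refine ⟨{v i, v i}, hM.pair _ hi _ hi, {v i, v j}, hM.pair _ hi _ hj, rfl, rfl, ?_⟩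
    rw [h, ZFSet.pair_eq_singleton]
    rfl

theorem sat_fPm (hM : IsTransModelZF M) {i j f : ℕ} (hi : v i ∈ M) (hj : v j ∈ M)
    (hf : v f ∈ M) : Sat M (fPm i j f) v ↔ ZFSet.pair (v i) (v j) ∈ v f := by
  have h0 : Sat M (fPm i j f) v ↔ ∃ x, x ∈ M ∧ (x ∈ v f ∧ x = ZFSet.pair (v i) (v j)) := by
    rw [fPm, Sat_ex]
    refine exists_congr fun x => and_congr_right fun hx => ?_
    rw [Sat_and]
    exact and_congr Iff.rfl (sat_fPair hM (v := cons x v) (z := 0) (i := i + 1) (j := j + 1)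
      hx hi hj)
  rw [h0]
  constructor
  · rintro ⟨x, -, h, rfl⟩
    exact h
  · intro h
    exact ⟨_, hM.trans _ hf _ h, h, rfl⟩

/-- The elements of the elements of ordered pairs. -/
theorem of_pair_mem (hM : IsTransModelZF M) {x y f : ZFSet.{0}} (hf : f ∈ M)
    (h : ZFSet.pair x y ∈ f) : x ∈ M ∧ y ∈ M := by
  have h1 := hM.trans _ hf _ h
  have h2 : ({x, y} : ZFSet) ∈ M := hM.trans _ h1 _ (by
    rw [ZFSet.pair, ZFSet.mem_pair]; exact Or.inr rfl)
  exact ⟨hM.trans _ h2 _ (by rw [ZFSet.mem_pair]; exact Or.inl rfl),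
    hM.trans _ h2 _ (by rw [ZFSet.mem_pair]; exact Or.inr rfl)⟩

theorem sat_fFun (hM : IsTransModelZF M) {a b f : ℕ} (ha : v a ∈ M) (hb : v b ∈ M)
    (hf : v f ∈ M) : Sat M (fFun a b f) v ↔ ZFSet.IsFunc (v a) (v b) (v f) := by
  have h0 : Sat M (fFun a b f) v ↔
      ((∀ z, z ∈ M → (z ∈ v f → ∃ x, x ∈ M ∧ ∃ y, y ∈ M ∧ (x ∈ v a ∧ (y ∈ v b ∧
        z = ZFSet.pair x y)))) ∧
      ((∀ x, x ∈ M → (x ∈ v a → ∃ y, y ∈ M ∧ ZFSet.pair x y ∈ v f)) ∧
      (∀ x, x ∈ M → ∀ y, y ∈ M → ∀ y', y' ∈ M → ((ZFSet.pair x y ∈ v f ∧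
        ZFSet.pair x y' ∈ v f) → y = y')))) := by
    rw [fFun, Sat_and, Sat_and]
    refine and_congr ?_ (and_congr ?_ ?_)
    · rw [Sat_all]
      refine forall_congr' fun z => imp_congr_right fun hz => ?_
      rw [Sat_imp]
      refine imp_congr Iff.rfl ?_
      rw [Sat_ex]
      refine exists_congr fun x => and_congr_right fun hx => ?_
      rw [Sat_ex]
      refine exists_congr fun y => and_congr_right fun hy => ?_
      rw [Sat_and, Sat_and]
      exact and_congr Iff.rfl (and_congr Iff.rfl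
        (sat_fPair hM (v := cons y (cons x (cons z v))) (z := 2) (i := 1) (j := 0) hz hx hy))
    · rw [Sat_all]
      refine forall_congr' fun x => imp_congr_right fun hx => ?_
      rw [Sat_imp]
      refine imp_congr Iff.rfl ?_
      rw [Sat_ex]
      refine exists_congr fun y => and_congr_right fun hy => ?_
      exact sat_fPm hM (v := cons y (cons x v)) (i := 1) (j := 0) (f := f + 2) hx hy hf
    · rw [Sat_all]
      refine forall_congr' fun x => imp_congr_right fun hx => ?_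
      rw [Sat_all]
      refine forall_congr' fun y => imp_congr_right fun hy => ?_
      rw [Sat_all]
      refine forall_congr' fun y' => imp_congr_right fun hy' => ?_
      rw [Sat_imp, Sat_and]
      exact imp_congr (and_congr
        (sat_fPm hM (v := cons y' (cons y (cons x v))) (i := 2) (j := 1) (f := f + 3) hx hy hf)
        (sat_fPm hM (v := cons y' (cons y (cons x v))) (i := 2) (j := 0) (f := f + 3) hx hy' hf))
        Iff.rfl
  rw [h0]
  constructor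
  · rintro ⟨h1, h2, h3⟩
    constructor
    · intro z hz
      obtain ⟨x, -, y, -, hx, hy, rfl⟩ := h1 z (hM.trans _ hf z hz) hz
      exact ZFSet.pair_mem_prod.2 ⟨hx, hy⟩
    · intro x hx
      obtain ⟨y, hy, hxy⟩ := h2 x (hM.trans _ ha x hx) hx
      refine ⟨y, hxy, ?_⟩
      intro y' hy'
      exact h3 x (hM.trans _ ha x hx) y' (of_pair_mem hM hf hy').2 y hy ⟨hy', hxy⟩
  · intro h
    refine ⟨?_, ?_, ?_⟩
    · intro z _ hz
      obtain ⟨x, hx, y, hy, rfl⟩ := ZFSet.mem_prod.1 (h.1 hz)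
      exact ⟨x, hM.trans _ ha x hx, y, hM.trans _ hb y hy, hx, hy, rfl⟩
    · intro x _ hx
      obtain ⟨y, hy, -⟩ := h.2 x hx
      exact ⟨y, (of_pair_mem hM hf hy).2, hy⟩
    · intro x _ y _ y' _ hyy
      exact (h.2 x (ZFSet.pair_mem_prod.1 (h.1 hyy.1)).1).unique hyy.1 hyy.2

theorem sat_fOnto (hM : IsTransModelZF M) {a b f : ℕ} (ha : v a ∈ M) (hb : v b ∈ M)
    (hf : v f ∈ M) : Sat M (fOnto a b f) v ↔ Onto (v a) (v b) (v f) := by
  rw [fOnto, Sat_and]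
  refine and_congr (sat_fFun hM ha hb hf) ?_
  have h0 : Sat M (.all (.imp (.mem 0 (b + 1)) (.ex (.and (.mem 0 (a + 2))
      (fPm 0 1 (f + 2)))))) v ↔
      ∀ y, y ∈ M → (y ∈ v b → ∃ x, x ∈ M ∧ (x ∈ v a ∧ ZFSet.pair x y ∈ v f)) := by
    rw [Sat_all]
    refine forall_congr' fun y => imp_congr_right fun hy => ?_
    rw [Sat_imp]
    refine imp_congr Iff.rfl ?_
    rw [Sat_ex]
    refine exists_congr fun x => and_congr_right fun hx => ?_
    rw [Sat_and]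
    exact and_congr Iff.rfl
      (sat_fPm hM (v := cons x (cons y v)) (i := 0) (j := 1) (f := f + 2) hx hy hf)
  rw [h0]
  constructor
  · intro h y hy
    obtain ⟨x, -, hx, hxy⟩ := h y (hM.trans _ hb y hy) hy
    exact ⟨x, hx, hxy⟩
  · intro h y _ hy
    obtain ⟨x, hx, hxy⟩ := h y hy
    exact ⟨x, hM.trans _ ha x hx, hx, hxy⟩

theorem sat_fOrd (hM : IsTransModelZF M) {c : ℕ} (hc : v c ∈ M) (h : Sat M (fOrd c) v) :
    (v c).IsOrdinal := by
  have h0 : (∀ y, y ∈ M → ∀ z, z ∈ M → (y ∈ v c ∧ z ∈ y → z ∈ v c)) ∧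
      (∀ w, w ∈ M → ∀ z, z ∈ M → ∀ y, y ∈ M → (w ∈ v c ∧ z ∈ w ∧ y ∈ z → y ∈ w)) := by
    rw [fOrd, Sat_and] at h
    refine ⟨?_, ?_⟩
    · intro y hy z hz h1
      exact h.1 y hy z hz (Sat_and.2 h1)
    · intro w hw z hz y hy h1
      exact h.2 w hw z hz y hy (Sat_and.2 ⟨h1.1, Sat_and.2 h1.2⟩)
  refine ⟨?_, ?_⟩
  · intro y hy z hz
    have hyM := hM.trans _ hc y hy
    exact h0.1 y hyM z (hM.trans _ hyM z hz) ⟨hy, hz⟩
  · intro y z w hyz hzw hw
    have hwM := hM.trans _ hc w hw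
    have hzM := hM.trans _ hwM z hzw
    exact h0.2 w hwM z hzM y (hM.trans _ hzM y hyz) ⟨hw, hzw, hyz⟩

theorem succ_mem (hM : IsTransModelZF M) {x : ZFSet.{0}} (hx : x ∈ M) : insert x x ∈ M := by
  have h1 := hM.pair x hx x hx
  have h2 := hM.pair x hx _ h1
  have h3 := hM.union _ h2
  have h4 : ZFSet.sUnion {x, {x, x}} = insert x x := by
    ext y
    rw [ZFSet.mem_sUnion, ZFSet.mem_insert_iff]
    constructor
    · rintro ⟨z, hz, hy⟩
      rw [ZFSet.mem_pair] at hz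
      rcases hz with rfl | rfl
      · exact Or.inr hy
      · rw [ZFSet.mem_pair] at hy
        exact Or.inl (hy.elim id id)
    · rintro (rfl | hy)
      · exact ⟨{y, y}, by rw [ZFSet.mem_pair]; exact Or.inr rfl, by
          rw [ZFSet.mem_pair]; exact Or.inl rfl⟩
      · exact ⟨x, by rw [ZFSet.mem_pair]; exact Or.inl rfl, hy⟩
  rw [← h4]
  exact h3

theorem sat_fLim (hM : IsTransModelZF M) {c : ℕ} (hc : v c ∈ M) (h : Sat M (fLim c) v) :
    ZFSet.omega ⊆ v c := by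
  have h0 : (∀ x, x ∈ M → ((∀ y, y ∈ M → ¬ y ∈ x) → x ∈ v c)) ∧
      (∀ x, x ∈ M → ∀ s, s ∈ M → (x ∈ v c ∧ (∀ y, y ∈ M → (y ∈ s ↔ (y ∈ x ∨ y = x))) →
        s ∈ v c)) := by
    rw [fLim, Sat_and] at h
    refine ⟨?_, ?_⟩
    · intro x hx h1
      exact h.1 x hx h1
    · intro x hx s hs h1
      refine h.2 x hx s hs (Sat_and.2 ⟨h1.1, ?_⟩)
      intro y hy
      rw [Sat_iff, Sat_or]
      exact h1.2 y hy
  have hstep : ∀ x ∈ v c, insert x x ∈ v c := by
    intro x hx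
    have hxM := hM.trans _ hc x hx
    refine h0.2 x hxM (insert x x) (succ_mem hM hxM) ⟨hx, ?_⟩
    intro y _
    rw [ZFSet.mem_insert_iff, or_comm]
  have hempty : (∅ : ZFSet) ∈ M := hM.trans _ hM.inf _ ZFSet.omega_zero
  have hzero : (∅ : ZFSet) ∈ v c := h0.1 ∅ hempty (fun y _ => ZFSet.notMem_empty y)
  have hnat : ∀ n : ℕ, ZFSet.mk (PSet.ofNat n) ∈ v c := by
    intro n
    induction n with
    | zero => exact hzero
    | succ n ih => exact hstep _ ih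
  intro x hx
  obtain ⟨y, rfl⟩ := Quotient.exists_rep x
  obtain ⟨⟨n⟩, hn⟩ : y ∈ PSet.omega := hx
  have h2 : (ZFSet.mk y) = ZFSet.mk (PSet.ofNat n) := ZFSet.sound hn
  have h3 := hnat n
  rw [← h2] at h3
  exact h3

theorem sat_fCard (hM : IsTransModelZF M) {c : ℕ} (hc : v c ∈ M) (h : Sat M (fCard c) v) :
    IsCardIn M (v c) := by
  rw [fCard, Sat_and, Sat_and] at h
  refine ⟨sat_fOrd hM hc h.1, sat_fLim hM hc h.2.1, ?_⟩
  intro a ha f hf ho
  have haM := hM.trans _ hc a ha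
  exact h.2.2 a haM f hf ha ((sat_fOnto hM (v := cons f (cons a v)) (a := 1) (b := c + 2)
    (f := 0) haM hc hf).2 ho)

theorem sat_fSing (hM : IsTransModelZF M) {c : ℕ} (hc : v c ∈ M) (h : Sat M (fSing c) v) :
    IsSingularIn M (v c) := by
  rw [fSing, Sat_and, Sat_ex] at h
  obtain ⟨h1, a, haM, h2⟩ := h
  rw [Sat_ex] at h2
  obtain ⟨f, hfM, h2⟩ := h2
  rw [Sat_and, Sat_and] at h2
  obtain ⟨ha, hf, h3⟩ := h2
  refine ⟨sat_fCard hM hc h1, a, ha, f, hfM, (sat_fFun hM (v := cons f (cons a v)) (a := 1)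
    (b := c + 2) (f := 0) haM hc hfM).1 hf, ?_⟩
  intro x hx
  have h4 := h3 x (hM.trans _ hc x hx) hx
  rw [Sat_ex] at h4
  obtain ⟨y, hyM, h4⟩ := h4
  rw [Sat_ex] at h4
  obtain ⟨z, hzM, h4⟩ := h4
  rw [Sat_and, Sat_and] at h4
  exact ⟨y, h4.1, z, (sat_fPm hM (v := cons z (cons y (cons x (cons f (cons a v))))) (i := 1)
    (j := 0) (f := 3) hyM hzM hfM).1 h4.2.1, h4.2.2⟩

theorem sat_fPow (hM : IsTransModelZF M) {a p : ℕ} (hp : v p ∈ M)
    (h : Sat M (fPow a p) v) : IsPowIn M (v a) (v p) := by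
  refine ⟨hp, ?_⟩
  have h0 : ∀ x, x ∈ M → (x ∈ v p ↔ x ⊆ v a) := by
    intro x hx
    have h1 := h x hx
    rw [Sat_iff] at h1
    exact h1.trans (sat_fSub hM (v := cons x v) (i := 0) (j := a + 1) hx)
  intro x
  constructor
  · intro hx
    have hxM := hM.trans _ hp x hx
    exact ⟨hxM, (h0 x hxM).1 hx⟩
  · rintro ⟨hxM, hx⟩
    exact (h0 x hxM).2 hx

theorem sat_fSL (hM : IsTransModelZF M) {c : ℕ} (hc : v c ∈ M) (h : Sat M (fSL c) v) :
    IsStrongLimitIn M (v c) := by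
  intro a ha
  have haM := hM.trans _ hc a ha
  have h1 := h a haM ha
  rw [Sat_ex] at h1
  obtain ⟨p, hpM, h1⟩ := h1
  rw [Sat_and] at h1
  obtain ⟨hp, h1⟩ := h1
  rw [Sat_ex] at h1
  obtain ⟨b, hbM, h1⟩ := h1
  rw [Sat_ex] at h1
  obtain ⟨f, hfM, h1⟩ := h1
  rw [Sat_and] at h1
  exact ⟨p, sat_fPow hM (v := cons p (cons a v)) (a := 1) (p := 0) hpM hp, b, h1.1, f, hfM,
    (sat_fOnto hM (v := cons f (cons b (cons p (cons a v)))) (a := 1) (b := 2) (f := 0)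
      hbM hpM hfM).1 h1.2⟩

theorem inter_mem (hM : IsTransModelZF M) {x y : ZFSet.{0}} (hx : x ∈ M) (hy : y ∈ M) :
    x ∩ y ∈ M := by
  obtain ⟨z, hz, h⟩ := hM.sep (.mem 0 1) (fun _ => y) (fun _ => hy) x hx
  have h1 : x ∩ y = z := by
    ext w
    rw [ZFSet.mem_inter, h]
    exact Iff.rfl
  rw [h1]
  exact hz

theorem diff_mem (hM : IsTransModelZF M) {x y : ZFSet.{0}} (hx : x ∈ M) (hy : y ∈ M) :
    x \ y ∈ M := by
  obtain ⟨z, hz, h⟩ := hM.sep (.neg (.mem 0 1)) (fun _ => y) (fun _ => hy) x hx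
  have h1 : x \ y = z := by
    ext w
    rw [ZFSet.mem_sdiff, h]
    exact Iff.rfl
  rw [h1]
  exact hz

theorem sat_fUnif (hM : IsTransModelZF M) {lam U : ℕ} (hl : v lam ∈ M) (hU : v U ∈ M)
    (h : Sat M (fUnif lam U) v) : IsUniformIn M (v lam) (v U) := by
  rw [fUnif, Sat_and, Sat_and, Sat_and, Sat_and] at h
  obtain ⟨h1, h2, h3, h4, h5⟩ := h
  refine ⟨hU, ?_, ?_, ?_, ?_, ?_⟩
  · intro x hx
    have hxM := hM.trans _ hU x hx
    exact (sat_fSub hM (v := cons x v) (i := 0) (j := lam + 1) hxM).1 (h1 x hxM hx)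
  · intro x hx y hyM hxy hy
    have hxM := hM.trans _ hU x hx
    refine h2 x hxM y hyM (Sat_and.2 ⟨hx, Sat_and.2 ⟨?_, ?_⟩⟩)
    · exact (sat_fSub hM (v := cons y (cons x v)) (i := 1) (j := 0) hxM).2 hxy
    · exact (sat_fSub hM (v := cons y (cons x v)) (i := 0) (j := lam + 2) hyM).2 hy
  · intro x hx y hy
    have hxM := hM.trans _ hU x hx
    have hyM := hM.trans _ hU y hy
    refine h3 x hxM y hyM (x ∩ y) (inter_mem hM hxM hyM)
      (Sat_and.2 ⟨hx, Sat_and.2 ⟨hy, ?_⟩⟩)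
    intro w _
    rw [Sat_iff, Sat_and]
    exact ZFSet.mem_inter
  · intro x hxM hx
    have hyM := diff_mem hM hl hxM
    have h6 := h4 x hxM (v lam \ x) hyM (Sat_and.2 ⟨(sat_fSub hM
      (v := cons (v lam \ x) (cons x v)) (i := 1) (j := lam + 2) hxM).2 hx, by
        intro w _
        rw [Sat_iff, Sat_and]
        exact ZFSet.mem_sdiff⟩)
    rw [Sat_iff] at h6
    exact h6
  · intro x hx a ha f hfM ho
    have hxM := hM.trans _ hU x hx
    have haM := hM.trans _ hl a ha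
    exact h5 x hxM a haM f hfM (Sat_and.2 ⟨hx, ha⟩)
      ((sat_fOnto hM (v := cons f (cons a (cons x v))) (a := 1) (b := 2) (f := 0)
        haM hxM hfM).2 ho)

theorem sat_fBase (hM : IsTransModelZF M) {U a f : ℕ} (hU : v U ∈ M) (ha : v a ∈ M)
    (hf : v f ∈ M) : Sat M (fBase U a f) v ↔ IsBaseEnum (v U) (v a) (v f) := by
  rw [fBase, Sat_and]
  refine and_congr (sat_fFun hM ha hU hf) ?_
  have h0 : Sat M (.all (.imp (.mem 0 (U + 1)) (.ex (.ex (.and (.mem 1 (a + 3))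
      (.and (fPm 1 0 (f + 3)) (fSub 0 2))))))) v ↔
      ∀ x, x ∈ M → (x ∈ v U → ∃ y, y ∈ M ∧ ∃ z, z ∈ M ∧ (y ∈ v a ∧
        (ZFSet.pair y z ∈ v f ∧ z ⊆ x))) := by
    rw [Sat_all]
    refine forall_congr' fun x => imp_congr_right fun hx => ?_
    rw [Sat_imp]
    refine imp_congr Iff.rfl ?_
    rw [Sat_ex]
    refine exists_congr fun y => and_congr_right fun hy => ?_
    rw [Sat_ex]
    refine exists_congr fun z => and_congr_right fun hz => ?_
    rw [Sat_and, Sat_and]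
    exact and_congr Iff.rfl (and_congr
      (sat_fPm hM (v := cons z (cons y (cons x v))) (i := 1) (j := 0) (f := f + 3) hy hz hf)
      (sat_fSub hM (v := cons z (cons y (cons x v))) (i := 0) (j := 2) hz))
  rw [h0]
  constructor
  · intro h x hx
    obtain ⟨y, -, z, -, hy, hyz, hz⟩ := h x (hM.trans _ hU x hx) hx
    exact ⟨y, hy, z, hyz, hz⟩
  · intro h x _ hx
    obtain ⟨y, hy, z, hyz, hz⟩ := h x hx
    exact ⟨y, hM.trans _ ha y hy, z, (of_pair_mem hM hf hyz).2, hy, hyz, hz⟩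

theorem sat_fChar (hM : IsTransModelZF M) {U mu : ℕ} (hU : v U ∈ M) (hmu : v mu ∈ M)
    (h : Sat M (fChar U mu) v) : IsCharacterIn M (v U) (v mu) := by
  rw [fChar, Sat_and, Sat_ex] at h
  obtain ⟨⟨f, hfM, hf⟩, h2⟩ := h
  refine ⟨⟨f, hfM, (sat_fBase hM (v := cons f v) (U := U + 1) (a := mu + 1) (f := 0)
    hU hmu hfM).1 hf⟩, ?_⟩
  intro a ha g hgM hb
  have haM := hM.trans _ hmu a ha
  exact h2 a haM g hgM ha ((sat_fBase hM (v := cons g (cons a v)) (U := U + 2) (a := 1)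
    (f := 0) hU haM hgM).2 hb)

theorem sat_fNoSurj (hM : IsTransModelZF M) {lam mu : ℕ} (hmu : v mu ∈ M)
    (h : Sat M (fNoSurj lam mu) v) :
    ∃ p, IsPowIn M (v lam) p ∧ ∀ f ∈ M, ¬ Onto (v mu) p f := by
  rw [fNoSurj, Sat_ex] at h
  obtain ⟨p, hpM, h⟩ := h
  rw [Sat_and] at h
  refine ⟨p, sat_fPow hM (v := cons p v) (a := lam + 1) (p := 0) hpM h.1, ?_⟩
  intro f hfM ho
  exact h.2 f hfM ((sat_fOnto hM (v := cons f (cons p v)) (a := mu + 2) (b := 1) (f := 0)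
    hmu hpM hfM).2 ho)

end E1aAux

/-- E1a -/
theorem sat_phi (M : Set ZFSet.{0}) (hM : IsTransModelZF M) (v : ℕ → ZFSet.{0})
    (h : Sat M fPhi v) : SingularCharacter M := by
  rw [fPhi, Pool.Agent.Helper87.Sym.Sat_ex] at h
  obtain ⟨lam, hlam, h⟩ := h
  rw [Pool.Agent.Helper87.Sym.Sat_ex] at h
  obtain ⟨U, hU, h⟩ := h
  rw [Pool.Agent.Helper87.Sym.Sat_ex] at h
  obtain ⟨mu, hmu, h⟩ := h
  rw [Pool.Agent.Helper87.Sym.Sat_and, Pool.Agent.Helper87.Sym.Sat_and,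
    Pool.Agent.Helper87.Sym.Sat_and, Pool.Agent.Helper87.Sym.Sat_and,
    Pool.Agent.Helper87.Sym.Sat_and] at h
  obtain ⟨h1, h2, h3, h4, h5, h6⟩ := h
  exact ⟨lam, hlam, U, hU, mu, hmu,
    E1aAux.sat_fSing hM (v := cons mu (cons U (cons lam v))) (c := 2) hlam h1,
    E1aAux.sat_fSL hM (v := cons mu (cons U (cons lam v))) (c := 2) hlam h2,
    E1aAux.sat_fUnif hM (v := cons mu (cons U (cons lam v))) (lam := 2) (U := 1) hlam hU h3,
    E1aAux.sat_fChar hM (v := cons mu (cons U (cons lam v))) (U := 1) (mu := 0) hU hmu h4,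
    E1aAux.sat_fSing hM (v := cons mu (cons U (cons lam v))) (c := 0) hmu h5,
    E1aAux.sat_fNoSurj hM (v := cons mu (cons U (cons lam v))) (lam := 2) (mu := 0) hmu h6⟩

end Pool.Agent.Helper23.XB
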