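import Pool.Agent.Helper23.XB.DefsE
import Pool.Agent.Helper23.XB.E2a

/-! # Project XB, module E1b -/

set_option autoImplicit false
set_option linter.unusedSectionVars false

namespace Pool.Agent.Helper23.XB

open Cardinal Filter Set Pool.Agent.Helper33.HM Pool.Agent.Helper33.HMG Pool.Agent.Helper32.HB
open Pool.Agent.Helper87.Sym (Fml cons Sat IsTransModelZF)

universe u v w

variable {P : Type u} [Preorder P] [OrderTop P]

namespace H28E1b

open Pool.Agent.Helper87.Sym (cons_zero cons_succ)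

omit [OrderTop P] in
/-- The value of a formula. -/
def val (φ : Fml) (v : ℕ → Nm P) : RO P where
  carrier := {p | Fc φ v p}
  lower _ hp _ hq := Fc_mono hp hq
  reg _ hp := Fc_dense hp

section Basic

omit [OrderTop P]

theorem mem_val {φ : Fml} {v : ℕ → Nm P} {p : P} : p ∈ val φ v ↔ Fc φ v p := Iff.rfl

theorem val_mem (i j : ℕ) (v : ℕ → Nm P) : val (.mem i j) v = vm (v i) (v j) := rfl

theorem val_eq (i j : ℕ) (v : ℕ → Nm P) : val (.eq i j) v = veq (v i) (v j) := rfl

theorem val_imp (φ ψ : Fml) (v : ℕ → Nm P) : val (.imp φ ψ) v = (val φ v ⇨ val ψ v) :=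
  RO.ext' fun _ => Iff.rfl

theorem val_all (φ : Fml) (v : ℕ → Nm P) : val (.all φ) v = ⨅ x, val φ (cons x v) :=
  RO.ext' fun _ => by
    rw [RO.mem_iInf]
    rfl

theorem val_neg (φ : Fml) (v : ℕ → Nm P) : val (.neg φ) v = (val φ v)ᶜ :=
  RO.ext' fun _ => Iff.rfl

theorem val_and (φ ψ : Fml) (v : ℕ → Nm P) : val (.and φ ψ) v = val φ v ⊓ val ψ v :=
  RO.ext' fun _ => Fc_and

theorem val_or (φ ψ : Fml) (v : ℕ → Nm P) : val (.or φ ψ) v = val φ v ⊔ val ψ v := by
  unfold Fml.or
  rw [val_imp, val_neg, himp_eq, compl_compl, sup_comm]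

theorem val_iff (φ ψ : Fml) (v : ℕ → Nm P) :
    val (.iff φ ψ) v = (val φ v ⇨ val ψ v) ⊓ (val ψ v ⇨ val φ v) := by
  unfold Fml.iff
  rw [val_and, val_imp, val_imp]

theorem val_ex (φ : Fml) (v : ℕ → Nm P) : val (.ex φ) v = ⨆ x, val φ (cons x v) := by
  unfold Fml.ex
  rw [val_neg, val_all]
  simp only [val_neg]
  rw [compl_iInf]
  simp only [compl_compl]

/-- Extensionality. -/
theorem veq_ext (a b : Nm P) :
    ⨅ x, ((vm x a ⇨ vm x b) ⊓ (vm x b ⇨ vm x a)) = veq a b := by
  refine RO.ext' fun p => ?_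
  rw [RO.mem_iInf]
  constructor
  · intro h
    refine feq_of_fmem' fun ρ q hq => ?_
    exact ⟨fun h1 => (h ρ).1 q hq h1, fun h1 => (h ρ).2 q hq h1⟩
  · intro h x
    exact ⟨fun q hq h1 => fmem_congr_right (feq_mono h hq) h1,
      fun q hq h1 => fmem_congr_right (feq_symm (feq_mono h hq)) h1⟩

theorem veq_self (a : Nm P) : veq a a = ⊤ :=
  RO.ext' fun p => ⟨fun _ => RO.mem_top p, fun _ => feq_refl a p⟩

theorem iSup_vm_veq (f t : Nm P) : ⨆ x, vm x f ⊓ veq x t = vm t f := by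
  refine le_antisymm (iSup_le fun x => fun p hp => ?_) ?_
  · exact fmem_congr_left hp.2 hp.1
  · refine le_iSup_of_le t ?_
    rw [veq_self, inf_top_eq]

end Basic

theorem vm_upairN (x a b : Nm P) : vm x (upairN a b) = veq x a ⊔ veq x b := by
  rw [show veq x a ⊔ veq x b =
    val (.or (.eq 0 1) (.eq 0 2)) (cons x (cons a (fun _ => b))) from ?_]
  · exact RO.ext' fun p => char_upairN (cons a (fun _ => b)) x p
  · rw [val_or]
    rfl

theorem val_fUp (w i j : ℕ) (v : ℕ → Nm P) :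
    val (fUp w i j) v = veq (v w) (upairN (v i) (v j)) := by
  rw [← veq_ext]
  unfold fUp
  rw [val_all]
  simp only [val_iff, val_or, val_eq, val_mem, vm_upairN, cons_zero, cons_succ]

theorem upairN_congr {x x' y y' : Nm P} {p : P} (h : feq x x' p) (h' : feq y y' p) :
    feq (upairN x y) (upairN x' y') p := by
  refine feq_of_fmem' fun ρ q hq => ?_
  change q ∈ vm ρ (upairN x y) ↔ q ∈ vm ρ (upairN x' y')
  rw [vm_upairN, vm_upairN]
  have h1 : ∀ {y y' : Nm P}, feq y y' q → ∀ r, r ≤ q → (feq ρ y r ↔ feq ρ y' r) :=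
    fun h r hr => ⟨fun h2 => feq_trans h2 (feq_mono h hr),
      fun h2 => feq_trans h2 (feq_symm (feq_mono h hr))⟩
  rw [RO.mem_sup, RO.mem_sup]
  constructor
  · intro h2 r hr
    obtain ⟨s, hs, h3⟩ := h2 r hr
    refine ⟨s, hs, h3.imp (fun h4 => ?_) fun h4 => ?_⟩
    · exact (h1 (feq_mono h hq) s (hs.trans hr)).1 h4
    · exact (h1 (feq_mono h' hq) s (hs.trans hr)).1 h4
  · intro h2 r hr
    obtain ⟨s, hs, h3⟩ := h2 r hr
    refine ⟨s, hs, h3.imp (fun h4 => ?_) fun h4 => ?_⟩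
    · exact (h1 (feq_mono h hq) s (hs.trans hr)).2 h4
    · exact (h1 (feq_mono h' hq) s (hs.trans hr)).2 h4

theorem val_fPair (z i j : ℕ) (v : ℕ → Nm P) :
    val (fPair z i j) v = veq (v z) (pairN (v i) (v j)) := by
  unfold fPair
  simp only [val_ex, val_and, val_fUp, cons_zero, cons_succ]
  refine le_antisymm (iSup_le fun x => iSup_le fun y => fun p hp => ?_) ?_
  · obtain ⟨h1, h2, h3⟩ := hp
    exact feq_trans h3 (upairN_congr h1 h2)
  · refine le_iSup_of_le (upairN (v i) (v i)) (le_iSup_of_le (upairN (v i) (v j)) ?_)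
    intro p hp
    exact ⟨feq_refl _ _, feq_refl _ _, hp⟩

theorem val_fPm (i j f : ℕ) (v : ℕ → Nm P) :
    val (fPm i j f) v = vm (pairN (v i) (v j)) (v f) := by
  unfold fPm
  simp only [val_ex, val_and, val_fPair, val_mem, cons_zero, cons_succ]
  exact iSup_vm_veq _ _

theorem val_fSub (i j : ℕ) (v : ℕ → Nm P) : val (fSub i j) v = vSub (v i) (v j) := by
  unfold fSub vSub
  simp only [val_all, val_imp, val_mem, cons_zero, cons_succ]

theorem val_fFun (a b f : ℕ) (v : ℕ → Nm P) :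
    val (fFun a b f) v = vFun (v a) (v b) (v f) := by
  unfold fFun vFun
  simp only [val_all, val_ex, val_and, val_imp, val_mem, val_eq, val_fPair, val_fPm, cons_zero,
    cons_succ, inf_assoc]

theorem val_fOnto (a b f : ℕ) (v : ℕ → Nm P) :
    val (fOnto a b f) v = vOnto (v a) (v b) (v f) := by
  unfold fOnto vOnto
  simp only [val_all, val_ex, val_and, val_imp, val_mem, val_fFun, val_fPm, cons_zero,
    cons_succ]

theorem val_fOrd (c : ℕ) (v : ℕ → Nm P) : val (fOrd c) v = vOrd (v c) := by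
  unfold fOrd vOrd
  simp only [val_all, val_and, val_imp, val_mem, cons_zero, cons_succ, inf_assoc]

theorem val_fLim (c : ℕ) (v : ℕ → Nm P) : val (fLim c) v = vLim (v c) := by
  unfold fLim vLim
  simp only [val_all, val_and, val_imp, val_iff, val_or, val_neg, val_eq, val_mem, cons_zero,
    cons_succ]

theorem val_fCard (c : ℕ) (v : ℕ → Nm P) : val (fCard c) v = vCard (v c) := by
  unfold fCard vCard
  simp only [val_all, val_and, val_imp, val_neg, val_mem, val_fOrd, val_fLim, val_fOnto,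
    cons_zero, cons_succ, inf_assoc]

theorem val_fSing (c : ℕ) (v : ℕ → Nm P) : val (fSing c) v = vSing (v c) := by
  unfold fSing vSing
  simp only [val_all, val_ex, val_and, val_imp, val_mem, val_fCard, val_fFun, val_fPm,
    cons_zero, cons_succ, inf_assoc]

theorem val_fPow (a p : ℕ) (v : ℕ → Nm P) : val (fPow a p) v = vPow (v a) (v p) := by
  unfold fPow vPow
  simp only [val_all, val_iff, val_mem, val_fSub, cons_zero, cons_succ]

theorem val_fSL (c : ℕ) (v : ℕ → Nm P) : val (fSL c) v = vSL (v c) := by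
  unfold fSL vSL
  simp only [val_all, val_ex, val_and, val_imp, val_mem, val_fPow, val_fOnto,
    cons_zero, cons_succ]

theorem val_fUnif (lam U : ℕ) (v : ℕ → Nm P) : val (fUnif lam U) v = vUnif (v lam) (v U) := by
  unfold fUnif vUnif
  simp only [val_all, val_and, val_imp, val_iff, val_neg, val_mem, val_fSub, val_fOnto,
    cons_zero, cons_succ, inf_assoc]

theorem val_fBase (U a f : ℕ) (v : ℕ → Nm P) :
    val (fBase U a f) v = vBase (v U) (v a) (v f) := by
  unfold fBase vBase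
  simp only [val_all, val_ex, val_and, val_imp, val_mem, val_fFun, val_fPm, val_fSub,
    cons_zero, cons_succ, inf_assoc]

theorem val_fChar (U mu : ℕ) (v : ℕ → Nm P) : val (fChar U mu) v = vChar (v U) (v mu) := by
  unfold fChar vChar
  simp only [val_all, val_ex, val_and, val_imp, val_neg, val_mem, val_fBase,
    cons_zero, cons_succ]

theorem val_fNoSurj (lam mu : ℕ) (v : ℕ → Nm P) :
    val (fNoSurj lam mu) v = vNoSurj (v lam) (v mu) := by
  unfold fNoSurj vNoSurj
  simp only [val_all, val_ex, val_and, val_neg, val_fPow, val_fOnto, cons_zero, cons_succ]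

end H28E1b

/-- E1b -/
theorem fc_phi (lam U mu : Nm P) (p : P) (h : p ∈ vSing lam ⊓ vSL lam ⊓ vUnif lam U ⊓ vChar U mu ⊓
    vSing mu ⊓ vNoSurj lam mu) (v : ℕ → Nm P) : Fc fPhi v p := by
  unfold fPhi
  refine Fc_ex_of (x := lam) (Fc_ex_of (x := U) (Fc_ex_of (x := mu) ?_))
  rw [← H28E1b.mem_val]
  simp only [H28E1b.val_and, H28E1b.val_fSing, H28E1b.val_fSL, H28E1b.val_fUnif,
    H28E1b.val_fChar, H28E1b.val_fNoSurj]
  obtain ⟨⟨⟨⟨⟨h1, h2⟩, h3⟩, h4⟩, h5⟩, h6⟩ := h
  exact ⟨h1, h2, h3, h4, h5, h6⟩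

end Pool.Agent.Helper23.XB
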