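import Pool.Agent.Helper23.XB.E2b

/-! # Project XB, module E2d -/

set_option autoImplicit false

namespace Pool.Agent.Helper23.XB

open Cardinal Filter Set Pool.Agent.Helper33.HM Pool.Agent.Helper33.HMG Pool.Agent.Helper32.HB
open Pool.Agent.Helper87.Sym (Fml cons Sat IsTransModelZF)

universe u v w

variable {P : Type u} [Preorder P] [OrderTop P]

namespace H82

theorem mem_vm_relN {α : Ordinal.{u}} (t : ℕ → α.ToType → RO P) (σ : Nm P) (p : P) :
    p ∈ vm σ (relN t) ↔ ∀ q, q ≤ p → ∃ r, r ≤ q ∧ ∃ (n : ℕ) (k : α.ToType),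
      r ∈ veq σ (pairN (onm (n : Ordinal.{u})) (onm (Ordinal.ToType.toOrd k).1)) ∧ r ∈ t n k := by
  rw [relN, vm_mk]
  refine forall_congr' fun q => imp_congr_right fun _ => exists_congr fun r => and_congr_right
    fun _ => ?_
  constructor
  · rintro ⟨⟨⟨⟨⟨n⟩, k⟩, r'⟩, hr'⟩, h1, h2⟩
    exact ⟨n, k, h2, RO.mem_lower h1 hr'⟩
  · rintro ⟨n, k, h1, h2⟩
    exact ⟨⟨((⟨n⟩, k), r), h2⟩, le_rfl, h1⟩

theorem veq_symm {σ τ : Nm P} {p : P} (h : p ∈ veq σ τ) : p ∈ veq τ σ := by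
  rwa [veq_comm]

theorem veq_tr {ρ σ τ : Nm P} {p : P} (h : p ∈ veq ρ σ) (h' : p ∈ veq σ τ) : p ∈ veq ρ τ :=
  veq_trans ρ σ τ p ⟨h, h'⟩

theorem eq_of_veq_onm {α β : Ordinal.{u}} {p : P} (h : p ∈ veq (onm α : Nm P) (onm β)) :
    α = β := by
  by_contra hne
  rw [veq_onm hne] at h
  exact RO.not_mem_bot p h

theorem toOrd_inj {α : Ordinal.{u}} {k k' : α.ToType}
    (h : (Ordinal.ToType.toOrd k).1 = (Ordinal.ToType.toOrd k').1) : k = k' := by
  have h3 : Ordinal.ToType.toOrd k = Ordinal.ToType.toOrd k' := Subtype.ext h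
  exact Ordinal.ToType.mk.symm.injective h3

end H82

open H82

/-- E2c -/
theorem vFun_relN {α : Ordinal.{u}} (t : ℕ → α.ToType → RO P) (h1 : ∀ n, ⨆ k, t n k = ⊤)
    (h2 : ∀ n k k', k ≠ k' → t n k ⊓ t n k' = ⊥) :
    vFun (onm Ordinal.omega0) (onm α) (relN t) = ⊤ := by
  rw [eq_top_iff]
  intro p _
  refine ⟨⟨?_, ?_⟩, ?_⟩
  · refine RO.mem_iInf.2 fun z => ?_
    rw [RO.mem_himp]
    intro q hq hz
    rw [RO.mem_iSup]
    intro r hr
    obtain ⟨s, hs, n, k, h3, h4⟩ := (mem_vm_relN t z q).1 hz r hr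
    refine ⟨s, hs, onm (n : Ordinal.{u}), ?_⟩
    rw [RO.mem_iSup]
    intro s' hs'
    refine ⟨s', le_rfl, onm (Ordinal.ToType.toOrd k).1, ⟨?_, ?_⟩, RO.mem_lower hs' h3⟩
    · rw [vm_onm_lt (Ordinal.natCast_lt_omega0 n)]
      exact RO.mem_top _
    · rw [vm_onm_lt (Ordinal.ToType.toOrd k).2]
      exact RO.mem_top _
  · refine RO.mem_iInf.2 fun x => ?_
    rw [RO.mem_himp]
    intro q hq hx
    rw [vm_onm, RO.mem_iSup] at hx
    rw [RO.mem_iSup]
    intro r hr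
    obtain ⟨s, hs, i, hi⟩ := hx r hr
    have hlt : (Ordinal.ToType.toOrd i).1 < Ordinal.omega0 := (Ordinal.ToType.toOrd i).2
    obtain ⟨n, hn⟩ := Ordinal.lt_omega0.1 hlt
    have h3 : s ∈ ⨆ k, t n k := by
      rw [h1 n]
      exact RO.mem_top s
    rw [RO.mem_iSup] at h3
    obtain ⟨s', hs', k, hk⟩ := h3 s le_rfl
    refine ⟨s', hs'.trans hs, onm (Ordinal.ToType.toOrd k).1, ?_⟩
    rw [mem_vm_relN]
    intro q' hq'
    refine ⟨q', le_rfl, n, k, ?_, RO.mem_lower hq' hk⟩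
    rw [veq_pairN]
    refine ⟨?_, ?_⟩
    · rw [← hn]
      exact RO.mem_lower (hq'.trans hs') hi
    · rw [veq_refl]
      exact RO.mem_top _
  · refine RO.mem_iInf.2 fun x => RO.mem_iInf.2 fun y => RO.mem_iInf.2 fun y' => ?_
    rw [RO.mem_himp]
    rintro q hq ⟨hy, hy'⟩
    refine RO.mem_reg fun r hr => ?_
    obtain ⟨s, hs, n, k, h3, h4⟩ := (mem_vm_relN t _ q).1 hy r hr
    obtain ⟨s', hs', n', k', h3', h4'⟩ := (mem_vm_relN t _ q).1 hy' s (hs.trans hr)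
    rw [veq_pairN] at h3 h3'
    have h3s : s' ∈ veq x (onm (n : Ordinal.{u})) ∧ s' ∈ veq y (onm (Ordinal.ToType.toOrd k).1) :=
      ⟨RO.mem_lower hs' h3.1, RO.mem_lower hs' h3.2⟩
    have hn : (n : Ordinal.{u}) = n' := eq_of_veq_onm (veq_tr (veq_symm h3s.1) h3'.1)
    have hn' : n = n' := by exact_mod_cast hn
    subst hn'
    have hk : k = k' := by
      by_contra hne
      have h5 : s' ∈ t n k ⊓ t n k' := ⟨RO.mem_lower hs' h4, h4'⟩
      rw [h2 n k k' hne] at h5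
      exact RO.not_mem_bot _ h5
    subst hk
    exact ⟨s', hs'.trans hs, veq_tr h3s.2 (veq_symm h3'.2)⟩

theorem vm_pair_relN {α : Ordinal.{u}} (t : ℕ → α.ToType → RO P) (n : ℕ) (k : α.ToType) :
    vm (pairN (onm (n : Ordinal.{u})) (onm (Ordinal.ToType.toOrd k).1)) (relN t) = t n k := by
  apply RO.ext'
  intro p
  rw [mem_vm_relN]
  constructor
  · intro h
    refine RO.mem_reg fun q hq => ?_
    obtain ⟨r, hr, n', k', h3, h4⟩ := h q hq
    rw [veq_pairN] at h3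
    have hn : (n : Ordinal.{u}) = n' := eq_of_veq_onm h3.1
    have hn' : n = n' := by exact_mod_cast hn
    have hk : k = k' := toOrd_inj (eq_of_veq_onm h3.2)
    subst hn' hk
    exact ⟨r, hr, h4⟩
  · intro h q hq
    refine ⟨q, le_rfl, n, k, ?_, RO.mem_lower hq h⟩
    rw [veq_refl]
    exact RO.mem_top _

end Pool.Agent.Helper23.XB
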