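import Pool.Agent.Helper23.XB.E2b

/-! # Project XB, module E3 -/

set_option autoImplicit false

namespace Pool.Agent.Helper23.XB

open Cardinal Filter Set Pool.Agent.Helper33.HM Pool.Agent.Helper33.HMG Pool.Agent.Helper32.HB
open Pool.Agent.Helper87.Sym (Fml cons Sat IsTransModelZF)

universe u v w

variable {P : Type u} [Preorder P] [OrderTop P]

private theorem h23_vl {σ σ' τ : Nm P} {p : P} (h : p ∈ veq σ σ') (h' : p ∈ vm σ τ) :
    p ∈ vm σ' τ := vm_congr_left σ σ' τ p ⟨h, h'⟩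

private theorem h23_vr {σ τ τ' : Nm P} {p : P} (h : p ∈ veq τ τ') (h' : p ∈ vm σ τ) :
    p ∈ vm σ τ' := vm_congr_right σ τ τ' p ⟨h, h'⟩

private theorem h23_vrefl (σ : Nm P) (p : P) : p ∈ veq σ σ := by
  rw [veq_refl]
  exact RO.mem_top p

omit [OrderTop P] in
private theorem h23_sup {ι : Sort*} {f : ι → RO P} {p : P} (i : ι) (h : p ∈ f i) :
    p ∈ ⨆ i, f i :=
  RO.mem_iSup.2 fun q hq => ⟨q, le_rfl, i, RO.mem_lower hq h⟩

private theorem h23_uniq {a b f : Nm P} {p q : P} (h : p ∈ vFun a b f) (hq : q ≤ p) {x y y' : Nm P}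
    (h1 : q ∈ vm (pairN x y) f) (h2 : q ∈ vm (pairN x y') f) : q ∈ veq y y' :=
  RO.mem_himp.1 (RO.mem_iInf.1 (RO.mem_iInf.1 (RO.mem_iInf.1 h.2 x) y) y') q hq ⟨h1, h2⟩

/-- E3a: functions onto a subset `x` of `α`. -/
theorem mx_onto {ν α : Ordinal.{u}} (x f : Nm P) (p : P) (hx : p ∈ vSub x (onm α))
    (h : p ∈ vOnto (onm ν) x f) :
    (∀ (n : ν.ToType) (k k' : α.ToType), k ≠ k' → p ∈ (mx f n k ⊓ mx f n k')ᶜ) ∧
      ∀ k : α.ToType, p ∈ (rlK x k ⇨ ⨆ n : ν.ToType, mx f n k) := by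
  have _ := hx
  constructor
  · intro n k k' hk
    rw [RO.mem_compl]
    rintro q hq ⟨h1, h2⟩
    have h3 := h23_uniq h.1 hq h1 h2
    have h4 : (Ordinal.ToType.toOrd k).1 ≠ (Ordinal.ToType.toOrd k').1 := by
      intro h5
      apply hk
      have h6 : Ordinal.ToType.toOrd k = Ordinal.ToType.toOrd k' := Subtype.ext h5
      exact Ordinal.ToType.mk.symm.injective h6
    rw [veq_onm h4] at h3
    exact RO.not_mem_bot q h3
  · intro k
    rw [RO.mem_himp]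
    intro q hq hk
    have h1 := RO.mem_iSup.1 (RO.mem_himp.1 (RO.mem_iInf.1 h.2 _) q hq hk)
    refine RO.mem_reg fun r hr => ?_
    obtain ⟨s, hs, y, hy1, hy2⟩ := h1 r hr
    have hy1' : s ∈ vm y (onm ν) := hy1
    rw [vm_onm, RO.mem_iSup] at hy1'
    obtain ⟨t, ht, n, hn⟩ := hy1' s le_rfl
    refine ⟨t, ht.trans hs, h23_sup n ?_⟩
    refine h23_vl (σ := pairN y (onm (Ordinal.ToType.toOrd k).1)) ?_ (RO.mem_lower ht hy2)
    rw [veq_pairN]
    exact ⟨hn, h23_vrefl _ _⟩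

/-- E3b: the values of a function to subsets of `α`. -/
theorem mxs_eq {ν α : Ordinal.{u}} (b f : Nm P) (p : P) (h : p ∈ vFun (onm ν) b f) (n : ν.ToType)
    (y : Nm P) (hy : p ∈ vm (pairN (onm (Ordinal.ToType.toOrd n).1) y) f) (k : α.ToType) :
    p ∈ (mxs f n k ⇨ rlK y k) ⊓ (rlK y k ⇨ mxs f n k) := by
  constructor
  · intro q hq hk
    refine RO.mem_reg fun r hr => ?_
    obtain ⟨s, hs, y', hy1, hy2⟩ := RO.mem_iSup.1 hk r hr
    refine ⟨s, hs, ?_⟩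
    have hsp : s ≤ p := hs.trans (hr.trans hq)
    exact h23_vr (h23_uniq h hsp hy1 (RO.mem_lower hsp hy)) hy2
  · intro q hq hk
    exact h23_sup y ⟨RO.mem_lower hq hy, hk⟩

end Pool.Agent.Helper23.XB
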