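import Pool.Agent.Helper23.XB.E2c

/-! # Project XB, module E4 -/

set_option autoImplicit false

namespace Pool.Agent.Helper23.XB

open Cardinal Filter Set Pool.Agent.Helper33.HM Pool.Agent.Helper33.HMG Pool.Agent.Helper32.HB
open Pool.Agent.Helper87.Sym (Fml cons Sat IsTransModelZF)

universe u v w

variable {P : Type u} [Preorder P] [OrderTop P]

namespace H93

omit [OrderTop P] in
private theorem top_of {U : RO P} (h : ∀ p, p ∈ U) : U = ⊤ :=
  RO.ext' fun p => ⟨fun _ => RO.mem_top p, fun _ => h p⟩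

omit [OrderTop P] in
private theorem mem_of_top {U : RO P} (h : U = ⊤) (p : P) : p ∈ U := h ▸ RO.mem_top p

/-- Below a condition in `vm σ (onm α)`. -/
private theorem dense_onm {σ : Nm P} {α : Ordinal.{u}} {p : P} (h : p ∈ vm σ (onm α)) :
    ∀ q, q ≤ p → ∃ r, r ≤ q ∧ ∃ β, β < α ∧ r ∈ veq σ (onm β) := by
  intro q hq
  rw [vm_onm] at h
  obtain ⟨r, hr, i, hi⟩ := RO.mem_iSup.1 h q hq
  exact ⟨r, hr, _, (Ordinal.ToType.toOrd i).2, hi⟩

private theorem left {σ σ' τ : Nm P} {p : P} (h : p ∈ veq σ σ') (h' : p ∈ vm σ τ) : p ∈ vm σ' τ :=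
  vm_congr_left σ σ' τ p ⟨h, h'⟩

private theorem right {σ τ τ' : Nm P} {p : P} (h : p ∈ veq τ τ') (h' : p ∈ vm σ τ) :
    p ∈ vm σ τ' :=
  vm_congr_right σ τ τ' p ⟨h, h'⟩

private theorem symm {σ τ : Nm P} {p : P} (h : p ∈ veq σ τ) : p ∈ veq τ σ := veq_comm σ τ ▸ h

private theorem vm_of_veq {σ : Nm P} {α β : Ordinal.{u}} (hβ : β < α) {p : P}
    (h : p ∈ veq σ (onm β)) : p ∈ vm σ (onm α) :=
  left (symm h) (mem_of_top (vm_onm_lt hβ) p)

private theorem vm_mono {σ : Nm P} {α β : Ordinal.{u}} (hβ : β ≤ α) {p : P}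
    (h : p ∈ vm σ (onm β)) : p ∈ vm σ (onm α) :=
  RO.mem_reg fun q hq => by
    obtain ⟨r, hr, γ, hγ, hrγ⟩ := dense_onm h q hq
    exact ⟨r, hr, vm_of_veq (hγ.trans_le hβ) hrγ⟩

end H93

open H93

theorem vOrd_onm (α : Ordinal.{u}) : vOrd (onm α : Nm P) = ⊤ := by
  refine H93.top_of fun p => ⟨?_, ?_⟩
  · refine RO.mem_iInf.2 fun y => RO.mem_iInf.2 fun z => ?_
    rintro q - ⟨h1, h2⟩
    refine RO.mem_reg fun r hr => ?_
    obtain ⟨s, hs, β, hβ, h3⟩ := H93.dense_onm h1 r hr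
    exact ⟨s, hs, H93.vm_mono hβ.le (H93.right h3 (RO.mem_lower (hs.trans hr) h2))⟩
  · refine RO.mem_iInf.2 fun w => RO.mem_iInf.2 fun z => RO.mem_iInf.2 fun y => ?_
    rintro q - ⟨⟨h1, h2⟩, h3⟩
    refine RO.mem_reg fun r hr => ?_
    obtain ⟨s, hs, β, hβ, h4⟩ := H93.dense_onm h1 r hr
    have h5 : s ∈ vm z (onm β) := H93.right h4 (RO.mem_lower (hs.trans hr) h2)
    obtain ⟨t, ht, γ, hγ, h6⟩ := H93.dense_onm h5 s le_rfl
    have h7 : t ∈ vm y (onm γ) := H93.right h6 (RO.mem_lower (ht.trans (hs.trans hr)) h3)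
    exact ⟨t, ht.trans hs, H93.right (H93.symm (RO.mem_lower ht h4)) (H93.vm_mono hγ.le h7)⟩

theorem vLim_onm (α : Ordinal.{u}) (h : Order.IsSuccLimit α) : vLim (onm α : Nm P) = ⊤ := by
  have h0 : 0 < α := by
    have := h.1
    rw [isMin_iff_eq_bot] at this
    exact pos_iff_ne_zero.2 this
  refine H93.top_of fun p => ⟨?_, ?_⟩
  · refine RO.mem_iInf.2 fun x => ?_
    rintro q - h1
    have h1' := RO.mem_iInf.1 h1
    refine H93.vm_of_veq h0 ?_
    refine veq_of_vSub _ _ q ⟨?_, ?_⟩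
    · refine RO.mem_iInf.2 fun y => ?_
      rintro r hr hry
      exact absurd hry (RO.mem_compl.1 (h1' y) r hr)
    · refine RO.mem_iInf.2 fun y => ?_
      rintro r hr hry
      obtain ⟨s, hs, β, hβ, -⟩ := H93.dense_onm hry r le_rfl
      exact absurd hβ (not_lt.2 zero_le)
  · refine RO.mem_iInf.2 fun x => RO.mem_iInf.2 fun s => ?_
    rintro q - ⟨h1, h2⟩
    refine RO.mem_reg fun r hr => ?_
    obtain ⟨t, ht, β, hβ, h3⟩ := H93.dense_onm h1 r hr
    refine ⟨t, ht, ?_⟩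
    refine H93.vm_of_veq (h.2.succ_lt hβ) ?_
    have h2' := RO.mem_iInf.1 (RO.mem_lower (ht.trans hr) h2)
    refine veq_of_vSub _ _ t ⟨?_, ?_⟩
    · refine RO.mem_iInf.2 fun y => ?_
      rintro u hu huy
      have h4 := (h2' y).1 u hu huy
      refine RO.mem_reg fun v hv => ?_
      obtain ⟨w, hw, h5⟩ := RO.mem_sup.1 h4 v hv
      refine ⟨w, hw, ?_⟩
      have h3' : w ∈ veq x (onm β) := RO.mem_lower (hw.trans (hv.trans hu)) h3
      rcases h5 with h5 | h5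
      · exact H93.vm_mono (Order.le_succ β) (H93.right h3' h5)
      · exact H93.vm_of_veq (Order.lt_succ β) (veq_trans y x (onm β) w ⟨h5, h3'⟩)
    · refine RO.mem_iInf.2 fun y => ?_
      rintro u hu huy
      refine (h2' y).2 u hu ?_
      refine RO.mem_sup.2 fun v hv => ?_
      obtain ⟨w, hw, γ, hγ, h5⟩ := H93.dense_onm huy v hv
      have h3' : w ∈ veq (onm β) x := H93.symm (RO.mem_lower (hw.trans (hv.trans hu)) h3)
      refine ⟨w, hw, ?_⟩
      rcases (Order.lt_succ_iff.1 hγ).lt_or_eq with h6 | h6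
      · exact Or.inl (H93.right h3' (H93.vm_of_veq h6 h5))
      · subst h6
        exact Or.inr (veq_trans y (onm γ) x w ⟨h5, h3'⟩)

/-- E4b: a cofinal function of the ground model -/
theorem vSing_of_cof {α β : Ordinal.{u}} (h : β < α) (f : β.ToType → α.ToType)
    (hf : ∀ i, ∃ j, i < f j) (hc : vCard (onm α : Nm P) = ⊤) : vSing (onm α : Nm P) = ⊤ := by
  refine H93.top_of fun p => ⟨H93.mem_of_top hc p, ?_⟩
  refine RO.mem_iSup.2 fun q hq => ⟨q, le_rfl, onm β, ?_⟩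
  refine RO.mem_iSup.2 fun r hr => ⟨r, le_rfl,
    fnN fun j => onm (Ordinal.ToType.toOrd (f j)).1, ⟨⟨?_, ?_⟩, ?_⟩⟩
  · exact H93.mem_of_top (vm_onm_lt h) r
  · refine vFun_fnN _ _ r (RO.mem_iInf.2 fun j => ?_)
    exact H93.mem_of_top (vm_onm_lt (Ordinal.ToType.toOrd (f j)).2) r
  · refine RO.mem_iInf.2 fun x => ?_
    rintro s hs hsx
    rw [vm_onm] at hsx
    refine RO.mem_iSup.2 fun t ht => ?_
    obtain ⟨u, hu, i, hi⟩ := RO.mem_iSup.1 hsx t ht
    obtain ⟨j, hj⟩ := hf i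
    refine ⟨u, hu, onm (Ordinal.ToType.toOrd j).1, ?_⟩
    refine RO.mem_iSup.2 fun v hv => ⟨v, le_rfl, onm (Ordinal.ToType.toOrd (f j)).1,
      ⟨⟨?_, ?_⟩, ?_⟩⟩
    · exact H93.mem_of_top (vm_onm_lt (Ordinal.ToType.toOrd j).2) v
    · rw [vm_pair_fnN, veq_refl]
      exact RO.mem_top v
    · refine H93.vm_of_veq ?_ (RO.mem_lower hv hi)
      exact Ordinal.ToType.mk.symm.lt_iff_lt.2 hj

end Pool.Agent.Helper23.XB
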