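import Pool.Agent.Helper23.XB.E3
import Pool.Agent.Helper23.XB.E4

/-! # Project XB, module E5b -/

set_option autoImplicit false

namespace Pool.Agent.Helper23.XB

open Cardinal Filter Set Pool.Agent.Helper33.HM Pool.Agent.Helper33.HMG Pool.Agent.Helper32.HB
open Pool.Agent.Helper87.Sym (Fml cons Sat IsTransModelZF)

universe u v w

variable {P : Type u} [Preorder P] [OrderTop P] {κ μ : Cardinal.{u}}

namespace H17b

/-- congruence of `vOnto` in the first argument -/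
theorem vOnto_congr {a a' c f : Nm P} {p : P} (h : p ∈ veq a a') (h' : p ∈ vOnto a c f) :
    p ∈ vOnto a' c f := by
  have h1 : ∀ q, q ≤ p → ∀ x : Nm P, q ∈ vm x a → q ∈ vm x a' := fun q hq x hx =>
    vm_congr_right x a a' q ⟨RO.mem_lower hq h, hx⟩
  have hs : p ∈ veq a' a := by rw [veq_comm]; exact h
  have h2 : ∀ q, q ≤ p → ∀ x : Nm P, q ∈ vm x a' → q ∈ vm x a := fun q hq x hx =>
    vm_congr_right x a' a q ⟨RO.mem_lower hq hs, hx⟩
  obtain ⟨⟨⟨hf1, hf2⟩, hf3⟩, ho⟩ := h'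
  refine ⟨⟨⟨?_, ?_⟩, hf3⟩, ?_⟩
  · rw [← RO.mem_def, RO.mem_iInf] at hf1 ⊢
    intro z
    rw [RO.mem_himp]
    intro q hq hz
    have := RO.mem_himp.1 (hf1 z) q hq hz
    rw [RO.mem_iSup] at this ⊢
    intro r hr
    obtain ⟨s, hs, x, hx⟩ := this r hr
    refine ⟨s, hs, x, ?_⟩
    rw [RO.mem_iSup] at hx ⊢
    intro t ht
    obtain ⟨w, hw, y, hy⟩ := hx t ht
    exact ⟨w, hw, y, ⟨⟨h1 w (hw.trans (ht.trans (hs.trans (hr.trans hq)))) x hy.1.1, hy.1.2⟩,
      hy.2⟩⟩
  · rw [← RO.mem_def, RO.mem_iInf] at hf2 ⊢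
    intro x
    rw [RO.mem_himp]
    intro q hq hz
    exact RO.mem_himp.1 (hf2 x) q hq (h2 q hq x hz)
  · rw [← RO.mem_def, RO.mem_iInf] at ho ⊢
    intro y
    rw [RO.mem_himp]
    intro q hq hz
    have := RO.mem_himp.1 (ho y) q hq hz
    rw [RO.mem_iSup] at this ⊢
    intro r hr
    obtain ⟨s, hs, x, hx⟩ := this r hr
    exact ⟨s, hs, x, h1 s (hs.trans (hr.trans hq)) x hx.1, hx.2⟩

omit [OrderTop P] in
theorem vSub_self (a : Nm P) (p : P) : p ∈ vSub a a := by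
  rw [vSub, RO.mem_iInf]
  intro x
  rw [RO.mem_himp]
  exact fun q _ h => h

end H17b

/-- E5b -/
theorem bf_card_lam (b : BF P κ.ord.ToType μ.ord.ToType)
    (hκ : IsInaccessible κ) : vCard (onm κ.ord : Nm P) = ⊤ := by
  have hω : ℵ₀ ≤ κ := hκ.1.le
  have hlim : vLim (onm κ.ord : Nm P) = ⊤ := vLim_onm _ (isSuccLimit_ord hω)
  rw [vCard, vOrd_onm, hlim, top_inf_eq, top_inf_eq]
  apply RO.ext'
  intro p
  refine ⟨fun _ => RO.mem_top p, fun _ => ?_⟩
  rw [RO.mem_iInf]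
  intro a
  rw [RO.mem_iInf]
  intro f
  rw [RO.mem_himp]
  intro q hq hqa
  rw [RO.mem_compl]
  intro r hr hrO
  have hra := RO.mem_lower hr hqa
  rw [vm_onm, RO.mem_iSup] at hra
  obtain ⟨s, hs, i, hi⟩ := hra r le_rfl
  have hsO := H17b.vOnto_congr hi (RO.mem_lower hs hrO)
  set β : Ordinal.{u} := (Ordinal.ToType.toOrd i).1 with hβdef
  have hβ : β < κ.ord := (Ordinal.ToType.toOrd i).2
  obtain ⟨m1, m2⟩ := mx_onto (ν := β) (α := κ.ord) (onm κ.ord) f s (H17b.vSub_self _ s) hsO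
  have hβc : β.card < κ := by rwa [← lt_ord]
  have hsc : Order.succ β.card < κ := by
    have := hκ.isStrongLimit.isSuccLimit
    exact this.succ_lt hβc
  set γ : Ordinal.{u} := (Order.succ β.card).ord with hγdef
  have hγ : γ < κ.ord := ord_lt_ord.2 hsc
  let emb : γ.ToType → κ.ord.ToType := fun k =>
    Ordinal.ToType.mk ⟨(Ordinal.ToType.toOrd k).1,
      Set.mem_Iio.2 (lt_trans (Set.mem_Iio.1 (Ordinal.ToType.toOrd k).2) hγ)⟩
  have hemb : Function.Injective emb := by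
    intro k k' hkk
    have h1 := (Ordinal.ToType.mk (o := κ.ord)).injective hkk
    have h2 : (Ordinal.ToType.toOrd k).1 = (Ordinal.ToType.toOrd k').1 := by
      simpa using h1
    exact (Ordinal.ToType.mk (o := γ)).symm.injective (Subtype.ext h2)
  have hcardK : #κ.ord.ToType = κ := by rw [mk_toType, card_ord]
  have hJ : #(β.ToType × γ.ToType) < #κ.ord.ToType := by
    rw [hcardK, mk_prod, lift_id, lift_id, mk_toType, mk_toType, card_ord]
    exact mul_lt_of_lt hω hβc hsc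
  obtain ⟨t, ht, hdec⟩ := b.nn (β.ToType × γ.ToType) (fun y => mx f y.1 (emb y.2)) hJ s
  have hval : ∀ k : γ.ToType, ∃ n : β.ToType, t ∈ mx f n (emb k) := by
    intro k
    have h1 := RO.mem_himp.1 (m2 (emb k)) t ht (by
      rw [rlK, vm_onm_lt (Ordinal.ToType.toOrd (emb k)).2]
      exact RO.mem_top t)
    rw [RO.mem_iSup] at h1
    obtain ⟨w, hw, n, hn⟩ := h1 t le_rfl
    rcases hdec (n, k) with h | h
    · exact ⟨n, h⟩
    · exact absurd hn (RO.mem_compl.1 h w hw)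
  choose φ hφ using hval
  have hφi : Function.Injective φ := by
    intro k k' hkk
    by_contra hne
    have h1 := m1 (φ k) (emb k) (emb k') (fun h => hne (hemb h))
    exact RO.mem_compl.1 h1 t ht ⟨hφ k, hkk ▸ hφ k'⟩
  have h1 := mk_le_of_injective hφi
  rw [mk_toType, mk_toType, card_ord] at h1
  exact absurd h1 (not_le.2 (Order.lt_succ β.card))

end Pool.Agent.Helper23.XB
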