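import Pool.Agent.Helper32.HB.NmB

/-!
# Project XB: singular character below the power set, at a strong limit singular cardinal

The definitions used in the final statement: supercompact cardinals, and cardinals, ultrafilters and
characters relativised to a transitive set `M`.
-/

set_option autoImplicit false

namespace Pool.Agent.Helper23.XB

open Cardinal Filter Set

universe u

/-- The cardinal `κ` is supercompact: it is uncountable, and for every set `X` there is a
`κ`-complete fine normal ultrafilter on the set of the subsets of `X` of cardinality `< κ`. -/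
def Supercompact (κ : Cardinal.{u}) : Prop :=
  ℵ₀ < κ ∧ ∀ X : Type u, ∃ F : Ultrafilter (Set X),
    (∀ᶠ y : Set X in (F : Filter (Set X)), #y < κ) ∧
    (∀ x : X, ∀ᶠ y : Set X in (F : Filter (Set X)), x ∈ y) ∧
    (∀ 𝒜 : Set (Set (Set X)), #𝒜 < κ → (∀ A ∈ 𝒜, A ∈ F) → ⋂₀ 𝒜 ∈ F) ∧
    (∀ f : Set X → X, (∀ᶠ y : Set X in (F : Filter (Set X)), f y ∈ y) →
      ∃ x, ∀ᶠ y : Set X in (F : Filter (Set X)), f y = x)

/-- `f` is (the graph of) a function from `a` onto `b`. -/
def Onto (a b f : ZFSet.{0}) : Prop :=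
  ZFSet.IsFunc a b f ∧ ∀ y ∈ b, ∃ x ∈ a, ZFSet.pair x y ∈ f

/-- `c` is an infinite cardinal in `M`: an infinite ordinal which is not the image of a smaller
ordinal under a function in `M`. -/
structure IsCardIn (M : Set ZFSet.{0}) (c : ZFSet.{0}) : Prop where
  ordinal : c.IsOrdinal
  infinite : ZFSet.omega ⊆ c
  initial : ∀ a ∈ c, ∀ f ∈ M, ¬ Onto a c f

/-- `c` is a singular cardinal in `M`: an infinite cardinal of `M` with a function in `M` from a
smaller ordinal to an unbounded subset of `c`. -/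
structure IsSingularIn (M : Set ZFSet.{0}) (c : ZFSet.{0}) : Prop where
  card : IsCardIn M c
  cof : ∃ a ∈ c, ∃ f ∈ M, ZFSet.IsFunc a c f ∧ ∀ x ∈ c, ∃ y ∈ a, ∃ z, ZFSet.pair y z ∈ f ∧ x ∈ z

/-- `p` is the power set of `a` in `M`. -/
def IsPowIn (M : Set ZFSet.{0}) (a p : ZFSet.{0}) : Prop := p ∈ M ∧ ∀ x, x ∈ p ↔ x ∈ M ∧ x ⊆ a

/-- The cardinal `c` of `M` is a strong limit in `M`: the power set in `M` of each smaller ordinal is
the image of a smaller ordinal under a function in `M`. -/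
def IsStrongLimitIn (M : Set ZFSet.{0}) (c : ZFSet.{0}) : Prop :=
  ∀ a ∈ c, ∃ p, IsPowIn M a p ∧ ∃ b ∈ c, ∃ f ∈ M, Onto b p f

/-- `U` is, in `M`, a uniform ultrafilter over the cardinal `lam` of `M`. -/
structure IsUniformIn (M : Set ZFSet.{0}) (lam U : ZFSet.{0}) : Prop where
  mem : U ∈ M
  sub : ∀ x ∈ U, x ⊆ lam
  up : ∀ x ∈ U, ∀ y ∈ M, x ⊆ y → y ⊆ lam → y ∈ U
  inter : ∀ x ∈ U, ∀ y ∈ U, x ∩ y ∈ U
  ultra : ∀ x ∈ M, x ⊆ lam → (x ∈ U ↔ lam \ x ∉ U)
  /-- the elements of `U` have cardinality `lam` in `M` -/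
  uniform : ∀ x ∈ U, ∀ a ∈ lam, ∀ f ∈ M, ¬ Onto a x f

/-- `f` is a function from `a` to `U` whose range is a base of `U`. -/
def IsBaseEnum (U a f : ZFSet.{0}) : Prop :=
  ZFSet.IsFunc a U f ∧ ∀ x ∈ U, ∃ y ∈ a, ∃ z, ZFSet.pair y z ∈ f ∧ z ⊆ x

/-- `mu` is, in `M`, the character of `U`: the least ordinal which is mapped onto a base of `U` by a
function in `M`. -/
def IsCharacterIn (M : Set ZFSet.{0}) (U mu : ZFSet.{0}) : Prop :=
  (∃ f ∈ M, IsBaseEnum U mu f) ∧ ∀ a ∈ mu, ∀ f ∈ M, ¬ IsBaseEnum U a f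

/-- In `M`, there are a singular strong limit cardinal `lam` and a uniform ultrafilter `U` over `lam`
whose character `mu` is a singular cardinal less than the cardinality of the power set of `lam`. -/
def SingularCharacter (M : Set ZFSet.{0}) : Prop :=
  ∃ lam ∈ M, ∃ U ∈ M, ∃ mu ∈ M, IsSingularIn M lam ∧ IsStrongLimitIn M lam ∧
    IsUniformIn M lam U ∧ IsCharacterIn M U mu ∧ IsSingularIn M mu ∧
    ∃ p, IsPowIn M lam p ∧ ∀ f ∈ M, ¬ Onto mu p f

end Pool.Agent.Helper23.XB
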