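import Pool.Agent.Helper23.XB.DefsX
import Pool.Agent.Helper23.XB.Final

/-!
# Project XB, part A: the sample system of a supercompact cardinal
-/

set_option autoImplicit false

namespace Pool.Agent.Helper23.XB

open Cardinal Filter Set Pool.Agent.Helper33.HM

universe u

/-- `F` is a `#K`-complete fine normal ultrafilter on the subsets of `X` of cardinality `< #K`. -/
structure NF (K : Type u) {X : Type u} (F : Ultrafilter (Set X)) : Prop where
  small : ∀ᶠ y : Set X in (F : Filter (Set X)), #y < #K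
  fine : ∀ x : X, ∀ᶠ y : Set X in (F : Filter (Set X)), x ∈ y
  complete : ∀ (ι : Type u) (A : ι → Set (Set X)), #ι < #K → (∀ i, A i ∈ F) → (⋂ i, A i) ∈ F
  normal : ∀ f : Set X → X, (∀ᶠ y : Set X in (F : Filter (Set X)), f y ∈ y) →
    ∃ x, ∀ᶠ y : Set X in (F : Filter (Set X)), f y = x

open Classical in
/-- The least element of `K` whose image does not belong to `y`. -/
noncomputable def kF {K X : Type u} [LinearOrder K] [WellFoundedLT K] [Nonempty K] (j : K → X)
    (y : Set X) : K :=
  if h : {i | j i ∉ y}.Nonempty then WellFounded.min wellFounded_lt {i | j i ∉ y} h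
  else Classical.arbitrary K

/-- Records: the first `k` values at a sequence of coordinates. -/
def Rec (K : Type u) [LinearOrder K] : Type u := Σ k : K, (Iio k → K)

/-- The index set of the coordinates of the first kind. A pair `(e, φ)` is the coordinate with the
value `φ (record of e)`; the basic coordinates are `some ξ`, `ξ ∈ M`, and `none` (the code). -/
abbrev BB (K M : Type u) [LinearOrder K] : Type u := (K → Option M) × (Rec K → K)

/-- The set whose small subsets are the first components of the samples. -/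
inductive XX (K M : Type u) [LinearOrder K] : Type u
  | k (i : K) : XX K M
  | m (ξ : M) : XX K M
  | b (c : BB K M) : XX K M
  | s (s : Set M) : XX K M
  | r (R : Set (Set M)) : XX K M

/-- Codes: a bound, an ultrafilter below the bound, and a relation below the bound. -/
def Str (K : Type u) [LinearOrder K] : Type u :=
  {w : K × Ultrafilter K × Set (K × K) // Iio w.1 ∈ w.2.1 ∧ w.2.2 ⊆ Iio w.1 ×ˢ Iio w.1}

/-- `V` is a `κ y`-complete fine ultrafilter on the small subsets of `y ∩ M` which belong to `y`. -/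
structure Good (K M : Type u) [LinearOrder K] [Inac K] (y : Set (XX K M))
    (V : Ultrafilter (Set M)) : Prop where
  small : ∀ᶠ s : Set M in (V : Filter (Set M)), XX.s s ∈ y ∧ #s < #(Iio (kF (XX.k (M := M)) y))
  fine : ∀ ξ, XX.m ξ ∈ y → ∀ᶠ s : Set M in (V : Filter (Set M)), ξ ∈ s
  complete : ∀ (ι : Type u) (R : ι → Set (Set M)), #ι < #(Iio (kF (XX.k (M := M)) y)) →
    (∀ i, R i ∈ V) → (⋂ i, R i) ∈ V

/-- The coordinate with the basic value `o`. -/
noncomputable def cb1 (K : Type u) {M : Type u} [LinearOrder K] [Inac K] (o : Option M) : BB K M :=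
  open Classical in
  (fun _ => o, fun r => if h : (Iio r.1).Nonempty then r.2 ⟨h.choose, h.choose_spec⟩
    else Classical.arbitrary K)

/-- The data of the ground model. -/
structure GD (K M Θ : Type u) [LinearOrder K] [Inac K] where
  F : Ultrafilter (Set (XX K M))
  E : Ultrafilter (Set (K ⊕ Θ))
  hF : NF K F
  hE : NF K E
  /-- the collapse -/
  pi : Set (XX K M) → XX K M → K
  bd : Set (XX K M) → K
  pi_inj : ∀ y : Set (XX K M), #y < #K → InjOn (pi y) y
  pi_lt : ∀ y : Set (XX K M), #y < #K → ∀ x ∈ y, pi y x < bd y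
  pi' : Set (K ⊕ Θ) → K ⊕ Θ → K
  bd' : Set (K ⊕ Θ) → K
  pi'_inj : ∀ y : Set (K ⊕ Θ), #y < #K → InjOn (pi' y) y
  pi'_lt : ∀ y : Set (K ⊕ Θ), #y < #K → ∀ x ∈ y, pi' y x < bd' y
  /-- the decoding -/
  dec : K → Str K
  /-- the code -/
  code : Set (XX K M) → K
  code_bd : ∀ᶠ y : Set (XX K M) in (F : Filter (Set (XX K M))), (dec (code y)).1.1 = bd y
  code_card : ∀ᶠ y : Set (XX K M) in (F : Filter (Set (XX K M))),
    ∀ a ∈ (dec (code y)).1.2.1, #(Iio (kF (XX.k (M := M)) y)) ≤ #a
  code_complete : ∀ᶠ y : Set (XX K M) in (F : Filter (Set (XX K M))),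
    ∀ (ι : Type u) (a : ι → Set K), #ι < #(Iio (kF (XX.k (M := M)) y)) →
      (∀ i, a i ∈ (dec (code y)).1.2.1) → (⋂ i, a i) ∈ (dec (code y)).1.2.1
  code_fine : ∀ᶠ y : Set (XX K M) in (F : Filter (Set (XX K M))), ∀ ξ, XX.m ξ ∈ y →
    {σ | (pi y (.m ξ), σ) ∈ (dec (code y)).1.2.2} ∈ (dec (code y)).1.2.1
  code_small : ∀ᶠ y : Set (XX K M) in (F : Filter (Set (XX K M))),
    {σ | #{ξ : M | XX.m ξ ∈ y ∧ (pi y (.m ξ), σ) ∈ (dec (code y)).1.2.2} <
      #(Iio (kF (XX.k (M := M)) y))} ∈ (dec (code y)).1.2.1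
  /-- a function with `i < sc i` -/
  sc : K → K
  sc_lt : ∀ i, i < sc i
  /-- a pairing function -/
  pr : K × K ≃ K

section GD

variable {K M Θ : Type u} [LinearOrder K] [Inac K] (G : GD K M Θ)

/-- The basic values. -/
noncomputable def GD.base (y : Set (XX K M)) : Option M → K
  | none => G.code y
  | some ξ => G.pi y (.m ξ)

/-- The record of `e` at `y`. -/
noncomputable def GD.rcd (e : K → Option M) (y : Set (XX K M)) : Rec K :=
  ⟨kF (XX.k (M := M)) y, fun j => G.base y (e j.1)⟩

/-- The value at the coordinate `c` of the first kind. -/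
noncomputable def GD.repB (c : BB K M) (y : Set (XX K M)) : K := c.2 (G.rcd c.1 y)

/-- The height. -/
noncomputable def GD.h0 (x : Set (K ⊕ Θ)) : K := max (kF (Sum.inl (β := Θ)) x) (G.bd' x)

/-- The coordinates. -/
abbrev CC (K M Θ : Type u) [LinearOrder K] : Type u := BB K M ⊕ Option Θ

/-- The values of a sample. -/
noncomputable def GD.rep (z : Set (XX K M) × Set (K ⊕ Θ)) : CC K M Θ → K
  | .inl c => G.repB c z.1
  | .inr none => G.h0 z.2
  | .inr (some α) => G.pi' z.2 (.inr α)

/-- The support of a sample. -/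
def GD.S (_G : GD K M Θ) (z : Set (XX K M) × Set (K ⊕ Θ)) : Set (CC K M Θ)
  | .inl c => XX.b c ∈ z.1
  | .inr none => True
  | .inr (some α) => Sum.inr α ∈ z.2

/-- The product ultrafilter: `F` for the first component, then `E` for the second one. -/
noncomputable def GD.prod : Ultrafilter (Set (XX K M) × Set (K ⊕ Θ)) :=
  G.F.bind fun y => G.E.map fun x => (y, x)

/-- The level of a sample. -/
noncomputable def GD.kz (_G : GD K M Θ) (z : Set (XX K M) × Set (K ⊕ Θ)) : K :=
  kF (XX.k (M := M)) z.1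

/-- The height of a sample. -/
noncomputable def GD.hz (z : Set (XX K M) × Set (K ⊕ Θ)) : K := G.sc (G.h0 z.2)

end GD

end Pool.Agent.Helper23.XB
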