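import Pool.Agent.Helper23.XB.DefsX
import Pool.Agent.Helper23.XB.Final
import Pool.Agent.Helper33.HMG.Model
import Pool.Agent.Helper32.HB.NmB

/-!
# Project XB, part E: names, Boolean values and formulas
-/

set_option autoImplicit false

namespace Pool.Agent.Helper23.XB

open Cardinal Filter Set Pool.Agent.Helper33.HM Pool.Agent.Helper33.HMG Pool.Agent.Helper32.HB
open Pool.Agent.Helper87.Sym (Fml cons Sat)

universe u

section Names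

variable {P : Type u} [Preorder P]

/-- The value of `σ = τ`. -/
def veq (σ τ : Nm P) : RO P where
  carrier := {p | feq σ τ p}
  lower _ hp _ hq := feq_mono hp hq
  reg _ hp := feq_dense hp

/-- The value of `σ ∈ τ`. -/
abbrev vm (σ τ : Nm P) : RO P := memv σ τ

variable [OrderTop P]

/-- The name of the ordered pair. -/
def pairN (σ τ : Nm P) : Nm P := upairN (upairN σ σ) (upairN σ τ)

/-- The name of the ordinal `α`. -/
noncomputable def onm (α : Ordinal.{u}) : Nm P :=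
  .mk α.ToType (fun i => onm (Ordinal.ToType.toOrd i).1) (fun _ => ⊤)
termination_by α
decreasing_by exact (Ordinal.ToType.toOrd i).2

/-- The name of the subset of `α` with the Boolean values `x`. -/
noncomputable def nmK {α : Ordinal.{u}} (x : α.ToType → RO P) : Nm P :=
  .mk {y : α.ToType × P // y.2 ∈ x y.1} (fun y => onm (Ordinal.ToType.toOrd y.1.1).1)
    (fun y => y.1.2)

/-- The name of the set of the subsets `x` of `α`, with the Boolean values `W x`. -/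
noncomputable def ultN {α : Ordinal.{u}} (W : (α.ToType → RO P) → RO P) : Nm P :=
  .mk {y : (α.ToType → RO P) × P // y.2 ∈ W y.1} (fun y => nmK y.1.1) (fun y => y.1.2)

/-- The name of the function on `α` with the values `h`. -/
noncomputable def fnN {α : Ordinal.{u}} (h : α.ToType → Nm P) : Nm P :=
  .mk α.ToType (fun i => pairN (onm (Ordinal.ToType.toOrd i).1) (h i)) (fun _ => ⊤)

/-- The name of the relation between `ω` and `α` with the Boolean values `t`. -/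
noncomputable def relN {α : Ordinal.{u}} (t : ℕ → α.ToType → RO P) : Nm P :=
  .mk {y : (ULift.{u} ℕ × α.ToType) × P // y.2 ∈ t y.1.1.down y.1.2}
    (fun y => pairN (onm (y.1.1.1.down : Ordinal.{u})) (onm (Ordinal.ToType.toOrd y.1.1.2).1))
    (fun y => y.1.2)

/-- The Boolean values of the elements of `τ`. -/
noncomputable def rlK {α : Ordinal.{u}} (τ : Nm P) (k : α.ToType) : RO P :=
  vm (onm (Ordinal.ToType.toOrd k).1) τ

/-- The matrix of a function between ordinals. -/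
noncomputable def mx {ν α : Ordinal.{u}} (f : Nm P) (n : ν.ToType) (k : α.ToType) : RO P :=
  vm (pairN (onm (Ordinal.ToType.toOrd n).1) (onm (Ordinal.ToType.toOrd k).1)) f

/-- The matrix of a function from an ordinal to subsets of an ordinal. -/
noncomputable def mxs {ν α : Ordinal.{u}} (f : Nm P) (n : ν.ToType) (k : α.ToType) : RO P :=
  ⨆ y, vm (pairN (onm (Ordinal.ToType.toOrd n).1) y) f ⊓ vm (onm (Ordinal.ToType.toOrd k).1) y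

/-! ### Boolean values of the statements -/

def vSub (a b : Nm P) : RO P := ⨅ x, (vm x a ⇨ vm x b)

def vFun (a b f : Nm P) : RO P :=
  (⨅ z, (vm z f ⇨ ⨆ x, ⨆ y, vm x a ⊓ vm y b ⊓ veq z (pairN x y))) ⊓
  (⨅ x, (vm x a ⇨ ⨆ y, vm (pairN x y) f)) ⊓
  ⨅ x, ⨅ y, ⨅ y', (vm (pairN x y) f ⊓ vm (pairN x y') f ⇨ veq y y')

def vOnto (a b f : Nm P) : RO P :=
  vFun a b f ⊓ ⨅ y, (vm y b ⇨ ⨆ x, vm x a ⊓ vm (pairN x y) f)

def vOrd (c : Nm P) : RO P :=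
  (⨅ y, ⨅ z, (vm y c ⊓ vm z y ⇨ vm z c)) ⊓
  ⨅ w, ⨅ z, ⨅ y, (vm w c ⊓ vm z w ⊓ vm y z ⇨ vm y w)

def vLim (c : Nm P) : RO P :=
  (⨅ x, ((⨅ y, (vm y x)ᶜ) ⇨ vm x c)) ⊓
  ⨅ x, ⨅ s, (vm x c ⊓ (⨅ y, ((vm y s ⇨ vm y x ⊔ veq y x) ⊓ (vm y x ⊔ veq y x ⇨ vm y s))) ⇨ vm s c)

def vCard (c : Nm P) : RO P :=
  vOrd c ⊓ vLim c ⊓ ⨅ a, ⨅ f, (vm a c ⇨ (vOnto a c f)ᶜ)

def vSing (c : Nm P) : RO P :=
  vCard c ⊓ ⨆ a, ⨆ f, vm a c ⊓ vFun a c f ⊓
    ⨅ x, (vm x c ⇨ ⨆ y, ⨆ z, vm y a ⊓ vm (pairN y z) f ⊓ vm x z)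

def vPow (a p : Nm P) : RO P := ⨅ x, ((vm x p ⇨ vSub x a) ⊓ (vSub x a ⇨ vm x p))

def vSL (c : Nm P) : RO P :=
  ⨅ a, (vm a c ⇨ ⨆ p, vPow a p ⊓ ⨆ b, ⨆ f, vm b c ⊓ vOnto b p f)

def vUnif (lam U : Nm P) : RO P :=
  (⨅ x, (vm x U ⇨ vSub x lam)) ⊓
  (⨅ x, ⨅ y, (vm x U ⊓ vSub x y ⊓ vSub y lam ⇨ vm y U)) ⊓
  (⨅ x, ⨅ y, ⨅ z, (vm x U ⊓ vm y U ⊓
    (⨅ w, ((vm w z ⇨ vm w x ⊓ vm w y) ⊓ (vm w x ⊓ vm w y ⇨ vm w z))) ⇨ vm z U)) ⊓
  (⨅ x, ⨅ y, (vSub x lam ⊓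
    (⨅ w, ((vm w y ⇨ vm w lam ⊓ (vm w x)ᶜ) ⊓ (vm w lam ⊓ (vm w x)ᶜ ⇨ vm w y))) ⇨
      (vm x U ⇨ (vm y U)ᶜ) ⊓ ((vm y U)ᶜ ⇨ vm x U))) ⊓
  ⨅ x, ⨅ a, ⨅ f, (vm x U ⊓ vm a lam ⇨ (vOnto a x f)ᶜ)

def vBase (U a f : Nm P) : RO P :=
  vFun a U f ⊓ ⨅ x, (vm x U ⇨ ⨆ y, ⨆ z, vm y a ⊓ vm (pairN y z) f ⊓ vSub z x)

def vChar (U mu : Nm P) : RO P :=
  (⨆ f, vBase U mu f) ⊓ ⨅ a, ⨅ f, (vm a mu ⇨ (vBase U a f)ᶜ)

def vNoSurj (lam mu : Nm P) : RO P :=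
  ⨆ p, vPow lam p ⊓ ⨅ f, (vOnto mu p f)ᶜ

end Names

/-! ### The formula -/


/-- `x_i ⊆ x_j` -/
def fSub (i j : ℕ) : Fml := .all (.imp (.mem 0 (i + 1)) (.mem 0 (j + 1)))

/-- `x_w = {x_i, x_j}` -/
def fUp (w i j : ℕ) : Fml := .all (.iff (.mem 0 (w + 1)) (.or (.eq 0 (i + 1)) (.eq 0 (j + 1))))

/-- `x_z = (x_i, x_j)` -/
def fPair (z i j : ℕ) : Fml :=
  .ex (.ex (.and (fUp 1 (i + 2) (i + 2)) (.and (fUp 0 (i + 2) (j + 2)) (fUp (z + 2) 1 0))))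

/-- `(x_i, x_j) ∈ x_f` -/
def fPm (i j f : ℕ) : Fml := .ex (.and (.mem 0 (f + 1)) (fPair 0 (i + 1) (j + 1)))

def fFun (a b f : ℕ) : Fml :=
  .and (.all (.imp (.mem 0 (f + 1)) (.ex (.ex (.and (.mem 1 (a + 3)) (.and (.mem 0 (b + 3))
    (fPair 2 1 0)))))))
  (.and (.all (.imp (.mem 0 (a + 1)) (.ex (fPm 1 0 (f + 2)))))
    (.all (.all (.all (.imp (.and (fPm 2 1 (f + 3)) (fPm 2 0 (f + 3))) (.eq 1 0))))))

def fOnto (a b f : ℕ) : Fml :=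
  .and (fFun a b f) (.all (.imp (.mem 0 (b + 1)) (.ex (.and (.mem 0 (a + 2)) (fPm 0 1 (f + 2))))))

def fOrd (c : ℕ) : Fml :=
  .and (.all (.all (.imp (.and (.mem 1 (c + 2)) (.mem 0 1)) (.mem 0 (c + 2)))))
    (.all (.all (.all (.imp (.and (.mem 2 (c + 3)) (.and (.mem 1 2) (.mem 0 1))) (.mem 0 2)))))

def fLim (c : ℕ) : Fml :=
  .and (.all (.imp (.all (.neg (.mem 0 1))) (.mem 0 (c + 1))))
    (.all (.all (.imp (.and (.mem 1 (c + 2)) (.all (.iff (.mem 0 1) (.or (.mem 0 2) (.eq 0 2)))))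
      (.mem 0 (c + 2)))))

def fCard (c : ℕ) : Fml :=
  .and (fOrd c) (.and (fLim c) (.all (.all (.imp (.mem 1 (c + 2)) (.neg (fOnto 1 (c + 2) 0))))))

def fSing (c : ℕ) : Fml :=
  .and (fCard c) (.ex (.ex (.and (.mem 1 (c + 2)) (.and (fFun 1 (c + 2) 0)
    (.all (.imp (.mem 0 (c + 3)) (.ex (.ex (.and (.mem 1 4) (.and (fPm 1 0 3) (.mem 2 0)))))))))))

def fPow (a p : ℕ) : Fml := .all (.iff (.mem 0 (p + 1)) (fSub 0 (a + 1)))

def fSL (c : ℕ) : Fml :=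
  .all (.imp (.mem 0 (c + 1)) (.ex (.and (fPow 1 0)
    (.ex (.ex (.and (.mem 1 (c + 4)) (fOnto 1 2 0)))))))

def fUnif (lam U : ℕ) : Fml :=
  .and (.all (.imp (.mem 0 (U + 1)) (fSub 0 (lam + 1))))
  (.and (.all (.all (.imp (.and (.mem 1 (U + 2)) (.and (fSub 1 0) (fSub 0 (lam + 2))))
    (.mem 0 (U + 2)))))
  (.and (.all (.all (.all (.imp (.and (.mem 2 (U + 3)) (.and (.mem 1 (U + 3))
    (.all (.iff (.mem 0 1) (.and (.mem 0 3) (.mem 0 2)))))) (.mem 0 (U + 3))))))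
  (.and (.all (.all (.imp (.and (fSub 1 (lam + 2))
    (.all (.iff (.mem 0 1) (.and (.mem 0 (lam + 3)) (.neg (.mem 0 2))))))
    (.iff (.mem 1 (U + 2)) (.neg (.mem 0 (U + 2)))))))
  (.all (.all (.all (.imp (.and (.mem 2 (U + 3)) (.mem 1 (lam + 3))) (.neg (fOnto 1 2 0)))))))))

def fBase (U a f : ℕ) : Fml :=
  .and (fFun a U f) (.all (.imp (.mem 0 (U + 1)) (.ex (.ex (.and (.mem 1 (a + 3))
    (.and (fPm 1 0 (f + 3)) (fSub 0 2)))))))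

def fChar (U mu : ℕ) : Fml :=
  .and (.ex (fBase (U + 1) (mu + 1) 0))
    (.all (.all (.imp (.mem 1 (mu + 2)) (.neg (fBase (U + 2) 1 0)))))

def fNoSurj (lam mu : ℕ) : Fml :=
  .ex (.and (fPow (lam + 1) 0) (.all (.neg (fOnto (mu + 2) 1 0))))

/-- The sentence; after the three quantifiers `lam, U, mu` are the variables `2, 1, 0`. -/
def fPhi : Fml :=
  .ex (.ex (.ex (.and (fSing 2) (.and (fSL 2) (.and (fUnif 2 1) (.and (fChar 1 0) (.and (fSing 0)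
    (fNoSurj 2 0))))))))

end Pool.Agent.Helper23.XB
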