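import Pool.Agent.Helper23.XB.E2a

/-! # Project XB, module E2b -/

set_option autoImplicit false

namespace Pool.Agent.Helper23.XB

open Cardinal Filter Set Pool.Agent.Helper33.HM Pool.Agent.Helper33.HMG Pool.Agent.Helper32.HB
open Pool.Agent.Helper87.Sym (Fml cons Sat IsTransModelZF)

universe u v w

variable {P : Type u} [Preorder P] [OrderTop P]

private theorem h23_vl {σ σ' τ : Nm P} {p : P} (h : p ∈ veq σ σ') (h' : p ∈ vm σ τ) :
    p ∈ vm σ' τ := vm_congr_left σ σ' τ p ⟨h, h'⟩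

private theorem h23_vr {σ τ τ' : Nm P} {p : P} (h : p ∈ veq τ τ') (h' : p ∈ vm σ τ) :
    p ∈ vm σ τ' := vm_congr_right σ τ τ' p ⟨h, h'⟩

private theorem h23_vs {σ τ : Nm P} {p : P} (h : p ∈ veq σ τ) : p ∈ veq τ σ := by
  rwa [veq_comm]

theorem vm_onm (σ : Nm P) (α : Ordinal.{u}) :
    vm σ (onm α) = ⨆ i : α.ToType, veq σ (onm (Ordinal.ToType.toOrd i).1) := by
  apply RO.ext'
  intro p
  rw [onm, vm_mk, RO.mem_iSup]
  refine forall_congr' fun q => imp_congr_right fun _ => exists_congr fun r => and_congr_right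
    fun _ => exists_congr fun i => ?_
  exact ⟨fun h => h.2, fun h => ⟨le_top, h⟩⟩

theorem vm_onm_lt {α β : Ordinal.{u}} (h : β < α) : vm (onm β : Nm P) (onm α) = ⊤ := by
  rw [eq_top_iff]
  intro p _
  rw [vm_onm, RO.mem_iSup]
  intro q _
  refine ⟨q, le_rfl, Ordinal.ToType.mk ⟨β, h⟩, ?_⟩
  have e : (Ordinal.ToType.toOrd (Ordinal.ToType.mk (⟨β, h⟩ : Iio α))).1 = β := by simp
  rw [e, veq_refl]
  exact RO.mem_top q

theorem vm_onm_ge {α β : Ordinal.{u}} (h : α ≤ β) : vm (onm β : Nm P) (onm α) = ⊥ := by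
  induction α using WellFoundedLT.induction generalizing β with
  | _ α ih =>
    by_contra hne
    obtain ⟨p, hp⟩ := RO.ne_bot_iff.1 hne
    rw [vm_onm, RO.mem_iSup] at hp
    obtain ⟨r, -, i, hi⟩ := hp p le_rfl
    have hlt : (Ordinal.ToType.toOrd i).1 < α := (Ordinal.ToType.toOrd i).2
    have h1 : r ∈ vm (onm (Ordinal.ToType.toOrd i).1) (onm β) := by
      rw [vm_onm_lt (hlt.trans_le h)]
      exact RO.mem_top r
    have h2 := h23_vr hi h1
    rw [ih _ hlt le_rfl] at h2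
    exact RO.not_mem_bot r h2

theorem veq_onm {α β : Ordinal.{u}} (h : α ≠ β) : veq (onm α : Nm P) (onm β) = ⊥ := by
  have key : ∀ {α β : Ordinal.{u}}, α < β → ∀ p : P, ¬ p ∈ veq (onm α : Nm P) (onm β) := by
    intro α β hlt p hp
    have h1 : p ∈ vm (onm α) (onm β) := by
      rw [vm_onm_lt hlt]
      exact RO.mem_top p
    have h2 := h23_vr (h23_vs hp) h1
    rw [vm_onm_ge le_rfl] at h2
    exact RO.not_mem_bot p h2
  by_contra hne
  obtain ⟨p, hp⟩ := RO.ne_bot_iff.1 hne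
  rcases lt_or_gt_of_ne h with hlt | hlt
  · exact key hlt p hp
  · exact key hlt p (h23_vs hp)

theorem vm_nmK {α : Ordinal.{u}} (σ : Nm P) (x : α.ToType → RO P) :
    vm σ (nmK x) = ⨆ k : α.ToType, veq σ (onm (Ordinal.ToType.toOrd k).1) ⊓ x k := by
  apply RO.ext'
  intro p
  rw [nmK, vm_mk, RO.mem_iSup]
  refine forall_congr' fun q => imp_congr_right fun _ => exists_congr fun r => and_congr_right
    fun _ => ?_
  constructor
  · rintro ⟨⟨⟨k, r'⟩, hr'⟩, h1, h2⟩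
    exact ⟨k, h2, RO.mem_lower h1 hr'⟩
  · rintro ⟨k, h1, h2⟩
    exact ⟨⟨(k, r), h2⟩, le_rfl, h1⟩

theorem vm_onm_nmK {α : Ordinal.{u}} (x : α.ToType → RO P) (k : α.ToType) :
    vm (onm (Ordinal.ToType.toOrd k).1) (nmK x) = x k := by
  rw [vm_nmK]
  apply le_antisymm
  · refine iSup_le fun k' => ?_
    by_cases h : k' = k
    · subst h
      exact inf_le_right
    · have h1 : (Ordinal.ToType.toOrd k).1 ≠ (Ordinal.ToType.toOrd k').1 := by
        intro h2
        apply h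
        have h3 : Ordinal.ToType.toOrd k = Ordinal.ToType.toOrd k' := Subtype.ext h2
        exact (Ordinal.ToType.mk.symm.injective h3).symm
      rw [veq_onm h1, bot_inf_eq]
      exact bot_le
  · refine le_trans ?_ (le_iSup _ k)
    rw [veq_refl, top_inf_eq]

theorem vSub_nmK {α : Ordinal.{u}} (x : α.ToType → RO P) : vSub (nmK x) (onm α) = ⊤ := by
  rw [eq_top_iff]
  refine le_iInf fun σ => ?_
  rw [le_himp_iff, top_inf_eq, vm_nmK, vm_onm]
  exact iSup_mono fun k => inf_le_left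

theorem vSub_nmK_nmK {α : Ordinal.{u}} (x y : α.ToType → RO P) :
    vSub (nmK x) (nmK y) = ⨅ k, (x k ⇨ y k) := by
  apply le_antisymm
  · refine le_iInf fun k => ?_
    refine (iInf_le _ (onm (Ordinal.ToType.toOrd k).1)).trans ?_
    rw [vm_onm_nmK, vm_onm_nmK]
  · refine le_iInf fun σ => ?_
    rw [le_himp_iff, vm_nmK, vm_nmK, inf_iSup_eq]
    refine iSup_mono fun k => le_inf (inf_le_right.trans inf_le_left) ?_
    have h1 : (⨅ k, (x k ⇨ y k)) ⊓ (veq σ (onm (Ordinal.ToType.toOrd k).1) ⊓ x k) ≤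
        (x k ⇨ y k) ⊓ x k := inf_le_inf (iInf_le _ k) inf_le_right
    exact h1.trans himp_inf_le

/-- Every subset of an ordinal is the value of a name `nmK`. -/
theorem vSub_le_veq {α : Ordinal.{u}} (τ : Nm P) : vSub τ (onm α) ≤
    veq τ (nmK fun k : α.ToType => vm (onm (Ordinal.ToType.toOrd k).1) τ) := by
  intro p hp
  refine veq_of_vSub _ _ p ⟨?_, ?_⟩
  · refine RO.mem_iInf.2 fun σ => ?_
    rw [RO.mem_himp]
    intro q hq hσ
    have h1 : q ∈ vm σ (onm α) := RO.mem_himp.1 (RO.mem_iInf.1 hp σ) q hq hσ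
    rw [vm_onm, RO.mem_iSup] at h1
    rw [vm_nmK, RO.mem_iSup]
    intro r hr
    obtain ⟨s, hs, k, hk⟩ := h1 r hr
    exact ⟨s, hs, k, hk, h23_vl hk (RO.mem_lower (hs.trans hr) hσ)⟩
  · refine RO.mem_iInf.2 fun σ => ?_
    rw [RO.mem_himp]
    intro q hq hσ
    rw [vm_nmK, RO.mem_iSup] at hσ
    refine RO.mem_reg fun r hr => ?_
    obtain ⟨s, hs, k, hk, hk'⟩ := hσ r hr
    exact ⟨s, hs, h23_vl (h23_vs hk) hk'⟩

end Pool.Agent.Helper23.XB
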