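import Pool.Agent.Helper23.XB.E2b

/-! # Project XB, module E2c -/

set_option autoImplicit false

namespace Pool.Agent.Helper23.XB

open Cardinal Filter Set Pool.Agent.Helper33.HM Pool.Agent.Helper33.HMG Pool.Agent.Helper32.HB
open Pool.Agent.Helper87.Sym (Fml cons Sat IsTransModelZF)

universe u v w

variable {P : Type u} [Preorder P] [OrderTop P]

private theorem h23_vl {σ σ' τ : Nm P} {p : P} (h : p ∈ veq σ σ') (h' : p ∈ vm σ τ) :
    p ∈ vm σ' τ := vm_congr_left σ σ' τ p ⟨h, h'⟩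

private theorem h23_vr {σ τ τ' : Nm P} {p : P} (h : p ∈ veq τ τ') (h' : p ∈ vm σ τ) :
    p ∈ vm σ τ' := vm_congr_right σ τ τ' p ⟨h, h'⟩

private theorem h23_vs {σ τ : Nm P} {p : P} (h : p ∈ veq σ τ) : p ∈ veq τ σ := by
  rwa [veq_comm]

private theorem h23_vt {ρ σ τ : Nm P} {p : P} (h : p ∈ veq ρ σ) (h' : p ∈ veq σ τ) :
    p ∈ veq ρ τ := veq_trans ρ σ τ p ⟨h, h'⟩

private theorem h23_sup {ι : Sort*} {f : ι → RO P} {p : P} (i : ι) (h : p ∈ f i) :
    p ∈ ⨆ i, f i :=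
  RO.mem_iSup.2 fun q hq => ⟨q, le_rfl, i, RO.mem_lower hq h⟩

private theorem h23_vrefl (σ : Nm P) (p : P) : p ∈ veq σ σ := by
  rw [veq_refl]
  exact RO.mem_top p

theorem vm_ultN {α : Ordinal.{u}} (W : (α.ToType → RO P) → RO P)
    (hW : ∀ x y : α.ToType → RO P, W x ⊓ (⨅ k, (x k ⇨ y k)) ≤ W y) (σ : Nm P) :
    vm σ (ultN W) = vSub σ (onm α) ⊓ W (rlK σ) := by
  apply RO.ext'
  intro p
  constructor
  · intro hp
    rw [ultN, vm_mk] at hp
    refine ⟨RO.mem_reg fun q hq => ?_, RO.mem_reg fun q hq => ?_⟩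
    · obtain ⟨r, hr, y, -, hy⟩ := hp q hq
      refine ⟨r, hr, RO.mem_iInf.2 fun ρ => ?_⟩
      rw [RO.mem_himp]
      intro s hs hρ
      have h1 : s ∈ vm ρ (nmK y.1.1) := h23_vr (RO.mem_lower hs hy) hρ
      have h2 : s ∈ vSub (nmK y.1.1) (onm α) := by
        rw [vSub_nmK]
        exact RO.mem_top s
      exact RO.mem_himp.1 (RO.mem_iInf.1 h2 ρ) s le_rfl h1
    · obtain ⟨r, hr, y, hy', hy⟩ := hp q hq
      refine ⟨r, hr, hW y.1.1 _ r ⟨RO.mem_lower hy' y.2, RO.mem_iInf.2 fun k => ?_⟩⟩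
      rw [RO.mem_himp]
      intro s hs hx
      rw [← vm_onm_nmK y.1.1 k] at hx
      exact h23_vr (h23_vs (RO.mem_lower hs hy)) hx
  · rintro ⟨h1, h2⟩
    rw [ultN, vm_mk]
    intro q hq
    exact ⟨q, le_rfl, ⟨(rlK σ, q), RO.mem_lower hq h2⟩, le_rfl,
      RO.mem_lower hq (vSub_le_veq σ p h1)⟩

theorem vm_ultN_nmK {α : Ordinal.{u}} (W : (α.ToType → RO P) → RO P)
    (hW : ∀ x y : α.ToType → RO P, W x ⊓ (⨅ k, (x k ⇨ y k)) ≤ W y) (x : α.ToType → RO P) :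
    vm (nmK x) (ultN W) = W x := by
  rw [vm_ultN W hW, vSub_nmK, top_inf_eq]
  congr 1
  funext k
  exact vm_onm_nmK x k

theorem vm_fnN {α : Ordinal.{u}} (h : α.ToType → Nm P) (σ : Nm P) :
    vm σ (fnN h) = ⨆ i : α.ToType, veq σ (pairN (onm (Ordinal.ToType.toOrd i).1) (h i)) := by
  apply RO.ext'
  intro p
  rw [fnN, vm_mk, RO.mem_iSup]
  refine forall_congr' fun q => imp_congr_right fun _ => exists_congr fun r => and_congr_right
    fun _ => exists_congr fun i => ?_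
  exact ⟨fun h => h.2, fun h => ⟨le_top, h⟩⟩

theorem vm_pair_fnN {α : Ordinal.{u}} (h : α.ToType → Nm P) (i : α.ToType) (σ : Nm P) :
    vm (pairN (onm (Ordinal.ToType.toOrd i).1) σ) (fnN h) = veq σ (h i) := by
  rw [vm_fnN]
  apply le_antisymm
  · refine iSup_le fun j => ?_
    rw [veq_pairN]
    by_cases hj : j = i
    · subst hj
      exact inf_le_right
    · have h1 : (Ordinal.ToType.toOrd i).1 ≠ (Ordinal.ToType.toOrd j).1 := by
        intro h2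
        apply hj
        have h3 : Ordinal.ToType.toOrd i = Ordinal.ToType.toOrd j := Subtype.ext h2
        exact (Ordinal.ToType.mk.symm.injective h3).symm
      rw [veq_onm h1, bot_inf_eq]
      exact bot_le
  · refine le_trans ?_ (le_iSup _ i)
    rw [veq_pairN, veq_refl, top_inf_eq]

theorem vFun_fnN {α : Ordinal.{u}} (h : α.ToType → Nm P) (b : Nm P) :
    (⨅ i, vm (h i) b) ≤ vFun (onm α) b (fnN h) := by
  intro p hp
  rw [RO.mem_iInf] at hp
  refine ⟨⟨RO.mem_iInf.2 fun z => ?_, RO.mem_iInf.2 fun x => ?_⟩,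
    RO.mem_iInf.2 fun x => RO.mem_iInf.2 fun y => RO.mem_iInf.2 fun y' => ?_⟩
  · rw [RO.mem_himp]
    intro q hq hz
    rw [vm_fnN, RO.mem_iSup] at hz
    refine RO.mem_reg fun r hr => ?_
    obtain ⟨s, hs, i, hi⟩ := hz r hr
    refine ⟨s, hs, ?_⟩
    have h1 : s ∈ vm (onm (Ordinal.ToType.toOrd i).1) (onm α) := by
      rw [vm_onm_lt (Ordinal.ToType.toOrd i).2]
      exact RO.mem_top s
    exact h23_sup (onm (Ordinal.ToType.toOrd i).1) (h23_sup (h i)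
      ⟨⟨h1, RO.mem_lower (hs.trans (hr.trans hq)) (hp i)⟩, hi⟩)
  · rw [RO.mem_himp]
    intro q hq hx
    rw [vm_onm, RO.mem_iSup] at hx
    refine RO.mem_reg fun r hr => ?_
    obtain ⟨s, hs, i, hi⟩ := hx r hr
    refine ⟨s, hs, h23_sup (h i) ?_⟩
    refine h23_vl (σ := pairN (onm (Ordinal.ToType.toOrd i).1) (h i)) ?_ ?_
    · rw [veq_pairN]
      exact ⟨h23_vs hi, h23_vrefl _ _⟩
    · rw [vm_pair_fnN]
      exact h23_vrefl _ _
  · rw [RO.mem_himp]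
    rintro q hq ⟨h1, h2⟩
    rw [vm_fnN] at h1
    have h1' := RO.mem_iSup.1 h1
    refine RO.mem_reg fun r hr => ?_
    obtain ⟨s, hs, i, hi⟩ := h1' r hr
    refine ⟨s, hs, ?_⟩
    rw [veq_pairN] at hi
    have h3 : s ∈ vm (pairN (onm (Ordinal.ToType.toOrd i).1) y') (fnN h) := by
      refine h23_vl (σ := pairN x y') ?_ (RO.mem_lower (hs.trans hr) h2)
      rw [veq_pairN]
      exact ⟨hi.1, h23_vrefl _ _⟩
    rw [vm_pair_fnN] at h3
    exact h23_vt hi.2 (h23_vs h3)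

end Pool.Agent.Helper23.XB
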