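import Pool.Agent.Helper23.XB.Defs

/-! # Project XB, module A1 -/

set_option autoImplicit false

namespace Pool.Agent.Helper23.XB

open Cardinal Filter Set Pool.Agent.Helper33.HM

universe u v w

namespace Helper64

/-- `μ ^ κ = μ` for a strong limit cardinal whose cofinality is larger than `κ`. -/
theorem pow_eq {μ κ : Cardinal.{u}} (h : IsStrongLimit μ) (hκ : ℵ₀ ≤ κ) (hκμ : κ < μ)
    (hc : κ < μ.ord.cof) : μ ^ κ = μ := by
  apply le_antisymm _ (self_le_power μ (one_le_aleph0.trans hκ))
  have hX : #μ.ord.ToType = μ := by simp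
  have hcof : Order.cof μ.ord.ToType = μ.ord.cof := Ordinal.cof_toType _
  have hK : #κ.out = κ := mk_out κ
  have hb : ∀ f : κ.out → μ.ord.ToType, ∃ b, ∀ k, f k < b := by
    intro f
    have h1 : ¬ IsCofinal (range f) := by
      intro hcf
      have := Order.cof_le hcf
      rw [hcof] at this
      exact absurd (this.trans (mk_range_le.trans hK.le)) (not_le.2 hc)
    simp only [IsCofinal, not_forall, not_exists, not_and, not_le] at h1
    obtain ⟨b, hb⟩ := h1
    exact ⟨b, fun k => hb _ (mem_range_self k)⟩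
  choose bd hbd using hb
  let F : (κ.out → μ.ord.ToType) → Σ b : μ.ord.ToType, (κ.out → Iio b) := fun f =>
    ⟨bd f, fun k => ⟨f k, hbd f k⟩⟩
  have hF : Function.Injective F := by
    intro f g hfg
    have h2 : ∀ k, ((F f).2 k : μ.ord.ToType) = (F g).2 k := by rw [hfg]; intro k; rfl
    funext k
    exact h2 k
  have hle := mk_le_of_injective hF
  rw [mk_sigma] at hle
  have hlt : ∀ b : μ.ord.ToType, #(κ.out → Iio b) ≤ μ := by
    intro b
    have h3 : #(Iio b) < μ := by
      simpa using mk_Iio_lt b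
    have h4 : #(κ.out → Iio b) = #(Iio b) ^ κ := by
      rw [← power_def, hK]
    rw [h4]
    have h5 : #(Iio b) ^ κ ≤ 2 ^ (max (#(Iio b)) κ) := by
      rcases le_total (#(Iio b)) 1 with h6 | h6
      · refine (power_le_power_right (c := κ) h6).trans ?_
        rw [one_power]
        exact one_le_two.trans (self_le_power 2 (le_max_of_le_right (one_le_aleph0.trans hκ)))
      · have h7 : ℵ₀ ≤ max (#(Iio b)) κ := le_max_of_le_right hκ
        calc #(Iio b) ^ κ ≤ (max (#(Iio b)) κ) ^ (max (#(Iio b)) κ) :=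
              (power_le_power_right (le_max_left _ _)).trans
                (power_le_power_left (ne_of_gt (lt_of_lt_of_le aleph0_pos h7))
                  (le_max_right _ _))
          _ = 2 ^ (max (#(Iio b)) κ) := power_self_eq h7
    exact h5.trans (h.isStrongPrelimit (max_lt h3 hκμ)).le
  calc μ ^ κ = #(κ.out → μ.ord.ToType) := by rw [← power_def, hX, hK]
    _ ≤ Cardinal.sum fun b : μ.ord.ToType => #(κ.out → Iio b) := hle
    _ ≤ Cardinal.sum fun _ : μ.ord.ToType => μ := sum_le_sum _ _ hlt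
    _ = μ * μ := by rw [sum_const', hX]
    _ = μ := mul_eq_self h.aleph0_le

end Helper64

/-- A1 -/
theorem exists_mu (κ : Cardinal.{u}) (hκ : ℵ₀ ≤ κ) :
    ∃ μ : Cardinal.{u}, κ < μ ∧ 2 ^ κ < μ ∧ IsStrongLimit μ ∧ IsSingular μ ∧ μ ^ κ = μ := by
  set o : Ordinal.{u} := (Order.succ κ).ord with ho
  have hsucc : ℵ₀ ≤ Order.succ κ := hκ.trans (Order.le_succ κ)
  have hlim : Order.IsSuccLimit o := isSuccLimit_ord hsucc
  have hκo : κ.ord < o := ord_lt_ord.2 (Order.lt_succ κ)
  have hκo' : Order.succ κ.ord < o := hlim.succ_lt hκo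
  have h2 : (2 : Cardinal.{u}) ^ κ < beth o := by
    calc (2 : Cardinal.{u}) ^ κ ≤ 2 ^ beth κ.ord := power_le_power_left two_ne_zero (le_beth_ord κ)
      _ = beth (Order.succ κ.ord) := (beth_succ _).symm
      _ < beth o := beth_lt_beth.2 hκo'
  have hκμ : κ < beth o := (cantor κ).trans h2
  have hsl : IsStrongLimit (beth o) := isStrongLimit_beth.2 hlim.isSuccPrelimit
  have hn : Order.IsNormal fun a : Ordinal.{u} => (beth a).ord := isNormal_ord.comp isNormal_beth
  have hcof : (beth o).ord.cof = Order.succ κ := by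
    rw [Ordinal.cof_map_of_isNormal hn hlim, ho]
    exact (isRegular_succ hκ).cof_ord
  refine ⟨beth o, hκμ, h2, hsl, ⟨hsl.aleph0_le, ?_⟩, ?_⟩
  · rw [hcof]
    exact ne_of_lt (lt_of_le_of_lt (Order.succ_le_of_lt (cantor κ)) h2)
  · exact Helper64.pow_eq hsl hκ hκμ (by rw [hcof]; exact Order.lt_succ κ)

end Pool.Agent.Helper23.XB
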