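import Pool.Agent.Helper23.XB.A7

/-! # Project XB, module A10 -/

set_option autoImplicit false

namespace Pool.Agent.Helper23.XB

open Cardinal Filter Set Pool.Agent.Helper33.HM

universe u v w

variable {K M Θ : Type u} [LinearOrder K] [Inac K] (G : GD K M Θ)

theorem repB_cb1 (o : Option M) : ∀ᶠ y in (G.F : Filter (Set (XX K M))),
    G.repB (cb1 K o) y = G.base y o := by
  filter_upwards [kF_unb G.hF (XX.k (K := K) (M := M)) (fun _ _ h => XX.k.inj h)
    (Classical.arbitrary K)] with y hy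
  have hn : (Iio (G.rcd (cb1 K o).1 y).1).Nonempty := ⟨_, hy⟩
  exact dif_pos hn

/-- A10 -/
theorem gd_bb_le : ∀ᶠ z in (G.prod : Filter (Set (XX K M) × Set (K ⊕ Θ))),
    (G.dec (G.rep z (.inl (cb1 K none)))).1.1 ≤ G.hz z := by
  refine (gd_ev G _).2 ?_
  filter_upwards [repB_cb1 G none, G.code_bd] with y h1 h2
  filter_upwards [gd_h0 G (G.bd y)] with x hx
  change (G.dec (G.repB (cb1 K none) y)).1.1 ≤ G.sc (G.h0 x)
  rw [h1]
  change (G.dec (G.code y)).1.1 ≤ G.sc (G.h0 x)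
  rw [h2]
  exact hx.le.trans (G.sc_lt _).le

theorem gd_VV_card : ∀ᶠ z in (G.prod : Filter (Set (XX K M) × Set (K ⊕ Θ))),
    ∀ a ∈ (G.dec (G.rep z (.inl (cb1 K none)))).1.2.1, #(Iio (G.kz z)) ≤ #a := by
  refine (gd_ev G _).2 ?_
  filter_upwards [repB_cb1 G none, G.code_card] with y h1 h2
  refine Eventually.of_forall fun x => ?_
  change ∀ a ∈ (G.dec (G.repB (cb1 K none) y)).1.2.1, #(Iio (kF (XX.k (M := M)) y)) ≤ #a
  rw [h1]
  exact h2

theorem gd_VV_complete : ∀ᶠ z in (G.prod : Filter (Set (XX K M) × Set (K ⊕ Θ))),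
    ∀ (ι : Type u) (a : ι → Set K), #ι < #(Iio (G.kz z)) →
      (∀ i, a i ∈ (G.dec (G.rep z (.inl (cb1 K none)))).1.2.1) →
        (⋂ i, a i) ∈ (G.dec (G.rep z (.inl (cb1 K none)))).1.2.1 := by
  refine (gd_ev G _).2 ?_
  filter_upwards [repB_cb1 G none, G.code_complete] with y h1 h2
  refine Eventually.of_forall fun x => ?_
  change ∀ (ι : Type u) (a : ι → Set K), #ι < #(Iio (kF (XX.k (M := M)) y)) →
      (∀ i, a i ∈ (G.dec (G.repB (cb1 K none) y)).1.2.1) →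
        (⋂ i, a i) ∈ (G.dec (G.repB (cb1 K none) y)).1.2.1
  rw [h1]
  exact h2

theorem gd_VV_fine (ξ : M) : ∀ᶠ z in (G.prod : Filter (Set (XX K M) × Set (K ⊕ Θ))),
    {σ | (G.rep z (.inl (cb1 K (some ξ))), σ) ∈ (G.dec (G.rep z (.inl (cb1 K none)))).1.2.2} ∈
      (G.dec (G.rep z (.inl (cb1 K none)))).1.2.1 := by
  refine (gd_ev G _).2 ?_
  filter_upwards [repB_cb1 G none, repB_cb1 G (some ξ), G.code_fine, G.hF.fine (.m ξ)]
    with y h1 h3 h2 h4
  refine Eventually.of_forall fun x => ?_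
  change {σ | (G.repB (cb1 K (some ξ)) y, σ) ∈ (G.dec (G.repB (cb1 K none) y)).1.2.2} ∈
      (G.dec (G.repB (cb1 K none) y)).1.2.1
  rw [h1, h3]
  exact h2 ξ h4

theorem gd_VV_small (e : K → M) (he : Function.Injective e) :
    ∀ᶠ z in (G.prod : Filter (Set (XX K M) × Set (K ⊕ Θ))),
      {σ | ∃ j < G.kz z, ¬ (G.rep z (.inl (cb1 K (some (e j)))), σ) ∈
        (G.dec (G.rep z (.inl (cb1 K none)))).1.2.2} ∈
        (G.dec (G.rep z (.inl (cb1 K none)))).1.2.1 := by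
  refine (gd_ev G _).2 ?_
  filter_upwards [repB_cb1 G none,
    kF_diag G.hF (XX.k (K := K) (M := M)) (fun _ _ h => XX.k.inj h)
      (fun j y => G.repB (cb1 K (some (e j))) y = G.base y (some (e j)))
      (fun j => repB_cb1 G (some (e j))),
    kF_diag G.hF (XX.k (K := K) (M := M)) (fun _ _ h => XX.k.inj h)
      (fun j y => XX.m (e j) ∈ y) (fun j => G.hF.fine (.m (e j))),
    G.code_small] with y h1 h3 h4 h2
  refine Eventually.of_forall fun x => ?_
  change {σ | ∃ j < kF (XX.k (M := M)) y, ¬ (G.repB (cb1 K (some (e j))) y, σ) ∈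
        (G.dec (G.repB (cb1 K none) y)).1.2.2} ∈ (G.dec (G.repB (cb1 K none) y)).1.2.1
  rw [h1]
  change {σ | ∃ j < kF (XX.k (M := M)) y, ¬ (G.repB (cb1 K (some (e j))) y, σ) ∈
        (G.dec (G.code y)).1.2.2} ∈ (G.dec (G.code y)).1.2.1
  refine Filter.mem_of_superset h2 fun σ hσ => ?_
  by_contra hcon
  have hall : ∀ j < kF (XX.k (M := M)) y, (G.pi y (.m (e j)), σ) ∈ (G.dec (G.code y)).1.2.2 := by
    intro j hj
    by_contra hj'
    refine hcon ⟨j, hj, ?_⟩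
    rw [h3 j hj]
    exact hj'
  have hle : #(Iio (kF (XX.k (M := M)) y)) ≤
      #{ξ : M | XX.m ξ ∈ y ∧ (G.pi y (.m ξ), σ) ∈ (G.dec (G.code y)).1.2.2} := by
    refine mk_le_of_injective (f := fun j => ⟨e j.1, h4 j.1 j.2, hall j.1 j.2⟩) ?_
    intro a b hab
    exact Subtype.ext (he (congrArg Subtype.val hab))
  exact absurd hσ (not_lt.2 hle)

theorem gd_sep (α β : Θ) (h : α ≠ β) :
    ∀ᶠ z in (G.prod : Filter (Set (XX K M) × Set (K ⊕ Θ))),
      G.rep z (.inr (some α)) ≠ G.rep z (.inr (some β)) := by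
  refine (gd_ev G _).2 (Eventually.of_forall fun y => ?_)
  filter_upwards [G.hE.small, G.hE.fine (.inr α), G.hE.fine (.inr β)] with x h1 h2 h3
  intro heq
  have := G.pi'_inj x h1 h2 h3 heq
  exact h (Sum.inr.inj this)

end Pool.Agent.Helper23.XB
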