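import Pool.Agent.Helper23.XB.B0a

/-! # Project XB, module B0b -/

set_option autoImplicit false

namespace Pool.Agent.Helper23.XB

open Cardinal Filter Set Pool.Agent.Helper33.HM

universe u v w

variable {K : Type u} [LinearOrder K] [Inac K]

theorem inac_pi_le (k : K) : #(Iio k → K) ≤ #K := by
  have hb : ∀ f : Iio k → K, ∃ b, ∀ i, f i < b := by
    intro f
    obtain ⟨b, hb⟩ := inac_bdd (range f) (lt_of_le_of_lt mk_range_le (Inac.small k))
    exact ⟨b, fun i => hb _ (mem_range_self i)⟩
  choose b hb using hb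
  let e : (Iio k → K) → Σ b : K, (Iio k → Iio b) := fun f => ⟨b f, fun i => ⟨f i, hb f i⟩⟩
  have he : Function.Injective e := by
    intro f g h
    have h1 : ∀ x : Σ b : K, (Iio k → Iio b), ∀ y : Σ b : K, (Iio k → Iio b), x = y →
        (fun i => ((x.2 i : Iio x.1) : K)) = fun i => ((y.2 i : Iio y.1) : K) := by
      rintro x y rfl
      rfl
    exact h1 _ _ h
  refine (mk_le_of_injective he).trans ?_
  rw [mk_sigma]
  have h2 : Cardinal.sum (fun b : K => #(Iio k → Iio b)) ≤ Cardinal.sum (fun _ : K => #K) := by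
    apply sum_le_sum
    intro b
    rw [mk_pi, prod_const, lift_id, lift_id]
    exact (inac_pow (Inac.small b) (Inac.small k)).le
  refine h2.trans ?_
  rw [sum_const, lift_id]
  exact inac_mul_self.le

/-- The initial segments of `K` realise all the smaller cardinals. -/
theorem inac_card_Iio {c : Cardinal.{u}} {k : K} (hc : c < #(Iio k)) : ∃ j < k, #(Iio j) = c := by
  have h0 : ∀ j : K, (Ordinal.typein (α := K) (· < ·) j).card = #(Iio j) := by
    intro j
    rw [Ordinal.card_typein]
    rfl
  have h1 : c.ord < Ordinal.typein (α := K) (· < ·) k := by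
    refine lt_of_le_of_ne ?_ ?_
    · rw [ord_le, h0]
      exact hc.le
    · intro h
      have := congrArg Ordinal.card h
      rw [card_ord, h0] at this
      exact hc.ne this
  obtain ⟨j, hj⟩ := Ordinal.typein_surj (α := K) (· < ·) (h1.trans (Ordinal.typein_lt_type _ k))
  refine ⟨j, ?_, ?_⟩
  · rw [← hj] at h1
    exact (Ordinal.typein_lt_typein (α := K) (· < ·)).1 h1
  · rw [← h0, hj, card_ord]

end Pool.Agent.Helper23.XB
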