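import Pool.Agent.Helper23.XB.A2b
import Pool.Agent.Helper23.XB.B0b

/-! # Project XB, module A3a -/

set_option autoImplicit false

namespace Pool.Agent.Helper23.XB

open Cardinal Filter Set Pool.Agent.Helper33.HM

universe u v w

variable {K M : Type u} [LinearOrder K] [Inac K]

namespace H30A

omit [Inac K] in
theorem ev_all {X : Type u} {F : Ultrafilter (Set X)} (hF : NF K F) {ι : Type u} (hι : #ι < #K)
    {p : ι → Set X → Prop} (h : ∀ i, ∀ᶠ y : Set X in (F : Filter (Set X)), p i y) :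
    ∀ᶠ y : Set X in (F : Filter (Set X)), ∀ i, p i y := by
  have h1 := hF.complete ι (fun i => {y | p i y}) hι fun i => h i
  have h2 : ∀ᶠ y : Set X in (F : Filter (Set X)), y ∈ ⋂ i, {y | p i y} := h1
  exact h2.mono fun y hy i => mem_iInter.1 hy i

/-- The sets which contain a set of the ultrafilter `𝒱` with a name in `y`, relative to `y`. -/
def UU (𝒱 : Ultrafilter (Set M)) (y : Set (XX K M)) : Set (Set (Set M)) :=
  {R | ∃ R' ∈ 𝒱, XX.r R' ∈ y ∧ ∀ s, XX.s s ∈ y → s ∈ R' → s ∈ R}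

/-- (1): traces are represented. -/
theorem rep {F : Ultrafilter (Set (XX K M))} (hF : NF K F) :
    ∀ᶠ y : Set (XX K M) in (F : Filter (Set (XX K M))), ∀ R : Set (Set M), ∃ R',
      XX.r R' ∈ y ∧ ∀ s, XX.s s ∈ y → (s ∈ R ↔ s ∈ R') := by
  classical
  by_contra hcon
  rw [← Ultrafilter.eventually_not] at hcon
  have h1 : ∀ y : Set (XX K M), ∃ R : Set (Set M), (¬ ∀ R : Set (Set M), ∃ R',
      XX.r R' ∈ y ∧ ∀ s, XX.s s ∈ y → (s ∈ R ↔ s ∈ R')) →
      ¬ ∃ R', XX.r R' ∈ y ∧ ∀ s, XX.s s ∈ y → (s ∈ R ↔ s ∈ R') := by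
    intro y
    by_cases h : ∀ R : Set (Set M), ∃ R', XX.r R' ∈ y ∧ ∀ s, XX.s s ∈ y → (s ∈ R ↔ s ∈ R')
    · exact ⟨∅, fun h' => absurd h h'⟩
    · push Not at h
      obtain ⟨R, hR⟩ := h
      refine ⟨R, fun _ => ?_⟩
      push Not
      exact hR
  choose Ry hRy using h1
  set Rs : Set (Set M) := {s | ∀ᶠ y : Set (XX K M) in (F : Filter (Set (XX K M))), s ∈ Ry y}
    with hRs
  have h2 : ∀ s : Set M, ∀ᶠ y : Set (XX K M) in (F : Filter (Set (XX K M))),
      (s ∈ Ry y ↔ s ∈ Rs) := by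
    intro s
    by_cases h : s ∈ Rs
    · have h' : ∀ᶠ y : Set (XX K M) in (F : Filter (Set (XX K M))), s ∈ Ry y := h
      exact h'.mono fun y hy => ⟨fun _ => h, fun _ => hy⟩
    · have h' : ¬ ∀ᶠ y : Set (XX K M) in (F : Filter (Set (XX K M))), s ∈ Ry y := h
      rw [← Ultrafilter.eventually_not] at h'
      exact h'.mono fun y hy => ⟨fun h3 => absurd h3 hy, fun h3 => absurd h3 h⟩
  have h3 := nf_diag hF (fun x y => ∀ s, x = XX.s s → (s ∈ Ry y ↔ s ∈ Rs)) (by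
    intro x
    by_cases hx : ∃ s, x = XX.s s
    · obtain ⟨s, rfl⟩ := hx
      refine (h2 s).mono fun y hy s' hs' => ?_
      have : s = s' := by injection hs'
      exact this ▸ hy
    · exact Eventually.of_forall fun y s hs => absurd ⟨s, hs⟩ hx)
  obtain ⟨y, hy1, hy2, hy3⟩ := (hcon.and (h3.and (hF.fine (XX.r Rs)))).exists
  exact hRy y hy1 ⟨Rs, hy3, fun s hs => hy2 _ hs s rfl⟩

end H30A

/-- A3a -/
theorem exists_good {F : Ultrafilter (Set (XX K M))} (hF : NF K F) {𝒱 : Ultrafilter (Set M)}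
    (h𝒱 : NF K 𝒱) :
    ∀ᶠ y : Set (XX K M) in (F : Filter (Set (XX K M))), ∃ V, Good K M y V := by
  classical
  have hkinj : Function.Injective (XX.k (K := K) (M := M)) := fun i j h => by injection h
  have hiff := kF_iff hF (XX.k (M := M)) hkinj
  have hrep := H30A.rep hF
  -- closure properties
  have hcompl : ∀ᶠ y : Set (XX K M) in (F : Filter (Set (XX K M))),
      ∀ R, XX.r R ∈ y → XX.r Rᶜ ∈ y := by
    refine (nf_closed hF fun x => match x with
      | .r R => .r Rᶜ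
      | x => x).mono fun y hy R hR => hy _ hR
  have hinter : ∀ᶠ y : Set (XX K M) in (F : Filter (Set (XX K M))),
      ∀ R R', XX.r R ∈ y → XX.r R' ∈ y → XX.r (R ∩ R') ∈ y := by
    refine (nf_closed2 hF fun x x' => match x, x' with
      | .r R, .r R' => .r (R ∩ R')
      | x, _ => x).mono fun y hy R R' hR hR' => hy _ hR _ hR'
  have hfin : ∀ᶠ y : Set (XX K M) in (F : Filter (Set (XX K M))),
      ∀ ξ : M, XX.m ξ ∈ y → XX.r {s : Set M | ξ ∈ s} ∈ y := by
    refine (nf_closed hF fun x => match x with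
      | .m ξ => .r {s : Set M | ξ ∈ s}
      | x => x).mono fun y hy ξ hξ => hy _ hξ
  have huniv := hF.fine (XX.r (K := K) (univ : Set (Set M)))
  have hsmall := hF.fine (XX.r (K := K) {s : Set M | #s < #K})
  have hpick : ∀ᶠ y : Set (XX K M) in (F : Filter (Set (XX K M))),
      ∀ R, XX.r R ∈ y → R ∈ 𝒱 → ∃ s ∈ R, XX.s s ∈ y := by
    refine (nf_closed hF fun x => match x with
      | .r R => if h : R.Nonempty then .s h.choose else .r R
      | x => x).mono fun y hy R hR hR𝒱 => ?_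
    have hne : R.Nonempty := 𝒱.nonempty_of_mem hR𝒱
    have h1 := hy _ hR
    dsimp only at h1
    rw [dif_pos hne] at h1
    exact ⟨_, hne.choose_spec, h1⟩
  have hcard : ∀ᶠ y : Set (XX K M) in (F : Filter (Set (XX K M))),
      ∀ s : Set M, XX.s s ∈ y → #s < #K → ∃ i, XX.k i ∈ y ∧ #s < #(Iio i) := by
    refine (nf_closed hF fun x => match x with
      | .s s => if h : #s < #K then .k (inac_exists_card h).choose else .s s
      | x => x).mono fun y hy s hs hsK => ?_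
    have h1 := hy _ hs
    dsimp only at h1
    rw [dif_pos hsK] at h1
    exact ⟨_, h1, (inac_exists_card hsK).choose_spec⟩
  -- completeness
  have hcompl3 : ∀ᶠ y : Set (XX K M) in (F : Filter (Set (XX K M))),
      ∀ η < kF (XX.k (M := M)) y, ∀ R : K → Set (Set M), (∀ i < η, R i ∈ H30A.UU 𝒱 y) →
        {s | ∀ i < η, s ∈ R i} ∈ H30A.UU 𝒱 y := by
    by_contra hcon
    rw [← Ultrafilter.eventually_not] at hcon
    have h1 : ∀ y : Set (XX K M), ∃ (η : K) (R R' : K → Set (Set M)),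
        (¬ ∀ η < kF (XX.k (M := M)) y, ∀ R : K → Set (Set M), (∀ i < η, R i ∈ H30A.UU 𝒱 y) →
          {s | ∀ i < η, s ∈ R i} ∈ H30A.UU 𝒱 y) →
        η < kF (XX.k (M := M)) y ∧ {s | ∀ i < η, s ∈ R i} ∉ H30A.UU 𝒱 y ∧
          ∀ i < η, R' i ∈ 𝒱 ∧ XX.r (R' i) ∈ y ∧ ∀ s, XX.s s ∈ y → s ∈ R' i → s ∈ R i := by
      intro y
      by_cases h : ∀ η < kF (XX.k (M := M)) y, ∀ R : K → Set (Set M),
        (∀ i < η, R i ∈ H30A.UU 𝒱 y) → {s | ∀ i < η, s ∈ R i} ∈ H30A.UU 𝒱 y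
      · exact ⟨Classical.arbitrary K, fun _ => ∅, fun _ => ∅, fun h' => absurd h h'⟩
      · have h0 := h
        push Not at h
        obtain ⟨η, hη, R, hR, hR2⟩ := h
        have h2 : ∀ i, ∃ R' : Set (Set M), i < η → R' ∈ 𝒱 ∧ XX.r R' ∈ y ∧
            ∀ s, XX.s s ∈ y → s ∈ R' → s ∈ R i := by
          intro i
          by_cases hi : i < η
          · obtain ⟨R', h3, h4, h5⟩ := hR i hi
            exact ⟨R', fun _ => ⟨h3, h4, h5⟩⟩
          · exact ⟨∅, fun hi' => absurd hi' hi⟩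
        choose R' hR' using h2
        exact ⟨η, R, R', fun _ => ⟨hη, hR2, hR'⟩⟩
    choose ηy Ry Ry' hy using h1
    have hgood : ∀ᶠ y : Set (XX K M) in (F : Filter (Set (XX K M))),
        ηy y < kF (XX.k (M := M)) y ∧ {s | ∀ i < ηy y, s ∈ Ry y i} ∉ H30A.UU 𝒱 y ∧
          ∀ i < ηy y, Ry' y i ∈ 𝒱 ∧ XX.r (Ry' y i) ∈ y ∧
            ∀ s, XX.s s ∈ y → s ∈ Ry' y i → s ∈ Ry y i := hcon.mono fun y h => hy y h
    obtain ⟨x, hx⟩ := hF.normal (fun y => XX.k (ηy y))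
      ((hgood.and hiff).mono fun y h => (h.2 _).2 h.1.1)
    obtain ⟨η, hη⟩ : ∃ η, ∀ᶠ y : Set (XX K M) in (F : Filter (Set (XX K M))), ηy y = η := by
      obtain ⟨y0, hy0⟩ := hx.exists
      refine ⟨ηy y0, hx.mono fun y h => hkinj (h.trans hy0.symm)⟩
    have hfix : ∀ i : Iio η, ∃ R : Set (Set M),
        ∀ᶠ y : Set (XX K M) in (F : Filter (Set (XX K M))), Ry' y i = R ∧ R ∈ 𝒱 := by
      intro i
      obtain ⟨x, hx⟩ := hF.normal (fun y => XX.r (Ry' y i))
        ((hgood.and hη).mono fun y h => (h.1.2.2 i (h.2 ▸ i.2)).2.1)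
      obtain ⟨y0, hy0⟩ := hx.exists
      refine ⟨Ry' y0 i, ((hx.and (hgood.and hη)).mono fun y h => ?_)⟩
      have h1 : Ry' y i = Ry' y0 i := by
        have := h.1.trans hy0.symm
        injection this
      exact ⟨h1, h1 ▸ (h.2.1.2.2 i (h.2.2 ▸ i.2)).1⟩
    choose Rs hRs using hfix
    have hall := H30A.ev_all hF (Inac.small η) hRs
    have hV : (⋂ i, Rs i) ∈ 𝒱 := h𝒱.complete (Iio η) Rs (Inac.small η) fun i =>
      ((hRs i).exists.choose_spec).2
    obtain ⟨y, ⟨h1, h2, h3⟩, h4, h5, h6⟩ :=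
      (hgood.and (hη.and (hall.and (hF.fine (XX.r (⋂ i, Rs i)))))).exists
    refine h2 ⟨⋂ i, Rs i, hV, h6, fun s hs hsR i hi => ?_⟩
    have hi' : i < η := h4 ▸ hi
    have h7 := mem_iInter.1 hsR ⟨i, hi'⟩
    rw [← (h5 ⟨i, hi'⟩).1] at h7
    exact (h3 i hi).2.2 s hs h7
  filter_upwards [hiff, hrep, hcompl, hinter, hfin, huniv, hsmall, hpick, hcard, hcompl3] with
    y hiff hrep hcompl hinter hfin huniv hsmall hpick hcard hcompl3
  let f : Filter (Set M) :=
    { sets := H30A.UU 𝒱 y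
      univ_sets := ⟨univ, univ_mem, huniv, fun _ _ _ => mem_univ _⟩
      sets_of_superset := by
        rintro A B ⟨R', h1, h2, h3⟩ hAB
        exact ⟨R', h1, h2, fun s hs hs' => hAB (h3 s hs hs')⟩
      inter_sets := by
        rintro A B ⟨R, h1, h2, h3⟩ ⟨R', h1', h2', h3'⟩
        exact ⟨R ∩ R', inter_mem h1 h1', hinter _ _ h2 h2', fun s hs hs' =>
          ⟨h3 s hs hs'.1, h3' s hs hs'.2⟩⟩ }
  have hf : ∀ A, A ∈ f ↔ A ∈ H30A.UU 𝒱 y := fun A => Iff.rfl
  have hult : ∀ A : Set (Set M), Aᶜ ∉ f ↔ A ∈ f := by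
    intro A
    constructor
    · intro hA
      obtain ⟨R', h1, h2⟩ := hrep A
      by_cases hR' : R' ∈ 𝒱
      · exact (hf A).2 ⟨R', hR', h1, fun s hs hs' => (h2 s hs).2 hs'⟩
      · exact absurd ((hf _).2 ⟨R'ᶜ, Ultrafilter.compl_mem_iff_notMem.2 hR', hcompl _ h1,
          fun s hs hs' hsA => hs' ((h2 s hs).1 hsA)⟩) hA
    · intro hA hA'
      obtain ⟨R, h1, h2, h3⟩ := (hf A).1 hA
      obtain ⟨R', h1', h2', h3'⟩ := (hf _).1 hA'
      obtain ⟨s, hs, hsy⟩ := hpick _ (hinter _ _ h2 h2') (inter_mem h1 h1')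
      exact h3' s hsy hs.2 (h3 s hsy hs.1)
  refine ⟨Ultrafilter.ofComplNotMemIff f hult, ?_, ?_, ?_⟩
  · change _ ∈ f
    refine (hf _).2 ⟨{s : Set M | #s < #K}, h𝒱.small, hsmall, fun s hs hs' => ⟨hs, ?_⟩⟩
    obtain ⟨i, hi, hi'⟩ := hcard s hs hs'
    exact hi'.trans_le (mk_le_mk_of_subset (Iio_subset_Iio ((hiff i).1 hi).le))
  · intro ξ hξ
    change _ ∈ f
    exact (hf _).2 ⟨{s : Set M | ξ ∈ s}, h𝒱.fine ξ, hfin ξ hξ, fun s _ hs' => hs'⟩
  · intro ι R hι hR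
    obtain ⟨η, hη, hcη⟩ := inac_card_Iio hι
    obtain ⟨e⟩ := Cardinal.eq.1 hcη
    have h1 := hcompl3 η hη (fun i => if h : i < η then R (e ⟨i, h⟩) else univ) (by
      intro i hi
      rw [dif_pos hi]
      exact (hf _).1 (hR _))
    change _ ∈ f
    refine (hf _).2 ?_
    have h0 : (⋂ i, R i) = {s | ∀ i < η, s ∈ if h : i < η then R (e ⟨i, h⟩) else univ} := by
      ext s
      rw [mem_iInter]
      constructor
      · intro h i hi
        rw [dif_pos hi]
        exact h _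
      · intro h i
        have hlt : (e.symm i).1 < η := (e.symm i).2
        have h2 := h (e.symm i).1 hlt
        rw [dif_pos hlt] at h2
        simpa using h2
    rw [h0]
    exact h1

end Pool.Agent.Helper23.XB
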