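import Pool.Agent.Helper23.XB.A2b

/-! # Project XB, module A3b -/

set_option autoImplicit false

namespace Pool.Agent.Helper23.XB

open Cardinal Filter Set Pool.Agent.Helper33.HM

universe u v w

variable {K M : Type u} [LinearOrder K] [Inac K]

/-- A3b -/
theorem good_card {F : Ultrafilter (Set (XX K M))} (hF : NF K F) (hM : #K ≤ #M) :
    ∀ᶠ y : Set (XX K M) in (F : Filter (Set (XX K M))), ∀ V, Good K M y V →
      ∀ a ∈ V, #(Iio (kF (XX.k (M := M)) y)) ≤ #a := by
  classical
  obtain ⟨j0⟩ := hM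
  have h1 := nf_closed hF (fun x => match x with
    | XX.k i => XX.m (j0 i)
    | x => x)
  have h2 := kF_iff hF (XX.k (M := M)) (fun i j h => by injection h)
  filter_upwards [h1, h2] with y h1 h2 V hV a ha
  by_contra hlt
  rw [not_le] at hlt
  -- the ultrafilter `V` is not principal
  have hnp : ∀ s0 : Set M, ({s0} : Set (Set M)) ∉ V := by
    intro s0 hs0
    have hs : #s0 < #(Iio (kF (XX.k (M := M)) y)) := by
      obtain ⟨s, hs, hs'⟩ := V.nonempty_of_mem (Filter.inter_mem hs0 hV.small)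
      rw [mem_singleton_iff] at hs
      subst hs
      exact hs'.2
    have hsub : ∀ i : Iio (kF (XX.k (M := M)) y), j0 i.1 ∈ s0 := by
      intro i
      have h3 : XX.k (M := M) i.1 ∈ y := (h2 i.1).2 i.2
      have h4 : XX.m (K := K) (j0 i.1) ∈ y := h1 _ h3
      obtain ⟨s, hs, hs'⟩ := V.nonempty_of_mem (Filter.inter_mem hs0 (hV.fine _ h4))
      rw [mem_singleton_iff] at hs
      subst hs
      exact hs'
    have hle : #(Iio (kF (XX.k (M := M)) y)) ≤ #s0 :=
      mk_le_of_injective (f := fun i => (⟨j0 i.1, hsub i⟩ : s0)) fun i i' h => by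
        have h5 : j0 i.1 = j0 i'.1 := congrArg Subtype.val h
        exact Subtype.ext (j0.injective h5)
    exact absurd hle (not_le.2 hs)
  have hall := hV.complete a (fun s => {s.1}ᶜ) hlt
    (fun s => (Ultrafilter.compl_mem_iff_notMem).2 (hnp s.1))
  obtain ⟨s, hs, hs'⟩ := V.nonempty_of_mem (Filter.inter_mem ha hall)
  exact (mem_iInter.1 hs' ⟨s, hs⟩) rfl

end Pool.Agent.Helper23.XB
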