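import Pool.Agent.Helper23.XB.DefsA
import Pool.Agent.Helper23.XB.B0b

/-! # Project XB, module A4b -/

set_option autoImplicit false

namespace Pool.Agent.Helper23.XB

open Cardinal Filter Set Pool.Agent.Helper33.HM

universe u v w

namespace H15

variable {K : Type u} [LinearOrder K]

/-- the trace of a code below its bound -/
def trc (w : Str K) : Σ b : K, Set (Set (Iio b)) × Set (Iio b × Iio b) :=
  ⟨w.1.1, {a | Subtype.val '' a ∈ w.1.2.1}, {p | ((p.1 : K), (p.2 : K)) ∈ w.1.2.2}⟩

theorem ext_ultra {U U' : Ultrafilter K} {b : K} (h : Iio b ∈ U) (h' : Iio b ∈ U')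
    (hs : ∀ a : Set (Iio b), Subtype.val '' a ∈ U ↔ Subtype.val '' a ∈ U') : U = U' := by
  have key : ∀ V : Ultrafilter K, Iio b ∈ V → ∀ A : Set K,
      A ∈ V ↔ Subtype.val '' (Subtype.val ⁻¹' A : Set (Iio b)) ∈ V := by
    intro V hV A
    rw [Subtype.image_preimage_coe]
    constructor
    · intro hA
      exact Filter.inter_mem hV hA
    · intro hA
      exact Filter.mem_of_superset hA inter_subset_right
  apply Ultrafilter.ext
  intro A
  rw [key U h A, key U' h' A]
  exact hs _

theorem trc_injective : Function.Injective (trc (K := K)) := by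
  rintro ⟨⟨b, U, R⟩, hU, hR⟩ ⟨⟨b', U', R'⟩, hU', hR'⟩ h
  have hb : b = b' := congrArg Sigma.fst h
  subst hb
  have h2 := eq_of_heq (Sigma.mk.inj h).2
  have h3 := congrArg Prod.fst h2
  have h4 := congrArg Prod.snd h2
  have hUU : U = U' := by
    refine ext_ultra hU hU' fun a => ?_
    have := Set.ext_iff.1 h3 a
    exact this
  have hRR : R = R' := by
    have key : ∀ p : Iio b × Iio b, ((p.1 : K), (p.2 : K)) ∈ R ↔ ((p.1 : K), (p.2 : K)) ∈ R' := by
      intro p
      exact Set.ext_iff.1 h4 p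
    ext ⟨x, y⟩
    constructor
    · intro hx
      have hm := hR hx
      exact (key (⟨x, hm.1⟩, ⟨y, hm.2⟩)).1 hx
    · intro hx
      have hm := hR' hx
      exact (key (⟨x, hm.1⟩, ⟨y, hm.2⟩)).2 hx
  subst hUU
  subst hRR
  rfl

end H15

theorem card_Str (K : Type u) [LinearOrder K] [Inac K] : #(Str K) ≤ #K := by
  refine (mk_le_of_injective H15.trc_injective).trans ?_
  rw [mk_sigma]
  have h2 : Cardinal.sum (fun b : K => #(Set (Set (Iio b)) × Set (Iio b × Iio b))) ≤
      Cardinal.sum (fun _ : K => #K) := by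
    apply sum_le_sum
    intro b
    rw [mk_prod, lift_id, lift_id, mk_set, mk_set, mk_set, mk_prod, lift_id]
    have hb := Inac.small b
    have h3 : (2 : Cardinal.{u}) ^ (2 : Cardinal.{u}) ^ #(Iio b) < #K :=
      inac_two_pow (inac_two_pow hb)
    have h4 : (2 : Cardinal.{u}) ^ (#(Iio b) * #(Iio b)) < #K :=
      inac_two_pow (mul_lt_of_lt (H90.aleph0_lt (K := K)).le hb hb)
    exact (mul_lt_of_lt (H90.aleph0_lt (K := K)).le h3 h4).le
  refine h2.trans ?_
  rw [sum_const, lift_id]
  exact inac_mul_self.le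

theorem nonempty_Str (K : Type u) [LinearOrder K] [Inac K] : Nonempty (Str K) := by
  obtain ⟨i⟩ := (inferInstance : Nonempty K)
  obtain ⟨j, hj⟩ := inac_exists_gt i
  exact ⟨⟨(j, pure i, ∅), by
    constructor
    · exact Ultrafilter.mem_pure.2 hj
    · exact empty_subset _⟩⟩

end Pool.Agent.Helper23.XB
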