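import Pool.Agent.Helper23.XB.DefsA
import Pool.Agent.Helper23.XB.B0b

/-! # Project XB, module A5 -/

set_option autoImplicit false

namespace Pool.Agent.Helper23.XB

open Cardinal Filter Set Pool.Agent.Helper33.HM

universe u v w

theorem exists_collapse (K X : Type u) [LinearOrder K] [Inac K] :
    ∃ (pi : Set X → X → K) (bd : Set X → K), ∀ y : Set X, #y < #K → InjOn (pi y) y ∧
      ∀ x ∈ y, pi y x < bd y := by
  classical
  have key : ∀ y : Set X, ∃ (p : X → K) (b : K), #y < #K → InjOn p y ∧ ∀ x ∈ y, p x < b := by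
    intro y
    by_cases h : #y < #K
    · obtain ⟨i, hi⟩ := inac_exists_card (K := K) h
      obtain ⟨f⟩ := (Cardinal.le_def _ _).1 hi.le
      refine ⟨fun x => if hx : x ∈ y then (f ⟨x, hx⟩ : K) else i, i, fun _ => ⟨?_, ?_⟩⟩
      · intro a ha b hb hab
        simp only [dif_pos ha, dif_pos hb] at hab
        exact congrArg Subtype.val (f.injective (Subtype.ext hab))
      · intro a ha
        simp only [dif_pos ha]
        exact (f ⟨a, ha⟩).2
    · exact ⟨fun _ => Classical.arbitrary K, Classical.arbitrary K, fun h' => absurd h' h⟩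
  choose pi bd h using key
  exact ⟨pi, bd, h⟩

end Pool.Agent.Helper23.XB
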