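import Pool.Agent.Helper23.XB.A0
import Pool.Agent.Helper23.XB.A3a
import Pool.Agent.Helper23.XB.A3b
import Pool.Agent.Helper23.XB.A4b
import Pool.Agent.Helper23.XB.A5

/-! # Project XB, module A6 -/

set_option autoImplicit false

namespace Pool.Agent.Helper23.XB

open Cardinal Filter Set Pool.Agent.Helper33.HM

universe u v w

namespace A6

variable {K M : Type u} [LinearOrder K] [Inac K]

/-- The relation coded at `y`. -/
def rel (p : XX K M → K) (y : Set (XX K M)) : Set (K × K) :=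
  {w | ∃ (ξ : M) (s : Set M), XX.m ξ ∈ y ∧ XX.s s ∈ y ∧ ξ ∈ s ∧ w = (p (.m ξ), p (.s s))}

theorem rel_iff {p : XX K M → K} {y : Set (XX K M)} (hp : InjOn p y) {ξ : M} {s : Set M}
    (h1 : XX.m ξ ∈ y) (h2 : XX.s s ∈ y) : (p (.m ξ), p (.s s)) ∈ rel p y ↔ ξ ∈ s := by
  constructor
  · rintro ⟨ξ', s', h1', h2', h3, h4⟩
    have e1 := hp h1 h1' (congrArg Prod.fst h4)
    have e2 := hp h2 h2' (congrArg Prod.snd h4)
    cases e1
    cases e2
    exact h3
  · intro h
    exact ⟨ξ, s, h1, h2, h, rfl⟩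

theorem exists_code {dec : K → Str K} (hdec : Function.Surjective dec)
    {pi : Set (XX K M) → XX K M → K} {bd : Set (XX K M) → K}
    (hpi : ∀ y : Set (XX K M), #y < #K → InjOn (pi y) y ∧ ∀ x ∈ y, pi y x < bd y)
    (y : Set (XX K M)) : ∃ c : K, #y < #K → (∃ V, Good K M y V) → ∃ V, Good K M y V ∧
      (dec c).1 = (bd y, V.map (fun s => pi y (.s s)), rel (pi y) y) := by
  by_cases h : #y < #K ∧ ∃ V, Good K M y V
  · obtain ⟨hy, V, hV⟩ := h
    have hw : Iio (bd y) ∈ V.map (fun s => pi y (.s s)) ∧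
        rel (pi y) y ⊆ Iio (bd y) ×ˢ Iio (bd y) := by
      constructor
      · have h3 : ∀ᶠ s : Set M in (V : Filter (Set M)), pi y (.s s) < bd y := by
          filter_upwards [hV.small] with s hs
          exact (hpi y hy).2 _ hs.1
        exact h3
      · rintro w ⟨ξ, s, h1, h2, h3, rfl⟩
        exact ⟨(hpi y hy).2 _ h1, (hpi y hy).2 _ h2⟩
    obtain ⟨c, hc⟩ := hdec ⟨(bd y, V.map (fun s => pi y (.s s)), rel (pi y) y), hw⟩
    exact ⟨c, fun _ _ => ⟨V, hV, by rw [hc]⟩⟩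
  · exact ⟨Classical.arbitrary K, fun h1 h2 => (h ⟨h1, h2⟩).elim⟩

end A6

theorem exists_GD (κ : Cardinal.{u}) (hκ : Supercompact κ) (K M Θ : Type u) [LinearOrder K]
    [Inac K] (hK : #K = κ) (hM : #K ≤ #M) : Nonempty (GD K M Θ) := by
  classical
  obtain ⟨F, hF⟩ := nf_of_supercompact κ hκ K hK (XX K M)
  obtain ⟨E, hE⟩ := nf_of_supercompact κ hκ K hK (K ⊕ Θ)
  obtain ⟨𝒱, h𝒱⟩ := nf_of_supercompact κ hκ K hK M
  obtain ⟨pi, bd, hpi⟩ := exists_collapse K (XX K M)
  obtain ⟨pi', bd', hpi'⟩ := exists_collapse K (K ⊕ Θ)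
  obtain ⟨dec, hdec⟩ : ∃ dec : K → Str K, Function.Surjective dec := by
    have := nonempty_Str K
    obtain ⟨f⟩ := Cardinal.le_def _ _ |>.1 (card_Str K)
    exact ⟨Function.invFun f, Function.invFun_surjective f.injective⟩
  have hcode := A6.exists_code hdec hpi
  choose code hcode using hcode
  have hall : ∀ᶠ y : Set (XX K M) in (F : Filter (Set (XX K M))), #y < #K ∧
      (∀ V, Good K M y V → ∀ a ∈ V, #(Iio (kF (XX.k (M := M)) y)) ≤ #a) ∧
      ∃ V, Good K M y V ∧
      (dec (code y)).1 = (bd y, V.map (fun s => pi y (.s s)), A6.rel (pi y) y) := by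
    filter_upwards [hF.small, exists_good hF h𝒱, good_card hF hM] with y h1 h2 h3
    exact ⟨h1, h3, hcode y h1 h2⟩
  have hsc : ∃ sc : K → K, ∀ i, i < sc i := by
    choose sc hsc using (inac_exists_gt (K := K))
    exact ⟨sc, hsc⟩
  obtain ⟨sc, hsc⟩ := hsc
  have hpr : Nonempty (K × K ≃ K) := by
    rw [← Cardinal.eq, mk_prod]
    simpa using inac_mul_self (K := K)
  obtain ⟨pr⟩ := hpr
  refine ⟨{ F := F, E := E, hF := hF, hE := hE, pi := pi, bd := bd, pi_inj := fun y hy => (hpi y hy).1, pi_lt := fun y hy => (hpi y hy).2, pi' := pi', bd' := bd', pi'_inj := fun y hy => (hpi' y hy).1, pi'_lt := fun y hy => (hpi' y hy).2, dec := dec, code := code, code_bd := ?_, code_card := ?_, code_complete := ?_, code_fine := ?_, code_small := ?_, sc := sc, sc_lt := hsc, pr := pr }⟩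
  · filter_upwards [hall] with y hy
    obtain ⟨_, _, V, _, h⟩ := hy
    rw [h]
  · filter_upwards [hall] with y hy
    obtain ⟨h1, h2, V, hV, h⟩ := hy
    intro a ha
    rw [h] at ha
    have ha' : (fun s : Set M => pi y (.s s)) ⁻¹' a ∈ V := ha
    have hS := hV.small
    have h3 := h2 V hV _ (Filter.inter_mem ha' hS)
    refine h3.trans ?_
    refine mk_le_of_injective (f := fun s => (⟨pi y (.s s.1), s.2.1⟩ : a)) ?_
    intro s t hst
    have h4 : pi y (.s s.1) = pi y (.s t.1) := congrArg Subtype.val hst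
    have h5 := (hpi y h1).1 s.2.2.1 t.2.2.1 h4
    exact Subtype.ext (XX.s.inj h5)
  · filter_upwards [hall] with y hy
    obtain ⟨h1, h2, V, hV, h⟩ := hy
    intro ι a hι ha
    rw [h] at ha ⊢
    have h3 := hV.complete ι (fun i => (fun s : Set M => pi y (.s s)) ⁻¹' (a i)) hι
      (fun i => ha i)
    have h4 : (⋂ i, (fun s : Set M => pi y (.s s)) ⁻¹' (a i)) =
      (fun s : Set M => pi y (.s s)) ⁻¹' (⋂ i, a i) := by rw [preimage_iInter]
    rw [h4] at h3
    exact h3
  · filter_upwards [hall] with y hy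
    obtain ⟨h1, h2, V, hV, h⟩ := hy
    intro ξ hξ
    rw [h]
    have h3 : ∀ᶠ s : Set M in (V : Filter (Set M)),
        (pi y (.m ξ), pi y (.s s)) ∈ A6.rel (pi y) y := by
      filter_upwards [hV.small, hV.fine ξ hξ] with s hs hs'
      exact (A6.rel_iff (hpi y h1).1 hξ hs.1).2 hs'
    exact h3
  · filter_upwards [hall] with y hy
    obtain ⟨h1, h2, V, hV, h⟩ := hy
    rw [h]
    have h3 : ∀ᶠ s : Set M in (V : Filter (Set M)),
        #{ξ : M | XX.m ξ ∈ y ∧ (pi y (.m ξ), pi y (.s s)) ∈ A6.rel (pi y) y} <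
        #(Iio (kF (XX.k (M := M)) y)) := by
      filter_upwards [hV.small] with s hs
      refine lt_of_le_of_lt (mk_le_mk_of_subset ?_) hs.2
      rintro ξ ⟨hξ, hξ'⟩
      exact (A6.rel_iff (hpi y h1).1 hξ hs.1).1 hξ'
    exact h3

end Pool.Agent.Helper23.XB
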