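import Pool.Agent.Helper23.XB.A7

/-! # Project XB, module A8 -/

set_option autoImplicit false

namespace Pool.Agent.Helper23.XB

open Cardinal Filter Set Pool.Agent.Helper33.HM

universe u v w

variable {K M Θ : Type u} [LinearOrder K] [Inac K] (G : GD K M Θ)

theorem gd_enum (e : K → CC K M Θ) :
    ∀ᶠ z in (G.prod : Filter (Set (XX K M) × Set (K ⊕ Θ))), ∀ c ∈ G.S z, c ∈ range e →
      ∃ i < G.hz z, e i = c := by
  let e1 : K → XX K M := fun i => match e i with
    | .inl b => XX.b b
    | .inr _ => XX.k i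
  let e2 : K → K ⊕ Θ := fun i => match e i with
    | .inr (some α) => Sum.inr α
    | _ => Sum.inl i
  have h1 := kF_enum G.hF (XX.k (M := M)) (fun i j h => by cases h; rfl) e1
  have h2 := kF_enum G.hE (Sum.inl (β := Θ)) Sum.inl_injective e2
  have h3 : ∀ᶠ x in (G.E : Filter (Set (K ⊕ Θ))), ∀ i : K, e i = .inr none → ∃ j < G.h0 x,
      e j = .inr none := by
    by_cases hn : ∃ i, e i = .inr none
    · obtain ⟨i, hi⟩ := hn
      filter_upwards [gd_h0 G i] with x hx j _
      exact ⟨i, hx, hi⟩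
    · refine Filter.Eventually.of_forall fun x i hi => ?_
      exact absurd ⟨i, hi⟩ hn
  have h4 := (gd_ev G _).1 (gd_kz_lt G)
  rw [gd_ev]
  filter_upwards [h1, h4] with y hy hy4
  filter_upwards [h2, h3, hy4] with x hx hx3 hx4
  intro c hc hce
  rcases c with b | o
  · obtain ⟨i0, hi0⟩ := hce
    have hb : XX.b b ∈ y := hc
    have hr : XX.b b ∈ range e1 := by
      refine ⟨i0, ?_⟩
      simp only [e1, hi0]
    obtain ⟨i, hi, hie⟩ := hy _ hb hr
    refine ⟨i, lt_trans hi hx4, ?_⟩
    simp only [e1] at hie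
    rcases hei : e i with b' | o'
    · rw [hei] at hie
      simp only [XX.b.injEq] at hie
      rw [hie]
    · rw [hei] at hie
      exact absurd hie (by simp)
  · rcases o with _ | α
    · obtain ⟨i0, hi0⟩ := hce
      obtain ⟨j, hj, hje⟩ := hx3 i0 hi0
      exact ⟨j, lt_trans hj (G.sc_lt _), hje⟩
    · obtain ⟨i0, hi0⟩ := hce
      have hb : (Sum.inr α : K ⊕ Θ) ∈ x := hc
      have hr : (Sum.inr α : K ⊕ Θ) ∈ range e2 := by
        refine ⟨i0, ?_⟩
        simp only [e2, hi0]
      obtain ⟨i, hi, hie⟩ := hx _ hb hr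
      refine ⟨i, lt_trans (lt_of_lt_of_le hi (le_max_left _ _)) (G.sc_lt _), ?_⟩
      simp only [e2] at hie
      rcases hei : e i with b' | o'
      · rw [hei] at hie
        exact absurd hie (by simp)
      · rcases o' with _ | α'
        · rw [hei] at hie
          exact absurd hie (by simp)
        · rw [hei] at hie
          simp only [Sum.inr.injEq] at hie
          rw [hie]

theorem gd_rep_lt : ∀ᶠ z in (G.prod : Filter (Set (XX K M) × Set (K ⊕ Θ))), ∀ c ∈ G.S z,
    G.rep z c < G.hz z := by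
  rw [gd_ev]
  filter_upwards [G.hF.small] with y hy
  have hs : #({k : K | ∃ b : BB K M, XX.b b ∈ y ∧ G.repB b y = k} : Set K) < #K := by
    refine lt_of_le_of_lt ?_ hy
    have hsub : ({k : K | ∃ b : BB K M, XX.b b ∈ y ∧ G.repB b y = k} : Set K) ⊆
        (fun w : XX K M => match w with
          | .b b => G.repB b y
          | _ => Classical.arbitrary K) '' y := by
      rintro k ⟨b, hb, rfl⟩
      exact ⟨XX.b b, hb, rfl⟩
    exact (mk_le_mk_of_subset hsub).trans mk_image_le
  obtain ⟨β, hβ⟩ := inac_bdd _ hs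
  filter_upwards [gd_h0 G β, G.hE.small] with x hx hxs
  intro c hc
  rcases c with b | o
  · exact lt_trans (lt_trans (hβ _ ⟨b, hc, rfl⟩) hx) (G.sc_lt _)
  · rcases o with _ | α
    · exact G.sc_lt _
    · exact lt_trans (lt_of_lt_of_le (G.pi'_lt x hxs _ hc) (le_max_right _ _)) (G.sc_lt _)

end Pool.Agent.Helper23.XB
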