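import Pool.Agent.Helper23.XB.B0a

/-! # Project XB, module B1 -/

set_option autoImplicit false

namespace Pool.Agent.Helper23.XB

open Cardinal Filter Set Pool.Agent.Helper33.HM

universe u v w

variable {K C : Type u} [LinearOrder K] [Inac K]

theorem ob_mono (e : K → C) {i j : K} (h : i ≤ j) : OB e i ⊆ OB e j := by
  intro τ hτ c s hs
  obtain ⟨⟨l, hl, hc⟩, hb⟩ := hτ c s hs
  exact ⟨⟨l, hl.trans_le h, hc⟩, fun b hb' => ⟨(hb b hb').1.trans_le h, (hb b hb').2.trans_le h⟩⟩

namespace H90

theorem card_bel (i : K) : #{s : St K // Bel s.1 i} < #K := by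
  have h1 : #{l : List (K × K) // Bel l i} < #K := by
    have h2 : {l : List (K × K) | Bel l i} ⊆
        range (List.map (fun b : Iio i × Iio i => ((b.1 : K), (b.2 : K)))) := by
      intro l hl
      rw [Set.range_list_map]
      intro x hx
      obtain ⟨h3, h4⟩ := hl x hx
      exact ⟨(⟨x.1, h3⟩, ⟨x.2, h4⟩), rfl⟩
    calc #{l : List (K × K) // Bel l i}
        ≤ #(range (List.map (fun b : Iio i × Iio i => ((b.1 : K), (b.2 : K))))) :=
          mk_le_mk_of_subset h2
      _ ≤ #(List (Iio i × Iio i)) := mk_range_le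
      _ ≤ max ℵ₀ #(Iio i × Iio i) := mk_list_le_max _
      _ < #K := by
        refine max_lt (aleph0_lt (K := K)) ?_
        rw [mk_prod]
        simp only [lift_id]
        exact mul_lt_of_lt (aleph0_lt (K := K)).le (Inac.small i) (Inac.small i)
  refine lt_of_le_of_lt ?_ h1
  refine mk_le_of_injective (f := fun s : {s : St K // Bel s.1 i} =>
    (⟨s.1.1, s.2⟩ : {l : List (K × K) // Bel l i})) ?_
  intro s s' h
  have h3 : s.1.1 = s'.1.1 := congrArg (fun x : {l : List (K × K) // Bel l i} => x.1) h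
  exact Subtype.ext (Subtype.ext h3)

end H90

theorem ob_card (e : K → C) (i : K) : #(OB e i) < #K := by
  classical
  let g : ((e '' Iio i : Set C) → Option {s : St K // Bel s.1 i}) → (C → Option (St K)) :=
    fun φ c => if h : c ∈ e '' Iio i then (φ ⟨c, h⟩).map Subtype.val else none
  have h1 : OB e i ⊆ range g := by
    intro τ hτ
    refine ⟨fun c => if h : ∃ s, τ c = some s ∧ Bel s.1 i then
      some ⟨h.choose, h.choose_spec.2⟩ else none, ?_⟩
    funext c
    simp only [g]
    by_cases hc : c ∈ e '' Iio i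
    · rw [dif_pos hc]
      rcases hs : τ c with _ | s
      · rw [dif_neg]
        · rfl
        · rintro ⟨s, h2, -⟩
          exact absurd h2 (by simp)
      · have h2 : ∃ s', (some s : Option (St K)) = some s' ∧ Bel s'.1 i :=
          ⟨s, rfl, (hτ c s hs).2⟩
        rw [dif_pos h2]
        have h3 := h2.choose_spec.1
        simp only [Option.map_some]
        exact h3.symm
    · rw [dif_neg hc]
      rcases hs : τ c with _ | s
      · rfl
      · obtain ⟨⟨j, hj, hjc⟩, -⟩ := hτ c s hs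
        exact absurd ⟨j, hj, hjc⟩ hc
  calc #(OB e i) ≤ #(range g) := mk_le_mk_of_subset h1
    _ ≤ #((e '' Iio i : Set C) → Option {s : St K // Bel s.1 i}) := mk_range_le
    _ = #(Option {s : St K // Bel s.1 i}) ^ #(e '' Iio i : Set C) := by rw [power_def]
    _ < #K := by
      refine inac_pow ?_ (mk_image_le.trans_lt (Inac.small i))
      rw [mk_option]
      exact add_lt_of_lt (H90.aleph0_lt (K := K)).le (H90.card_bel i)
        (one_lt_aleph0.trans (H90.aleph0_lt (K := K)))

theorem ob_supp {e : K → C} {i : K} {τ : C → Option (St K)} (h : τ ∈ OB e i) :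
    #(supp τ) < #K := by
  have h1 : supp τ ⊆ e '' Iio i := by
    intro c hc
    obtain ⟨s, hs⟩ := Option.ne_none_iff_exists'.1 hc
    obtain ⟨⟨j, hj, hjc⟩, -⟩ := h c s hs
    exact ⟨j, hj, hjc⟩
  exact (mk_le_mk_of_subset h1).trans_lt (mk_image_le.trans_lt (Inac.small i))

theorem ob_of_small (e : K → C) (τ : C → Option (St K)) (h : #(supp τ) < #K)
    (h' : supp τ ⊆ range e) : ∃ i, τ ∈ OB e i := by
  classical
  let ix : C → K := fun c => if h : ∃ j, e j = c then h.choose else Classical.arbitrary K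
  have hix : ∀ c ∈ supp τ, e (ix c) = c := by
    intro c hc
    have h1 : ∃ j, e j = c := h' hc
    simp only [ix]
    rw [dif_pos h1]
    exact h1.choose_spec
  let T : C → Set K := fun c => {j | j = ix c ∨ ∃ s, τ c = some s ∧ ∃ b ∈ s.1, j = b.1 ∨ j = b.2}
  have hT : ∀ c ∈ supp τ, #(T c) < #K := by
    intro c hc
    obtain ⟨s, hs⟩ := Option.ne_none_iff_exists'.1 hc
    have h1 : T c ⊆ {j | j ∈ ix c :: (s.1.map Prod.fst ++ s.1.map Prod.snd)} := by
      intro j hj
      rcases hj with rfl | ⟨s', hs', b, hb, hj⟩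
      · simp
      · rw [hs] at hs'
        obtain rfl := Option.some.inj hs'
        simp only [mem_ofPred_eq, List.mem_cons, List.mem_append, List.mem_map]
        rcases hj with rfl | rfl
        · exact Or.inr (Or.inl ⟨b, hb, rfl⟩)
        · exact Or.inr (Or.inr ⟨b, hb, rfl⟩)
    have h2 : (T c).Finite := (List.finite_toSet _).subset h1
    exact (lt_aleph0_iff_finite.2 h2).trans (H90.aleph0_lt (K := K))
  have h1 := inac_biUnion (K := K) (supp τ) h T hT
  obtain ⟨b, hb⟩ := inac_bdd _ h1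
  refine ⟨b, fun c s hs => ?_⟩
  have hc : c ∈ supp τ := by
    change τ c ≠ none
    rw [hs]
    simp
  have h3 : ∀ j ∈ T c, j < b := fun j hj => hb j (mem_biUnion hc hj)
  refine ⟨⟨ix c, h3 _ (Or.inl rfl), hix c hc⟩, fun x hx => ⟨?_, ?_⟩⟩
  · exact h3 _ (Or.inr ⟨s, hs, x, hx, Or.inl rfl⟩)
  · exact h3 _ (Or.inr ⟨s, hs, x, hx, Or.inr rfl⟩)

/-- There are at most `#K` small modifications with support in the range of `e`. -/
theorem mod_card (e : K → C) :
    #{τ : C → Option (St K) | #(supp τ) < #K ∧ supp τ ⊆ range e} ≤ #K := by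
  have h1 : {τ : C → Option (St K) | #(supp τ) < #K ∧ supp τ ⊆ range e} ⊆ ⋃ i, OB e i := by
    rintro τ ⟨h2, h3⟩
    obtain ⟨i, hi⟩ := ob_of_small e τ h2 h3
    exact mem_iUnion.2 ⟨i, hi⟩
  calc #{τ : C → Option (St K) | #(supp τ) < #K ∧ supp τ ⊆ range e}
      ≤ #(⋃ i, OB e i) := mk_le_mk_of_subset h1
    _ ≤ #K * ⨆ i, #(OB e i) := mk_iUnion_le _
    _ ≤ #K * #K := mul_le_mul_right (ciSup_le' fun i => (ob_card e i).le) _
    _ = #K := inac_mul_self

theorem exists_enum (K : Type u) {C : Type u} [LinearOrder K] [Inac K] [Nonempty C] (d : Set C)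
    (hd : #d ≤ #K) : ∃ e : K → C, d ⊆ range e := by
  obtain ⟨φ⟩ := hd
  refine ⟨Function.extend φ Subtype.val fun _ => Classical.arbitrary C, fun c hc => ?_⟩
  exact ⟨φ ⟨c, hc⟩, φ.injective.extend_apply _ _ _⟩

end Pool.Agent.Helper23.XB
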