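import Pool.Agent.Helper23.XB.A7
import Pool.Agent.Helper23.XB.B1

/-! # Project XB, module A9 -/

set_option autoImplicit false
set_option linter.unusedSectionVars false

namespace Pool.Agent.Helper23.XB

open Cardinal Filter Set Pool.Agent.Helper33.HM

universe u v w

variable {K M Θ : Type u} [LinearOrder K] [Inac K] (G : GD K M Θ)

namespace Helper64

/-- The enumeration of the needed values. -/
noncomputable def e0 (e : K → CC K M Θ) (m : K) : Option M :=
  match e (G.pr.symm m).1 with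
  | .inl b => b.1 (G.pr.symm m).2
  | .inr _ => none

theorem e0_pr (e : K → CC K M Θ) {i j : K} {b : BB K M} (h : e i = .inl b) :
    e0 G e (G.pr (i, j)) = b.1 j := by
  simp only [e0, Equiv.symm_apply_apply, h]

/-- The indices as elements of `XX`. -/
def e1 (e : K → CC K M Θ) (i : K) : XX K M :=
  match e i with
  | .inl b => .b b
  | .inr _ => .k i

theorem e1_eq {e : K → CC K M Θ} {i : K} {b : BB K M} (h : e1 e i = .b b) : e i = .inl b := by
  unfold e1 at h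
  split at h
  · rename_i b' hb'
    rw [hb', XX.b.inj h]
  · cases h

theorem e1_of {e : K → CC K M Θ} {i : K} {b : BB K M} (h : e i = .inl b) : e1 e i = .b b := by
  unfold e1
  rw [h]

theorem k_inj : Function.Injective (XX.k (K := K) (M := M)) := fun _ _ h => XX.k.inj h

/-- Equal records give equal values. -/
theorem rcd_congr {e e' : K → Option M} {y y' : Set (XX K M)}
    (hk : kF (XX.k (M := M)) y = kF (XX.k (M := M)) y')
    (h : ∀ j < kF (XX.k (M := M)) y, G.base y (e j) = G.base y' (e' j)) :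
    G.rcd e y = G.rcd e' y' := by
  unfold GD.rcd
  generalize hk1 : kF (XX.k (M := M)) y = k1 at hk h ⊢
  generalize hk2 : kF (XX.k (M := M)) y' = k2 at hk ⊢
  subst hk
  congr 1
  funext j
  exact h j.1 j.2

theorem of_rcd {e : K → Option M} {y y' : Set (XX K M)} (h : G.rcd e y = G.rcd e y') :
    kF (XX.k (M := M)) y = kF (XX.k (M := M)) y' ∧
      ∀ j < kF (XX.k (M := M)) y, G.base y (e j) = G.base y' (e j) := by
  have h1 : kF (XX.k (M := M)) y = kF (XX.k (M := M)) y' := congrArg Sigma.fst h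
  refine ⟨h1, ?_⟩
  unfold GD.rcd at h
  generalize hk1 : kF (XX.k (M := M)) y = k1 at h h1 ⊢
  generalize hk2 : kF (XX.k (M := M)) y' = k2 at h h1
  subst h1
  intro j hj
  have h2 := eq_of_heq (Sigma.mk.inj h).2
  exact congrFun h2 ⟨j, hj⟩

end Helper64

open Helper64 in
/-- A9 -/
theorem gd_factor (d : Set (CC K M Θ)) (hd : #d ≤ #K) (hcs : .inl (cb1 K none) ∈ d)
    (A : Set (Set (XX K M) × Set (K ⊕ Θ))) (hA : A ∈ G.prod)
    (Φ : Set (XX K M) × Set (K ⊕ Θ) → K)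
    (hΦ : ∀ z ∈ A, ∀ z' ∈ A, (G.kz z = G.kz z' ∧ G.hz z = G.hz z' ∧
      ∀ c ∈ d, (c ∈ G.S z ↔ c ∈ G.S z') ∧ (c ∈ G.S z → G.rep z c = G.rep z' c)) → Φ z = Φ z')
    (Rg : K → K → Set K) (hRg : ∀ k u, #(Rg k u) < #K)
    (h : ∀ z ∈ A, Φ z ∈ Rg (G.kz z) (G.rep z (.inl (cb1 K none)))) :
    ∃ c : BB K M, ∀ᶠ z in (G.prod : Filter (Set (XX K M) × Set (K ⊕ Θ))),
      G.rep z (.inl c) = Φ z := by
  classical
  have : Nonempty (CC K M Θ) := ⟨.inl (cb1 K none)⟩
  obtain ⟨e, he⟩ := exists_enum K d hd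
  -- almost constant values
  have hv : ∀ᶠ y in (G.F : Filter (Set (XX K M))), ∃ v : K,
      ∀ᶠ x in (G.E : Filter (Set (K ⊕ Θ))), (y, x) ∈ A ∧ Φ (y, x) = v := by
    have h1 := (gd_ev G (fun z => z ∈ A)).1 hA
    filter_upwards [h1] with y hy
    set R := Rg (kF (XX.k (M := M)) y) (G.repB (cb1 K none) y) with hR
    have hmem : ∀ᶠ x in (G.E : Filter (Set (K ⊕ Θ))), Φ (y, x) ∈ R := by
      filter_upwards [hy] with x hx
      exact h (y, x) hx
    by_contra hcon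
    simp only [not_exists] at hcon
    have h2 : ∀ v : R, {x | Φ (y, x) ≠ v} ∈ G.E := by
      intro v
      have h3 := hcon v
      have h4 : ∀ᶠ x in (G.E : Filter (Set (K ⊕ Θ))), ¬ ((y, x) ∈ A ∧ Φ (y, x) = v) :=
        Ultrafilter.eventually_not.2 h3
      have h5 : ∀ᶠ x in (G.E : Filter (Set (K ⊕ Θ))), Φ (y, x) ≠ v := by
        filter_upwards [h4, hy] with x hx1 hx2 hx3
        exact hx1 ⟨hx2, hx3⟩
      exact h5
    have h6 := G.hE.complete R (fun v => {x | Φ (y, x) ≠ v}) (hRg _ _) h2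
    have h7 : ∀ᶠ x in (G.E : Filter (Set (K ⊕ Θ))), x ∈ ⋂ v : R, {x | Φ (y, x) ≠ v} := h6
    obtain ⟨x, hx1, hx2⟩ := (h7.and hmem).exists
    exact (mem_iInter.1 hx1 ⟨Φ (y, x), hx2⟩) rfl
  let vv : Set (XX K M) → K := fun y => if hy : ∃ v : K,
      ∀ᶠ x in (G.E : Filter (Set (K ⊕ Θ))), (y, x) ∈ A ∧ Φ (y, x) = v then hy.choose
      else Classical.arbitrary K
  let T : Set (Set (XX K M)) := {y |
    (∀ᶠ x in (G.E : Filter (Set (K ⊕ Θ))), (y, x) ∈ A ∧ Φ (y, x) = vv y) ∧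
    (∀ x ∈ y, x ∈ range (e1 e) → ∃ i < kF (XX.k (M := M)) y, e1 e i = x) ∧
    (∀ i < kF (XX.k (M := M)) y, ∀ b, e i = .inl b → XX.b b ∈ y) ∧
    (∀ i < kF (XX.k (M := M)) y, ∀ j < kF (XX.k (M := M)) y, G.pr (i, j) < kF (XX.k (M := M)) y)}
  have hT : ∀ᶠ y in (G.F : Filter (Set (XX K M))), y ∈ T := by
    have a1 := kF_enum G.hF (XX.k (M := M)) k_inj (e1 e)
    have a2 := kF_diag G.hF (XX.k (M := M)) k_inj (fun i y => ∀ b, e i = .inl b → XX.b b ∈ y)
      (by
        intro i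
        rcases hi : e i with b | c
        · filter_upwards [G.hF.fine (XX.b b)] with y hy b' hb'
          rw [← Sum.inl.inj hb']
          exact hy
        · filter_upwards with y b' hb'
          cases hb')
    have a3 := kF_diag G.hF (XX.k (M := M)) k_inj
      (fun i y => ∀ j < kF (XX.k (M := M)) y, G.pr (i, j) < kF (XX.k (M := M)) y)
      (fun i => kF_closed G.hF (XX.k (M := M)) k_inj fun j => G.pr (i, j))
    filter_upwards [hv, a1, a2, a3] with y b1 b2 b3 b4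
    refine ⟨?_, b2, b3, b4⟩
    have : vv y = b1.choose := dif_pos b1
    rw [this]
    exact b1.choose_spec
  have hkey : ∀ y ∈ T, ∀ y' ∈ T, G.rcd (e0 G e) y = G.rcd (e0 G e) y' → vv y = vv y' := by
    rintro y ⟨h1, h2, h3, h4⟩ y' ⟨h1', h2', h3', h4'⟩ hr
    obtain ⟨hk, hbase⟩ := of_rcd G hr
    obtain ⟨x, ⟨hx1, hx2⟩, hx1', hx2'⟩ := (h1.and h1').exists
    rw [← hx2, ← hx2']
    apply hΦ (y, x) hx1 (y', x) hx1'
    have hS : ∀ b : BB K M, (.inl b : CC K M Θ) ∈ d → XX.b b ∈ y →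
        ∃ i < kF (XX.k (M := M)) y, e i = .inl b := by
      intro b hb hby
      obtain ⟨i, hi⟩ := he hb
      obtain ⟨i', hi', hi''⟩ := h2 (.b b) hby ⟨i, e1_of hi⟩
      exact ⟨i', hi', e1_eq hi''⟩
    have hS' : ∀ b : BB K M, (.inl b : CC K M Θ) ∈ d → XX.b b ∈ y' →
        ∃ i < kF (XX.k (M := M)) y', e i = .inl b := by
      intro b hb hby
      obtain ⟨i, hi⟩ := he hb
      obtain ⟨i', hi', hi''⟩ := h2' (.b b) hby ⟨i, e1_of hi⟩
      exact ⟨i', hi', e1_eq hi''⟩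
    refine ⟨hk, rfl, ?_⟩
    rintro (b | _ | α) hc
    · refine ⟨⟨fun hb => ?_, fun hb => ?_⟩, fun hb => ?_⟩
      · obtain ⟨i, hi, hei⟩ := hS b hc hb
        exact h3' i (hk ▸ hi) b hei
      · obtain ⟨i, hi, hei⟩ := hS' b hc hb
        exact h3 i (hk.symm ▸ hi) b hei
      · obtain ⟨i, hi, hei⟩ := hS b hc hb
        change b.2 (G.rcd b.1 y) = b.2 (G.rcd b.1 y')
        refine congrArg b.2 (rcd_congr G hk fun j hj => ?_)
        have := hbase (G.pr (i, j)) (h4 i hi j hj)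
        rwa [e0_pr G e hei] at this
    · exact ⟨Iff.rfl, fun _ => rfl⟩
    · exact ⟨Iff.rfl, fun _ => rfl⟩
  let φ : Rec K → K := fun r => if hr : ∃ y ∈ T, G.rcd (e0 G e) y = r then vv hr.choose
    else Classical.arbitrary K
  refine ⟨(e0 G e, φ), ?_⟩
  rw [gd_ev]
  filter_upwards [hT] with y hy
  filter_upwards [hy.1] with x hx
  rw [hx.2]
  change φ (G.rcd (e0 G e) y) = vv y
  have hr : ∃ y' ∈ T, G.rcd (e0 G e) y' = G.rcd (e0 G e) y := ⟨y, hy, rfl⟩
  have : φ (G.rcd (e0 G e) y) = vv hr.choose := dif_pos hr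
  rw [this]
  exact hkey _ hr.choose_spec.1 y hy hr.choose_spec.2

end Pool.Agent.Helper23.XB
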