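import Pool.Agent.Helper23.XB.A4a
import Pool.Agent.Helper23.XB.A6
import Pool.Agent.Helper23.XB.A8
import Pool.Agent.Helper23.XB.A9
import Pool.Agent.Helper23.XB.A10

/-! # Project XB, assembly A11 -/

set_option autoImplicit false

namespace Pool.Agent.Helper23.XB

open Cardinal Filter Set Pool.Agent.Helper33.HM

universe u v w

section

variable {K M Θ : Type u} [LinearOrder K] [Inac K] (G : GD K M Θ)

/-- The sample system. -/
noncomputable def GD.smp : Smp K (CC K M Θ) where
  Z := Set (XX K M) × Set (K ⊕ Θ)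
  F := G.prod
  kz := G.kz
  hz := G.hz
  S := G.S
  rep := G.rep
  complete := gd_complete G
  normal := gd_normal G
  unb := gd_unb G
  mem_S := gd_mem_S G
  enum := gd_enum G
  kz_lt := gd_kz_lt G
  rep_lt := gd_rep_lt G

end

theorem exists_xsys (κ : Cardinal.{u}) (hκ : Supercompact κ) (K M Θ : Type u) [LinearOrder K]
    [Inac K] (hK : #K = κ) (hM : #K < #M) (hMK : #M ^ #K = #M) : Nonempty (XSys K M Θ) := by
  obtain ⟨G⟩ := exists_GD κ hκ K M Θ hK hM.le
  exact ⟨{
    C := CC K M Θ
    B := BB K M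
    𝔖 := G.smp
    cs := .inl (cb1 K none)
    ch := .inr none
    cm := fun ξ => .inl (cb1 K (some ξ))
    ct := fun α => .inr (some α)
    cb := .inl
    sc := G.sc
    bb := fun u => (G.dec u).1.1
    VV := fun u => (G.dec u).1.2.1
    Rl := fun u η σ => (η, σ) ∈ (G.dec u).1.2.2
    pr := G.pr
    card_B := card_BB K M hMK hM
    nonempty_B := ⟨cb1 K none⟩
    hz_eq := Filter.Eventually.of_forall fun _ => rfl
    bb_mem := fun u => (G.dec u).2.1
    bb_le := gd_bb_le G
    VV_card := gd_VV_card G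
    VV_complete := gd_VV_complete G
    VV_fine := gd_VV_fine G
    VV_small := gd_VV_small G
    sep := gd_sep G
    factor := fun d hd hcs A hA Φ h1 Rg h2 h3 => gd_factor G d hd hcs A hA Φ h1 Rg h2 h3 }⟩


end Pool.Agent.Helper23.XB
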