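import Pool.Agent.Helper23.XB.Defs

/-! # Project XB, module B0a -/

set_option autoImplicit false

namespace Pool.Agent.Helper23.XB

open Cardinal Filter Set Pool.Agent.Helper33.HM

universe u v w

variable {K : Type u} [LinearOrder K] [Inac K]

namespace H90

theorem aleph0_lt : ℵ₀ < #K := Inac.inacc.aleph0_lt

theorem card_Iic (i : K) : #(Iic i) < #K := by
  have h1 : (Iic i : Set K) = insert i (Iio i) := by
    ext j
    simp only [mem_Iic, mem_insert_iff, mem_Iio]
    exact le_iff_eq_or_lt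
  rw [h1]
  refine (mk_insert_le).trans_lt ?_
  exact add_lt_of_lt (aleph0_lt (K := K)).le (Inac.small i)
    (one_lt_aleph0.trans (aleph0_lt (K := K)))

end H90

/-- Small sets are bounded. -/
theorem inac_bdd (s : Set K) (hs : #s < #K) : ∃ b, ∀ i ∈ s, i < b := by
  by_contra h
  push Not at h
  have h1 : (⋃ i ∈ s, Iic i : Set K) = (Set.univ : Set K) := by
    ext b
    simp only [mem_iUnion, mem_Iic, mem_univ, iff_true, exists_prop]
    exact h b
  have h2 : #(⋃ i ∈ s, Iic i : Set K) < #K :=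
    (card_biUnion_lt_iff_forall_of_isRegular (Inac.inacc (K := K)).isRegular hs).2
      fun i _ => H90.card_Iic i
  rw [h1, mk_univ] at h2
  exact lt_irrefl _ h2

theorem inac_exists_gt (i : K) : ∃ j, i < j := by
  obtain ⟨b, hb⟩ := inac_bdd ({i} : Set K) (by
    rw [mk_singleton]
    exact one_lt_aleph0.trans (H90.aleph0_lt (K := K)))
  exact ⟨b, hb i rfl⟩

theorem inac_exists_card {c : Cardinal.{u}} (hc : c < #K) : ∃ i : K, c < #(Iio i) := by
  have h1 : Order.succ c < #K := (Inac.inacc (K := K)).isSuccLimit.succ_lt hc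
  obtain ⟨s, hs⟩ := le_mk_iff_exists_set.1 h1.le
  obtain ⟨b, hb⟩ := inac_bdd s (hs ▸ h1)
  refine ⟨b, ?_⟩
  have h2 : s ⊆ Iio b := fun i hi => hb i hi
  calc c < Order.succ c := Order.lt_succ c
    _ = #s := hs.symm
    _ ≤ #(Iio b) := mk_le_mk_of_subset h2

theorem inac_iUnion {ι α : Type u} (h : #ι < #K) (s : ι → Set α) (hs : ∀ i, #(s i) < #K) :
    #(⋃ i, s i : Set α) < #K :=
  (card_iUnion_lt_iff_forall_of_isRegular (Inac.inacc (K := K)).isRegular h).2 hs

theorem inac_biUnion {ι α : Type u} (t : Set ι) (h : #t < #K) (s : ι → Set α)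
    (hs : ∀ i ∈ t, #(s i) < #K) : #(⋃ i ∈ t, s i : Set α) < #K :=
  (card_biUnion_lt_iff_forall_of_isRegular (Inac.inacc (K := K)).isRegular h).2 hs

theorem inac_two_pow {c : Cardinal.{u}} (hc : c < #K) : 2 ^ c < #K :=
  (Inac.inacc (K := K)).isStrongPrelimit hc

theorem inac_pow {c c' : Cardinal.{u}} (hc : c < #K) (hc' : c' < #K) : c ^ c' < #K := by
  set m := max (max c c') ℵ₀ with hm
  have h1 : m < #K := max_lt (max_lt hc hc') (H90.aleph0_lt (K := K))
  have h2 : ℵ₀ ≤ m := le_max_right _ _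
  have h3 : c ≤ 2 ^ m := ((le_max_left c c').trans (le_max_left _ _)).trans (cantor m).le
  have h4 : c' ≤ m := (le_max_right c c').trans (le_max_left _ _)
  calc c ^ c' ≤ (2 ^ m) ^ c' := power_le_power_right h3
    _ ≤ (2 ^ m) ^ m := power_le_power_left (power_ne_zero m two_ne_zero) h4
    _ = 2 ^ (m * m) := (power_mul).symm
    _ = 2 ^ m := by rw [mul_eq_self h2]
    _ < #K := inac_two_pow h1

theorem inac_mul_self : #K * #K = #K := mul_eq_self (H90.aleph0_lt (K := K)).le

end Pool.Agent.Helper23.XB
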