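import Pool.Agent.Helper23.XB.DefsA
import Pool.Agent.Helper23.XB.B0a

/-! # Project XB, module A2a -/

set_option autoImplicit false

namespace Pool.Agent.Helper23.XB

open Cardinal Filter Set Pool.Agent.Helper33.HM

universe u v w

variable {K X : Type u} [LinearOrder K] [Inac K] {F : Ultrafilter (Set X)}

theorem nf_diag (hF : NF K F) (p : X → Set X → Prop)
    (h : ∀ x, ∀ᶠ y : Set X in (F : Filter (Set X)), p x y) :
    ∀ᶠ y : Set X in (F : Filter (Set X)), ∀ x ∈ y, p x y := by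
  classical
  by_contra hc
  have h1 : ∀ᶠ y : Set X in (F : Filter (Set X)), ¬ ∀ x ∈ y, p x y :=
    Ultrafilter.eventually_not.2 hc
  have h2 : ∀ᶠ y : Set X in (F : Filter (Set X)), ∃ x ∈ y, ¬ p x y := by
    filter_upwards [h1] with y hy
    push Not at hy
    exact hy
  obtain ⟨y0, x0, _, _⟩ := h2.exists
  let f : Set X → X := fun y => if hy : ∃ x ∈ y, ¬ p x y then hy.choose else x0
  have hf : ∀ y, (∃ x ∈ y, ¬ p x y) → f y ∈ y ∧ ¬ p (f y) y := by
    intro y hy
    have : f y = hy.choose := dif_pos hy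
    rw [this]
    exact hy.choose_spec
  obtain ⟨x, hx⟩ := hF.normal f (h2.mono fun y hy => (hf y hy).1)
  obtain ⟨y, hy1, hy2, hy3⟩ := (hx.and (h2.and (h x))).exists
  have h3 := (hf y hy2).2
  rw [hy1] at h3
  exact h3 hy3

theorem nf_closed (hF : NF K F) (g : X → X) :
    ∀ᶠ y : Set X in (F : Filter (Set X)), ∀ x ∈ y, g x ∈ y :=
  nf_diag hF (fun x y => g x ∈ y) fun x => hF.fine (g x)

theorem nf_closed2 (hF : NF K F) (g : X → X → X) :
    ∀ᶠ y : Set X in (F : Filter (Set X)), ∀ x ∈ y, ∀ x' ∈ y, g x x' ∈ y :=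
  nf_diag hF (fun x y => ∀ x' ∈ y, g x x' ∈ y) fun x => nf_closed hF (g x)

end Pool.Agent.Helper23.XB
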