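import Pool.Agent.Helper23.XB.DefsA
import Pool.Agent.Helper23.XB.B0b

/-! # Project XB, module A4a -/

set_option autoImplicit false

namespace Pool.Agent.Helper23.XB

open Cardinal Filter Set Pool.Agent.Helper33.HM

universe u v w

theorem card_Rec (K : Type u) [LinearOrder K] [Inac K] : #(Rec K) ≤ #K := by
  unfold Rec
  rw [mk_sigma]
  have h2 : Cardinal.sum (fun k : K => #(Iio k → K)) ≤ Cardinal.sum (fun _ : K => #K) :=
    sum_le_sum _ _ fun k => inac_pi_le k
  refine h2.trans ?_
  rw [sum_const, lift_id]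
  exact inac_mul_self.le

theorem card_BB (K M : Type u) [LinearOrder K] [Inac K] (h : #M ^ #K = #M) (hM : #K < #M) :
    #(BB K M) ≤ #M := by
  have hK : ℵ₀ ≤ #K := (Inac.inacc (K := K)).aleph0_lt.le
  have hM0 : ℵ₀ ≤ #M := hK.trans hM.le
  have h2M : (2 : Cardinal.{u}) ≤ #M := by exact_mod_cast (natCast_lt_aleph0 (n := 2)).le.trans hM0
  have hM1 : #M * #M = #M := mul_eq_self hM0
  have h1 : #(K → Option M) ≤ #M := by
    rw [mk_pi, prod_const, lift_id, lift_id, mk_option, add_one_eq hM0, h]
  have h2 : #(Rec K → K) ≤ #M := by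
    rw [mk_pi, prod_const, lift_id, lift_id]
    calc #K ^ #(Rec K) ≤ #K ^ #K := power_le_power_left (by
            intro h0
            rw [h0] at hK
            exact absurd hK (not_le.2 aleph0_pos)) (card_Rec K)
      _ = 2 ^ #K := power_self_eq hK
      _ ≤ #M ^ #K := power_le_power_right h2M
      _ = #M := h
  calc #(BB K M) = #(K → Option M) * #(Rec K → K) := by
          rw [mk_prod, lift_id, lift_id]
    _ ≤ #M * #M := mul_le_mul' h1 h2
    _ = #M := hM1

end Pool.Agent.Helper23.XB
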