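import Pool.Agent.Helper23.XB.A2b

/-! # Project XB, module A7 -/

set_option autoImplicit false

namespace Pool.Agent.Helper23.XB

open Cardinal Filter Set Pool.Agent.Helper33.HM

universe u v w

variable {K M Θ : Type u} [LinearOrder K] [Inac K] (G : GD K M Θ)

namespace Helper79

omit [Inac K] in
theorem k_inj : Function.Injective (XX.k (K := K) (M := M)) := by
  intro i j h
  injection h

end Helper79

theorem gd_ev (p : Set (XX K M) × Set (K ⊕ Θ) → Prop) :
    (∀ᶠ z in (G.prod : Filter (Set (XX K M) × Set (K ⊕ Θ))), p z) ↔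
      ∀ᶠ y in (G.F : Filter (Set (XX K M))), ∀ᶠ x in (G.E : Filter (Set (K ⊕ Θ))), p (y, x) :=
  Iff.rfl

theorem gd_complete (ι : Type u) (A : ι → Set (Set (XX K M) × Set (K ⊕ Θ))) (hι : #ι < #K)
    (h : ∀ i, A i ∈ G.prod) : (⋂ i, A i) ∈ G.prod := by
  have h1 : ∀ᶠ y in (G.F : Filter (Set (XX K M))), ∀ i,
      ∀ᶠ x in (G.E : Filter (Set (K ⊕ Θ))), (y, x) ∈ A i := by
    have h2 := G.hF.complete ι
      (fun i => {y | ∀ᶠ x in (G.E : Filter (Set (K ⊕ Θ))), (y, x) ∈ A i}) hι
      (fun i => (gd_ev G (fun z => z ∈ A i)).1 (h i))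
    refine mem_of_superset h2 fun y hy i => ?_
    exact mem_iInter.1 hy i
  refine (gd_ev G (fun z => z ∈ ⋂ i, A i)).2 ?_
  filter_upwards [h1] with y hy
  have h3 := G.hE.complete ι (fun i => {x | (y, x) ∈ A i}) hι hy
  refine mem_of_superset h3 fun x hx => ?_
  exact mem_iInter.2 fun i => mem_iInter.1 hx i

theorem gd_normal (p : K → Set (XX K M) × Set (K ⊕ Θ) → Prop)
    (h : ∀ i, ∀ᶠ z in (G.prod : Filter (Set (XX K M) × Set (K ⊕ Θ))), p i z) :
    ∀ᶠ z in (G.prod : Filter (Set (XX K M) × Set (K ⊕ Θ))), ∀ i < G.kz z, p i z := by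
  refine (gd_ev G _).2 ?_
  have h1 := kF_diag G.hF (XX.k (M := M)) Helper79.k_inj
    (fun i y => ∀ᶠ x in (G.E : Filter (Set (K ⊕ Θ))), p i (y, x)) (fun i => (gd_ev G _).1 (h i))
  filter_upwards [h1] with y hy
  have h3 := G.hE.complete (Iio (kF (XX.k (M := M)) y)) (fun i => {x | p i.1 (y, x)})
    (Inac.small _) (fun i => hy i.1 i.2)
  refine mem_of_superset h3 fun x hx => ?_
  intro i hi
  exact mem_iInter.1 hx ⟨i, hi⟩

theorem gd_unb (i : K) :
    ∀ᶠ z in (G.prod : Filter (Set (XX K M) × Set (K ⊕ Θ))), i < G.kz z := by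
  refine (gd_ev G _).2 ?_
  filter_upwards [kF_unb G.hF (XX.k (M := M)) Helper79.k_inj i] with y hy
  exact Eventually.of_forall fun x => hy

theorem gd_mem_S (c : CC K M Θ) :
    ∀ᶠ z in (G.prod : Filter (Set (XX K M) × Set (K ⊕ Θ))), c ∈ G.S z := by
  refine (gd_ev G _).2 ?_
  rcases c with c | (_ | α)
  · filter_upwards [G.hF.fine (XX.b c)] with y hy
    exact Eventually.of_forall fun x => hy
  · exact Eventually.of_forall fun y => Eventually.of_forall fun x => trivial
  · refine Eventually.of_forall fun y => ?_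
    filter_upwards [G.hE.fine (Sum.inr α)] with x hx
    exact hx

/-- For a given small set `y`, the height exceeds everything below a bound. -/
theorem gd_h0 (i : K) : ∀ᶠ x in (G.E : Filter (Set (K ⊕ Θ))), i < G.h0 x := by
  filter_upwards [kF_unb G.hE (Sum.inl (β := Θ)) Sum.inl_injective i] with x hx
  exact lt_max_of_lt_left hx

theorem gd_kz_lt : ∀ᶠ z in (G.prod : Filter (Set (XX K M) × Set (K ⊕ Θ))), G.kz z < G.hz z := by
  refine (gd_ev G _).2 ?_
  refine Eventually.of_forall fun y => ?_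
  filter_upwards [gd_h0 G (kF (XX.k (M := M)) y)] with x hx
  exact hx.trans (G.sc_lt _)

end Pool.Agent.Helper23.XB
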