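import Pool.Agent.Helper23.XB.B9

/-! # Project XB, module B10 -/

set_option autoImplicit false

namespace Pool.Agent.Helper23.XB

open Cardinal Filter Set Pool.Agent.Helper33.HM

universe u v w

variable {K C : Type u} [LinearOrder K] [Inac K] {𝔖 : Smp K C}

/-- B10: less than `#K` values are decided by a direct extension. -/
theorem decide_small [Nonempty C] {J : Type u} (hJ : #J < #K) (x : J → RO (Cnd 𝔖)) (p : Cnd 𝔖) :
    ∃ q, Dir q p ∧ ∀ j, q ∈ x j ∨ q ∈ (x j)ᶜ := by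
  obtain ⟨i0⟩ := (inferInstance : Nonempty K)
  obtain ⟨i1, hi⟩ := inac_exists_gt i0
  obtain ⟨q, A, hA, e, -, hdir, hdec⟩ := dp x (fun _ => i0)
    (fun i => (mk_set_le _).trans_lt hJ) p
  refine ⟨cn q tz {w | w ∈ A ∧ i1 < 𝔖.kz w} (above_mem A hA i1), ?_, fun j => ?_⟩
  · refine Dir.trans ?_ hdir
    exact ⟨Subset.rfl, fun _ _ => rfl, fun w hw => hw.1⟩
  · refine hdec i1 tz ?_ j hi
    intro c s h
    exact absurd h (by simp [tz])

end Pool.Agent.Helper23.XB
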