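import Pool.Agent.Helper23.XB.Defs

/-! # Project XB, module B2 -/

set_option autoImplicit false

namespace Pool.Agent.Helper23.XB

open Cardinal Filter Set Pool.Agent.Helper33.HM

universe u v w

variable {K C : Type u} [LinearOrder K] {𝔖 : Smp K C}

private theorem add_cn_f (q : Coh K C) (τ : C → Option (St K)) (A : Set 𝔖.Z) (hA : A ∈ 𝔖.F)
    (z : 𝔖.Z) : ((cn q τ A hA).add z).f = ov q (upm 𝔖 q τ z) := by
  classical
  funext c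
  change (if c ∈ q.d ∧ c ∈ 𝔖.S z then (ov q τ c).upd (𝔖.kz z) (𝔖.rep z c) else ov q τ c) = _
  by_cases hd : c ∈ q.d
  · have h1 : ∀ τ' : C → Option (St K), ov q τ' c = (τ' c).getD (q.f c) := fun τ' => by
      unfold ov
      rw [if_pos hd]
    by_cases hS : c ∈ 𝔖.S z
    · rw [if_pos ⟨hd, hS⟩]
      by_cases hB : Bel (ov q τ c).1 (𝔖.kz z)
      · rw [h1 (upm 𝔖 q τ z)]
        unfold upm
        rw [if_pos ⟨hd, hS, hB⟩]
        rfl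
      · rw [St.upd_neg _ hB, h1 (upm 𝔖 q τ z), h1 τ]
        unfold upm
        rw [if_neg fun h => hB h.2.2]
    · rw [if_neg fun h => hS h.2, h1 (upm 𝔖 q τ z), h1 τ]
      unfold upm
      rw [if_neg fun h => hS h.2.1]
  · rw [if_neg fun h => hd h.1]
    unfold ov
    rw [if_neg hd, if_neg hd]

theorem add_cn (q : Coh K C) (τ : C → Option (St K)) (A : Set 𝔖.Z) (hA : A ∈ 𝔖.F) (z : 𝔖.Z) :
    (cn q τ A hA).add z =
      cn q (upm 𝔖 q τ z) {w | w ∈ A ∧ 𝔖.hz z < 𝔖.kz w} (above_mem A hA _) := by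
  have h1 : ∀ p p' : Cnd 𝔖, p.d = p'.d → p.f = p'.f → p.A = p'.A → p = p' := by
    rintro ⟨d, f, A, _, _, _⟩ ⟨d', f', A', _, _, _⟩ rfl rfl rfl
    rfl
  exact h1 _ _ rfl (add_cn_f q τ A hA z) rfl

theorem upm_mem (𝔖 : Smp K C) (e : K → C) : ∀ᶠ z in (𝔖.F : Filter 𝔖.Z),
    ∀ q : Coh K C, q.d ⊆ range e → ∀ i ≤ 𝔖.kz z, ∀ τ ∈ OB e i, upm 𝔖 q τ z ∈ OB e (𝔖.hz z) := by
  classical
  filter_upwards [𝔖.enum e, 𝔖.kz_lt, 𝔖.rep_lt] with z h1 h2 h3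
  intro q hq i hi τ hτ c s hs
  unfold upm at hs
  by_cases hc : c ∈ q.d ∧ c ∈ 𝔖.S z ∧ Bel (ov q τ c).1 (𝔖.kz z)
  · rw [if_pos hc] at hs
    obtain ⟨hd, hS, hB⟩ := hc
    have hs' : (ov q τ c).upd (𝔖.kz z) (𝔖.rep z c) = s := Option.some.inj hs
    refine ⟨h1 c hS (hq hd), ?_⟩
    rw [← hs']
    intro b hb
    rw [St.upd_pos _ hB, List.mem_cons] at hb
    rcases hb with rfl | hb
    · exact ⟨h2, h3 c hS⟩
    · exact ⟨(hB b hb).1.trans h2, (hB b hb).2.trans h2⟩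
  · rw [if_neg hc] at hs
    obtain ⟨⟨j, hj, hjc⟩, hB⟩ := hτ c s hs
    have hih : i < 𝔖.hz z := lt_of_le_of_lt hi h2
    exact ⟨⟨j, hj.trans hih, hjc⟩, fun b hb => ⟨(hB b hb).1.trans hih, (hB b hb).2.trans hih⟩⟩

end Pool.Agent.Helper23.XB
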