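import Pool.Agent.Helper23.XB.Defs

/-! # Project XB, module B3 -/

set_option autoImplicit false

namespace Pool.Agent.Helper23.XB

open Cardinal Filter Set Pool.Agent.Helper33.HM

universe u v w

section

variable {D : Type v} [Preorder D] {I : Type w} [LinearOrder I] [WellFoundedLT I]
  (Q : I → D → D → Prop) (d₀ : D)

open Classical in
/-- The chain. -/
noncomputable def h9chain : I → D :=
  WellFounded.fix (C := fun _ => D) (r := ((· < ·) : I → I → Prop)) wellFounded_lt fun i g =>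
    if h : ∃ x : D × D, (∀ (j : I) (hj : j < i), g j hj ≤ x.1) ∧ d₀ ≤ x.1 ∧ x.1 ≤ x.2 ∧
      Q i x.1 x.2 then h.choose.2 else d₀

open Classical in
theorem h9chain_eq (i : I) : h9chain Q d₀ i =
    if h : ∃ x : D × D, (∀ (j : I) (_ : j < i), h9chain Q d₀ j ≤ x.1) ∧ d₀ ≤ x.1 ∧ x.1 ≤ x.2 ∧
      Q i x.1 x.2 then h.choose.2 else d₀ := by
  unfold h9chain
  rw [WellFounded.fix_eq]

end

theorem exists_chain {D : Type v} [Preorder D] {I : Type w} [LinearOrder I] [WellFoundedLT I]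
    (d₀ : D)
    (ub : ∀ (i : I) (f : Iio i → D), Monotone f → (∀ j, d₀ ≤ f j) → ∃ d, d₀ ≤ d ∧ ∀ j, f j ≤ d)
    (Q : I → D → D → Prop) (hQ : ∀ i d, d₀ ≤ d → ∃ d', d ≤ d' ∧ Q i d d') :
    ∃ f : I → D, Monotone f ∧ (∀ i, d₀ ≤ f i) ∧
      ∀ i, ∃ d, (∀ j < i, f j ≤ d) ∧ d₀ ≤ d ∧ d ≤ f i ∧ Q i d (f i) := by
  classical
  have key : ∀ i : I, d₀ ≤ h9chain Q d₀ i ∧ ∃ d, (∀ j < i, h9chain Q d₀ j ≤ d) ∧ d₀ ≤ d ∧
      d ≤ h9chain Q d₀ i ∧ Q i d (h9chain Q d₀ i) := by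
    intro i
    induction i using WellFoundedLT.induction with
    | _ i ih =>
      have hmono : Monotone (fun j : Iio i => h9chain Q d₀ j.1) := by
        intro j k hjk
        rcases (show j.1 ≤ k.1 from hjk).eq_or_lt with h | h
        · simp only [h]
          exact le_refl _
        · obtain ⟨-, d, hd, -, hd', -⟩ := ih k.1 k.2
          exact (hd j.1 h).trans hd'
      obtain ⟨d, hd0, hd⟩ := ub i _ hmono fun j => (ih j.1 j.2).1
      obtain ⟨d', hd', hQd⟩ := hQ i d hd0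
      have hex : ∃ x : D × D, (∀ (j : I) (_ : j < i), h9chain Q d₀ j ≤ x.1) ∧ d₀ ≤ x.1 ∧
          x.1 ≤ x.2 ∧ Q i x.1 x.2 :=
        ⟨(d, d'), fun j hj => hd ⟨j, hj⟩, hd0, hd', hQd⟩
      rw [h9chain_eq Q d₀ i, dif_pos hex]
      obtain ⟨h1, h2, h3, h4⟩ := hex.choose_spec
      exact ⟨h2.trans h3, hex.choose.1, h1, h2, h3, h4⟩
  refine ⟨h9chain Q d₀, ?_, fun i => (key i).1, fun i => (key i).2⟩
  intro j i hji
  rcases hji.eq_or_lt with h | h
  · rw [h]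
  · obtain ⟨-, d, hd, -, hd', -⟩ := key i
    exact (hd j h).trans hd'

end Pool.Agent.Helper23.XB
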