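import Pool.Agent.Helper23.XB.B0a

/-! # Project XB, module B4 -/

set_option autoImplicit false

namespace Pool.Agent.Helper23.XB

open Cardinal Filter Set Pool.Agent.Helper33.HM

universe u v w

variable {K C : Type u} [LinearOrder K] [Inac K]

theorem coh_union {ι : Type u} (hι : #ι ≤ #K) (q : ι → Coh K C)
    (h : ∀ i j, q i ≤ q j ∨ q j ≤ q i) :
    ∃ q' : Coh K C, q'.d = ⋃ i, (q i).d ∧ ∀ i, q i ≤ q' := by
  classical
  have hK : ℵ₀ ≤ #K := (Inac.inacc (K := K)).aleph0_lt.le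
  have hcard : #(⋃ i, (q i).d : Set C) ≤ #K := by
    refine (Cardinal.mk_iUnion_le_sum_mk).trans ?_
    refine (Cardinal.sum_le_sum _ (fun _ : ι => #K) fun i => (q i).card).trans ?_
    rw [Cardinal.sum_const']
    exact (mul_le_mul' hι le_rfl).trans (Cardinal.mul_eq_self hK).le
  refine ⟨⟨⋃ i, (q i).d, fun c => if hc : ∃ i, c ∈ (q i).d then (q hc.choose).f c else St.nil,
    hcard, ?_⟩, rfl, ?_⟩
  · intro c hc
    rw [dif_neg]
    rintro ⟨i, hi⟩
    exact hc (Set.mem_iUnion.2 ⟨i, hi⟩)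
  · intro i
    refine ⟨Set.subset_iUnion (fun i => (q i).d) i, fun c hc => ?_⟩
    have hex : ∃ i, c ∈ (q i).d := ⟨i, hc⟩
    change (if hc : ∃ i, c ∈ (q i).d then (q hc.choose).f c else St.nil) = (q i).f c
    rw [dif_pos hex]
    rcases h i hex.choose with h1 | h1
    · exact h1.2 c hc
    · exact (h1.2 c hex.choose_spec).symm

end Pool.Agent.Helper23.XB
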