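import Pool.Agent.Helper23.XB.B1
import Pool.Agent.Helper23.XB.B3
import Pool.Agent.Helper23.XB.B4

/-! # Project XB, module B5 -/

set_option autoImplicit false

namespace Pool.Agent.Helper23.XB

open Cardinal Filter Set Pool.Agent.Helper33.HM

universe u v w

variable {K C : Type u} [LinearOrder K] [Inac K] {𝔖 : Smp K C}

namespace B5Aux

omit [Inac K] in
theorem ov_eq_of_le {q q' : Coh K C} (h : q ≤ q') (τ : C → Option (St K)) {c : C} (hc : c ∈ q.d) :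
    ov q' τ c = ov q τ c := by
  unfold ov
  rw [if_pos (h.1 hc), if_pos hc, h.2 c hc]

omit [Inac K] in
theorem dir_cn {q q' : Coh K C} (h : q ≤ q') (τ : C → Option (St K)) (A : Set 𝔖.Z)
    (hA : A ∈ 𝔖.F) : Dir (cn q' τ A hA) (cn q τ A hA) :=
  ⟨h.1, fun _ hc => ov_eq_of_le h τ hc, Subset.rfl⟩

omit [Inac K] in
/-- The step: solve one task. -/
theorem step (U : Set (Cnd 𝔖)) (hU : DirLower U) (q₀ d : Coh K C) (hd : q₀ ≤ d)
    (τ : C → Option (St K)) (hτ : supp τ ⊆ q₀.d) :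
    ∃ d', d ≤ d' ∧ ((∃ r : Cnd 𝔖, d'.d ⊆ r.d ∧ (∀ c ∈ d'.d, r.f c = ov d' τ c) ∧ r ∈ U) →
      ∃ A hA, cn d' τ A hA ∈ U) := by
  classical
  by_cases h : ∃ r : Cnd 𝔖, d.d ⊆ r.d ∧ (∀ c ∈ d.d, r.f c = ov d τ c) ∧ r ∈ U
  · obtain ⟨r, hr1, hr2, hr3⟩ := h
    refine ⟨⟨r.d, fun c => if c ∈ d.d then d.f c else r.f c, r.card, fun c hc => ?_⟩,
      ⟨hr1, fun c hc => ?_⟩, fun _ => ⟨r.A, r.mem, ?_⟩⟩
    · rw [if_neg fun h => hc (hr1 h)]
      exact r.out c hc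
    · exact if_pos hc
    · refine hU r hr3 _ ⟨Subset.rfl, fun c hc => ?_, Subset.rfl⟩
      change ov _ τ c = r.f c
      unfold ov
      rw [if_pos hc]
      by_cases hcd : c ∈ d.d
      · have h1 := hr2 c hcd
        unfold ov at h1
        rw [if_pos hcd] at h1
        rw [h1]
        change (τ c).getD (if c ∈ d.d then d.f c else r.f c) = _
        rw [if_pos hcd]
      · have h1 : τ c = none := by
          by_contra h2
          exact hcd (hd.1 (hτ h2))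
        rw [h1]
        change (if c ∈ d.d then d.f c else r.f c) = _
        rw [if_neg hcd]
  · exact ⟨d, le_rfl, fun h' => (h h').elim⟩

theorem option_card {ι : Type u} (h : #ι ≤ #K) : #(Option ι) ≤ #K := by
  rw [mk_option]
  have h1 : ℵ₀ ≤ #K := (Inac.inacc (K := K)).aleph0_lt.le
  exact add_le_of_le h1 h (one_le_aleph0.trans h1)

theorem union' {ι : Type u} (hι : #ι ≤ #K) (q₀ : Coh K C) (q : ι → Coh K C)
    (h0 : ∀ i, q₀ ≤ q i) (h : ∀ i j, q i ≤ q j ∨ q j ≤ q i) :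
    ∃ q' : Coh K C, q₀ ≤ q' ∧ ∀ i, q i ≤ q' := by
  obtain ⟨q', -, h2⟩ := coh_union (option_card hι)
    (fun o : Option ι => o.elim q₀ q) (by
      rintro (_ | i) (_ | j)
      · exact Or.inl le_rfl
      · exact Or.inl (h0 j)
      · exact Or.inr (h0 i)
      · exact h i j)
  exact ⟨q', h2 none, fun i => h2 (some i)⟩

end B5Aux

/-- B5: one round. The tasks given by the small modifications of `q₀` are solved in a larger Cohen
part. -/
theorem exists_round {I : Type u} (hI : #I ≤ #K) (U : I → Set (Cnd 𝔖)) (hU : ∀ a, DirLower (U a))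
    (q₀ : Coh K C) : ∃ q, q₀ ≤ q ∧ ∀ a (τ : C → Option (St K)), #(supp τ) < #K → supp τ ⊆ q₀.d →
      (∃ r : Cnd 𝔖, q.d ⊆ r.d ∧ (∀ c ∈ q.d, r.f c = ov q τ c) ∧ r ∈ U a) →
        ∃ A hA, cn q τ A hA ∈ U a := by
  classical
  rcases isEmpty_or_nonempty C with hC | hC
  · refine ⟨q₀, le_rfl, fun a τ _ _ ⟨r, hr⟩ => ⟨r.A, r.mem, hU a r hr.2.2 _
      ⟨fun c _ => (hC.false c).elim, fun c _ => (hC.false c).elim, Subset.rfl⟩⟩⟩
  obtain ⟨e, he⟩ := exists_enum K q₀.d q₀.card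
  let J : Type u := {x : I × (C → Option (St K)) // #(supp x.2) < #K ∧ supp x.2 ⊆ q₀.d}
  have hJ : #J ≤ #K := by
    let g : J → I × {τ : C → Option (St K) | #(supp τ) < #K ∧ supp τ ⊆ range e} := fun x =>
      (x.1.1, ⟨x.1.2, x.2.1, x.2.2.trans he⟩)
    have hg : Function.Injective g := by
      intro x y hxy
      have h1 := congrArg Prod.fst hxy
      have h2 := congrArg (fun z => (Prod.snd z).1) hxy
      exact Subtype.ext (Prod.ext h1 h2)
    refine (mk_le_of_injective hg).trans ?_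
    rw [mk_prod, lift_id, lift_id]
    exact (mul_le_mul' hI (mod_card e)).trans inac_mul_self.le
  letI : LinearOrder J := linearOrderOfSTO (WellOrderingRel (α := J))
  haveI : WellFoundedLT J := ⟨WellOrderingRel.isWellOrder.wf⟩
  obtain ⟨f, hf1, hf2, hf3⟩ := exists_chain (D := Coh K C) (I := J) q₀
    (fun i g hg h0 => B5Aux.union' ((mk_set_le _).trans hJ) q₀ g h0
      (fun j k => (le_total j k).imp (fun h => hg h) (fun h => hg h)))
    (fun x _ d' => (∃ r : Cnd 𝔖, d'.d ⊆ r.d ∧ (∀ c ∈ d'.d, r.f c = ov d' x.1.2 c) ∧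
      r ∈ U x.1.1) → ∃ A hA, cn d' x.1.2 A hA ∈ U x.1.1)
    (fun x d hd => B5Aux.step (U x.1.1) (hU _) q₀ d hd x.1.2 x.2.2)
  obtain ⟨q, hq0, hq⟩ := B5Aux.union' hJ q₀ f hf2
    (fun j k => (le_total j k).imp (fun h => hf1 h) (fun h => hf1 h))
  refine ⟨q, hq0, fun a τ h1 h2 ⟨r, hr1, hr2, hr3⟩ => ?_⟩
  let j : J := ⟨(a, τ), h1, h2⟩
  obtain ⟨d, -, -, -, hd⟩ := hf3 j
  have hj := hq j
  obtain ⟨A, hA, hA'⟩ := hd ⟨r, hj.1.trans hr1, fun c hc =>
    (hr2 c (hj.1 hc)).trans (B5Aux.ov_eq_of_le hj τ hc), hr3⟩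
  exact ⟨A, hA, hU a _ hA' _ (B5Aux.dir_cn hj τ A hA)⟩

end Pool.Agent.Helper23.XB
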