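import Pool.Agent.Helper23.XB.B5

/-! # Project XB, module B6 -/

set_option autoImplicit false

namespace Pool.Agent.Helper23.XB

open Cardinal Filter Set Pool.Agent.Helper33.HM

universe u v w

variable {K C : Type u} [LinearOrder K] [Inac K] {𝔖 : Smp K C}

/-- B6. -/
theorem exists_solved {I : Type u} (hI : #I ≤ #K) (U : I → Set (Cnd 𝔖)) (hU : ∀ a, DirLower (U a))
    (q₀ : Coh K C) : ∃ q, q₀ ≤ q ∧ ∀ a, Solved q (U a) := by
  classical
  obtain ⟨f, hf1, hf2, hf3⟩ := exists_chain (D := Coh K C) (I := K) q₀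
    (fun i g hg h0 => B5Aux.union' (mk_set_le _) q₀ g h0
      (fun j k => (le_total j k).imp (fun h => hg h) (fun h => hg h)))
    (fun _ d d' => ∀ a (τ : C → Option (St K)), #(supp τ) < #K → supp τ ⊆ d.d →
      (∃ r : Cnd 𝔖, d'.d ⊆ r.d ∧ (∀ c ∈ d'.d, r.f c = ov d' τ c) ∧ r ∈ U a) →
        ∃ A hA, cn d' τ A hA ∈ U a)
    (fun _ d _ => exists_round hI U hU d)
  obtain ⟨q, hqd, hq⟩ := coh_union (le_refl #K) f
    (fun j k => (le_total j k).imp (fun h => hf1 h) (fun h => hf1 h))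
  obtain ⟨i₀⟩ := (inferInstance : Nonempty K)
  refine ⟨q, (hf2 i₀).trans (hq i₀), fun a τ hτ hr => ?_⟩
  obtain ⟨r, hr1, hr2, hr3⟩ := hr
  set τ' : C → Option (St K) := fun c => if c ∈ q.d then τ c else none with hτ'
  have hs1 : supp τ' ⊆ supp τ := by
    intro c hc h
    refine hc ?_
    rw [hτ']
    change (if c ∈ q.d then τ c else none) = none
    split_ifs
    · exact h
    · rfl
  have hs2 : supp τ' ⊆ q.d := by
    intro c hc
    by_contra h
    refine hc ?_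
    change (if c ∈ q.d then τ c else none) = none
    rw [if_neg h]
  have hs3 : #(supp τ') < #K := (mk_le_mk_of_subset hs1).trans_lt hτ
  have hov : ov q τ = ov q τ' := by
    funext c
    unfold ov
    by_cases hc : c ∈ q.d
    · rw [if_pos hc, if_pos hc]
      change (τ c).getD (q.f c) = (if c ∈ q.d then τ c else none).getD (q.f c)
      rw [if_pos hc]
    · rw [if_neg hc, if_neg hc]
  have hi : ∀ c : supp τ', ∃ i, (c : C) ∈ (f i).d := by
    intro c
    have h1 := hs2 c.2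
    rw [hqd, mem_iUnion] at h1
    exact h1
  choose ix hix using hi
  obtain ⟨b, hb⟩ := inac_bdd (range ix) (mk_range_le.trans_lt hs3)
  have hsb : supp τ' ⊆ (f b).d := fun c hc =>
    (hf1 (hb (ix ⟨c, hc⟩) (mem_range_self _)).le).1 (hix ⟨c, hc⟩)
  obtain ⟨i', hi'⟩ := inac_exists_gt b
  obtain ⟨d, hd1, -, hd3, hd4⟩ := hf3 i'
  obtain ⟨A, hA, hA'⟩ := hd4 a τ' hs3 (hsb.trans (hd1 b hi').1) ⟨r, (hq i').1.trans hr1,
    fun c hc => by rw [hr2 c ((hq i').1 hc), hov, B5Aux.ov_eq_of_le (hq i') τ' hc], hr3⟩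
  have h1 := hU a _ hA' _ (B5Aux.dir_cn (hq i') τ' A hA)
  refine ⟨A, hA, hU a _ h1 _ ⟨Subset.rfl, fun c _ => ?_, Subset.rfl⟩⟩
  change ov q τ c = ov q τ' c
  rw [hov]

end Pool.Agent.Helper23.XB
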