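import Pool.Agent.Helper23.XB.B1
import Pool.Agent.Helper23.XB.B2

/-! # Project XB, module B7 -/

set_option autoImplicit false

namespace Pool.Agent.Helper23.XB

open Cardinal Filter Set Pool.Agent.Helper33.HM

universe u v w

variable {K C : Type u} [LinearOrder K] [Inac K] {𝔖 : Smp K C}

namespace B7

/-- Some condition with the Cohen part `q` modified by `τ` belongs to `V`. -/
def Yes (V : RO (Cnd 𝔖)) (q : Coh K C) (τ : C → Option (St K)) : Prop :=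
  ∃ A hA, cn q τ A hA ∈ V

theorem yes_of_subset {V : RO (Cnd 𝔖)} {q : Coh K C} {τ : C → Option (St K)} {A A' : Set 𝔖.Z}
    {hA : A ∈ 𝔖.F} {hA' : A' ∈ 𝔖.F} (h : cn q τ A hA ∈ V) (hs : A' ⊆ A) : cn q τ A' hA' ∈ V :=
  have hd : Dir (cn q τ A' hA') (cn q τ A hA) := ⟨Subset.rfl, fun _ _ => rfl, hs⟩
  RO.mem_lower hd.le h

/-- Normality and completeness together. -/
theorem diag (e : K → C) (p : (C → Option (St K)) → 𝔖.Z → Prop)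
    (h : ∀ i, ∀ τ ∈ OB e i, ∀ᶠ z in (𝔖.F : Filter 𝔖.Z), p τ z) :
    ∀ᶠ z in (𝔖.F : Filter 𝔖.Z), ∀ i < 𝔖.kz z, ∀ τ ∈ OB e i, p τ z := by
  refine 𝔖.normal (fun i z => ∀ τ ∈ OB e i, p τ z) fun i => ?_
  have h1 := 𝔖.complete (OB e i) (fun τ => {z | p τ.1 z}) (ob_card e i) fun τ => h i τ.1 τ.2
  refine Filter.mem_of_superset h1 fun z hz τ hτ => ?_
  exact Set.mem_iInter.1 hz ⟨τ, hτ⟩

open Classical in
/-- If almost all one-sample extensions are decided positively then so is the modification. -/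
theorem yes_of_ae (V : RO (Cnd 𝔖)) (q : Coh K C) (e : K → C) (he : q.d ⊆ range e) {i : K}
    {τ : C → Option (St K)} (hτ : τ ∈ OB e i)
    (h : ∀ᶠ z in (𝔖.F : Filter 𝔖.Z), Yes V q (upm 𝔖 q τ z)) : Yes V q τ := by
  have hB : ∀ τ : C → Option (St K), ∃ B : Set 𝔖.Z, B ∈ 𝔖.F ∧
      (Yes V q τ → ∀ hA : B ∈ 𝔖.F, cn q τ B hA ∈ V) := by
    intro τ
    by_cases hy : Yes V q τ
    · obtain ⟨A, hA, hV⟩ := hy
      exact ⟨A, hA, fun _ _ => hV⟩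
    · exact ⟨univ, Filter.univ_mem, fun h => absurd h hy⟩
  choose B hBF hBV using hB
  have hd := diag (𝔖 := 𝔖) e (fun τ z => z ∈ B τ) fun i τ _ => hBF τ
  have hall : {z | z ∈ {z | (∀ i ≤ 𝔖.kz z, ∀ τ ∈ OB e i, upm 𝔖 q τ z ∈ OB e (𝔖.hz z)) ∧
      (∀ i < 𝔖.kz z, ∀ τ ∈ OB e i, z ∈ B τ) ∧ Yes V q (upm 𝔖 q τ z)} ∧ i < 𝔖.kz z} ∈ 𝔖.F := by
    refine above_mem _ ?_ i
    have h2 := upm_mem 𝔖 e
    have h3 : ∀ᶠ z in (𝔖.F : Filter 𝔖.Z),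
        (∀ i ≤ 𝔖.kz z, ∀ τ ∈ OB e i, upm 𝔖 q τ z ∈ OB e (𝔖.hz z)) ∧
      (∀ i < 𝔖.kz z, ∀ τ ∈ OB e i, z ∈ B τ) ∧ Yes V q (upm 𝔖 q τ z) := by
      filter_upwards [h2, hd, h] with z hz1 hz2 hz3
      exact ⟨fun i hi τ hτ => hz1 q he i hi τ hτ, hz2, hz3⟩
    exact h3
  refine ⟨_, hall, ?_⟩
  have step : ∀ z ∈ (cn q τ _ hall).A, (cn q τ _ hall).add z ∈ V := by
    intro z hz
    obtain ⟨⟨hz1, hz2, hz3⟩, hz4⟩ := hz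
    rw [add_cn]
    have hm : upm 𝔖 q τ z ∈ OB e (𝔖.hz z) := hz1 i hz4.le τ hτ
    refine yes_of_subset (hBV _ hz3 (hBF _)) ?_
    rintro w ⟨⟨⟨_, hw2, _⟩, _⟩, hw4⟩
    exact hw2 _ hw4 _ hm
  refine RO.mem_reg fun r hr => ?_
  rw [le_iff_ext] at hr
  cases hr with
  | dir h =>
    have hne : r.A.Nonempty := 𝔖.F.nonempty_of_mem r.mem
    obtain ⟨z, hz⟩ := hne
    refine ⟨r.add z, add_le hz, ?_⟩
    exact RO.mem_lower (Dir.le (Dir.add h z)) (step z (h.2.2 hz))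
  | step z hz h =>
    exact ⟨r, le_rfl, RO.mem_lower h (step z hz)⟩

end B7

open B7 in
/-- B7. -/
theorem pp0 [Nonempty C] (U : RO (Cnd 𝔖)) (q : Coh K C) (h1 : Solved q {p : Cnd 𝔖 | p ∈ U})
    (h2 : Solved q {p : Cnd 𝔖 | p ∈ Uᶜ}) :
    ∃ A hA, cn q tz A hA ∈ U ∨ cn q tz A hA ∈ Uᶜ := by
  classical
  obtain ⟨e, he⟩ := exists_enum K q.d q.card
  by_cases hY : Yes U q tz
  · obtain ⟨A, hA, h⟩ := hY
    exact ⟨A, hA, Or.inl h⟩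
  by_cases hN : Yes Uᶜ q tz
  · obtain ⟨A, hA, h⟩ := hN
    exact ⟨A, hA, Or.inr h⟩
  exfalso
  have hc : ∀ i, ∀ τ ∈ OB e i, ∀ᶠ z in (𝔖.F : Filter 𝔖.Z),
      (¬ Yes U q τ ∧ ¬ Yes Uᶜ q τ) → (¬ Yes U q (upm 𝔖 q τ z) ∧ ¬ Yes Uᶜ q (upm 𝔖 q τ z)) := by
    intro i τ hτ
    by_cases hn : ¬ Yes U q τ ∧ ¬ Yes Uᶜ q τ
    · have h3 : ∀ᶠ z in (𝔖.F : Filter 𝔖.Z), ¬ Yes U q (upm 𝔖 q τ z) := by
        rw [Ultrafilter.eventually_not]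
        exact fun h => hn.1 (yes_of_ae U q e he hτ h)
      have h4 : ∀ᶠ z in (𝔖.F : Filter 𝔖.Z), ¬ Yes Uᶜ q (upm 𝔖 q τ z) := by
        rw [Ultrafilter.eventually_not]
        exact fun h => hn.2 (yes_of_ae Uᶜ q e he hτ h)
      filter_upwards [h3, h4] with z hz3 hz4
      exact fun _ => ⟨hz3, hz4⟩
    · exact Filter.Eventually.of_forall fun z h => absurd h hn
  have hA3 := diag (𝔖 := 𝔖) e _ hc
  have claim : ∀ r c : Cnd 𝔖, Ext r c → ∀ (τ : C → Option (St K)) (i : K) (A : Set 𝔖.Z)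
      (hA : A ∈ 𝔖.F), c = cn q τ A hA → τ ∈ OB e i → (¬ Yes U q τ ∧ ¬ Yes Uᶜ q τ) →
      (∀ w ∈ A, i < 𝔖.kz w ∧ (∀ i ≤ 𝔖.kz w, ∀ τ ∈ OB e i, upm 𝔖 q τ w ∈ OB e (𝔖.hz w)) ∧
        ∀ i < 𝔖.kz w, ∀ τ ∈ OB e i, (¬ Yes U q τ ∧ ¬ Yes Uᶜ q τ) →
          (¬ Yes U q (upm 𝔖 q τ w) ∧ ¬ Yes Uᶜ q (upm 𝔖 q τ w))) → r ∉ U ∧ r ∉ Uᶜ := by
    intro r c hrc
    induction hrc with
    | dir h =>
      intro τ i A hA hcA hτ hn hAll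
      subst hcA
      have hs := ob_supp hτ
      constructor
      · intro hr
        exact hn.1 (h1 τ hs ⟨_, h.1, h.2.1, hr⟩)
      · intro hr
        exact hn.2 (h2 τ hs ⟨_, h.1, h.2.1, hr⟩)
    | step z hz _ ih =>
      intro τ i A hA hcA hτ hn hAll
      subst hcA
      have hz' : z ∈ A := hz
      obtain ⟨hz1, hz2, hz3⟩ := hAll z hz'
      refine ih (upm 𝔖 q τ z) (𝔖.hz z) {w | w ∈ A ∧ 𝔖.hz z < 𝔖.kz w} (above_mem A hA _)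
        (add_cn q τ A hA z) (hz2 i hz1.le τ hτ) (hz3 i hz1 τ hτ hn) ?_
      rintro w ⟨hw, hw'⟩
      exact ⟨hw', (hAll w hw).2⟩
  obtain ⟨i₀⟩ : Nonempty K := inferInstance
  have htz : (tz : C → Option (St K)) ∈ OB e i₀ := by
    intro c s hcs
    simp [tz] at hcs
  have hup := upm_mem 𝔖 e
  have hAF : {w | w ∈ {w | (∀ i ≤ 𝔖.kz w, ∀ τ ∈ OB e i, upm 𝔖 q τ w ∈ OB e (𝔖.hz w)) ∧
        ∀ i < 𝔖.kz w, ∀ τ ∈ OB e i, (¬ Yes U q τ ∧ ¬ Yes Uᶜ q τ) →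
          (¬ Yes U q (upm 𝔖 q τ w) ∧ ¬ Yes Uᶜ q (upm 𝔖 q τ w))} ∧ i₀ < 𝔖.kz w} ∈ 𝔖.F := by
    refine above_mem _ ?_ i₀
    have h3 : ∀ᶠ w in (𝔖.F : Filter 𝔖.Z),
        (∀ i ≤ 𝔖.kz w, ∀ τ ∈ OB e i, upm 𝔖 q τ w ∈ OB e (𝔖.hz w)) ∧
        ∀ i < 𝔖.kz w, ∀ τ ∈ OB e i, (¬ Yes U q τ ∧ ¬ Yes Uᶜ q τ) →
          (¬ Yes U q (upm 𝔖 q τ w) ∧ ¬ Yes Uᶜ q (upm 𝔖 q τ w)) := by
      filter_upwards [hup, hA3] with w hw1 hw2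
      exact ⟨fun i hi τ hτ => hw1 q he i hi τ hτ, hw2⟩
    exact h3
  have hfin : ∀ r : Cnd 𝔖, r ≤ cn q tz _ hAF → r ∉ U ∧ r ∉ Uᶜ := by
    intro r hr
    exact claim r _ hr tz i₀ _ hAF rfl htz ⟨hY, hN⟩ fun w hw => ⟨hw.2, hw.1⟩
  exact (hfin _ le_rfl).2 (RO.mem_compl.2 fun r hr => (hfin r hr).1)

end Pool.Agent.Helper23.XB
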