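import Pool.Agent.Helper23.XB.B7

/-! # Project XB, module B8 -/

set_option autoImplicit false

namespace Pool.Agent.Helper23.XB

open Cardinal Filter Set Pool.Agent.Helper33.HM

universe u v w

variable {K C : Type u} [LinearOrder K] [Inac K] {𝔖 : Smp K C}

/-- The Cohen part `q` modified by `τ`. -/
private noncomputable def modc (q : Coh K C) (τ : C → Option (St K)) : Coh K C where
  d := q.d
  f := ov q τ
  card := q.card
  out c hc := by unfold ov; rw [if_neg hc]

/-- The combination of two modifications. -/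
private def comb (τ' τ : C → Option (St K)) : C → Option (St K) := fun c => (τ' c).orElse fun _ => τ c

private theorem ov_modc (q : Coh K C) (τ τ' : C → Option (St K)) (c : C) :
    ov (modc q τ) τ' c = ov q (comb τ' τ) c := by
  classical
  change (if c ∈ q.d then (τ' c).getD (ov q τ c) else St.nil) =
    (if c ∈ q.d then ((τ' c).orElse fun _ => τ c).getD (q.f c) else St.nil)
  by_cases hc : c ∈ q.d
  · rw [if_pos hc, if_pos hc]
    cases h : τ' c with
    | none =>
      change ov q τ c = (τ c).getD (q.f c)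
      unfold ov
      rw [if_pos hc]
    | some s => rfl
  · rw [if_neg hc, if_neg hc]

private theorem cn_modc (q : Coh K C) (τ τ' : C → Option (St K)) (A : Set 𝔖.Z) (hA : A ∈ 𝔖.F) :
    (cn (modc q τ) τ' A hA : Cnd 𝔖) = cn q (comb τ' τ) A hA := by
  have h : ov (modc q τ) τ' = ov q (comb τ' τ) := funext fun c => ov_modc q τ τ' c
  unfold cn
  congr 1

private theorem supp_comb (τ' τ : C → Option (St K)) (h' : #(supp τ') < #K) (h : #(supp τ) < #K) :
    #(supp (comb τ' τ)) < #K := by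
  have h1 : supp (comb τ' τ) ⊆ supp τ' ∪ supp τ := by
    intro c hc
    by_contra hn
    simp only [mem_union, not_or, supp, mem_ofPred_eq, ne_eq, not_not] at hn
    apply hc
    change (τ' c).orElse (fun _ => τ c) = none
    rw [hn.1, hn.2]
    rfl
  refine lt_of_le_of_lt (mk_le_mk_of_subset h1) (lt_of_le_of_lt (mk_union_le _ _) ?_)
  exact add_lt_of_lt (Inac.inacc (K := K)).isRegular.aleph0_le h' h

private theorem solved_modc (q : Coh K C) (τ : C → Option (St K)) (hτ : #(supp τ) < #K)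
    {U : Set (Cnd 𝔖)} (h : Solved q U) : Solved (modc q τ) U := by
  rintro τ' hτ' ⟨r, hr1, hr2, hr3⟩
  obtain ⟨A, hA, hU⟩ := h (comb τ' τ) (supp_comb τ' τ hτ' hτ)
    ⟨r, hr1, fun c hc => (hr2 c hc).trans (ov_modc q τ τ' c), hr3⟩
  exact ⟨A, hA, by rw [cn_modc]; exact hU⟩

/-- B8. -/
theorem pp [Nonempty C] (U : RO (Cnd 𝔖)) (q : Coh K C) (h1 : Solved q {p : Cnd 𝔖 | p ∈ U})
    (h2 : Solved q {p : Cnd 𝔖 | p ∈ Uᶜ}) (τ : C → Option (St K)) (hτ : #(supp τ) < #K) :
    ∃ A hA, cn q τ A hA ∈ U ∨ cn q τ A hA ∈ Uᶜ := by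
  obtain ⟨A, hA, h⟩ := pp0 U (modc q τ) (solved_modc q τ hτ h1) (solved_modc q τ hτ h2)
  refine ⟨A, hA, ?_⟩
  rw [cn_modc] at h
  exact h

end Pool.Agent.Helper23.XB
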