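import Pool.Agent.Helper23.XB.B6
import Pool.Agent.Helper23.XB.B8

/-! # Project XB, module B9 -/

set_option autoImplicit false

namespace Pool.Agent.Helper23.XB

open Cardinal Filter Set Pool.Agent.Helper33.HM

universe u v w

variable {K C : Type u} [LinearOrder K] [Inac K] {𝔖 : Smp K C}

namespace B9Aux

omit [Inac K] in
theorem dirLower_ro (U : RO (Cnd 𝔖)) : DirLower {p : Cnd 𝔖 | p ∈ U} :=
  fun _ hp _ hq => RO.mem_lower hq.le hp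

omit [Inac K] in
theorem dir_sub (q : Coh K C) (τ : C → Option (St K)) {A B : Set 𝔖.Z} (hA : A ∈ 𝔖.F)
    (hB : B ∈ 𝔖.F) (h : A ⊆ B) : cn q τ A hA ≤ cn q τ B hB :=
  Dir.le ⟨Subset.rfl, fun _ _ => rfl, h⟩

theorem card_index {I : Type u} (ℓ : I → K) (hI : ∀ i, #{a | ℓ a < i} < #K) : #I ≤ #K := by
  have h1 : ∀ a : I, ∃ i, ℓ a < i := fun a => inac_exists_gt (ℓ a)
  choose g hg using h1
  let f : I → Σ i : K, {a | ℓ a < i} := fun a => ⟨g a, a, hg a⟩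
  have hf : Function.Injective f := by
    intro a b hab
    have h2 := congrArg (fun x : Σ i : K, {a | ℓ a < i} => x.2.1) hab
    exact h2
  refine (mk_le_of_injective hf).trans ?_
  rw [mk_sigma]
  refine (sum_le_sum _ (fun _ => #K) fun i => (hI i).le).trans ?_
  simp only [sum_const, lift_id]
  exact inac_mul_self.le

end B9Aux

/-- B9: diagonal decisions. -/
theorem dp [Nonempty C] {I : Type u} (U : I → RO (Cnd 𝔖)) (ℓ : I → K)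
    (hI : ∀ i, #{a | ℓ a < i} < #K) (p : Cnd 𝔖) :
    ∃ (q : Coh K C) (A : Set 𝔖.Z) (hA : A ∈ 𝔖.F) (e : K → C), q.d ⊆ range e ∧
      Dir (cn q tz A hA) p ∧
      ∀ i, ∀ τ ∈ OB e i, ∀ a, ℓ a < i →
        cn q τ {w | w ∈ A ∧ i < 𝔖.kz w} (above_mem A hA i) ∈ U a ∨
        cn q τ {w | w ∈ A ∧ i < 𝔖.kz w} (above_mem A hA i) ∈ (U a)ᶜ := by
  classical
  have hK : ℵ₀ ≤ #K := (Inac.inacc (K := K)).aleph0_lt.le
  have hIK : #I ≤ #K := B9Aux.card_index ℓ hI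
  have hII : #(I ⊕ I) ≤ #K := by
    simp only [mk_sum, lift_id]
    exact add_le_of_le hK hIK hIK
  obtain ⟨q, hq0, hq⟩ := exists_solved (𝔖 := 𝔖) hII
    (Sum.elim (fun a => {p : Cnd 𝔖 | p ∈ U a}) (fun a => {p : Cnd 𝔖 | p ∈ (U a)ᶜ}))
    (by
      rintro (a | a)
      · exact B9Aux.dirLower_ro (U a)
      · exact B9Aux.dirLower_ro (U a)ᶜ)
    ⟨p.d, p.f, p.card, p.out⟩
  obtain ⟨e, he⟩ := exists_enum K q.d q.card
  have h1 : ∀ (τ : C → Option (St K)) (a : I), ∃ B : Set 𝔖.Z, B ∈ 𝔖.F ∧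
      (#(supp τ) < #K → ∃ hB : B ∈ 𝔖.F, cn q τ B hB ∈ U a ∨ cn q τ B hB ∈ (U a)ᶜ) := by
    intro τ a
    by_cases h : #(supp τ) < #K
    · obtain ⟨A, hA, hA'⟩ := pp (U a) q (hq (Sum.inl a)) (hq (Sum.inr a)) τ h
      exact ⟨A, hA, fun _ => ⟨hA, hA'⟩⟩
    · exact ⟨univ, Filter.univ_mem, fun h' => (h h').elim⟩
  choose B hBF hB using h1
  have hA : {z | z ∈ p.A ∧ ∀ i < 𝔖.kz z, ∀ τ ∈ OB e i, ∀ a, ℓ a < i → z ∈ B τ a} ∈ 𝔖.F := by
    refine Filter.inter_mem p.mem (𝔖.normal _ fun i => ?_)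
    have h2 : #(OB e i × {a | ℓ a < i}) < #K := by
      rw [mk_prod, lift_id, lift_id]
      exact mul_lt_of_lt hK (ob_card e i) (hI i)
    have h3 := 𝔖.complete (OB e i × {a | ℓ a < i}) (fun x => B x.1.1 x.2.1) h2
      fun x => hBF _ _
    filter_upwards [h3] with z hz τ hτ a ha
    exact mem_iInter.1 hz (⟨τ, hτ⟩, ⟨a, ha⟩)
  refine ⟨q, _, hA, e, he, ⟨hq0.1, fun c hc => ?_, fun z hz => hz.1⟩, fun i τ hτ a ha => ?_⟩
  · change ov q tz c = p.f c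
    unfold ov
    rw [if_pos (hq0.1 hc)]
    exact hq0.2 c hc
  · obtain ⟨hB1, hB2⟩ := hB τ a (ob_supp hτ)
    have h4 := B9Aux.dir_sub q τ (above_mem _ hA i) hB1
      (fun w (hw : w ∈ {w | w ∈ {z | z ∈ p.A ∧ ∀ i < 𝔖.kz z, ∀ τ ∈ OB e i, ∀ a, ℓ a < i →
        z ∈ B τ a} ∧ i < 𝔖.kz w}) => hw.1.2 i hw.2 τ hτ a ha)
    exact hB2.imp (RO.mem_lower h4) (RO.mem_lower h4)

end Pool.Agent.Helper23.XB
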