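import Pool.Agent.Helper23.XB.Defs
import Mathlib.Data.W.Cardinal

/-! # Project XB, module C1 -/

set_option autoImplicit false

namespace Pool.Agent.Helper23.XB

open Cardinal Filter Set Pool.Agent.Helper33.HM

universe u v w

namespace H93

/-- The arities: one constant and `A` many operations of arity `B`. -/
private def ar (A B : Type u) : Option A → Type u
  | none => PEmpty
  | some _ => B

private noncomputable def evW {X A B : Type u} (x0 : X) (h : Set X → A → X) :
    WType (ar A B) → X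
  | ⟨none, _⟩ => x0
  | ⟨some a, f⟩ => h (range fun b : B => evW x0 h (f b)) a

private theorem card_wt {A B : Type u} {κ : Cardinal.{u}} (hκ : ℵ₀ ≤ κ) (hA : #A = 2 ^ κ)
    (hB : #B = κ) : #(WType (ar A B)) ≤ 2 ^ κ := by
  refine WType.cardinalMk_le_of_le ?_
  have h1 : (Cardinal.sum fun a : Option A => (2 ^ κ : Cardinal.{u}) ^ #(ar A B a)) ≤
      Cardinal.sum fun _ : Option A => (2 ^ κ : Cardinal.{u}) := by
    refine Cardinal.sum_le_sum _ _ ?_
    rintro (_ | a)
    · have : #(ar A B none) = 0 := by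
        change #PEmpty = 0
        exact mk_eq_zero _
      rw [this, power_zero]
      exact Cardinal.one_le_iff_pos.2 (lt_of_lt_of_le aleph0_pos (hκ.trans (cantor κ).le))
    · have : #(ar A B (some a)) = κ := hB
      rw [this, ← power_mul, mul_eq_self hκ]
  refine h1.trans ?_
  rw [Cardinal.sum_const', mk_option, hA]
  have h2 : ℵ₀ ≤ (2 : Cardinal.{u}) ^ κ := hκ.trans (cantor κ).le
  rw [add_one_eq h2, mul_eq_self h2]

end H93

/-- C1: closure under a function on the sets of size at most `κ`. -/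
theorem exists_closed {X : Type u} (κ : Cardinal.{u}) (hκ : ℵ₀ ≤ κ) (Φ : Set X → Set X)
    (hΦ : ∀ s : Set X, #s ≤ κ → #(Φ s) ≤ 2 ^ κ) :
    ∃ D : Set X, #D ≤ 2 ^ κ ∧ ∀ s ⊆ D, #s ≤ κ → Φ s ⊆ D := by
  classical
  rcases isEmpty_or_nonempty X with hX | ⟨⟨x0⟩⟩
  · exact ⟨∅, by simp, fun s _ _ x _ => isEmptyElim x⟩
  have h2 : ℵ₀ ≤ (2 : Cardinal.{u}) ^ κ := hκ.trans (cantor κ).le
  let B : Type u := κ.out
  let A : Type u := ((2 : Cardinal.{u}) ^ κ).out
  have hA : #A = 2 ^ κ := mk_out _
  have hB : #B = κ := mk_out _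
  have hcov : ∀ s : Set X, ∃ h : A → X, #s ≤ κ → Φ s ∪ Φ ∅ ⊆ range h := by
    intro s
    by_cases hs : #s ≤ κ
    · have hc : #(Φ s ∪ Φ ∅ : Set X) ≤ #A := by
        rw [hA]
        refine (mk_union_le _ _).trans ?_
        refine (add_le_add (hΦ s hs) (hΦ ∅ (by simp))).trans ?_
        rw [add_eq_self h2]
      obtain ⟨i⟩ := hc
      refine ⟨fun a => if ha : ∃ y, i y = a then (ha.choose : X) else x0, fun _ y hy => ?_⟩
      refine ⟨i ⟨y, hy⟩, ?_⟩
      have ha : ∃ y', i y' = i ⟨y, hy⟩ := ⟨_, rfl⟩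
      change (if ha : ∃ y', i y' = i ⟨y, hy⟩ then (ha.choose : X) else x0) = y
      rw [dif_pos ha]
      exact congrArg Subtype.val (i.injective ha.choose_spec)
    · exact ⟨fun _ => x0, fun h => absurd h hs⟩
  choose h hh using hcov
  let ev : WType (H93.ar A B) → X := H93.evW x0 h
  have hne : Nonempty B := mk_ne_zero_iff.1 (by rw [hB]; exact (lt_of_lt_of_le aleph0_pos hκ).ne')
  have hx0 : x0 ∈ range ev := ⟨⟨none, fun b => PEmpty.elim b⟩, by
    change H93.evW x0 h _ = x0
    rw [H93.evW]⟩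
  have key : ∀ s : Set X, s.Nonempty → s ⊆ range ev → #s ≤ κ → Φ s ∪ Φ ∅ ⊆ range ev := by
    intro s hs hsD hsκ
    have hg : ∃ g : B → X, range g = s := by
      have : #s ≤ #B := by rw [hB]; exact hsκ
      obtain ⟨i⟩ := this
      have : Nonempty s := hs.to_subtype
      refine ⟨fun b => (Function.invFun i b : s), ?_⟩
      have hsur := Function.invFun_surjective i.injective
      ext y
      constructor
      · rintro ⟨b, rfl⟩
        exact Subtype.coe_prop _
      · intro hy
        obtain ⟨b, hb⟩ := hsur ⟨y, hy⟩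
        exact ⟨b, congrArg Subtype.val hb⟩
    obtain ⟨g, hg⟩ := hg
    have hg' : ∀ b, ∃ w, ev w = g b := fun b => hsD (hg ▸ mem_range_self b)
    choose f hf using hg'
    intro y hy
    obtain ⟨a, ha⟩ := hh s hsκ hy
    refine ⟨⟨some a, f⟩, ?_⟩
    change H93.evW x0 h _ = y
    rw [H93.evW]
    have : (fun b : B => H93.evW x0 h (f b)) = g := funext hf
    rw [this, hg, ha]
  refine ⟨range ev, ?_, ?_⟩
  · exact mk_range_le.trans (H93.card_wt hκ hA hB)
  · intro s hs hsκ
    rcases s.eq_empty_or_nonempty with rfl | hne'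
    · exact subset_union_right.trans (key {x0} (singleton_nonempty _)
        (singleton_subset_iff.2 hx0) (by
          rw [mk_singleton]
          exact one_le_aleph0.trans hκ))
    · exact subset_union_left.trans (key s hne' hs hsκ)

end Pool.Agent.Helper23.XB
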