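import Pool.Agent.Helper23.XB.C1
import Pool.Agent.Helper23.XB.B0a

/-! # Project XB, module C2 -/

set_option autoImplicit false

namespace Pool.Agent.Helper23.XB

open Cardinal Filter Set Pool.Agent.Helper33.HM

universe u v w

variable {K C : Type u} [LinearOrder K] [Inac K]

namespace C2

theorem aleph0_le : ℵ₀ ≤ #K := (Inac.inacc (K := K)).isRegular.aleph0_le

theorem mk_St_le : #(St K) ≤ #K := by
  have h0 : ℵ₀ ≤ #K := aleph0_le
  have h1 : #(St K) ≤ #(List (K × K)) := mk_subtype_le _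
  have h2 : #(List (K × K)) ≤ max ℵ₀ #(K × K) := mk_list_le_max _
  have h3 : #(K × K) = #K := by
    rw [mk_prod, lift_id, mul_eq_self h0]
  rw [h3, max_eq_right h0] at h2
  exact h1.trans h2

theorem mk_fun_le {s : Set C} (hs : #s ≤ #K) : #(s → St K) ≤ 2 ^ #K := by
  have h0 : ℵ₀ ≤ #K := aleph0_le
  rw [← power_def, ← power_self_eq h0]
  calc #(St K) ^ #s ≤ #K ^ #s := power_le_power_right mk_St_le
    _ ≤ #K ^ #K := power_le_power_left (aleph0_pos.trans_le h0).ne' hs

end C2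

open C2 in
/-- C2: sets of pairwise incompatible Cohen parts. -/
theorem coh_antichain (𝒜 : Set (Coh K C))
    (h : ∀ p ∈ 𝒜, ∀ q ∈ 𝒜, (∀ c, c ∈ p.d → c ∈ q.d → p.f c = q.f c) → p = q) :
    #𝒜 ≤ 2 ^ #K := by
  classical
  have h0 : ℵ₀ ≤ #K := aleph0_le
  have h2 : #K ≤ 2 ^ #K := (cantor _).le
  have h02 : ℵ₀ ≤ (2 : Cardinal) ^ #K := h0.trans h2
  let P : (s : Set C) → (s → St K) → Coh K C → Prop := fun s g p =>
    p ∈ 𝒜 ∧ s ⊆ p.d ∧ ∀ c : s, p.f c = g c
  let ch : (s : Set C) → (s → St K) → Set C := fun s g =>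
    if h : ∃ p, P s g p then (Classical.choose h).d else ∅
  have hch : ∀ s g, #(ch s g) ≤ #K := by
    intro s g
    by_cases hp : ∃ p, P s g p
    · have : ch s g = (Classical.choose hp).d := dif_pos hp
      rw [this]
      exact (Classical.choose hp).card
    · have : ch s g = ∅ := dif_neg hp
      rw [this]
      simp
  obtain ⟨D, hD, hcl⟩ := exists_closed (X := C) #K h0 (fun s => ⋃ g : s → St K, ch s g) (by
    intro s hs
    refine mk_iUnion_le_sum_mk.trans ?_
    refine (sum_le_sum _ (fun _ => #K) fun g => hch s g).trans ?_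
    rw [sum_const']
    exact mul_le_of_le h02 (mk_fun_le hs) h2)
  -- all the domains are contained in `D`
  have hdom : ∀ p ∈ 𝒜, p.d ⊆ D := by
    intro p hp
    have hs : #(p.d ∩ D : Set C) ≤ #K := (mk_le_mk_of_subset inter_subset_left).trans p.card
    have hex : ∃ q, P (p.d ∩ D) (fun c => p.f c) q := ⟨p, hp, inter_subset_left, fun _ => rfl⟩
    obtain ⟨hq1, hq2, hq3⟩ := Classical.choose_spec hex
    have hqd : (Classical.choose hex).d ⊆ D := by
      refine Subset.trans ?_ (hcl _ inter_subset_right hs)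
      have : ch (p.d ∩ D) (fun c => p.f c) = (Classical.choose hex).d := dif_pos hex
      rw [← this]
      exact subset_iUnion (fun g => ch (p.d ∩ D) g) _
    have heq : p = Classical.choose hex := by
      refine h p hp _ hq1 fun c hc hc' => ?_
      exact (hq3 ⟨c, hc, hqd hc'⟩).symm
    rw [heq]
    exact hqd
  -- a Cohen part is determined by its graph
  let gph : 𝒜 → {t : Set (D × St K) // #t ≤ #K} := fun p =>
    ⟨{x | x.1.1 ∈ p.1.d ∧ x.2 = p.1.f x.1.1}, by
      refine le_trans ?_ p.1.card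
      refine mk_le_of_injective (f := fun x => (⟨x.1.1.1, x.2.1⟩ : p.1.d)) ?_
      rintro ⟨⟨x1, x2⟩, hx1, hx2⟩ ⟨⟨y1, y2⟩, hy1, hy2⟩ hxy
      have h1 : x1.1 = y1.1 := congrArg (fun w : p.1.d => w.1) hxy
      have h1' : x1 = y1 := Subtype.ext h1
      subst h1'
      have h2 : x2 = y2 := hx2.trans hy2.symm
      subst h2
      rfl⟩
  have hinj : Function.Injective gph := by
    intro p q hpq
    have hset : {x : D × St K | x.1.1 ∈ p.1.d ∧ x.2 = p.1.f x.1.1} =
        {x : D × St K | x.1.1 ∈ q.1.d ∧ x.2 = q.1.f x.1.1} := congrArg Subtype.val hpq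
    apply Subtype.ext
    refine h p.1 p.2 q.1 q.2 fun c hc hc' => ?_
    have hm : ((⟨c, hdom p.1 p.2 hc⟩ : D), p.1.f c) ∈
        {x : D × St K | x.1.1 ∈ p.1.d ∧ x.2 = p.1.f x.1.1} := ⟨hc, rfl⟩
    rw [hset] at hm
    exact hm.2
  refine (mk_le_of_injective hinj).trans ((mk_bounded_set_le _ _).trans ?_)
  have h3 : #(D × St K) ≤ 2 ^ #K := by
    rw [mk_prod, lift_id, lift_id]
    exact mul_le_of_le h02 hD (mk_St_le.trans h2)
  calc max #(D × St K) ℵ₀ ^ #K ≤ (2 ^ #K) ^ #K := power_le_power_right (max_le h3 h02)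
    _ = 2 ^ #K := by rw [← power_mul, mul_eq_self h0]

end Pool.Agent.Helper23.XB
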