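import Pool.Agent.Helper23.XB.C2

/-! # Project XB, module C3 -/

set_option autoImplicit false

namespace Pool.Agent.Helper23.XB

open Cardinal Filter Set Pool.Agent.Helper33.HM

universe u v w

variable {K C : Type u} [LinearOrder K] [Inac K] {𝔖 : Smp K C}

namespace H82

/-- The Cohen part of a condition. -/
def coh (p : Cnd 𝔖) : Coh K C := ⟨p.d, p.f, p.card, p.out⟩

/-- Conditions whose Cohen parts agree on the common domain are compatible. -/
theorem compat (p q : Cnd 𝔖) (h : ∀ c, c ∈ p.d → c ∈ q.d → p.f c = q.f c) :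
    ∃ r : Cnd 𝔖, Dir r p ∧ Dir r q := by
  classical
  have h0 : ℵ₀ ≤ #K := C2.aleph0_le
  refine ⟨⟨p.d ∪ q.d, fun c => if c ∈ p.d then p.f c else q.f c, p.A ∩ q.A, ?_, ?_, ?_⟩, ?_, ?_⟩
  · exact (mk_union_le _ _).trans (add_le_of_le h0 p.card q.card)
  · intro c hc
    rw [if_neg fun h => hc (Or.inl h)]
    exact q.out c fun h => hc (Or.inr h)
  · exact Filter.inter_mem p.mem q.mem
  · exact ⟨subset_union_left, fun c hc => if_pos hc, inter_subset_left⟩
  · refine ⟨subset_union_right, fun c hc => ?_, inter_subset_right⟩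
    change (if c ∈ p.d then p.f c else q.f c) = q.f c
    by_cases hp : c ∈ p.d
    · rw [if_pos hp]
      exact h c hp hc
    · rw [if_neg hp]

end H82

open H82 in
/-- C3: the chain condition. -/
theorem cnd_cc {ι : Type u} (x : ι → RO (Cnd 𝔖)) (hx : ∀ i, x i ≠ ⊥)
    (hd : ∀ i j, i ≠ j → x i ⊓ x j = ⊥) : #ι ≤ 2 ^ #K := by
  have hex : ∀ i, ∃ p, p ∈ x i := by
    intro i
    by_contra hno
    push Not at hno
    apply hx i
    refine le_antisymm ?_ bot_le
    intro p hp
    exact (hno p hp).elim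
  choose p hp using hex
  have key : ∀ i j, (∀ c, c ∈ (p i).d → c ∈ (p j).d → (p i).f c = (p j).f c) → i = j := by
    intro i j h
    by_contra hne
    obtain ⟨r, hr1, hr2⟩ := compat (p i) (p j) h
    have hm : r ∈ x i ⊓ x j := ⟨RO.mem_lower hr1.le (hp i), RO.mem_lower hr2.le (hp j)⟩
    rw [hd i j hne] at hm
    exact RO.not_mem_bot r hm
  have hinj : Function.Injective (fun i => coh (p i)) := by
    intro i j hij
    apply key i j
    intro c _ _
    have : (coh (p i)).f = (coh (p j)).f := congrArg Coh.f hij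
    exact congrFun this c
  have h := coh_antichain (range fun i => coh (p i)) (by
    rintro _ ⟨i, rfl⟩ _ ⟨j, rfl⟩ h
    rw [key i j h])
  rwa [mk_range_eq _ hinj] at h

end Pool.Agent.Helper23.XB
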