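import Pool.Agent.Helper23.XB.Defs

/-! # Project XB, module D10 -/

set_option autoImplicit false

namespace Pool.Agent.Helper23.XB

open Cardinal Filter Set Pool.Agent.Helper33.HM

universe u v w

variable {M : Type u}

/-- D10 -/
theorem cc_cardM {P : Type u} [Preorder P] (κ : Cardinal.{u})
    (cc : ∀ (ι : Type u) (x : ι → RO P), (∀ i, x i ≠ ⊥) → (∀ i j, i ≠ j → x i ⊓ x j = ⊥) → #ι ≤ κ)
    (hκ : ℵ₀ ≤ κ) (hM : κ < #M) (N : Type u) (hN : #N < #M) (f : N → M → RO P) (p : P)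
    (h : ∀ n m m', m ≠ m' → p ∈ (f n m ⊓ f n m')ᶜ) : ∃ m, ∀ n, p ∈ (f n m)ᶜ := by
  classical
  by_contra hcon
  push Not at hcon
  have h1 : ∀ m, ∃ n, ∃ q, q ≤ p ∧ q ∈ f n m := by
    intro m
    obtain ⟨n, hn⟩ := hcon m
    refine ⟨n, ?_⟩
    by_contra hq
    exact hn (RO.mem_compl.2 fun q hqp hqf => hq ⟨q, hqp, hqf⟩)
  choose g q hqp hqf using h1
  have h2 : #M ≤ #N * κ := by
    refine Cardinal.mk_le_mk_mul_of_mk_preimage_le g fun n => ?_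
    refine cc (g ⁻¹' {n}) (fun m => f n m.1 ⊓ RO.gen {p}) (fun m => ?_) (fun m m' hmm => ?_)
    · refine RO.ne_bot_iff.2 ⟨q m.1, RO.mem_inf.2 ⟨?_, ?_⟩⟩
      · obtain ⟨m, hm⟩ := m
        have h3 : g m = n := hm
        subst h3
        exact hqf m
      · exact RO.mem_gen.2 fun r hr => ⟨r, le_rfl, p, rfl, hr.trans (hqp m.1)⟩
    · by_contra hne
      obtain ⟨r, hr⟩ := RO.ne_bot_iff.1 hne
      obtain ⟨⟨hr1, hr2⟩, hr3, _⟩ : (r ∈ f n m.1 ∧ r ∈ RO.gen {p}) ∧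
          (r ∈ f n m'.1 ∧ r ∈ RO.gen {p}) := hr
      obtain ⟨r', hr', a, ha, hra⟩ := RO.mem_gen.1 hr2 r le_rfl
      rw [Set.mem_singleton_iff] at ha
      subst ha
      exact RO.mem_compl.1 (h n m.1 m'.1 fun hc => hmm (Subtype.ext hc)) r' hra
        (RO.mem_inf.2 ⟨RO.mem_lower hr' hr1, RO.mem_lower hr' hr3⟩)
  exact absurd h2 (not_le.2 (Cardinal.mul_lt_of_lt (hκ.trans hM.le) hN hM))

end Pool.Agent.Helper23.XB
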