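import Pool.Agent.Helper23.XB.D2
import Pool.Agent.Helper23.XB.C3

/-! # Project XB, module D11 -/

set_option autoImplicit false

namespace Pool.Agent.Helper23.XB

open Cardinal Filter Set Pool.Agent.Helper33.HM

universe u v w

variable {K M Θ : Type u} [LinearOrder K] [Inac K] (X : XSys K M Θ)

/-- D11a -/
theorem gr_disj (α β : Θ) (h : α ≠ β) :
    (⨅ k, ((X.gr α k ⇨ X.gr β k) ⊓ (X.gr β k ⇨ X.gr α k))) = ⊥ := by
  by_contra h0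
  obtain ⟨p, hp⟩ := RO.ne_bot_iff.1 h0
  rw [RO.mem_iInf] at hp
  obtain ⟨q, hqp, hqA, hf⟩ := exists_fresh p {z | X.𝔖.rep z (X.ct α) ≠ X.𝔖.rep z (X.ct β)}
    (X.sep α β h) {X.ct α, X.ct β} (by simp)
  obtain ⟨z, hz⟩ := X.𝔖.F.nonempty_of_mem q.mem
  have hfα := (hf (X.ct α) (by simp)).add hz
  have hfβ := (hf (X.ct β) (by simp)).add hz
  have hrp : q.add z ≤ p := (add_le hz).trans hqp.le
  have h1 : q.add z ∈ X.gr α (X.pr (X.𝔖.kz z, X.𝔖.rep z (X.ct α))) := by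
    unfold XSys.gr
    rw [Equiv.symm_apply_apply, mem_ge]
    intro q' hq'
    have hs := suffix_of_le hq' hfα.1.1
    refine ⟨q', le_refl _, hs.1, hs.2.subset ?_⟩
    rw [hfα.2]
    exact List.mem_cons_self
  have h2 : q.add z ∈ X.gr β (X.pr (X.𝔖.kz z, X.𝔖.rep z (X.ct α))) :=
    RO.mem_himp.1 (RO.mem_inf.1 (hp (X.pr (X.𝔖.kz z, X.𝔖.rep z (X.ct α))))).1 _ hrp h1
  unfold XSys.gr at h2
  rw [Equiv.symm_apply_apply, mem_ge] at h2
  obtain ⟨r, hr, hrd, hrm⟩ := h2 _ (le_refl _)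
  have hs := suffix_of_le hr hfβ.1.1
  have h3 : (X.𝔖.kz z, X.𝔖.rep z (X.ct β)) ∈ (r.f (X.ct β)).1 := by
    refine hs.2.subset ?_
    rw [hfβ.2]
    exact List.mem_cons_self
  exact hqA hz (st_unique _ hrm h3)

/-- D11b -/
theorem W_pow (hM : 2 ^ #K < #M) (hΘ : #M < #Θ) (b : M → K → RO X.P) :
    ∃ x : K → RO X.P, ∀ m, (⨅ k, ((b m k ⇨ x k) ⊓ (x k ⇨ b m k))) = ⊥ := by
  classical
  set bad : M → Set Θ := fun m =>
    {α | (⨅ k, ((b m k ⇨ X.gr α k) ⊓ (X.gr α k ⇨ b m k))) ≠ ⊥} with hbad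
  have hcard : ∀ m, #(bad m) ≤ 2 ^ #K := by
    intro m
    refine cnd_cc (𝔖 := X.𝔖)
      (fun α : bad m => ⨅ k, ((b m k ⇨ X.gr α.1 k) ⊓ (X.gr α.1 k ⇨ b m k)))
      (fun α => α.2) ?_
    intro α β hαβ
    have hne : α.1 ≠ β.1 := fun h => hαβ (Subtype.ext h)
    by_contra h0
    obtain ⟨p, hp⟩ := RO.ne_bot_iff.1 h0
    rw [RO.mem_inf, RO.mem_iInf, RO.mem_iInf] at hp
    obtain ⟨hp1, hp2⟩ := hp
    have h1 : p ∈ (⨅ k, ((X.gr α.1 k ⇨ X.gr β.1 k) ⊓ (X.gr β.1 k ⇨ X.gr α.1 k))) := by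
      rw [RO.mem_iInf]
      intro k
      obtain ⟨a1, a2⟩ := RO.mem_inf.1 (hp1 k)
      obtain ⟨b1, b2⟩ := RO.mem_inf.1 (hp2 k)
      rw [RO.mem_himp] at a1 a2 b1 b2
      rw [RO.mem_inf, RO.mem_himp, RO.mem_himp]
      exact ⟨fun q hq hq' => b1 q hq (a2 q hq hq'), fun q hq hq' => a1 q hq (b2 q hq hq')⟩
    rw [gr_disj X α.1 β.1 hne] at h1
    exact RO.not_mem_bot p h1
  have hinf : ℵ₀ ≤ #M := by
    have h0 : ℵ₀ ≤ #K := (Inac.inacc (K := K)).aleph0_lt.le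
    exact (h0.trans (cantor _).le).trans hM.le
  have hU : #(⋃ m, bad m) < #Θ := by
    refine lt_of_le_of_lt ?_ hΘ
    refine (mk_iUnion_le bad).trans ?_
    calc #M * ⨆ m, #(bad m) ≤ #M * #M :=
          mul_le_mul' le_rfl (ciSup_le' fun m => (hcard m).trans hM.le)
      _ = #M := mul_eq_self hinf
  obtain ⟨α, hα⟩ : ∃ α, α ∉ ⋃ m, bad m := by
    by_contra hcon
    push Not at hcon
    have : (⋃ m, bad m) = Set.univ := eq_univ_of_forall hcon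
    rw [this, mk_univ] at hU
    exact lt_irrefl _ hU
  refine ⟨X.gr α, fun m => ?_⟩
  by_contra h0
  exact hα (mem_iUnion.2 ⟨m, h0⟩)

end Pool.Agent.Helper23.XB
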