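import Pool.Agent.Helper23.XB.Defs

/-! # Project XB, module D12 -/

set_option autoImplicit false

namespace Pool.Agent.Helper23.XB

open Cardinal Filter Set Pool.Agent.Helper33.HM

universe u v w

/-- D12 -/
theorem exists_small_sup {P : Type u} [Preorder P] (κ : Cardinal.{u})
    (cc : ∀ (ι : Type u) (x : ι → RO P), (∀ i, x i ≠ ⊥) → (∀ i j, i ≠ j → x i ⊓ x j = ⊥) → #ι ≤ κ)
    {ι : Type u} (y : ι → RO P) : ∃ s : Set ι, #s ≤ κ ∧ ⨆ i ∈ s, y i = ⨆ i, y i := by
  classical
  let _ : LinearOrder ι := linearOrderOfSTO (WellOrderingRel (α := ι))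
  have hwf : WellFoundedLT ι := ⟨WellOrderingRel.isWellOrder.wf⟩
  set z : ι → RO P := fun i => y i ⊓ (⨆ (j : ι) (_ : j < i), y j)ᶜ with hz
  have hdis : ∀ i j, i < j → z i ⊓ z j = ⊥ := by
    intro i j hij
    have h1 : z i ≤ y i := inf_le_left
    have h2 : z j ≤ (y i)ᶜ := by
      refine inf_le_right.trans (compl_le_compl ?_)
      exact le_iSup₂_of_le i hij le_rfl
    exact le_bot_iff.1 ((inf_le_inf h1 h2).trans (by rw [inf_compl_self]))
  refine ⟨{i | z i ≠ ⊥}, ?_, ?_⟩
  · refine cc _ (fun i => z i.1) (fun i => i.2) fun i j hij => ?_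
    have hne : i.1 ≠ j.1 := fun h => hij (Subtype.ext h)
    rcases lt_or_gt_of_ne hne with h | h
    · exact hdis _ _ h
    · rw [inf_comm]
      exact hdis _ _ h
  · apply le_antisymm
    · exact iSup₂_le fun i _ => le_iSup y i
    · refine iSup_le fun i => ?_
      induction i using hwf.induction with
      | _ i ih =>
        by_cases hi : z i = ⊥
        · have h1 : y i ≤ ⨆ (j : ι) (_ : j < i), y j :=
            disjoint_compl_right_iff.1 (disjoint_iff.2 hi)
          exact h1.trans (iSup₂_le fun j hj => ih j hj)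
        · exact le_iSup₂_of_le i hi le_rfl

end Pool.Agent.Helper23.XB
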