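import Pool.Agent.Helper23.XB.DefsX

/-! # Project XB, module D3 -/

set_option autoImplicit false

namespace Pool.Agent.Helper23.XB

open Cardinal Filter Set Pool.Agent.Helper33.HM

universe u v w

variable {P : Type u} [Preorder P]

theorem mem_hat {I : Type v} (D : Ultrafilter I) (y : I → RO P) (p : P) :
    p ∈ hat D y ↔ ∀ q, q ≤ p → ∃ r, r ≤ q ∧ ∃ a ∈ D, ∀ i ∈ a, r ∈ y i := by
  unfold hat
  rw [RO.mem_iSup]
  constructor
  · intro h q hq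
    obtain ⟨r, hr, a, ha⟩ := h q hq
    rw [RO.mem_iSup] at ha
    obtain ⟨r', hr', haD, h'⟩ := ha r le_rfl
    refine ⟨r', hr'.trans hr, a, haD, fun i hi => ?_⟩
    rw [RO.mem_iInf] at h'
    exact RO.mem_iInf.1 (h' i) hi
  · intro h q hq
    obtain ⟨r, hr, a, haD, ha⟩ := h q hq
    refine ⟨r, hr, a, ?_⟩
    rw [RO.mem_iSup]
    intro r' hr'
    refine ⟨r', le_rfl, haD, ?_⟩
    rw [RO.mem_iInf]
    intro i
    rw [RO.mem_iInf]
    intro hi
    exact RO.mem_lower hr' (ha i hi)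

theorem hat_mono {I : Type v} (D : Ultrafilter I) (y y' : I → RO P) :
    hat D y ⊓ (⨅ i, (y i ⇨ y' i)) ≤ hat D y' := by
  rw [RO.le_def]
  rintro p ⟨h1, h2⟩
  have h1' : p ∈ hat D y := h1
  have h2' : p ∈ ⨅ i, (y i ⇨ y' i) := h2
  rw [mem_hat] at h1' ⊢
  rw [RO.mem_iInf] at h2'
  intro q hq
  obtain ⟨r, hr, a, ha, h⟩ := h1' q hq
  exact ⟨r, hr, a, ha, fun i hi => RO.mem_himp.1 (h2' i) r (hr.trans hq) (h i hi)⟩

theorem hat_inf {I : Type v} (D : Ultrafilter I) (y y' : I → RO P) :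
    hat D y ⊓ hat D y' ≤ hat D fun i => y i ⊓ y' i := by
  rw [RO.le_def]
  rintro p ⟨h1, h2⟩
  have h1' : p ∈ hat D y := h1
  have h2' : p ∈ hat D y' := h2
  rw [mem_hat] at h1' h2' ⊢
  intro q hq
  obtain ⟨r, hr, a, ha, h⟩ := h1' q hq
  obtain ⟨r', hr', a', ha', h'⟩ := h2' r (hr.trans hq)
  refine ⟨r', hr'.trans hr, a ∩ a', Filter.inter_mem ha ha', fun i hi => ?_⟩
  exact RO.mem_inf.2 ⟨RO.mem_lower hr' (h i hi.1), h' i hi.2⟩

theorem hat_compl {I : Type v} (D : Ultrafilter I) (y : I → RO P) (s : Set I) (hs : s ∈ D)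
    (h : ∀ p : P, ∃ q, q ≤ p ∧ ∀ i ∈ s, q ∈ y i ∨ q ∈ (y i)ᶜ) :
    hat D (fun i => (y i)ᶜ) = (hat D y)ᶜ := by
  apply le_antisymm
  · rw [RO.le_def]
    intro p hp
    rw [RO.mem_compl]
    intro q hq hqy
    rw [mem_hat] at hp hqy
    obtain ⟨r, hr, a, ha, h1⟩ := hqy q le_rfl
    obtain ⟨r', hr', a', ha', h2⟩ := hp r (hr.trans hq)
    obtain ⟨i, hi, hi'⟩ := Ultrafilter.nonempty_of_mem (Filter.inter_mem ha ha')
    exact RO.mem_compl.1 (h2 i hi') r' le_rfl (RO.mem_lower hr' (h1 i hi))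
  · rw [RO.le_def]
    intro p hp
    rw [mem_hat]
    intro q hq
    obtain ⟨q', hq', h'⟩ := h q
    by_cases ha : {i | i ∈ s ∧ q' ∈ y i} ∈ D
    · exfalso
      refine RO.mem_compl.1 hp q' (hq'.trans hq) ?_
      rw [mem_hat]
      intro r hr
      exact ⟨r, le_rfl, _, ha, fun i hi => RO.mem_lower hr hi.2⟩
    · have ha' : {i | i ∈ s ∧ q' ∈ y i}ᶜ ∈ D := Ultrafilter.compl_mem_iff_notMem.2 ha
      refine ⟨q', hq', _, Filter.inter_mem hs ha', fun i hi => ?_⟩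
      rcases h' i hi.1 with h1 | h1
      · exact absurd ⟨hi.1, h1⟩ hi.2
      · exact h1

/-- If a condition decides all the values on `s ∈ D`, and belongs to `hat D y`, then the set of
the `i` with `p ∈ y i` belongs to `D`. -/
theorem hat_decided {I : Type v} (D : Ultrafilter I) (y : I → RO P) (s : Set I) (hs : s ∈ D)
    (p : P) (hp : p ∈ hat D y) (h : ∀ i ∈ s, p ∈ y i ∨ p ∈ (y i)ᶜ) :
    {i | i ∈ s ∧ p ∈ y i} ∈ D := by
  by_contra ha
  have ha' : {i | i ∈ s ∧ p ∈ y i}ᶜ ∈ D := Ultrafilter.compl_mem_iff_notMem.2 ha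
  rw [mem_hat] at hp
  obtain ⟨r, hr, b, hb, h1⟩ := hp p le_rfl
  obtain ⟨i, hi, hi', hib⟩ := Ultrafilter.nonempty_of_mem
    (Filter.inter_mem hs (Filter.inter_mem ha' hb))
  rcases h i hi with h2 | h2
  · exact hi' ⟨hi, h2⟩
  · exact RO.mem_compl.1 h2 r hr (h1 i hib)

end Pool.Agent.Helper23.XB
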