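import Pool.Agent.Helper23.XB.D2
import Pool.Agent.Helper23.XB.D3
import Pool.Agent.Helper23.XB.B10

/-! # Project XB, module D6 -/

set_option autoImplicit false

namespace Pool.Agent.Helper23.XB

open Cardinal Filter Set Pool.Agent.Helper33.HM

universe u v w

variable {K M Θ : Type u} [LinearOrder K] [Inac K] (X : XSys K M Θ)

/-- D6 -/
theorem W_unif (i : K) (f : Iio i → K → RO X.P) (x : K → RO X.P) (p : X.P) (hp : p ∈ X.W x)
    (h1 : ∀ j k k', k ≠ k' → p ∈ (f j k ⊓ f j k')ᶜ) (h2 : ∀ k, p ∈ (x k ⇨ ⨆ j, f j k)) :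
    False := by
  have hinf : ℵ₀ ≤ #K := (Inac.inacc (K := K)).aleph0_lt.le
  -- the large samples
  obtain ⟨i1, hi1⟩ := inac_exists_card (Inac.small i)
  have hA : {z | (∀ a ∈ X.VV (X.𝔖.rep z X.cs), #(Iio (X.𝔖.kz z)) ≤ #a) ∧ i1 < X.𝔖.kz z} ∈ X.𝔖.F :=
    Filter.inter_mem X.VV_card (X.𝔖.unb i1)
  obtain ⟨q, hqp, hqA, hqf⟩ := exists_fresh p _ hA {X.cs} (Set.finite_singleton _)
  have hfr : Fresh q X.cs := hqf X.cs rfl
  obtain ⟨r0, hr0, a, ha, har⟩ := (mem_hat _ _ _).1 hp q hqp.le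
  -- a large index
  have hainf : a.Infinite := by
    by_contra hfin
    exact Filter.notMem_hyperfilter_of_finite (Set.not_infinite.1 hfin) ha
  obtain ⟨n, hna, hn⟩ := hainf.exists_gt (q.f X.cs).1.length
  have hen := har n hna
  unfold XSys.en at hen
  obtain ⟨r1, hr1, w, hw1, hw2⟩ := RO.mem_iSup.1 hen r0 le_rfl
  obtain ⟨r2, hr2, -, hr2w⟩ := (mem_gn X n w r1).1 hw1 r1 le_rfl
  have hlen : n < (r2.f X.cs).1.length := by
    rw [← List.length_reverse]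
    exact (List.getElem?_eq_some_iff.1 hr2w).1
  obtain ⟨p', z, -, -, hzq, -, -, hz⟩ := hist (hr2.trans (hr1.trans hr0)) hfr n hn.le hlen
  have hwz : w = (X.𝔖.kz z, X.𝔖.rep z X.cs) := by
    rw [hr2w] at hz
    exact Option.some_injective _ hz
  subst hwz
  obtain ⟨r3, hr3, a', ha', hra'⟩ := (mem_hat _ _ _).1 hw2 r2 hr2
  have hzA := hqA hzq
  -- decide all the values
  have hJ : #(Iio i × Iio (X.bb (X.𝔖.rep z X.cs))) < #K := by
    rw [mk_prod, lift_id, lift_id]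
    exact mul_lt_of_lt hinf (Inac.small _) (Inac.small _)
  have : Nonempty X.C := ⟨X.cs⟩
  obtain ⟨r4, hr4, hdec⟩ := decide_small hJ
    (fun js => f js.1 (X.pr (X.𝔖.kz z, (js.2 : K)))) r3
  have hr4p : r4 ≤ p := hr4.le.trans (hr3.trans (hr2.trans (hr1.trans (hr0.trans hqp.le))))
  have hex : ∀ σ : ↥(a' ∩ Iio (X.bb (X.𝔖.rep z X.cs))), ∃ j, r4 ∈ f j (X.pr (X.𝔖.kz z, (σ : K))) := by
    intro σ
    by_contra hcon
    push Not at hcon
    have h3 : r4 ∈ x (X.pr (X.𝔖.kz z, (σ : K))) := RO.mem_lower hr4.le (hra' σ σ.2.1)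
    have h4 := RO.mem_himp.1 (h2 (X.pr (X.𝔖.kz z, (σ : K)))) r4 hr4p h3
    obtain ⟨r5, hr5, j, hj⟩ := RO.mem_iSup.1 h4 r4 le_rfl
    rcases hdec (j, ⟨σ, σ.2.2⟩) with h | h
    · exact hcon j h
    · exact RO.mem_compl.1 h r5 hr5 hj
  choose g hg using hex
  have hginj : Function.Injective g := by
    intro σ σ' hσ
    by_contra hne
    have hk : X.pr (X.𝔖.kz z, (σ : K)) ≠ X.pr (X.𝔖.kz z, (σ' : K)) := by
      intro h
      have h5 := X.pr.injective h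
      exact hne (Subtype.ext (Prod.ext_iff.1 h5).2)
    have h6 := hg σ'
    rw [← hσ] at h6
    exact RO.mem_compl.1 (h1 (g σ) _ _ hk) r4 hr4p (RO.mem_inf.2 ⟨hg σ, h6⟩)
  have hc1 : #↥(a' ∩ Iio (X.bb (X.𝔖.rep z X.cs))) ≤ #(Iio i) := mk_le_of_injective hginj
  have hc2 := hzA.1 _ (Filter.inter_mem ha' (X.bb_mem (X.𝔖.rep z X.cs)))
  have hc3 : #(Iio i1) ≤ #(Iio (X.𝔖.kz z)) :=
    mk_le_mk_of_subset (Iio_subset_Iio hzA.2.le)
  exact absurd (hc2.trans hc1) (not_le.2 (hi1.trans_le hc3))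

end Pool.Agent.Helper23.XB
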