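import Pool.Agent.Helper23.XB.D4b

/-! # Project XB, module D7 -/

set_option autoImplicit false

namespace Pool.Agent.Helper23.XB

open Cardinal Filter Set Pool.Agent.Helper33.HM

universe u v w

variable {K M Θ : Type u} [LinearOrder K] [Inac K] (X : XSys K M Θ)

theorem sect_mem (sq : K → K → Set K) (u v h : K) : X.sect sq u v h ∈ X.VV u := by
  by_cases hv : sq v h ∈ X.VV u
  · exact Filter.mem_of_superset hv fun σ hσ _ => hσ
  · exact Filter.mem_of_superset Filter.univ_mem fun σ _ h' => (hv h').elim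

/-- The entry added by a sample at an active coordinate is in all the stronger conditions. -/
private theorem h88_entry {C : Type u} {𝔖 : Smp K C} {s p : Cnd 𝔖} {z : 𝔖.Z} {c : C}
    (hf : Fresh p c) (hz : z ∈ p.A) (hs : s ≤ p.add z) :
    (𝔖.kz z, 𝔖.rep z c) ∈ (s.f c).1 := by
  obtain ⟨h1, h2⟩ := hf.add hz
  have h3 := (suffix_of_le hs h1.1).2
  rw [h2] at h3
  exact h3.subset List.mem_cons_self

/-- D7 -/
theorem bs_W (sq : K → K → Set K) (c : X.B) (a : Set ℕ) (ha : a ∈ Filter.hyperfilter ℕ) :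
    X.W (X.bs sq c a) = ⊤ := by
  refine W_top X _ a ha fun p => ?_
  obtain ⟨q, hqp, -, hqf⟩ := exists_fresh p univ Filter.univ_mem {X.cs, X.ch, X.cb c}
    (Set.toFinite _)
  have hcs : Fresh q X.cs := hqf _ (by simp)
  have hch : Fresh q X.ch := hqf _ (by simp)
  have hcb : Fresh q (X.cb c) := hqf _ (by simp)
  refine ⟨q, hqp.le, (q.f X.cs).1.length + 1, fun n hna hn => ?_⟩
  obtain ⟨m, rfl⟩ : ∃ m, n = m + 1 := ⟨n - 1, by omega⟩
  unfold XSys.en
  rw [RO.mem_iSup]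
  intro r hr
  obtain ⟨r', hr', -, hlen⟩ := exists_long r X.cs (m + 2)
  have hr'q : r' ≤ q := hr'.trans hr
  obtain ⟨p1, z, hp1, hz1, -, hr1, -, hz⟩ := hist hr'q hcs (m + 1) (by omega) (by omega)
  obtain ⟨p2, z', hp2, hz2, -, hr2, -, hz'⟩ := hist hr'q hcs m (by omega) (by omega)
  refine ⟨r', hr', (X.𝔖.kz z, X.𝔖.rep z X.cs), RO.mem_inf.2 ⟨?_, ?_⟩⟩
  · rw [mem_gn]
    intro s hs
    have h1 := suffix_of_le hs (hcs.le hr'q).1
    exact ⟨s, le_rfl, h1.1, get_suffix h1.2 hz⟩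
  · rw [mem_hat]
    intro s hs
    refine ⟨s, le_rfl, X.sect sq (X.𝔖.rep z X.cs) (X.𝔖.rep z (X.cb c)) (X.𝔖.rep z' X.ch),
      sect_mem X _ _ _ _, fun σ hσ => ?_⟩
    rw [mem_bs]
    intro s' hs'
    have hs'r : s' ≤ r' := hs'.trans hs
    have hs'q : s' ≤ q := hs'r.trans hr'q
    have h1 := suffix_of_le hs'r (hcs.le hr'q).1
    refine ⟨s', le_rfl, (hcs.le hs'q).1, (hch.le hs'q).1, (hcb.le hs'q).1, m, hna,
      X.𝔖.kz z, X.𝔖.rep z X.cs, X.𝔖.kz z', X.𝔖.rep z' X.cs, X.𝔖.rep z (X.cb c),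
      X.𝔖.rep z' X.ch, σ, get_suffix h1.2 hz, get_suffix h1.2 hz', ?_, ?_, rfl, hσ⟩
    · exact h88_entry (hcb.le hp1) hz1 (hs'r.trans hr1)
    · exact h88_entry (hch.le hp2) hz2 (hs'r.trans hr2)

end Pool.Agent.Helper23.XB
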