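import Pool.Agent.Helper23.XB.B0a

/-! # Project XB, module D8a -/

set_option autoImplicit false

namespace Pool.Agent.Helper23.XB

open Cardinal Filter Set Pool.Agent.Helper33.HM

universe u v w

namespace H9

/-- The bounded sequences of bounded sets. -/
def GS {K : Type u} [LinearOrder K] (k b : K) : Set (K → Set K) :=
  {g | (∀ h, h < k → g h ⊆ Iio b) ∧ (∀ h, ¬ h < k → g h = ∅)}

theorem card_GS {K : Type u} [LinearOrder K] [Inac K] (k b : K) : #(GS k b) < #K := by
  have hinj : Function.Injective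
      (fun (g : GS k b) (h : Iio k) => (⟨g.1 h.1, g.2.1 h.1 h.2⟩ : 𝒫 (Iio b : Set K))) := by
    intro g g' hg
    refine Subtype.ext (funext fun h => ?_)
    by_cases hh : h < k
    · have h1 := congrFun hg ⟨h, hh⟩
      exact congrArg Subtype.val h1
    · rw [g.2.2 h hh, g'.2.2 h hh]
  calc #(GS k b) ≤ #(Iio k → 𝒫 (Iio b : Set K)) := mk_le_of_injective hinj
    _ = (2 ^ #(Iio b : Set K)) ^ #(Iio k : Set K) := by
        rw [← power_def, mk_powerset]
    _ < #K := inac_pow (inac_two_pow (Inac.small b)) (Inac.small k)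

theorem card_iUnion_GS (K : Type u) [LinearOrder K] [Inac K] :
    #(⋃ x : K × K, GS x.1 x.2 : Set (K → Set K)) ≤ #K := by
  calc #(⋃ x : K × K, GS x.1 x.2 : Set (K → Set K))
      ≤ Cardinal.sum fun x : K × K => #(GS x.1 x.2) := mk_iUnion_le_sum_mk
    _ ≤ Cardinal.sum fun _ : K × K => #K := Cardinal.sum_le_sum _ _ fun x => (card_GS x.1 x.2).le
    _ = #K := by
        rw [Cardinal.sum_const, mk_prod]
        simp only [lift_id]
        rw [inac_mul_self, inac_mul_self]

end H9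

/-- D8a: codes of bounded sequences of bounded sets -/
theorem exists_sq (K : Type u) [LinearOrder K] [Inac K] :
    ∃ (sq : K → K → Set K) (enc : (K → Set K) → K),
      (∀ (k b : K) (g : K → Set K), (∀ h, h < k → g h ⊆ Iio b) → (∀ h, ¬ h < k → g h = ∅) →
        sq (enc g) = g) ∧
      ∀ k b : K, #{v | ∃ g : K → Set K, (∀ h, h < k → g h ⊆ Iio b) ∧ (∀ h, ¬ h < k → g h = ∅) ∧
        v = enc g} < #K := by
  classical
  obtain ⟨φ⟩ := Cardinal.le_def _ _ |>.1 (H9.card_iUnion_GS K)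
  have hK : Nonempty K := inferInstance
  obtain ⟨k₀⟩ := hK
  refine ⟨fun v => if h : ∃ x, φ x = v then h.choose.1 else fun _ => ∅,
    fun g => if h : g ∈ (⋃ x : K × K, H9.GS x.1 x.2) then φ ⟨g, h⟩ else k₀, ?_, ?_⟩
  · intro k b g h1 h2
    have hg : g ∈ (⋃ x : K × K, H9.GS x.1 x.2) := mem_iUnion.2 ⟨(k, b), h1, h2⟩
    dsimp only
    rw [dif_pos hg]
    have hex : ∃ x, φ x = φ ⟨g, hg⟩ := ⟨_, rfl⟩
    rw [dif_pos hex]
    have h3 := φ.injective hex.choose_spec
    exact congrArg Subtype.val h3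
  · intro k b
    refine lt_of_le_of_lt ?_ (H9.card_GS k b)
    refine (mk_le_mk_of_subset ?_).trans (mk_image_le
      (f := fun g => if h : g ∈ (⋃ x : K × K, H9.GS x.1 x.2) then φ ⟨g, h⟩ else k₀)
      (s := H9.GS k b))
    rintro v ⟨g, h1, h2, rfl⟩
    exact ⟨g, ⟨h1, h2⟩, rfl⟩

end Pool.Agent.Helper23.XB
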