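import Pool.Agent.Helper23.XB.DefsX
import Pool.Agent.Helper23.XB.B1

/-! # Project XB, module D8b -/

set_option autoImplicit false

namespace Pool.Agent.Helper23.XB

open Cardinal Filter Set Pool.Agent.Helper33.HM

universe u v w

variable {K M Θ : Type u} [LinearOrder K] [Inac K] (X : XSys K M Θ)

/-- D8b -/
theorem wint_mem (x : K → RO X.P) (q : Coh K X.C) (A : Set X.𝔖.Z) (hA : A ∈ X.𝔖.F)
    (e : K → X.C) : ∀ᶠ z in (X.𝔖.F : Filter X.𝔖.Z), ∀ i < X.𝔖.kz z,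
      wint X x q A hA e z i ∈ X.VV (X.𝔖.rep z X.cs) := by
  have hg : ∀ i : K, ∃ j : K, #(OB e i) < #(Iio j) := fun i => inac_exists_card (ob_card e i)
  choose g hg using hg
  have h1 : ∀ᶠ z in (X.𝔖.F : Filter X.𝔖.Z), ∀ i < X.𝔖.kz z, g i < X.𝔖.kz z :=
    X.𝔖.normal _ fun i => X.𝔖.unb (g i)
  filter_upwards [h1, X.VV_complete] with z hz1 hz2 i hi
  have h2 : #{τ : X.C → Option (St K) // τ ∈ OB e i ∧
      wset X x q A hA τ z ∈ X.VV (X.𝔖.rep z X.cs)} < #(Iio (X.𝔖.kz z)) := by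
    have a1 : #{τ : X.C → Option (St K) // τ ∈ OB e i ∧
        wset X x q A hA τ z ∈ X.VV (X.𝔖.rep z X.cs)} ≤ #(OB e i) :=
      Cardinal.mk_subtype_mono fun τ h => h.1
    have a2 : #(Iio (g i)) ≤ #(Iio (X.𝔖.kz z)) :=
      Cardinal.mk_le_mk_of_subset (Iio_subset_Iio (hz1 i hi).le)
    exact (a1.trans_lt (hg i)).trans_le a2
  have h3 := hz2 _ (fun τ : {τ : X.C → Option (St K) // τ ∈ OB e i ∧
      wset X x q A hA τ z ∈ X.VV (X.𝔖.rep z X.cs)} => wset X x q A hA τ.1 z) h2 fun τ => τ.2.2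
  refine Filter.mem_of_superset (Filter.inter_mem (X.bb_mem (X.𝔖.rep z X.cs)) h3) ?_
  rintro σ ⟨hσ1, hσ2⟩
  refine ⟨hσ1, fun τ hτ hw => ?_⟩
  exact mem_iInter.1 hσ2 ⟨τ, hτ, hw⟩

end Pool.Agent.Helper23.XB
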