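import Pool.Agent.Helper23.XB.DefsX
import Pool.Agent.Helper23.XB.B1

/-! # Project XB, module D8c -/

set_option autoImplicit false

namespace Pool.Agent.Helper23.XB

open Cardinal Filter Set Pool.Agent.Helper33.HM

universe u v w

variable {K M Θ : Type u} [LinearOrder K] [Inac K] (X : XSys K M Θ)

namespace Helper14C

/-- The set `wset` as a function of the trace. -/
private def wf (x : K → RO X.P) (q : Coh K X.C) (A : Set X.𝔖.Z) (hA : A ∈ X.𝔖.F)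
    (t u h : K) (τ' : X.C → Option (St K)) : Set K :=
  {σ | σ < X.bb u ∧ cn q τ' {w | w ∈ A ∧ h < X.𝔖.kz w} (above_mem A hA h) ∈ x (X.pr (t, σ))}

private theorem wset_eq (x : K → RO X.P) (q : Coh K X.C) (A : Set X.𝔖.Z) (hA : A ∈ X.𝔖.F)
    (τ : X.C → Option (St K)) (z : X.𝔖.Z) :
    wset X x q A hA τ z =
      wf X x q A hA (X.𝔖.kz z) (X.𝔖.rep z X.cs) (X.𝔖.hz z) (upm X.𝔖 q τ z) := rfl

private theorem upm_congr (q : Coh K X.C) (τ : X.C → Option (St K)) (z z' : X.𝔖.Z)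
    (h : TrEq X.𝔖 q.d z z') : upm X.𝔖 q τ z = upm X.𝔖 q τ z' := by
  classical
  funext c
  by_cases hc : c ∈ q.d
  · have h1 := h.2.2 c hc
    by_cases hz : c ∈ X.𝔖.S z
    · have hz' : c ∈ X.𝔖.S z' := h1.1.1 hz
      unfold upm
      rw [← h.1, ← h1.2 hz]
      by_cases hb : Bel (ov q τ c).1 (X.𝔖.kz z)
      · rw [if_pos ⟨hc, hz, hb⟩, if_pos ⟨hc, hz', hb⟩]
      · rw [if_neg fun h => hb h.2.2, if_neg fun h => hb h.2.2]
    · have hz' : c ∉ X.𝔖.S z' := fun h' => hz (h1.1.2 h')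
      unfold upm
      rw [if_neg fun h => hz h.2.1, if_neg fun h => hz' h.2.1]
  · unfold upm
    rw [if_neg fun h => hc h.1, if_neg fun h => hc h.1]

private theorem wset_congr (x : K → RO X.P) (q : Coh K X.C) (hq : X.cs ∈ q.d) (A : Set X.𝔖.Z)
    (hA : A ∈ X.𝔖.F) (τ : X.C → Option (St K)) (z z' : X.𝔖.Z) (hz : X.cs ∈ X.𝔖.S z)
    (h : TrEq X.𝔖 q.d z z') : wset X x q A hA τ z = wset X x q A hA τ z' := by
  rw [wset_eq, wset_eq, upm_congr X q τ z z' h, h.1, h.2.1, (h.2.2 _ hq).2 hz]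

private theorem wint_congr (x : K → RO X.P) (q : Coh K X.C) (hq : X.cs ∈ q.d) (A : Set X.𝔖.Z)
    (hA : A ∈ X.𝔖.F) (e : K → X.C) (z z' : X.𝔖.Z) (hz : X.cs ∈ X.𝔖.S z)
    (h : TrEq X.𝔖 q.d z z') (i : K) : wint X x q A hA e z i = wint X x q A hA e z' i := by
  unfold wint
  simp only [wset_congr X x q hq A hA _ z z' hz h, (h.2.2 _ hq).2 hz]

end Helper14C

open Helper14C in
/-- D8c -/
theorem exists_coord (sq : K → K → Set K) (enc : (K → Set K) → K)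
    (h1 : ∀ (k b : K) (g : K → Set K), (∀ h, h < k → g h ⊆ Iio b) → (∀ h, ¬ h < k → g h = ∅) →
        sq (enc g) = g)
    (h2 : ∀ k b : K, #{v | ∃ g : K → Set K, (∀ h, h < k → g h ⊆ Iio b) ∧
      (∀ h, ¬ h < k → g h = ∅) ∧ v = enc g} < #K)
    (x : K → RO X.P) (q : Coh K X.C) (hq : X.cs ∈ q.d) (A : Set X.𝔖.Z) (hA : A ∈ X.𝔖.F)
    (e : K → X.C) : ∃ c : X.B, ∀ᶠ z in (X.𝔖.F : Filter X.𝔖.Z), ∀ h < X.𝔖.kz z,
      sq (X.𝔖.rep z (X.cb c)) h = wint X x q A hA e z (X.sc h) := by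
  classical
  set g : X.𝔖.Z → K → Set K := fun z h =>
    if h < X.𝔖.kz z then wint X x q A hA e z (X.sc h) else ∅ with hg
  have hsub : ∀ z h, h < X.𝔖.kz z → g z h ⊆ Iio (X.bb (X.𝔖.rep z X.cs)) := by
    intro z h hh σ hσ
    simp only [hg, if_pos hh] at hσ
    exact hσ.1
  have hemp : ∀ z h, ¬ h < X.𝔖.kz z → g z h = ∅ := by
    intro z h hh
    simp only [hg, if_neg hh]
  obtain ⟨c, hc⟩ := X.factor q.d q.card hq {z | X.cs ∈ X.𝔖.S z} (X.𝔖.mem_S X.cs)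
    (fun z => enc (g z))
    (by
      intro z hz z' _ h
      change enc (g z) = enc (g z')
      congr 1
      funext h'
      simp only [hg, h.1, wint_congr X x q hq A hA e z z' hz h])
    (fun k u => {v | ∃ g : K → Set K, (∀ h, h < k → g h ⊆ Iio (X.bb u)) ∧
      (∀ h, ¬ h < k → g h = ∅) ∧ v = enc g})
    (fun k u => h2 k (X.bb u))
    (fun z _ => ⟨g z, hsub z, hemp z, rfl⟩)
  refine ⟨c, ?_⟩
  filter_upwards [hc] with z hz h hh
  rw [hz, h1 _ _ _ (hsub z) (hemp z)]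
  simp only [hg, if_pos hh]

end Pool.Agent.Helper23.XB
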