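import Pool.Agent.Helper23.XB.D1b
import Pool.Agent.Helper23.XB.B2

/-! # Project XB, module D8d -/

set_option autoImplicit false

namespace Pool.Agent.Helper23.XB

open Cardinal Filter Set Pool.Agent.Helper33.HM

universe u v w

variable {K : Type u} [LinearOrder K] [Inac K]

namespace H55

omit [Inac K] in
theorem ob_mono {C : Type u} {e : K → C} {i j : K} (h : i ≤ j) {τ : C → Option (St K)}
    (hτ : τ ∈ OB e i) : τ ∈ OB e j := by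
  intro c s hs
  obtain ⟨⟨k, hk, hk'⟩, h2⟩ := hτ c s hs
  exact ⟨⟨k, hk.trans_le h, hk'⟩, fun b hb => ⟨(h2 b hb).1.trans_le h, (h2 b hb).2.trans_le h⟩⟩

omit [Inac K] in
theorem dir_cn {C : Type u} {𝔖 : Smp K C} {q : Coh K C} {τ : C → Option (St K)} {A : Set 𝔖.Z}
    {hA : A ∈ 𝔖.F} {p : Cnd 𝔖} (h : Dir p (cn q τ A hA)) (z : 𝔖.Z) :
    Dir (p.add z) (cn q (upm 𝔖 q τ z) {w | w ∈ A ∧ 𝔖.hz z < 𝔖.kz w} (above_mem A hA _)) := by
  have h1 := h.add z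
  rw [add_cn] at h1
  exact h1

omit [Inac K] in
theorem hist2_aux {C : Type u} {𝔖 : Smp K C} (q : Coh K C) (A : Set 𝔖.Z) (hA : A ∈ 𝔖.F)
    (e : K → C) (c : C) {r p : Cnd 𝔖} (hr : Ext r p) :
    ∀ τ : C → Option (St K), (∀ w ∈ p.A, τ ∈ OB e (𝔖.kz w)) → Dir p (cn q τ A hA) → Fresh p c →
    (∀ z ∈ p.A, ∀ i ≤ 𝔖.kz z, ∀ τ ∈ OB e i, upm 𝔖 q τ z ∈ OB e (𝔖.hz z)) →
    ∀ n : ℕ, (p.f c).1.length ≤ n → n + 1 < (r.f c).1.length →
    ∃ z' ∈ p.A, ∃ z ∈ p.A, ∃ τ ∈ OB e (𝔖.hz z'), 𝔖.hz z' < 𝔖.kz z ∧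
      (r.f c).1.reverse[n]? = some (𝔖.kz z', 𝔖.rep z' c) ∧
      (r.f c).1.reverse[n + 1]? = some (𝔖.kz z, 𝔖.rep z c) ∧
      (∀ c', Fresh p c' → (𝔖.kz z', 𝔖.rep z' c') ∈ (r.f c').1 ∧
        (𝔖.kz z, 𝔖.rep z c') ∈ (r.f c').1) ∧
      r ≤ cn q (upm 𝔖 q τ z) {w | w ∈ A ∧ 𝔖.hz z < 𝔖.kz w} (above_mem A hA _) := by
  induction hr with
  | dir h =>
    intro τ _ _ hc _ n hn hn'
    rw [h.2.1 c hc.1] at hn'
    omega
  | @step p z1 hz1 hr ih =>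
    intro τ hτ hd hc htyp n hn hn'
    have hτ1 : upm 𝔖 q τ z1 ∈ OB e (𝔖.hz z1) := htyp z1 hz1 _ le_rfl τ (hτ z1 hz1)
    have hd1 := dir_cn hd z1
    have hf1 := hc.add hz1
    have hlen : ((p.add z1).f c).1.length = (p.f c).1.length + 1 := by rw [hf1.2]; rfl
    rcases hn.lt_or_eq with hlt | heq
    · obtain ⟨z', hz', z, hz, τ', hτ', h1, h2, h3, h4, h5⟩ := ih (upm 𝔖 q τ z1)
        (fun w hw => ob_mono hw.2.le hτ1)
        (hd1.trans ⟨Subset.rfl, fun _ _ => rfl, fun w hw => hw.1⟩) hf1.1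
        (fun z hz => htyp z hz.1) n (by omega) hn'
      exact ⟨z', hz'.1, z, hz.1, τ', hτ', h1, h2, h3, fun c' hc' => h4 c' (hc'.add hz1).1, h5⟩
    · cases hr with
      | dir h =>
        exfalso
        rw [h.2.1 c hf1.1.1, hlen] at hn'
        omega
      | step z2 hz2 hr2 =>
        have hd2 := dir_cn (hd1.trans (r := p.add z1)
          (p := cn q (upm 𝔖 q τ z1) A hA) ⟨Subset.rfl, fun _ _ => rfl, fun w hw => hw.1⟩) z2
        have hf2 := hf1.1.add hz2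
        have hle : r ≤ (p.add z1).add z2 := hr2
        have hs := (suffix_of_le hle hf2.1.1).2
        refine ⟨z1, hz1, z2, hz2.1, upm 𝔖 q τ z1, hτ1, hz2.2, get_suffix hs ?_, get_suffix hs ?_,
          fun c' hc' => ?_, hr2.dir_left hd2⟩
        · rw [hf2.2, hf1.2, ← heq]
          simp
        · rw [hf2.2, hf1.2, ← heq]
          simp
        · have hg1 := hc'.add hz1
          have hg2 := hg1.1.add hz2
          have hs' := (suffix_of_le hle hg2.1.1).2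
          constructor
          · refine hs'.subset ?_
            rw [hg2.2, hg1.2]
            simp
          · refine hs'.subset ?_
            rw [hg2.2]
            simp

end H55

/-- D8d: the analysis of the extensions of a condition below `cn q tz A`. -/
theorem hist2 {C : Type u} {𝔖 : Smp K C} (q : Coh K C) (A : Set 𝔖.Z) (hA : A ∈ 𝔖.F) (e : K → C)
    (c : C) (p₀ : Cnd 𝔖) (h0 : Dir p₀ (cn q tz A hA)) (hc : Fresh p₀ c)
    (htyp : ∀ z ∈ p₀.A, ∀ i ≤ 𝔖.kz z, ∀ τ ∈ OB e i, upm 𝔖 q τ z ∈ OB e (𝔖.hz z))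
    {r : Cnd 𝔖} (hr : r ≤ p₀) (n : ℕ) (hn : (p₀.f c).1.length ≤ n)
    (hn' : n + 1 < (r.f c).1.length) :
    ∃ z' ∈ p₀.A, ∃ z ∈ p₀.A, ∃ τ ∈ OB e (𝔖.hz z'), 𝔖.hz z' < 𝔖.kz z ∧
      (r.f c).1.reverse[n]? = some (𝔖.kz z', 𝔖.rep z' c) ∧
      (r.f c).1.reverse[n + 1]? = some (𝔖.kz z, 𝔖.rep z c) ∧
      (∀ c', Fresh p₀ c' → (𝔖.kz z', 𝔖.rep z' c') ∈ (r.f c').1 ∧
        (𝔖.kz z, 𝔖.rep z c') ∈ (r.f c').1) ∧
      r ≤ cn q (upm 𝔖 q τ z) {w | w ∈ A ∧ 𝔖.hz z < 𝔖.kz w} (above_mem A hA _) :=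
  H55.hist2_aux q A hA e c hr tz (fun _ _ _ _ h => by cases h) h0 hc htyp n hn hn'

end Pool.Agent.Helper23.XB
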