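import Pool.Agent.Helper23.XB.D4b
import Pool.Agent.Helper23.XB.D8b
import Pool.Agent.Helper23.XB.D8c
import Pool.Agent.Helper23.XB.D8d
import Pool.Agent.Helper23.XB.B9

/-! # Project XB, module D8e -/

set_option autoImplicit false

namespace Pool.Agent.Helper23.XB

open Cardinal Filter Set Pool.Agent.Helper33.HM

universe u v w

variable {K M Θ : Type u} [LinearOrder K] [Inac K] (X : XSys K M Θ)

/-- D8e: the sets `bs sq c a` are a base. -/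
theorem exists_base (sq : K → K → Set K) (enc : (K → Set K) → K)
    (h1 : ∀ (k b : K) (g : K → Set K), (∀ h, h < k → g h ⊆ Iio b) → (∀ h, ¬ h < k → g h = ∅) →
        sq (enc g) = g)
    (h2 : ∀ k b : K, #{v | ∃ g : K → Set K, (∀ h, h < k → g h ⊆ Iio b) ∧
      (∀ h, ¬ h < k → g h = ∅) ∧ v = enc g} < #K)
    (x : K → RO X.P) (p : X.P) (hp : p ∈ X.W x) :
    ∃ q, q ≤ p ∧ ∃ (c : X.B) (a : Set ℕ), a ∈ Filter.hyperfilter ℕ ∧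
      ∀ k, q ∈ (X.bs sq c a k ⇨ x k) := by
  classical
  have hne : Nonempty X.C := ⟨X.cs⟩
  obtain ⟨r₀, hr₀, a₀, ha₀, hen⟩ := (mem_hat _ _ _).1 hp p le_rfl
  obtain ⟨p₁, hp₁, -, hf₁⟩ := exists_fresh r₀ univ Filter.univ_mem {X.cs, X.ch} (by simp)
  have hI : ∀ i : K, #{a : K × K | max a.1 a.2 < i} < #K := by
    intro i
    have hsub : {a : K × K | max a.1 a.2 < i} ⊆ Iio i ×ˢ Iio i := by
      intro a ha
      exact ⟨(le_max_left _ _).trans_lt ha, (le_max_right _ _).trans_lt ha⟩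
    refine (mk_le_mk_of_subset hsub).trans_lt ?_
    have e1 : #(Iio i ×ˢ Iio i : Set (K × K)) = #(Iio i) * #(Iio i) := by
      rw [mk_setProd]
    rw [e1]
    exact mul_lt_of_lt (Inac.inacc (K := K)).aleph0_lt.le (Inac.small i) (Inac.small i)
  obtain ⟨q, A, hA, e, hqe, hdir, hdp⟩ :=
    dp (fun ts : K × K => x (X.pr ts)) (fun ts => max ts.1 ts.2) hI p₁
  have hcsq : X.cs ∈ q.d := hdir.1 (hf₁ X.cs (by simp)).1
  obtain ⟨c, hc⟩ := exists_coord X sq enc h1 h2 x q hcsq A hA e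
  have hw := wint_mem X x q A hA e
  have hu := upm_mem X.𝔖 e
  have hB : {z | (∀ i ≤ X.𝔖.kz z, ∀ τ ∈ OB e i, upm X.𝔖 q τ z ∈ OB e (X.𝔖.hz z)) ∧
      (∀ h < X.𝔖.kz z, sq (X.𝔖.rep z (X.cb c)) h = wint X x q A hA e z (X.sc h)) ∧
      (∀ i < X.𝔖.kz z, wint X x q A hA e z i ∈ X.VV (X.𝔖.rep z X.cs)) ∧
      X.𝔖.hz z = X.sc (X.𝔖.rep z X.ch) ∧ X.bb (X.𝔖.rep z X.cs) ≤ X.𝔖.hz z} ∈ X.𝔖.F := by
    filter_upwards [hc, hw, hu, X.hz_eq, X.bb_le] with z z1 z2 z3 z4 z5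
    exact ⟨z3 q hqe, z1, z2, z4, z5⟩
  obtain ⟨p₂, hp₂, hp₂A, hf₂⟩ := exists_fresh (cn q tz A hA) _ hB {X.cs, X.ch, X.cb c} (by simp)
  have hle₀ : p₂ ≤ r₀ := hp₂.le.trans (hdir.le.trans hp₁.le)
  refine ⟨p₂, hle₀.trans hr₀, c, {n | n ∈ a₀ ∧ (p₂.f X.cs).1.length + 1 < n}, ?_, ?_⟩
  · refine Filter.inter_mem ha₀ ?_
    refine Filter.hyperfilter_le_cofinite ?_
    rw [Filter.mem_cofinite]
    refine (Set.finite_Iic ((p₂.f X.cs).1.length + 1)).subset ?_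
    intro n hn
    exact Set.mem_Iic.2 (not_lt.1 hn)
  intro k
  rw [RO.mem_himp]
  intro r hr hrb
  refine RO.mem_reg fun r' hr' => ?_
  have hb' := RO.mem_lower hr' hrb
  obtain ⟨r₂, hr₂, hd1, hd2, hd3, n, ⟨hna, hnl⟩, t, u, t', u', v, h, σ, e1, e2, e3, e4, hk, hσ⟩ :=
    (mem_bs X sq c _ k r').1 hb' r' le_rfl
  subst hk
  have hr₂p : r₂ ≤ p₂ := hr₂.trans (hr'.trans hr)
  have hlen : n + 1 < (r₂.f X.cs).1.length := by
    have := (List.getElem?_eq_some_iff.1 e1).1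
    simpa using this
  have htyp : ∀ z ∈ p₂.A, ∀ i ≤ X.𝔖.kz z, ∀ τ ∈ OB e i, upm X.𝔖 q τ z ∈ OB e (X.𝔖.hz z) :=
    fun z hz => (hp₂A hz).1
  obtain ⟨z', hz', z, hz, τ, hτ, hzz, g1, g2, g3, hrz⟩ :=
    hist2 q A hA e X.cs p₂ hp₂ (hf₂ X.cs (by simp)) htyp hr₂p n (by omega) hlen
  obtain ⟨q1, q2, q3, q4, q5⟩ := hp₂A hz
  obtain ⟨-, -, -, q4', -⟩ := hp₂A hz'
  have w1 : t' = X.𝔖.kz z' ∧ u' = X.𝔖.rep z' X.cs := by
    rw [g1] at e2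
    simpa [Prod.ext_iff, eq_comm] using e2
  have w2 : t = X.𝔖.kz z ∧ u = X.𝔖.rep z X.cs := by
    rw [g2] at e1
    simpa [Prod.ext_iff, eq_comm] using e1
  obtain ⟨rfl, rfl⟩ := w1
  obtain ⟨rfl, rfl⟩ := w2
  have hv : v = X.𝔖.rep z (X.cb c) := st_unique _ e3 (g3 (X.cb c) (hf₂ _ (by simp))).2
  have hh : h = X.𝔖.rep z' X.ch := st_unique _ e4 (g3 X.ch (hf₂ _ (by simp))).1
  subst hv hh
  have hlt' : X.𝔖.rep z' X.ch < X.𝔖.hz z' := ((hf₂ X.ch (by simp)).2 z' hz').2.2.2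
  have hkh : X.𝔖.kz z < X.𝔖.hz z := ((hf₂ X.ch (by simp)).2 z hz).2.2.1
  have hsq : sq (X.𝔖.rep z (X.cb c)) (X.𝔖.rep z' X.ch) = wint X x q A hA e z (X.𝔖.hz z') := by
    rw [q2 _ (hlt'.trans hzz), ← q4']
  have hσ' : σ ∈ wint X x q A hA e z (X.𝔖.hz z') := by
    rw [← hsq]
    refine hσ ?_
    rw [hsq]
    exact q3 _ hzz
  have hob : upm X.𝔖 q τ z ∈ OB e (X.𝔖.hz z) := q1 _ hzz.le τ hτ
  have hwset : wset X x q A hA τ z ∈ X.VV (X.𝔖.rep z X.cs) := by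
    have hr₂en : r₂ ∈ X.en x (n + 1) := RO.mem_lower (hr₂p.trans hle₀) (hen _ hna)
    obtain ⟨r₃, hr₃, w, hgn, hhat⟩ := RO.mem_iSup.1 hr₂en r₂ le_rfl
    obtain ⟨r₄, hr₄, hd4, hw4⟩ := (mem_gn X (n + 1) w r₃).1 hgn r₃ le_rfl
    have hs := suffix_of_le (hr₄.trans hr₃) hd1
    have hw4' := get_suffix hs.2 e1
    have hww : w = (X.𝔖.kz z, X.𝔖.rep z X.cs) := by
      rw [hw4] at hw4'
      exact Option.some.inj hw4'
    subst hww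
    obtain ⟨r₅, hr₅, a', ha', hx⟩ := (mem_hat _ _ _).1 hhat r₄ hr₄
    refine Filter.mem_of_superset (Filter.inter_mem ha' (X.bb_mem _)) ?_
    rintro s ⟨hs1, hs2⟩
    refine ⟨hs2, ?_⟩
    have hlt : max (X.𝔖.kz z, s).1 (X.𝔖.kz z, s).2 < X.𝔖.hz z :=
      max_lt hkh (lt_of_lt_of_le hs2 q5)
    rcases hdp _ _ hob (X.𝔖.kz z, s) hlt with hd | hd
    · exact hd
    · exact absurd (hx s hs1) (RO.mem_compl.1 hd r₅ ((hr₅.trans (hr₄.trans hr₃)).trans hrz))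
  exact ⟨r₂, hr₂, RO.mem_lower hrz (hσ'.2 τ hτ hwset).2⟩

end Pool.Agent.Helper23.XB
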