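import Pool.Agent.Helper23.XB.D4a

/-! # Project XB, module D4b -/

set_option autoImplicit false

namespace Pool.Agent.Helper23.XB

open Cardinal Filter Set Pool.Agent.Helper33.HM

universe u v w

variable {K M Θ : Type u} [LinearOrder K] [Inac K] (X : XSys K M Θ)

namespace H90

theorem hat_le {P : Type u} [Preorder P] {I : Type v} (D : Ultrafilter I) {y y' : I → RO P}
    (h : ∀ i, y i ≤ y' i) : hat D y ≤ hat D y' := by
  have h1 := hat_mono D y y'
  have h2 : (⨅ i, (y i ⇨ y' i)) = ⊤ := by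
    rw [iInf_eq_top]
    intro i
    exact himp_eq_top_iff.2 (h i)
  rwa [h2, inf_top_eq] at h1

end H90

/-- D4b -/
theorem W_mono (x y : K → RO X.P) : X.W x ⊓ (⨅ k, (x k ⇨ y k)) ≤ X.W y := by
  refine le_trans (inf_le_inf_left _ ?_) (hat_mono (Filter.hyperfilter ℕ) (X.en x) (X.en y))
  refine le_iInf fun n => ?_
  rw [le_himp_iff, inf_comm]
  exact en_mono X x y n

theorem W_inf (x y : K → RO X.P) : X.W x ⊓ X.W y ≤ X.W fun k => x k ⊓ y k :=
  (hat_inf (Filter.hyperfilter ℕ) (X.en x) (X.en y)).trans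
    (H90.hat_le _ fun n => en_inf X x y n)

theorem W_compl (x : K → RO X.P) : X.W (fun k => (x k)ᶜ) = (X.W x)ᶜ := by
  unfold XSys.W
  have h1 : X.en (fun k => (x k)ᶜ) = fun n => (X.en x n)ᶜ := by
    funext n
    exact en_compl X x n
  rw [h1]
  refine hat_compl _ _ Set.univ Filter.univ_mem fun p => ?_
  haveI : Nonempty X.C := ⟨X.cs⟩
  have h2 : #(ULift.{u} ℕ) < #K := by
    rw [mk_uLift, mk_nat, lift_aleph0]
    exact Inac.inacc.aleph0_lt
  obtain ⟨q, hq, h⟩ := decide_small h2 (fun n : ULift.{u} ℕ => X.en x n.down) p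
  exact ⟨q, hq.le, fun n _ => h ⟨n⟩⟩

/-- D4c: a sufficient condition for `W x = ⊤` -/
theorem W_top (x : K → RO X.P) (a : Set ℕ) (ha : a ∈ Filter.hyperfilter ℕ)
    (h : ∀ p : X.P, ∃ q, q ≤ p ∧ ∃ N, ∀ n ∈ a, N ≤ n → q ∈ X.en x n) : X.W x = ⊤ := by
  rw [eq_top_iff, RO.le_def]
  intro p _
  unfold XSys.W
  rw [mem_hat]
  intro q _
  obtain ⟨r, hr, N, hN⟩ := h q
  refine ⟨r, hr, a ∩ {n | N ≤ n}, Filter.inter_mem ha ?_, fun n hn => hN n hn.1 hn.2⟩
  refine Filter.mem_hyperfilter_of_finite_compl ?_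
  refine (Set.finite_lt_nat N).subset fun n hn => ?_
  simpa using hn

end Pool.Agent.Helper23.XB
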