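import Pool.Agent.Helper23.XB.D4b

/-! # Project XB, module D9b -/

set_option autoImplicit false

namespace Pool.Agent.Helper23.XB

open Cardinal Filter Set Pool.Agent.Helper33.HM

universe u v w

variable {K M Θ : Type u} [LinearOrder K] [Inac K] (X : XSys K M Θ)

/-- D9b -/
theorem xs_W (ξ : M) : X.W (X.xs ξ) = ⊤ := by
  refine W_top X _ univ Filter.univ_mem fun p => ?_
  obtain ⟨q, hqp, hqA, hq⟩ := exists_fresh p _ (X.VV_fine ξ) {X.cs, X.cm ξ} (toFinite _)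
  have hcs : Fresh q X.cs := hq _ (mem_insert _ _)
  have hcm : Fresh q (X.cm ξ) := hq _ (mem_insert_of_mem _ rfl)
  refine ⟨q, hqp.le, (q.f X.cs).1.length, fun n _ hn => ?_⟩
  unfold XSys.en
  rw [RO.mem_iSup]
  intro r hr
  obtain ⟨r', hr', hrd, hrl⟩ := exists_long r X.cs (n + 1)
  obtain ⟨p', z, h1, h2, h3, h4, h5, h6⟩ := hist (hr'.trans hr) hcs n hn (by omega)
  refine ⟨r', hr', (X.𝔖.kz z, X.𝔖.rep z X.cs), RO.mem_inf.2 ⟨?_, ?_⟩⟩
  · rw [mem_gn]
    intro s hs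
    obtain ⟨a1, a2⟩ := suffix_of_le hs hrd
    exact ⟨s, le_refl _, a1, get_suffix a2 h6⟩
  · rw [mem_hat]
    intro s hs
    refine ⟨s, le_refl _, _, hqA h3, fun σ hσ => ?_⟩
    rw [mem_xs]
    intro t ht
    have hle : t ≤ p'.add z := (ht.trans hs).trans h4
    obtain ⟨b1, b2⟩ := (hcs.le h1).add h2
    obtain ⟨c1, c2⟩ := (hcm.le h1).add h2
    obtain ⟨d1, d2⟩ := suffix_of_le hle b1.1
    obtain ⟨e1, e2⟩ := suffix_of_le hle c1.1
    refine ⟨t, le_refl _, d1, e1, X.𝔖.kz z, X.𝔖.rep z X.cs, X.𝔖.rep z (X.cm ξ), σ, ?_, ?_, rfl, hσ⟩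
    · apply d2.subset
      rw [b2]
      exact List.mem_cons_self
    · apply e2.subset
      rw [c2]
      exact List.mem_cons_self

end Pool.Agent.Helper23.XB
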