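import Pool.Agent.Helper23.XB.D2
import Pool.Agent.Helper23.XB.D3

/-! # Project XB, module D9c -/

set_option autoImplicit false

namespace Pool.Agent.Helper23.XB

open Cardinal Filter Set Pool.Agent.Helper33.HM

universe u v w

variable {K M Θ : Type u} [LinearOrder K] [Inac K] (X : XSys K M Θ)

omit [Inac K] in
private theorem h72_long {C : Type u} {𝔖 : Smp K C} (q : Cnd 𝔖) (s : Set C)
    (hs : ∀ c ∈ s, Fresh q c) (c0 : C) (h0 : c0 ∈ s) (m : ℕ) :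
    ∃ q' : Cnd 𝔖, q' ≤ q ∧ q'.A ⊆ q.A ∧ (∀ c ∈ s, Fresh q' c) ∧
      (q'.f c0).1.length = (q.f c0).1.length + m := by
  induction m with
  | zero => exact ⟨q, le_rfl, Subset.rfl, hs, rfl⟩
  | succ m ih =>
    obtain ⟨q', h1, h2, h3, h4⟩ := ih
    obtain ⟨z, hz⟩ : q'.A.Nonempty := 𝔖.F.neBot.nonempty_of_mem q'.mem
    refine ⟨q'.add z, (add_le hz).trans h1, fun w hw => h2 hw.1,
      fun c hc => ((h3 c hc).add hz).1, ?_⟩
    rw [((h3 c0 h0).add hz).2, List.length_cons, h4]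
    omega

/-- D9c -/
theorem bs_not_le_xs (sq : K → K → Set K) (c : X.B) (a : Set ℕ)
    (ha : a ∈ Filter.hyperfilter ℕ) (ξ : M)
    (hξ : ∀ h, ¬ ∀ᶠ z in (X.𝔖.F : Filter X.𝔖.Z),
      X.sect sq (X.𝔖.rep z X.cs) (X.𝔖.rep z (X.cb c)) h ⊆
        {σ | X.Rl (X.𝔖.rep z X.cs) (X.𝔖.rep z (X.cm ξ)) σ}) :
    (⨅ k, (X.bs sq c a k ⇨ X.xs ξ k)) = ⊥ := by
  by_contra hne
  obtain ⟨p, hp⟩ := RO.ne_bot_iff.1 hne
  rw [RO.mem_iInf] at hp
  have h1 : ∀ h, ∀ᶠ z in (X.𝔖.F : Filter X.𝔖.Z),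
      ¬ X.sect sq (X.𝔖.rep z X.cs) (X.𝔖.rep z (X.cb c)) h ⊆
        {σ | X.Rl (X.𝔖.rep z X.cs) (X.𝔖.rep z (X.cm ξ)) σ} := fun h =>
    Ultrafilter.eventually_not.2 (hξ h)
  have h2 := X.𝔖.normal _ h1
  obtain ⟨q, hqp, hqA, hqF⟩ := exists_fresh p _ h2 {X.cs, X.ch, X.cb c, X.cm ξ} (by simp)
  have hainf : a.Infinite := fun hfin => Filter.notMem_hyperfilter_of_finite hfin ha
  obtain ⟨m, hma, hm⟩ := hainf.exists_gt ((q.f X.cs).1.length)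
  obtain ⟨n, rfl⟩ : ∃ n, m = n + 1 := ⟨m - 1, by omega⟩
  obtain ⟨q1, hq1, hq1A, hq1F, hlen⟩ := h72_long q {X.cs, X.ch, X.cb c, X.cm ξ} hqF X.cs
    (by simp) (n - (q.f X.cs).1.length)
  have hlen' : (q1.f X.cs).1.length = n := by omega
  obtain ⟨z', hz'⟩ : q1.A.Nonempty := X.𝔖.F.neBot.nonempty_of_mem q1.mem
  have hq2F : ∀ c' ∈ ({X.cs, X.ch, X.cb c, X.cm ξ} : Set X.C), Fresh (q1.add z') c' :=
    fun c' hc' => ((hq1F c' hc').add hz').1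
  obtain ⟨z, hz⟩ : (q1.add z').A.Nonempty := X.𝔖.F.neBot.nonempty_of_mem (q1.add z').mem
  have hzz : X.𝔖.hz z' < X.𝔖.kz z := hz.2
  have hh : X.𝔖.rep z' X.ch < X.𝔖.kz z :=
    ((hq1F X.ch (by simp)).2 z' hz').2.2.2.trans hzz
  have hzA := hqA (hq1A hz.1)
  obtain ⟨σ, hσ, hσ'⟩ := Set.not_subset.1 (hzA _ hh)
  have hr : (q1.add z').add z ≤ p :=
    (add_le hz).trans ((add_le hz').trans (hq1.trans hqp.le))
  have e1 : (((q1.add z').add z).f X.cs).1 =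
      (X.𝔖.kz z, X.𝔖.rep z X.cs) :: (X.𝔖.kz z', X.𝔖.rep z' X.cs) :: (q1.f X.cs).1 := by
    rw [((hq2F X.cs (by simp)).add hz).2, ((hq1F X.cs (by simp)).add hz').2]
  have e2 : (((q1.add z').add z).f X.ch).1 =
      (X.𝔖.kz z, X.𝔖.rep z X.ch) :: (X.𝔖.kz z', X.𝔖.rep z' X.ch) :: (q1.f X.ch).1 := by
    rw [((hq2F X.ch (by simp)).add hz).2, ((hq1F X.ch (by simp)).add hz').2]
  have e3 : (((q1.add z').add z).f (X.cb c)).1 =
      (X.𝔖.kz z, X.𝔖.rep z (X.cb c)) :: ((q1.add z').f (X.cb c)).1 :=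
    ((hq2F (X.cb c) (by simp)).add hz).2
  have e4 : (((q1.add z').add z).f (X.cm ξ)).1 =
      (X.𝔖.kz z, X.𝔖.rep z (X.cm ξ)) :: ((q1.add z').f (X.cm ξ)).1 :=
    ((hq2F (X.cm ξ) (by simp)).add hz).2
  have hd : ∀ c' ∈ ({X.cs, X.ch, X.cb c, X.cm ξ} : Set X.C), c' ∈ ((q1.add z').add z).d :=
    fun c' hc' => ((hq2F c' hc').add hz).1.1
  have hbs : (q1.add z').add z ∈ X.bs sq c a (X.pr (X.𝔖.kz z, σ)) := by
    refine RO.mem_gen.2 fun r hr => ⟨r, le_rfl, _, ?_, hr⟩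
    refine ⟨hd _ (by simp), hd _ (by simp), hd _ (by simp), n, hma, X.𝔖.kz z, X.𝔖.rep z X.cs,
      X.𝔖.kz z', X.𝔖.rep z' X.cs, X.𝔖.rep z (X.cb c), X.𝔖.rep z' X.ch, σ, ?_, ?_, ?_, ?_, rfl, hσ⟩
    · rw [e1, List.reverse_cons, List.reverse_cons, List.getElem?_append_right (by simp [hlen'])]
      simp [hlen']
    · rw [e1, List.reverse_cons, List.reverse_cons, List.getElem?_append_left (by simp [hlen']),
        List.getElem?_append_right (by simp [hlen'])]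
      simp [hlen']
    · rw [e3]
      exact List.mem_cons_self
    · rw [e2]
      exact List.mem_cons_of_mem _ List.mem_cons_self
  have hxs := RO.mem_himp.1 (hp (X.pr (X.𝔖.kz z, σ))) _ hr hbs
  obtain ⟨r, hrr, _, _, t, u, v, σ', ht, hv, hk, hR⟩ := (mem_xs X ξ _ _).1 hxs _ le_rfl
  have hk' := X.pr.injective hk
  simp only [Prod.mk.injEq] at hk'
  obtain ⟨rfl, rfl⟩ := hk'
  have hs1 := (suffix_of_le hrr (hd X.cs (by simp))).2
  have hs2 := (suffix_of_le hrr (hd (X.cm ξ) (by simp))).2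
  have hu : X.𝔖.rep z X.cs = u := by
    refine st_unique (r.f X.cs) (hs1.subset ?_) ht
    rw [e1]
    exact List.mem_cons_self
  have hv' : X.𝔖.rep z (X.cm ξ) = v := by
    refine st_unique (r.f (X.cm ξ)) (hs2.subset ?_) hv
    rw [e4]
    exact List.mem_cons_self
  apply hσ'
  change X.Rl (X.𝔖.rep z X.cs) (X.𝔖.rep z (X.cm ξ)) σ
  rw [hu, hv']
  exact hR

end Pool.Agent.Helper23.XB
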