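import Pool.Agent.Helper23.XB.D9a
import Pool.Agent.Helper23.XB.D9b
import Pool.Agent.Helper23.XB.D9c
import Pool.Agent.Helper23.XB.D12
import Pool.Agent.Helper23.XB.C3
import Pool.Agent.Helper23.XB.D4b

/-! # Project XB, module D9d -/

set_option autoImplicit false

namespace Pool.Agent.Helper23.XB

open Cardinal Filter Set Pool.Agent.Helper33.HM

universe u v w

variable {K M Θ : Type u} [LinearOrder K] [Inac K] (X : XSys K M Θ)

namespace H8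

theorem mk_iUnion_le' {ι α : Type u} {κ : Cardinal.{u}} (f : ι → Set α) (h : ∀ i, #(f i) ≤ κ) :
    #(⋃ i, f i : Set α) ≤ #ι * κ := by
  refine (mk_iUnion_le_sum_mk).trans ?_
  rw [← sum_const']
  exact sum_le_sum _ _ h

end H8

/-- D9d -/
theorem W_lower (sq : K → K → Set K)
    (hbase : ∀ x : K → RO X.P, X.W x ≤ ⨆ m : X.B × {a : Set ℕ // a ∈ Filter.hyperfilter ℕ},
      ⨅ k, (X.bs sq m.1 m.2.1 k ⇨ x k))
    (hM : 2 ^ #K < #M) (N : Type u) (hN : #N < #M) (b : N → K → RO X.P) :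
    ∃ x : K → RO X.P, X.W x = ⊤ ∧ ∀ n, X.W (b n) ⊓ (⨅ k, (b n k ⇨ x k)) = ⊥ := by
  have h0 : ℵ₀ ≤ #K := (Inac.inacc (K := K)).aleph0_lt.le
  have hK : #K ≤ 2 ^ #K := (cantor #K).le
  have hκ : ℵ₀ ≤ 2 ^ #K := h0.trans hK
  have hex : ∀ n : N, ∃ s : Set (X.B × {a : Set ℕ // a ∈ Filter.hyperfilter ℕ}),
      #s ≤ 2 ^ #K ∧ ⨆ m ∈ s, (⨅ k, (X.bs sq m.1 m.2.1 k ⇨ b n k)) =
        ⨆ m : X.B × {a : Set ℕ // a ∈ Filter.hyperfilter ℕ},
          ⨅ k, (X.bs sq m.1 m.2.1 k ⇨ b n k) := fun n =>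
    exists_small_sup _ (fun _ x hx hd => cnd_cc x hx hd) _
  choose s hs1 hs2 using hex
  set E : X.B → K → Set M := fun c h => {ξ : M | ∀ᶠ z in (X.𝔖.F : Filter X.𝔖.Z),
      X.sect sq (X.𝔖.rep z X.cs) (X.𝔖.rep z (X.cb c)) h ⊆
        {σ | X.Rl (X.𝔖.rep z X.cs) (X.𝔖.rep z (X.cm ξ)) σ}} with hE
  have hcard : #(⋃ n : N, ⋃ m : s n, ⋃ h : K, E m.1.1 h : Set M) < #M := by
    refine lt_of_le_of_lt (H8.mk_iUnion_le' (κ := 2 ^ #K) _ fun n => ?_)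
      (mul_lt_of_lt (hκ.trans hM.le) hN hM)
    refine (H8.mk_iUnion_le' (κ := 2 ^ #K) _ fun m => ?_).trans
      ((mul_le_mul_left (hs1 n) _).trans (mul_eq_self hκ).le)
    refine (H8.mk_iUnion_le' (κ := #K) _ fun h => (xi_small X sq m.1.1 h).le).trans ?_
    rw [mul_eq_self h0]
    exact hK
  obtain ⟨ξ, hξ⟩ : ∃ ξ : M, ξ ∉ (⋃ n : N, ⋃ m : s n, ⋃ h : K, E m.1.1 h : Set M) := by
    by_contra hcon
    push Not at hcon
    have : (⋃ n : N, ⋃ m : s n, ⋃ h : K, E m.1.1 h : Set M) = Set.univ := eq_univ_of_forall hcon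
    rw [this, mk_univ] at hcard
    exact lt_irrefl _ hcard
  simp only [mem_iUnion, not_exists] at hξ
  refine ⟨X.xs ξ, xs_W X ξ, fun n => ?_⟩
  rw [← le_bot_iff]
  refine (inf_le_inf_right _ (hbase (b n))).trans ?_
  rw [← hs2 n, iSup₂_inf_eq]
  refine iSup₂_le fun m hm => ?_
  rw [← bs_not_le_xs X sq m.1 m.2.1 m.2.2 ξ (fun h => hξ n ⟨m, hm⟩ h)]
  refine le_iInf fun k => ?_
  refine (inf_le_inf (iInf_le _ k) (iInf_le _ k)).trans ?_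
  exact himp_triangle _ _ _

end Pool.Agent.Helper23.XB
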