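import Pool.Agent.Helper23.XB.D5
import Pool.Agent.Helper23.XB.D6
import Pool.Agent.Helper23.XB.D7
import Pool.Agent.Helper23.XB.D8a
import Pool.Agent.Helper23.XB.D8e
import Pool.Agent.Helper23.XB.D9d
import Pool.Agent.Helper23.XB.D10
import Pool.Agent.Helper23.XB.D11
import Pool.Agent.Helper23.XB.C3

/-! # Project XB, assembly D13 -/

set_option autoImplicit false

namespace Pool.Agent.Helper23.XB

open Cardinal Filter Set Pool.Agent.Helper33.HM

universe u v w

theorem exists_BF {K M Θ : Type u} [LinearOrder K] [Inac K] (X : XSys K M Θ) (hM : 2 ^ #K < #M)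
    (hΘ : #M < #Θ) : Nonempty (BF X.P K M) := by
  classical
  have : Nonempty X.C := ⟨X.cs⟩
  obtain ⟨sq, enc, h1, h2⟩ := exists_sq K
  let J := X.B × {a : Set ℕ // a ∈ Filter.hyperfilter ℕ}
  have hinf : ℵ₀ ≤ #M := (Inac.inacc (K := K)).aleph0_lt.le.trans ((cantor _).le.trans hM.le)
  have hJ : #J ≤ #M := by
    have h3 : #{a : Set ℕ // a ∈ Filter.hyperfilter ℕ} ≤ 2 ^ ℵ₀ := by
      refine (mk_subtype_le _).trans ?_
      rw [mk_set, mk_nat]
    have h4 : (2 : Cardinal.{u}) ^ ℵ₀ ≤ #M :=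
      (power_le_power_left two_ne_zero (Inac.inacc (K := K)).aleph0_lt.le).trans hM.le
    have h5 : #J = #X.B * Cardinal.lift.{u} #{a : Set ℕ // a ∈ Filter.hyperfilter ℕ} := by
      rw [mk_prod]
      simp
    rw [h5]
    refine (mul_le_mul' X.card_B ?_).trans (mul_eq_self hinf).le
    refine (lift_le.2 h3).trans ?_
    simpa using h4
  have hne : Nonempty J := by
    have := X.nonempty_B
    exact ⟨(Classical.arbitrary _, ⟨univ, Filter.univ_mem⟩)⟩
  obtain ⟨s, hs⟩ : ∃ s : M → J, Function.Surjective s := by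
    obtain ⟨i⟩ := hJ
    exact ⟨Function.invFun i, Function.invFun_surjective i.injective⟩
  have hbase : ∀ x : K → RO X.P, X.W x ≤ ⨆ m : J, ⨅ k, (X.bs sq m.1 m.2.1 k ⇨ x k) := by
    intro x p hp
    refine RO.mem_iSup.2 fun q hq => ?_
    obtain ⟨r, hr, c, a, ha, h⟩ := exists_base X sq enc h1 h2 x q (RO.mem_lower hq hp)
    exact ⟨r, hr, (c, ⟨a, ha⟩), RO.mem_iInf.2 h⟩
  exact ⟨{
    W := X.W
    B := fun m => X.bs sq (s m).1 (s m).2.1
    t := X.tt
    nn := fun J x hJ p => by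
      obtain ⟨q, hq, h⟩ := decide_small hJ x p
      exact ⟨q, hq.le, h⟩
    W_mono := W_mono X
    W_inf := W_inf X
    W_compl := W_compl X
    t_sup := tt_sup X
    t_disj := tt_disj X
    t_unb := tt_unb X
    unif := W_unif X
    base_mem := fun m => bs_W X sq _ _ (s m).2.2
    base := fun x => (hbase x).trans (iSup_le fun j => by
      obtain ⟨m, rfl⟩ := hs j
      exact le_iSup (fun m => ⨅ k, (X.bs sq (s m).1 (s m).2.1 k ⇨ x k)) m)
    lower := W_lower X sq hbase hM
    cardM := fun N hN f p h => cc_cardM (2 ^ #K) (fun ι x => cnd_cc x)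
      ((Inac.inacc (K := K)).aleph0_lt.le.trans (cantor _).le) hM N hN f p h
    pow := W_pow X hM hΘ }⟩


end Pool.Agent.Helper23.XB
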