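import Pool.Agent.Helper23.XB.Defs

/-! # Project XB, module D1a -/

set_option autoImplicit false

namespace Pool.Agent.Helper23.XB

open Cardinal Filter Set Pool.Agent.Helper33.HM

universe u v w

variable {K C : Type u} [LinearOrder K] {𝔖 : Smp K C}

theorem Fresh.dir {q p : Cnd 𝔖} {c : C} (h : Dir q p) (hf : Fresh p c) : Fresh q c := by
  refine ⟨h.1 hf.1, fun z hz => ?_⟩
  have h1 := hf.2 z (h.2.2 hz)
  rw [h.2.1 c hf.1]
  exact h1

theorem Fresh.add {p : Cnd 𝔖} {c : C} {z : 𝔖.Z} (hf : Fresh p c) (hz : z ∈ p.A) :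
    Fresh (p.add z) c ∧ ((p.add z).f c).1 = (𝔖.kz z, 𝔖.rep z c) :: (p.f c).1 := by
  classical
  obtain ⟨h1, h2, h3, h4⟩ := hf.2 z hz
  have hfc : (p.add z).f c = (p.f c).upd (𝔖.kz z) (𝔖.rep z c) := by
    change (if c ∈ p.d ∧ c ∈ 𝔖.S z then (p.f c).upd (𝔖.kz z) (𝔖.rep z c) else p.f c) = _
    rw [if_pos ⟨hf.1, h1⟩]
  have hl : ((p.add z).f c).1 = (𝔖.kz z, 𝔖.rep z c) :: (p.f c).1 := by
    rw [hfc, St.upd_pos _ h2]
  refine ⟨⟨hf.1, fun z' hz' => ?_⟩, hl⟩
  obtain ⟨g1, g2⟩ := hz'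
  obtain ⟨k1, k2, k3, k4⟩ := hf.2 z' g1
  refine ⟨k1, ?_, k3, k4⟩
  rw [hl]
  intro b hb
  rcases List.mem_cons.1 hb with rfl | hb
  · exact ⟨h3.trans g2, h4.trans g2⟩
  · exact k2 b hb

theorem Fresh.le {q p : Cnd 𝔖} {c : C} (h : q ≤ p) (hf : Fresh p c) : Fresh q c := by
  rw [le_iff_ext] at h
  induction h with
  | dir h => exact hf.dir h
  | step z hz _ ih => exact ih (hf.add hz).1

theorem suffix_of_le {q p : Cnd 𝔖} {c : C} (h : q ≤ p) (hc : c ∈ p.d) :
    c ∈ q.d ∧ (p.f c).1 <:+ (q.f c).1 := by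
  classical
  rw [le_iff_ext] at h
  induction h with
  | dir h =>
    refine ⟨h.1 hc, ?_⟩
    rw [h.2.1 c hc]
  | @step p z hz _ ih =>
    obtain ⟨h1, h2⟩ := ih hc
    refine ⟨h1, List.IsSuffix.trans ?_ h2⟩
    change (p.f c).1 <:+
      (if c ∈ p.d ∧ c ∈ 𝔖.S z then (p.f c).upd (𝔖.kz z) (𝔖.rep z c) else p.f c).1
    split_ifs with h3
    · by_cases h4 : Bel (p.f c).1 (𝔖.kz z)
      · rw [St.upd_pos _ h4]
        exact List.suffix_cons _ _
      · rw [St.upd_neg _ h4]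
    · exact List.suffix_refl _

/-- The entries of a state are determined by their first components. -/
theorem st_unique (s : St K) {t v v' : K} (h : (t, v) ∈ s.1) (h' : (t, v') ∈ s.1) : v = v' := by
  obtain ⟨i, hi, h1⟩ := List.mem_iff_getElem.1 h
  obtain ⟨j, hj, h2⟩ := List.mem_iff_getElem.1 h'
  have hp := List.pairwise_iff_getElem.1 s.2
  rcases lt_trichotomy i j with hij | hij | hij
  · have := (hp i j hi hj hij).1
    rw [h1, h2] at this
    exact absurd this (lt_irrefl _)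
  · subst hij
    rw [h1] at h2
    exact congrArg Prod.snd h2
  · have := (hp j i hj hi hij).1
    rw [h1, h2] at this
    exact absurd this (lt_irrefl _)

/-- The first components of the entries increase. -/
theorem st_lt (s : St K) {n m : ℕ} {w w' : K × K} (h : s.1.reverse[n]? = some w)
    (h' : s.1.reverse[m]? = some w') (hnm : n < m) : w.1 < w'.1 ∧ w.2 < w'.1 := by
  have hp := List.pairwise_iff_getElem.1 (List.pairwise_reverse.2 s.2)
  obtain ⟨hn, h1⟩ := List.getElem?_eq_some_iff.1 h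
  obtain ⟨hm, h2⟩ := List.getElem?_eq_some_iff.1 h'
  have := hp n m hn hm hnm
  rw [h1, h2] at this
  exact this

/-- Entries of a longer state. -/
theorem get_suffix {s s' : List (K × K)} (h : s <:+ s') {n : ℕ} {w : K × K}
    (hw : s.reverse[n]? = some w) : s'.reverse[n]? = some w := by
  obtain ⟨t, rfl⟩ := h
  obtain ⟨hn, _⟩ := List.getElem?_eq_some_iff.1 hw
  rw [List.reverse_append, List.getElem?_append_left hn]
  exact hw

end Pool.Agent.Helper23.XB
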