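import Pool.Agent.Helper23.XB.D1a
import Pool.Agent.Helper23.XB.B0a

/-! # Project XB, module D1b -/

set_option autoImplicit false

namespace Pool.Agent.Helper23.XB

open Cardinal Filter Set Pool.Agent.Helper33.HM

universe u v w

variable {K C : Type u} [LinearOrder K] {𝔖 : Smp K C}

namespace H8

theorem bel_ev (l : List (K × K)) : ∀ᶠ z in (𝔖.F : Filter 𝔖.Z), Bel l (𝔖.kz z) := by
  have h : ∀ b ∈ {b | b ∈ l}, ∀ᶠ z in (𝔖.F : Filter 𝔖.Z), b.1 < 𝔖.kz z ∧ b.2 < 𝔖.kz z := by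
    intro b _
    exact (𝔖.unb b.1).and (𝔖.unb b.2)
  exact (eventually_all_finite (List.finite_toSet l)).2 h

end H8

theorem exists_fresh [Inac K] (p : Cnd 𝔖) (A : Set 𝔖.Z) (hA : A ∈ 𝔖.F) (s : Set C)
    (hs : s.Finite) : ∃ q, Dir q p ∧ q.A ⊆ A ∧ ∀ c ∈ s, Fresh q c := by
  have h0 : ℵ₀ ≤ #K := (Inac.inacc (K := K)).aleph0_lt.le
  have h1 : ∀ᶠ z in (𝔖.F : Filter 𝔖.Z), ∀ c ∈ s, c ∈ 𝔖.S z ∧ Bel (p.f c).1 (𝔖.kz z) := by
    refine (eventually_all_finite hs).2 fun c _ => ?_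
    exact (𝔖.mem_S c).and (H8.bel_ev _)
  have h2 : ∀ᶠ z in (𝔖.F : Filter 𝔖.Z), z ∈ p.A ∧ z ∈ A ∧
      (∀ c ∈ s, c ∈ 𝔖.S z ∧ Bel (p.f c).1 (𝔖.kz z)) ∧ 𝔖.kz z < 𝔖.hz z ∧
      ∀ c ∈ 𝔖.S z, 𝔖.rep z c < 𝔖.hz z := by
    filter_upwards [p.mem, hA, h1, 𝔖.kz_lt, 𝔖.rep_lt] with z a1 a2 a3 a4 a5
    exact ⟨a1, a2, a3, a4, a5⟩
  refine ⟨{ d := p.d ∪ s, f := p.f, A := {z | z ∈ p.A ∧ z ∈ A ∧
      (∀ c ∈ s, c ∈ 𝔖.S z ∧ Bel (p.f c).1 (𝔖.kz z)) ∧ 𝔖.kz z < 𝔖.hz z ∧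
      ∀ c ∈ 𝔖.S z, 𝔖.rep z c < 𝔖.hz z}, card := ?_, out := ?_, mem := h2 }, ?_, ?_, ?_⟩
  · refine (mk_union_le _ _).trans (add_le_of_le h0 p.card ?_)
    exact (hs.lt_aleph0.le).trans h0
  · intro c hc
    exact p.out c fun h => hc (Or.inl h)
  · exact ⟨subset_union_left, fun _ _ => rfl, fun z hz => hz.1⟩
  · exact fun z hz => hz.2.1
  · intro c hc
    refine ⟨Or.inr hc, fun z hz => ?_⟩
    obtain ⟨-, -, a3, a4, a5⟩ := hz
    exact ⟨(a3 c hc).1, (a3 c hc).2, a4, a5 c (a3 c hc).1⟩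

/-- The later entries at an active coordinate come from samples. -/
theorem hist {r p : Cnd 𝔖} {c : C} (h : r ≤ p) (hf : Fresh p c) (n : ℕ)
    (hn : (p.f c).1.length ≤ n) (hr : n < (r.f c).1.length) :
    ∃ (p' : Cnd 𝔖) (z : 𝔖.Z), p' ≤ p ∧ z ∈ p'.A ∧ z ∈ p.A ∧ r ≤ p'.add z ∧
      (p'.f c).1.length = n ∧ (r.f c).1.reverse[n]? = some (𝔖.kz z, 𝔖.rep z c) := by
  have h' : Ext r p := h
  clear h
  induction h' with
  | dir h =>
    rw [h.2.1 c hf.1] at hr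
    omega
  | @step p z hz h ih =>
    have hfa := hf.add hz
    rcases hn.eq_or_lt with he | hlt
    · refine ⟨p, z, le_refl _, hz, hz, h, he, ?_⟩
      have hle : r ≤ p.add z := h
      have hs := suffix_of_le hle hfa.1.1
      apply get_suffix hs.2
      rw [hfa.2, List.reverse_cons, ← he]
      simp
    · have hn' : ((p.add z).f c).1.length ≤ n := by
        rw [hfa.2, List.length_cons]
        omega
      obtain ⟨p', z', a1, a2, a3, a4, a5, a6⟩ := ih hfa.1 hn'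
      exact ⟨p', z', a1.trans (add_le hz), a2, a3.1, a4, a5, a6⟩

/-- Extensions with long sequences. -/
theorem exists_long [Inac K] (p : Cnd 𝔖) (c : C) (n : ℕ) :
    ∃ q, q ≤ p ∧ c ∈ q.d ∧ n ≤ (q.f c).1.length := by
  obtain ⟨q0, h0, -, hf⟩ := exists_fresh p univ univ_mem {c} (finite_singleton c)
  have hf := hf c rfl
  have key : ∀ n : ℕ, ∃ q, q ≤ p ∧ Fresh q c ∧ n ≤ (q.f c).1.length := by
    intro n
    induction n with
    | zero => exact ⟨q0, h0.le, hf, Nat.zero_le _⟩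
    | succ n ih =>
      obtain ⟨q, h1, h2, h3⟩ := ih
      obtain ⟨z, hz⟩ := 𝔖.F.nonempty_of_mem q.mem
      have h4 := h2.add hz
      refine ⟨q.add z, (add_le hz).trans h1, h4.1, ?_⟩
      rw [h4.2, List.length_cons]
      omega
  obtain ⟨q, h1, h2, h3⟩ := key n
  exact ⟨q, h1, h2.1, h3⟩

end Pool.Agent.Helper23.XB
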