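import Pool.Agent.Helper23.XB.DefsX
import Pool.Agent.Helper23.XB.D1b

/-! # Project XB, module D2 -/

set_option autoImplicit false

namespace Pool.Agent.Helper23.XB

open Cardinal Filter Set Pool.Agent.Helper33.HM

universe u v w

variable {K M Θ : Type u} [LinearOrder K] (X : XSys K M Θ)

/-- Membership in a regular open set generated by a lower set. -/
theorem mem_gen_lower {P : Type u} [Preorder P] {D : Set P} (hD : ∀ p ∈ D, ∀ q, q ≤ p → q ∈ D)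
    (p : P) : p ∈ RO.gen D ↔ ∀ q, q ≤ p → ∃ r, r ≤ q ∧ r ∈ D := by
  rw [RO.mem_gen]
  constructor
  · intro h q hq
    obtain ⟨r, hr, a, ha, hra⟩ := h q hq
    exact ⟨r, hr, hD a ha r hra⟩
  · intro h q hq
    obtain ⟨r, hr, hrD⟩ := h q hq
    exact ⟨r, hr, r, hrD, le_rfl⟩

theorem mem_gn (n : ℕ) (w : K × K) (p : X.P) : p ∈ X.gn n w ↔
    ∀ q, q ≤ p → ∃ r, r ≤ q ∧ X.cs ∈ r.d ∧ (r.f X.cs).1.reverse[n]? = some w := by
  unfold XSys.gn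
  rw [mem_gen_lower]
  · exact Iff.rfl
  · rintro p ⟨h1, h2⟩ q hq
    obtain ⟨h3, h4⟩ := suffix_of_le hq h1
    exact ⟨h3, get_suffix h4 h2⟩

theorem mem_ge (c : X.C) (t v : K) (p : X.P) : p ∈ X.ge c t v ↔
    ∀ q, q ≤ p → ∃ r, r ≤ q ∧ c ∈ r.d ∧ (t, v) ∈ (r.f c).1 := by
  unfold XSys.ge
  rw [mem_gen_lower]
  · exact Iff.rfl
  · rintro p ⟨h1, h2⟩ q hq
    obtain ⟨h3, h4⟩ := suffix_of_le hq h1
    exact ⟨h3, h4.subset h2⟩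

theorem mem_xs (ξ : M) (k : K) (p : X.P) : p ∈ X.xs ξ k ↔
    ∀ q, q ≤ p → ∃ r, r ≤ q ∧ X.cs ∈ r.d ∧ X.cm ξ ∈ r.d ∧ ∃ t u v σ, (t, u) ∈ (r.f X.cs).1 ∧
      (t, v) ∈ (r.f (X.cm ξ)).1 ∧ k = X.pr (t, σ) ∧ X.Rl u v σ := by
  unfold XSys.xs
  rw [mem_gen_lower]
  · exact Iff.rfl
  · rintro p ⟨h1, h2, t, u, v, σ, h3, h4, h5, h6⟩ q hq
    obtain ⟨a1, a2⟩ := suffix_of_le hq h1
    obtain ⟨b1, b2⟩ := suffix_of_le hq h2
    exact ⟨a1, b1, t, u, v, σ, a2.subset h3, b2.subset h4, h5, h6⟩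

theorem mem_bs (sq : K → K → Set K) (c : X.B) (a : Set ℕ) (k : K) (p : X.P) :
    p ∈ X.bs sq c a k ↔ ∀ q, q ≤ p → ∃ r, r ≤ q ∧ X.cs ∈ r.d ∧ X.ch ∈ r.d ∧ X.cb c ∈ r.d ∧
      ∃ n, n + 1 ∈ a ∧ ∃ t u t' u' v h σ,
      (r.f X.cs).1.reverse[n + 1]? = some (t, u) ∧ (r.f X.cs).1.reverse[n]? = some (t', u') ∧
      (t, v) ∈ (r.f (X.cb c)).1 ∧ (t', h) ∈ (r.f X.ch).1 ∧ k = X.pr (t, σ) ∧
      σ ∈ X.sect sq u v h := by
  unfold XSys.bs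
  rw [mem_gen_lower]
  · exact Iff.rfl
  · rintro p ⟨h1, h2, h3, n, hn, t, u, t', u', v, h, σ, c1, c2, c3, c4, c5, c6⟩ q hq
    obtain ⟨a1, a2⟩ := suffix_of_le hq h1
    obtain ⟨b1, b2⟩ := suffix_of_le hq h2
    obtain ⟨d1, d2⟩ := suffix_of_le hq h3
    exact ⟨a1, b1, d1, n, hn, t, u, t', u', v, h, σ, get_suffix a2 c1, get_suffix a2 c2,
      d2.subset c3, b2.subset c4, c5, c6⟩

theorem gn_disj (n : ℕ) (w w' : K × K) (h : w ≠ w') : X.gn n w ⊓ X.gn n w' = ⊥ := by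
  apply RO.ext'
  intro p
  refine ⟨fun hp => ?_, fun hp => (RO.not_mem_bot p hp).elim⟩
  exfalso
  obtain ⟨h1, h2⟩ := hp
  obtain ⟨r, hr, hr1, hr2⟩ := (mem_gn X n w p).1 h1 p le_rfl
  obtain ⟨s, hs, hs1, hs2⟩ := (mem_gn X n w' p).1 h2 r hr
  have h3 := get_suffix (suffix_of_le hs hr1).2 hr2
  rw [h3] at hs2
  exact h (Option.some_injective _ hs2)

theorem gn_sup [Inac K] (n : ℕ) : ⨆ w, X.gn n w = ⊤ := by
  apply RO.ext'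
  intro p
  refine ⟨fun _ => RO.mem_top p, fun _ => ?_⟩
  rw [RO.mem_iSup]
  intro q _
  obtain ⟨r, hr, hr1, hr2⟩ := exists_long q X.cs (n + 1)
  have hlen : n < (r.f X.cs).1.reverse.length := by
    rw [List.length_reverse]
    omega
  refine ⟨r, hr, (r.f X.cs).1.reverse[n], ?_⟩
  rw [mem_gn]
  intro s hs
  refine ⟨s, le_rfl, (suffix_of_le hs hr1).1, ?_⟩
  refine get_suffix (suffix_of_le hs hr1).2 ?_
  exact List.getElem?_eq_getElem hlen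

end Pool.Agent.Helper23.XB
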