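import Pool.Agent.Helper23.XB.D2
import Pool.Agent.Helper23.XB.D3
import Pool.Agent.Helper23.XB.B10

/-! # Project XB, module D4a -/

set_option autoImplicit false

namespace Pool.Agent.Helper23.XB

open Cardinal Filter Set Pool.Agent.Helper33.HM

universe u v w

variable {K M Θ : Type u} [LinearOrder K] [Inac K] (X : XSys K M Θ)

omit [Inac K] in
private theorem mem_en (x : K → RO X.P) (n : ℕ) (p : X.P) : p ∈ X.en x n ↔
    ∀ q, q ≤ p → ∃ r, r ≤ q ∧ ∃ w : K × K, r ∈ X.gn n w ∧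
      r ∈ hat (X.VV w.2) fun σ => x (X.pr (w.1, σ)) := by
  unfold XSys.en
  rw [RO.mem_iSup]
  rfl

omit [Inac K] in
private theorem gn_eq {n : ℕ} {w w' : K × K} {p : X.P} (h : p ∈ X.gn n w) (h' : p ∈ X.gn n w') :
    w = w' := by
  by_contra hne
  have h1 : p ∈ X.gn n w ⊓ X.gn n w' := RO.mem_inf.2 ⟨h, h'⟩
  rw [gn_disj X n w w' hne] at h1
  exact RO.not_mem_bot p h1

/-- D4a -/
theorem en_mono (x y : K → RO X.P) (n : ℕ) : X.en x n ⊓ (⨅ k, (x k ⇨ y k)) ≤ X.en y n := by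
  rw [RO.le_def]
  intro p hp
  obtain ⟨h1, h2⟩ := RO.mem_inf.1 hp
  rw [mem_en] at h1 ⊢
  intro q hq
  obtain ⟨r, hr, w, hw, hh⟩ := h1 q hq
  refine ⟨r, hr, w, hw, ?_⟩
  have h3 : r ∈ hat (X.VV w.2) (fun σ => x (X.pr (w.1, σ))) ⊓
      (⨅ σ, (x (X.pr (w.1, σ)) ⇨ y (X.pr (w.1, σ)))) := by
    refine RO.mem_inf.2 ⟨hh, ?_⟩
    rw [RO.mem_iInf]
    intro σ
    rw [RO.mem_iInf] at h2
    exact RO.mem_lower (hr.trans hq) (h2 (X.pr (w.1, σ)))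
  exact RO.le_def.1 (hat_mono (X.VV w.2) (fun σ => x (X.pr (w.1, σ)))
    (fun σ => y (X.pr (w.1, σ)))) r h3

theorem en_inf (x y : K → RO X.P) (n : ℕ) :
    X.en x n ⊓ X.en y n ≤ X.en (fun k => x k ⊓ y k) n := by
  rw [RO.le_def]
  intro p hp
  obtain ⟨h1, h2⟩ := RO.mem_inf.1 hp
  rw [mem_en] at h1 h2 ⊢
  intro q hq
  obtain ⟨r, hr, w, hw, hh⟩ := h1 q hq
  obtain ⟨r', hr', w', hw', hh'⟩ := h2 r (hr.trans hq)
  have hww : w = w' := gn_eq X (RO.mem_lower hr' hw) hw'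
  subst hww
  refine ⟨r', hr'.trans hr, w, hw', ?_⟩
  exact RO.le_def.1 (hat_inf (X.VV w.2) (fun σ => x (X.pr (w.1, σ)))
    (fun σ => y (X.pr (w.1, σ)))) r' (RO.mem_inf.2 ⟨RO.mem_lower hr' hh, hh'⟩)

theorem en_compl (x : K → RO X.P) (n : ℕ) : X.en (fun k => (x k)ᶜ) n = (X.en x n)ᶜ := by
  haveI : Nonempty X.C := ⟨X.cs⟩
  have hc : ∀ w : K × K, hat (X.VV w.2) (fun σ => (x (X.pr (w.1, σ)))ᶜ) =
      (hat (X.VV w.2) fun σ => x (X.pr (w.1, σ)))ᶜ := by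
    intro w
    refine hat_compl (X.VV w.2) (fun σ => x (X.pr (w.1, σ))) (Iio (X.bb w.2)) (X.bb_mem w.2) ?_
    intro p
    obtain ⟨q, hq, hd⟩ := decide_small (J := Iio (X.bb w.2)) (Inac.small _)
      (fun σ => x (X.pr (w.1, (σ : K)))) p
    exact ⟨q, hq.le, fun i hi => hd ⟨i, hi⟩⟩
  apply le_antisymm
  · rw [RO.le_def]
    intro p hp
    rw [RO.mem_compl]
    intro q hq hqe
    rw [mem_en] at hp hqe
    obtain ⟨r, hr, w, hw, hh⟩ := hp q hq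
    obtain ⟨r', hr', w', hw', hh'⟩ := hqe r hr
    have hww : w = w' := gn_eq X (RO.mem_lower hr' hw) hw'
    subst hww
    rw [hc w] at hh
    exact RO.mem_compl.1 hh r' hr' hh'
  · rw [RO.le_def]
    intro p hp
    rw [mem_en]
    intro q hq
    have hq' : q ∈ ⨆ w, X.gn n w := by
      rw [gn_sup X n]
      exact RO.mem_top q
    rw [RO.mem_iSup] at hq'
    obtain ⟨r, hr, w, hw⟩ := hq' q le_rfl
    refine ⟨r, hr, w, hw, ?_⟩
    rw [hc w, RO.mem_compl]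
    intro r' hr' hh
    refine RO.mem_compl.1 hp r' (hr'.trans (hr.trans hq)) ?_
    rw [mem_en]
    intro t ht
    exact ⟨t, le_rfl, w, RO.mem_lower (ht.trans hr') hw, RO.mem_lower ht hh⟩

end Pool.Agent.Helper23.XB
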