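import Pool.Agent.Helper23.XB.D2

/-! # Project XB, module D5 -/

set_option autoImplicit false

namespace Pool.Agent.Helper23.XB

open Cardinal Filter Set Pool.Agent.Helper33.HM

universe u v w

variable {K M Θ : Type u} [LinearOrder K] [Inac K] (X : XSys K M Θ)

/-- D5 -/
theorem tt_sup (n : ℕ) : ⨆ k, X.tt n k = ⊤ := by
  have h := gn_sup X n
  rw [iSup_prod] at h
  exact h

theorem tt_disj (n : ℕ) (k k' : K) (h : k ≠ k') : X.tt n k ⊓ X.tt n k' = ⊥ := by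
  unfold XSys.tt
  rw [iSup_inf_eq, iSup_eq_bot]
  intro u
  rw [inf_iSup_eq, iSup_eq_bot]
  intro u'
  exact gn_disj X n (k, u) (k', u') fun h' => h (congrArg Prod.fst h')

theorem tt_unb (i : K) : ⨆ (n : ℕ) (k : K) (_ : i < k), X.tt n k = ⊤ := by
  rw [eq_top_iff, RO.le_def]
  intro p _
  refine RO.mem_reg fun q _ => ?_
  obtain ⟨q', hq', hA, hf⟩ := exists_fresh q {z | i < X.𝔖.kz z} (X.𝔖.unb i) {X.cs}
    (Set.finite_singleton _)
  have hf' := hf X.cs rfl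
  obtain ⟨z, hz⟩ := Ultrafilter.nonempty_of_mem q'.mem
  obtain ⟨h1, h2⟩ := hf'.add hz
  refine ⟨q'.add z, (add_le hz).trans hq'.le, ?_⟩
  have h3 : q'.add z ∈ X.gn (q'.f X.cs).1.length (X.𝔖.kz z, X.𝔖.rep z X.cs) := by
    rw [mem_gn]
    intro s hs
    refine ⟨s, le_rfl, (suffix_of_le hs h1.1).1, get_suffix (suffix_of_le hs h1.1).2 ?_⟩
    rw [h2, List.reverse_cons]
    simp
  have h4 : X.gn (q'.f X.cs).1.length (X.𝔖.kz z, X.𝔖.rep z X.cs) ≤
      ⨆ (n : ℕ) (k : K) (_ : i < k), X.tt n k := by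
    refine le_iSup_of_le (q'.f X.cs).1.length (le_iSup_of_le (X.𝔖.kz z)
      (le_iSup_of_le (hA hz) ?_))
    exact le_iSup (fun u => X.gn (q'.f X.cs).1.length (X.𝔖.kz z, u)) (X.𝔖.rep z X.cs)
  exact RO.le_def.1 h4 _ h3

end Pool.Agent.Helper23.XB
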