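import Pool.Agent.Helper23.XB.DefsX
import Pool.Agent.Helper23.XB.B0a

/-! # Project XB, module D9a -/

set_option autoImplicit false

namespace Pool.Agent.Helper23.XB

open Cardinal Filter Set Pool.Agent.Helper33.HM

universe u v w

variable {K M Θ : Type u} [LinearOrder K] [Inac K] (X : XSys K M Θ)

/-- D9a -/
theorem xi_small (sq : K → K → Set K) (c : X.B) (h : K) :
    #{ξ : M | ∀ᶠ z in (X.𝔖.F : Filter X.𝔖.Z),
      X.sect sq (X.𝔖.rep z X.cs) (X.𝔖.rep z (X.cb c)) h ⊆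
        {σ | X.Rl (X.𝔖.rep z X.cs) (X.𝔖.rep z (X.cm ξ)) σ}} < #K := by
  by_contra hcon
  rw [not_lt, Cardinal.le_def] at hcon
  obtain ⟨g⟩ := hcon
  set e : K → M := fun j => (g j).1 with he
  have hinj : Function.Injective e := fun a b hab => g.injective (Subtype.ext hab)
  have h1 : ∀ᶠ z in (X.𝔖.F : Filter X.𝔖.Z), ∀ j < X.𝔖.kz z,
      X.sect sq (X.𝔖.rep z X.cs) (X.𝔖.rep z (X.cb c)) h ⊆
        {σ | X.Rl (X.𝔖.rep z X.cs) (X.𝔖.rep z (X.cm (e j))) σ} :=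
    X.𝔖.normal _ fun j => (g j).2
  have h2 := X.VV_small e hinj
  obtain ⟨z, hz1, hz2⟩ := (h1.and h2).exists
  have h3 : X.sect sq (X.𝔖.rep z X.cs) (X.𝔖.rep z (X.cb c)) h ∈ X.VV (X.𝔖.rep z X.cs) := by
    by_cases hc : sq (X.𝔖.rep z (X.cb c)) h ∈ X.VV (X.𝔖.rep z X.cs)
    · exact Filter.mem_of_superset hc fun σ hσ _ => hσ
    · exact Filter.mem_of_superset Filter.univ_mem fun σ _ hσ => (hc hσ).elim
  obtain ⟨σ, hσ1, j, hj, hσ2⟩ := (X.VV (X.𝔖.rep z X.cs)).nonempty_of_mem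
    (Filter.inter_mem h3 hz2)
  exact hσ2 (hz1 j hj hσ1)

end Pool.Agent.Helper23.XB
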