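import Pool.Agent.Helper33.HM.RO

/-!
# Project XB: the poset

`K` is a well-order of inaccessible type, `C` the set of the coordinates. A sample system `𝔖` is an
ultrafilter `F` on a set `Z` of samples with some functions; every sample `z` adds to the finite
sequence at each coordinate `c ∈ S z` the entry `(kz z, rep z c)`.
-/

set_option autoImplicit false

namespace Pool.Agent.Helper23.XB

open Cardinal Filter Set Pool.Agent.Helper33.HM

universe u

/-- `K` is a well-order whose type is (the initial ordinal of) an inaccessible cardinal. -/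
class Inac (K : Type u) [LinearOrder K] : Prop where
  wf : WellFoundedLT K
  inacc : IsInaccessible #K
  small : ∀ i : K, #(Iio i) < #K

instance (K : Type u) [LinearOrder K] [Inac K] : WellFoundedLT K := Inac.wf

instance (K : Type u) [LinearOrder K] [Inac K] : Nonempty K :=
  mk_ne_zero_iff.1 (Inac.inacc (K := K)).ne_zero

/-- All the entries of `l` are below `i`. -/
def Bel {K : Type u} [LinearOrder K] (l : List (K × K)) (i : K) : Prop := ∀ b ∈ l, b.1 < i ∧ b.2 < i

/-- Finite sequences of pairs, the newest entry first; the first component of every entry is above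
the components of the older entries. -/
def St (K : Type u) [LinearOrder K] : Type u :=
  {l : List (K × K) // l.Pairwise fun a b => b.1 < a.1 ∧ b.2 < a.1}

namespace St

variable {K : Type u} [LinearOrder K]

/-- The empty sequence. -/
def nil : St K := ⟨[], List.Pairwise.nil⟩

open Classical in
/-- Add the entry `(t, v)` if all the entries of `s` are below `t`. -/
noncomputable def upd (s : St K) (t v : K) : St K :=
  if h : Bel s.1 t then ⟨(t, v) :: s.1, List.pairwise_cons.2 ⟨fun b hb => h b hb, s.2⟩⟩ else s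

theorem upd_pos {s : St K} {t : K} (v : K) (h : Bel s.1 t) : (s.upd t v).1 = (t, v) :: s.1 := by
  unfold upd
  rw [dif_pos h]

theorem upd_neg {s : St K} {t : K} (v : K) (h : ¬ Bel s.1 t) : s.upd t v = s := by
  unfold upd
  rw [dif_neg h]

end St

/-- Sample systems. -/
structure Smp (K C : Type u) [LinearOrder K] where
  /-- the samples -/
  Z : Type u
  /-- the ultrafilter -/
  F : Ultrafilter Z
  /-- the level of a sample -/
  kz : Z → K
  /-- the height of a sample -/
  hz : Z → K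
  /-- the support of a sample -/
  S : Z → Set C
  /-- the value of a sample at a coordinate -/
  rep : Z → C → K
  complete : ∀ (ι : Type u) (A : ι → Set Z), #ι < #K → (∀ i, A i ∈ F) → (⋂ i, A i) ∈ F
  normal : ∀ p : K → Z → Prop, (∀ i, ∀ᶠ z in (F : Filter Z), p i z) →
    ∀ᶠ z in (F : Filter Z), ∀ i < kz z, p i z
  unb : ∀ i, ∀ᶠ z in (F : Filter Z), i < kz z
  mem_S : ∀ c, ∀ᶠ z in (F : Filter Z), c ∈ S z
  enum : ∀ e : K → C, ∀ᶠ z in (F : Filter Z), ∀ c ∈ S z, c ∈ range e → ∃ i < hz z, e i = c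
  kz_lt : ∀ᶠ z in (F : Filter Z), kz z < hz z
  rep_lt : ∀ᶠ z in (F : Filter Z), ∀ c ∈ S z, rep z c < hz z

section Cnd

variable {K C : Type u} [LinearOrder K]

/-- Conditions. -/
structure Cnd (𝔖 : Smp K C) where
  d : Set C
  f : C → St K
  A : Set 𝔖.Z
  card : #d ≤ #K
  out : ∀ c, c ∉ d → f c = St.nil
  mem : A ∈ 𝔖.F

variable {𝔖 : Smp K C}

/-- `q` is a direct extension of `p`. -/
def Dir (q p : Cnd 𝔖) : Prop := p.d ⊆ q.d ∧ (∀ c ∈ p.d, q.f c = p.f c) ∧ q.A ⊆ p.A

theorem Dir.refl (p : Cnd 𝔖) : Dir p p := ⟨Subset.rfl, fun _ _ => rfl, Subset.rfl⟩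

theorem Dir.trans {r q p : Cnd 𝔖} (h : Dir r q) (h' : Dir q p) : Dir r p :=
  ⟨h'.1.trans h.1, fun c hc => (h.2.1 c (h'.1 hc)).trans (h'.2.1 c hc), h.2.2.trans h'.2.2⟩

/-- The measure one set of the samples above the height of `z`. -/
theorem above_mem (A : Set 𝔖.Z) (hA : A ∈ 𝔖.F) (i : K) : {w | w ∈ A ∧ i < 𝔖.kz w} ∈ 𝔖.F := by
  have h := 𝔖.unb i
  exact Filter.inter_mem hA h

open Classical in
/-- The extension of `p` by the sample `z`. -/
noncomputable def Cnd.add (p : Cnd 𝔖) (z : 𝔖.Z) : Cnd 𝔖 where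
  d := p.d
  f c := if c ∈ p.d ∧ c ∈ 𝔖.S z then (p.f c).upd (𝔖.kz z) (𝔖.rep z c) else p.f c
  A := {w | w ∈ p.A ∧ 𝔖.hz z < 𝔖.kz w}
  card := p.card
  out c hc := by rw [if_neg fun h => hc h.1]; exact p.out c hc
  mem := above_mem p.A p.mem _

theorem Dir.add {q p : Cnd 𝔖} (h : Dir q p) (z : 𝔖.Z) : Dir (q.add z) (p.add z) := by
  classical
  refine ⟨h.1, fun c hc => ?_, fun w hw => ⟨h.2.2 hw.1, hw.2⟩⟩
  have hc' : c ∈ q.d := h.1 hc
  change (if c ∈ q.d ∧ c ∈ 𝔖.S z then (q.f c).upd (𝔖.kz z) (𝔖.rep z c) else q.f c) =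
    (if c ∈ p.d ∧ c ∈ 𝔖.S z then (p.f c).upd (𝔖.kz z) (𝔖.rep z c) else p.f c)
  rw [h.2.1 c hc]
  by_cases hz : c ∈ 𝔖.S z
  · rw [if_pos ⟨hc', hz⟩, if_pos ⟨hc, hz⟩]
  · rw [if_neg fun h => hz h.2, if_neg fun h => hz h.2]

/-- The order: `q` is obtained from `p` by finitely many samples and a direct extension. -/
inductive Ext : Cnd 𝔖 → Cnd 𝔖 → Prop
  | dir {q p : Cnd 𝔖} : Dir q p → Ext q p
  | step {q p : Cnd 𝔖} (z : 𝔖.Z) : z ∈ p.A → Ext q (p.add z) → Ext q p

theorem Ext.dir_left {r q p : Cnd 𝔖} (h : Ext r q) (h' : Dir q p) : Ext r p := by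
  induction h generalizing p with
  | dir h => exact .dir (h.trans h')
  | step z hz _ ih => exact .step z (h'.2.2 hz) (ih (h'.add z))

theorem Ext.trans {r q p : Cnd 𝔖} (h : Ext r q) (h' : Ext q p) : Ext r p := by
  induction h' with
  | dir h' => exact h.dir_left h'
  | step z hz _ ih => exact .step z hz ih

instance : Preorder (Cnd 𝔖) where
  le q p := Ext q p
  le_refl p := .dir (.refl p)
  le_trans _ _ _ h h' := h.trans h'

theorem le_iff_ext {q p : Cnd 𝔖} : q ≤ p ↔ Ext q p := Iff.rfl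

theorem Dir.le {q p : Cnd 𝔖} (h : Dir q p) : q ≤ p := Ext.dir h

theorem add_le {p : Cnd 𝔖} {z : 𝔖.Z} (h : z ∈ p.A) : p.add z ≤ p := Ext.step z h (.dir (.refl _))

instance : OrderTop (Cnd 𝔖) where
  top := ⟨∅, fun _ => St.nil, univ, by simp, fun _ _ => rfl, Filter.univ_mem⟩
  le_top _ := Dir.le ⟨empty_subset _, fun _ h => h.elim, subset_univ _⟩

/-- The coordinate `c` is active in the condition `p`: every sample of `p` adds an entry. -/
def Fresh (p : Cnd 𝔖) (c : C) : Prop :=
  c ∈ p.d ∧ ∀ z ∈ p.A, c ∈ 𝔖.S z ∧ Bel (p.f c).1 (𝔖.kz z) ∧ 𝔖.kz z < 𝔖.hz z ∧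
    𝔖.rep z c < 𝔖.hz z

end Cnd

/-! ### Cohen parts and their small modifications -/

section Coh

variable {K C : Type u} [LinearOrder K]

/-- Cohen parts of conditions. -/
structure Coh (K C : Type u) [LinearOrder K] where
  d : Set C
  f : C → St K
  card : #d ≤ #K
  out : ∀ c, c ∉ d → f c = St.nil

/-- `q ≤ q'`: the Cohen part `q'` extends `q`. -/
instance : Preorder (Coh K C) where
  le q q' := q.d ⊆ q'.d ∧ ∀ c ∈ q.d, q'.f c = q.f c
  le_refl _ := ⟨Subset.rfl, fun _ _ => rfl⟩
  le_trans _ _ _ h h' := ⟨h.1.trans h'.1, fun c hc => (h'.2 c (h.1 hc)).trans (h.2 c hc)⟩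

/-- The support of the modification `τ`. -/
def supp (τ : C → Option (St K)) : Set C := {c | τ c ≠ none}

open Classical in
/-- The values of the Cohen part `q` modified by `τ`. -/
noncomputable def ov (q : Coh K C) (τ : C → Option (St K)) (c : C) : St K :=
  if c ∈ q.d then (τ c).getD (q.f c) else St.nil

/-- The modifications with support in `e [Iio i]` and with entries below `i`. -/
def OB (e : K → C) (i : K) : Set (C → Option (St K)) :=
  {τ | ∀ c s, τ c = some s → (∃ j < i, e j = c) ∧ Bel s.1 i}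

variable {𝔖 : Smp K C}

/-- The condition with the Cohen part `q` modified by `τ` and the measure one set `A`. -/
noncomputable def cn (q : Coh K C) (τ : C → Option (St K)) (A : Set 𝔖.Z) (hA : A ∈ 𝔖.F) :
    Cnd 𝔖 where
  d := q.d
  f := ov q τ
  A := A
  card := q.card
  out c hc := by unfold ov; rw [if_neg hc]
  mem := hA

open Classical in
/-- The modification `τ` of `q` followed by the sample `z`. -/
noncomputable def upm (𝔖 : Smp K C) (q : Coh K C) (τ : C → Option (St K)) (z : 𝔖.Z) :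
    C → Option (St K) := fun c =>
  if c ∈ q.d ∧ c ∈ 𝔖.S z ∧ Bel (ov q τ c).1 (𝔖.kz z) then
    some ((ov q τ c).upd (𝔖.kz z) (𝔖.rep z c)) else τ c

/-- For every small modification `τ` of `q`: if some direct extension of `q` modified by `τ` belongs
to `U`, then so does one with the same Cohen part. -/
def Solved (q : Coh K C) (U : Set (Cnd 𝔖)) : Prop :=
  ∀ τ : C → Option (St K), #(supp τ) < #K →
    (∃ r : Cnd 𝔖, q.d ⊆ r.d ∧ (∀ c ∈ q.d, r.f c = ov q τ c) ∧ r ∈ U) → ∃ A hA, cn q τ A hA ∈ U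

/-- The set `U` is closed under direct extensions. -/
def DirLower (U : Set (Cnd 𝔖)) : Prop := ∀ p ∈ U, ∀ q, Dir q p → q ∈ U

/-- The empty modification. -/
def tz : C → Option (St K) := fun _ => none

end Coh

end Pool.Agent.Helper23.XB
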