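import Pool.Agent.Helper23.XB.Defs

/-!
# Project XB: sample systems with codes of ultrafilters, and the Boolean valued ultrafilter
-/

set_option autoImplicit false

namespace Pool.Agent.Helper23.XB

open Cardinal Filter Set Pool.Agent.Helper33.HM

universe u

/-- The samples `z` and `z'` have the same trace on `d`. -/
def TrEq {K C : Type u} [LinearOrder K] (𝔖 : Smp K C) (d : Set C) (z z' : 𝔖.Z) : Prop :=
  𝔖.kz z = 𝔖.kz z' ∧ 𝔖.hz z = 𝔖.hz z' ∧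
    ∀ c ∈ d, (c ∈ 𝔖.S z ↔ c ∈ 𝔖.S z') ∧ (c ∈ 𝔖.S z → 𝔖.rep z c = 𝔖.rep z' c)

/-- Sample systems with codes of ultrafilters. `M` and `Θ` are the index sets of the coordinates
`cm ξ` and `ct α`, `B` the index set of the coordinates which code the base. -/
structure XSys (K M Θ : Type u) [LinearOrder K] where
  C : Type u
  B : Type u
  𝔖 : Smp K C
  /-- the coordinate of the codes -/
  cs : C
  /-- the coordinate of the heights -/
  ch : C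
  cm : M → C
  ct : Θ → C
  cb : B → C
  /-- the height is a function of the value at the coordinate `ch` -/
  sc : K → K
  /-- a bound for the ultrafilter with the code `u` -/
  bb : K → K
  /-- the ultrafilter with the code `u` -/
  VV : K → Ultrafilter K
  /-- the relation with the code `u` -/
  Rl : K → K → K → Prop
  /-- a pairing function -/
  pr : K × K ≃ K
  card_B : #B ≤ #M
  nonempty_B : Nonempty B
  hz_eq : ∀ᶠ z in (𝔖.F : Filter 𝔖.Z), 𝔖.hz z = sc (𝔖.rep z ch)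
  bb_mem : ∀ u, Iio (bb u) ∈ VV u
  bb_le : ∀ᶠ z in (𝔖.F : Filter 𝔖.Z), bb (𝔖.rep z cs) ≤ 𝔖.hz z
  VV_card : ∀ᶠ z in (𝔖.F : Filter 𝔖.Z), ∀ a ∈ VV (𝔖.rep z cs), #(Iio (𝔖.kz z)) ≤ #a
  VV_complete : ∀ᶠ z in (𝔖.F : Filter 𝔖.Z), ∀ (ι : Type u) (a : ι → Set K),
    #ι < #(Iio (𝔖.kz z)) → (∀ i, a i ∈ VV (𝔖.rep z cs)) → (⋂ i, a i) ∈ VV (𝔖.rep z cs)
  VV_fine : ∀ ξ, ∀ᶠ z in (𝔖.F : Filter 𝔖.Z),
    {σ | Rl (𝔖.rep z cs) (𝔖.rep z (cm ξ)) σ} ∈ VV (𝔖.rep z cs)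
  VV_small : ∀ e : K → M, Function.Injective e → ∀ᶠ z in (𝔖.F : Filter 𝔖.Z),
    {σ | ∃ j < 𝔖.kz z, ¬ Rl (𝔖.rep z cs) (𝔖.rep z (cm (e j))) σ} ∈ VV (𝔖.rep z cs)
  sep : ∀ α β, α ≠ β → ∀ᶠ z in (𝔖.F : Filter 𝔖.Z), 𝔖.rep z (ct α) ≠ 𝔖.rep z (ct β)
  /-- every function of the trace on a small set of coordinates, with few values, is the value at
  some coordinate `cb c` -/
  factor : ∀ (d : Set C), #d ≤ #K → cs ∈ d → ∀ A ∈ 𝔖.F, ∀ Φ : 𝔖.Z → K,
    (∀ z ∈ A, ∀ z' ∈ A, TrEq 𝔖 d z z' → Φ z = Φ z') →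
    ∀ Rg : K → K → Set K, (∀ k u, #(Rg k u) < #K) →
    (∀ z ∈ A, Φ z ∈ Rg (𝔖.kz z) (𝔖.rep z cs)) →
    ∃ c, ∀ᶠ z in (𝔖.F : Filter 𝔖.Z), 𝔖.rep z (cb c) = Φ z

/-! ### Ultrafilters in Boolean valued form -/

section Hat

variable {𝔹 : Type*} [CompleteBooleanAlgebra 𝔹]

/-- The value of the statement that `y` is (contains an element of) the ultrafilter `D`. -/
def hat {I : Type*} (D : Ultrafilter I) (y : I → 𝔹) : 𝔹 :=
  ⨆ (a : Set I) (_ : a ∈ D), ⨅ i ∈ a, y i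

end Hat

section Names

variable {K M Θ : Type u} [LinearOrder K] (X : XSys K M Θ)

/-- The poset. -/
abbrev XSys.P : Type u := Cnd X.𝔖

/-- The value of `(t, v) ∈ G c`. -/
def XSys.ge (c : X.C) (t v : K) : RO X.P := RO.gen {p | c ∈ p.d ∧ (t, v) ∈ (p.f c).1}

/-- The value of: the `n`-th element of `G cs` is `w`. -/
def XSys.gn (n : ℕ) (w : K × K) : RO X.P :=
  RO.gen {p | X.cs ∈ p.d ∧ (p.f X.cs).1.reverse[n]? = some w}

/-- The value of: the `n`-th section of `x` belongs to the `n`-th ultrafilter. -/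
noncomputable def XSys.en (x : K → RO X.P) (n : ℕ) : RO X.P :=
  ⨆ w : K × K, X.gn n w ⊓ hat (X.VV w.2) fun σ => x (X.pr (w.1, σ))

/-- The value of: `x` belongs to the ultrafilter. -/
noncomputable def XSys.W (x : K → RO X.P) : RO X.P := hat (Filter.hyperfilter ℕ) (X.en x)

/-- The section, at a stage with the code `u`, of the base set given by the value `v` and the
previous height `h`: the set `sq v h` if it belongs to the ultrafilter with the code `u`, and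
everything otherwise. -/
def XSys.sect (sq : K → K → Set K) (u v h : K) : Set K := {σ | sq v h ∈ X.VV u → σ ∈ sq v h}

/-- The value of `k ∈` the base set given by the coordinate `cb c` and the set `a` of stages. -/
def XSys.bs (sq : K → K → Set K) (c : X.B) (a : Set ℕ) (k : K) : RO X.P :=
  RO.gen {p | X.cs ∈ p.d ∧ X.ch ∈ p.d ∧ X.cb c ∈ p.d ∧ ∃ n, n + 1 ∈ a ∧ ∃ t u t' u' v h σ,
    (p.f X.cs).1.reverse[n + 1]? = some (t, u) ∧ (p.f X.cs).1.reverse[n]? = some (t', u') ∧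
    (t, v) ∈ (p.f (X.cb c)).1 ∧ (t', h) ∈ (p.f X.ch).1 ∧ k = X.pr (t, σ) ∧
    σ ∈ X.sect sq u v h}

/-- The value of `k ∈` the set `X_ξ` of the pairs `(t, σ)` with `ξ ∈ σ`. -/
def XSys.xs (ξ : M) (k : K) : RO X.P :=
  RO.gen {p | X.cs ∈ p.d ∧ X.cm ξ ∈ p.d ∧ ∃ t u v σ, (t, u) ∈ (p.f X.cs).1 ∧
    (t, v) ∈ (p.f (X.cm ξ)).1 ∧ k = X.pr (t, σ) ∧ X.Rl u v σ}

/-- The value of `k ∈` the graph of `G (ct α)`. -/
def XSys.gr (α : Θ) (k : K) : RO X.P := X.ge (X.ct α) (X.pr.symm k).1 (X.pr.symm k).2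

/-- The value of: the `n`-th element of `G cs` has the first component `k`. -/
def XSys.tt (n : ℕ) (k : K) : RO X.P := ⨆ u : K, X.gn n (k, u)

end Names

section Wint

variable {K M Θ : Type u} [LinearOrder K]

/-- The set of the `σ` such that the modification `τ` followed by the sample `z` forces
`x (kz z, σ)`. -/
def wset (X : XSys K M Θ) (x : K → RO X.P) (q : Coh K X.C) (A : Set X.𝔖.Z) (hA : A ∈ X.𝔖.F)
    (τ : X.C → Option (St K)) (z : X.𝔖.Z) : Set K :=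
  {σ | σ < X.bb (X.𝔖.rep z X.cs) ∧
    cn q (upm X.𝔖 q τ z) {w | w ∈ A ∧ X.𝔖.hz z < X.𝔖.kz w} (above_mem A hA _) ∈
      x (X.pr (X.𝔖.kz z, σ))}

/-- The intersection of the sets `wset` which belong to the ultrafilter. -/
def wint (X : XSys K M Θ) (x : K → RO X.P) (q : Coh K X.C) (A : Set X.𝔖.Z) (hA : A ∈ X.𝔖.F)
    (e : K → X.C) (z : X.𝔖.Z) (i : K) : Set K :=
  {σ | σ < X.bb (X.𝔖.rep z X.cs) ∧ ∀ τ ∈ OB e i,
    wset X x q A hA τ z ∈ X.VV (X.𝔖.rep z X.cs) → σ ∈ wset X x q A hA τ z}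

end Wint

/-! ### The interface to the model -/

/-- What the model needs: Boolean values for an ultrafilter on `K` with a base of size `#M`. -/
structure BF (P : Type u) [Preorder P] (K M : Type u) [LinearOrder K] where
  /-- the ultrafilter -/
  W : (K → RO P) → RO P
  /-- the base -/
  B : M → K → RO P
  /-- the cofinal sequence -/
  t : ℕ → K → RO P
  /-- no new bounded subsets -/
  nn : ∀ (J : Type u) (x : J → RO P), #J < #K → ∀ p, ∃ q, q ≤ p ∧ ∀ j, q ∈ x j ∨ q ∈ (x j)ᶜ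
  W_mono : ∀ x y : K → RO P, W x ⊓ (⨅ k, (x k ⇨ y k)) ≤ W y
  W_inf : ∀ x y : K → RO P, W x ⊓ W y ≤ W fun k => x k ⊓ y k
  W_compl : ∀ x : K → RO P, W (fun k => (x k)ᶜ) = (W x)ᶜ
  t_sup : ∀ n, ⨆ k, t n k = ⊤
  t_disj : ∀ n k k', k ≠ k' → t n k ⊓ t n k' = ⊥
  t_unb : ∀ i, ⨆ (n : ℕ) (k : K) (_ : i < k), t n k = ⊤
  unif : ∀ (i : K) (f : Iio i → K → RO P) (x : K → RO P) (p : P), p ∈ W x →
    (∀ j k k', k ≠ k' → p ∈ (f j k ⊓ f j k')ᶜ) → (∀ k, p ∈ (x k ⇨ ⨆ j, f j k)) → False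
  base_mem : ∀ m, W (B m) = ⊤
  base : ∀ x : K → RO P, W x ≤ ⨆ m, ⨅ k, (B m k ⇨ x k)
  lower : ∀ N : Type u, #N < #M → ∀ b : N → K → RO P, ∃ x : K → RO P, W x = ⊤ ∧
    ∀ n, W (b n) ⊓ (⨅ k, (b n k ⇨ x k)) = ⊥
  cardM : ∀ N : Type u, #N < #M → ∀ (f : N → M → RO P) (p : P),
    (∀ n m m', m ≠ m' → p ∈ (f n m ⊓ f n m')ᶜ) → ∃ m, ∀ n, p ∈ (f n m)ᶜ
  pow : ∀ b : M → K → RO P, ∃ x : K → RO P, ∀ m, (⨅ k, ((b m k ⇨ x k) ⊓ (x k ⇨ b m k))) = ⊥

end Pool.Agent.Helper23.XB
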