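import Pool.Agent.Helper23.XB.E2b

/-! # Project XB, module E5a -/

set_option autoImplicit false

namespace Pool.Agent.Helper23.XB

open Cardinal Filter Set Pool.Agent.Helper33.HM Pool.Agent.Helper33.HMG Pool.Agent.Helper32.HB
open Pool.Agent.Helper87.Sym (Fml cons Sat IsTransModelZF)

universe u v w

variable {P : Type u} [Preorder P] [OrderTop P] {κ μ : Cardinal.{u}}

/-- E5a: a subset of a smaller ordinal is in the ground model. -/
theorem bf_subset (b : BF P κ.ord.ToType μ.ord.ToType)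
    (hκ : IsInaccessible κ) {β : Ordinal.{u}} (hβ : β < κ.ord) (τ : Nm P) (p : P)
    (hp : p ∈ vSub τ (onm β)) : ∃ q, q ≤ p ∧ ∃ a : Set β.ToType,
      q ∈ veq τ (nmK fun k => ⨆ _ : k ∈ a, ⊤) := by
  have hc : #β.ToType < #κ.ord.ToType := by
    rw [Cardinal.mk_toType, Cardinal.mk_toType, Cardinal.card_ord]
    exact Cardinal.lt_ord.1 hβ
  let x : β.ToType → RO P := fun k => vm (onm (Ordinal.ToType.toOrd k).1) τ
  obtain ⟨q, hq, h⟩ := b.nn β.ToType x hc p
  refine ⟨q, hq, {k | q ∈ x k}, ?_⟩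
  let y : β.ToType → RO P := fun k => ⨆ _ : k ∈ {k | q ∈ x k}, ⊤
  have h1 : q ∈ veq τ (nmK x) := RO.le_def.1 (vSub_le_veq τ) q (RO.mem_lower hq hp)
  have h2 : q ∈ vSub (nmK x) (nmK y) := by
    rw [vSub_nmK_nmK, RO.mem_iInf]
    intro k
    rcases h k with hk | hk
    · have e : y k = ⊤ := iSup_pos (show k ∈ {k | q ∈ x k} from hk)
      rw [e, himp_top]
      exact RO.mem_top q
    · exact RO.le_def.1 (compl_le_himp : (x k)ᶜ ≤ x k ⇨ y k) q hk
  have h3 : q ∈ vSub (nmK y) (nmK x) := by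
    rw [vSub_nmK_nmK, RO.mem_iInf]
    intro k
    by_cases hk : q ∈ x k
    · exact RO.le_def.1 (le_himp : x k ≤ y k ⇨ x k) q hk
    · have e : y k = ⊥ := iSup_neg (show ¬ k ∈ {k | q ∈ x k} from hk)
      rw [e, bot_himp]
      exact RO.mem_top q
  have h4 : q ∈ veq (nmK x) (nmK y) := RO.le_def.1 (veq_of_vSub _ _) q (RO.mem_inf.2 ⟨h2, h3⟩)
  exact RO.le_def.1 (veq_trans _ _ _) q (RO.mem_inf.2 ⟨h1, h4⟩)

end Pool.Agent.Helper23.XB
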