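import Pool.Agent.Helper23.XB.E5b
import Pool.Agent.Helper23.XB.E2d

/-! # Project XB, module E5c -/

set_option autoImplicit false

namespace Pool.Agent.Helper23.XB

open Cardinal Filter Set Pool.Agent.Helper33.HM Pool.Agent.Helper33.HMG Pool.Agent.Helper32.HB
open Pool.Agent.Helper87.Sym (Fml cons Sat IsTransModelZF)

universe u v w

variable {P : Type u} [Preorder P] [OrderTop P] {κ μ : Cardinal.{u}}

private theorem h5_sup {ι : Sort*} {f : ι → RO P} {p : P} (i : ι) (h : p ∈ f i) :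
    p ∈ ⨆ i, f i :=
  RO.mem_iSup.2 fun q hq => ⟨q, le_rfl, i, RO.mem_lower hq h⟩

/-- E5c -/
theorem bf_sing_lam (b : BF P κ.ord.ToType μ.ord.ToType)
    (hκ : IsInaccessible κ) : vSing (onm κ.ord : Nm P) = ⊤ := by
  have hω : Ordinal.omega0 < κ.ord := by
    rw [Cardinal.lt_ord, Ordinal.card_omega0]
    exact hκ.aleph0_lt
  rw [eq_top_iff]
  intro p _
  refine ⟨?_, h5_sup (onm Ordinal.omega0) (h5_sup (relN b.t) ⟨⟨?_, ?_⟩, ?_⟩)⟩
  · rw [bf_card_lam b hκ]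
    exact RO.mem_top p
  · rw [vm_onm_lt hω]
    exact RO.mem_top p
  · rw [vFun_relN b.t b.t_sup b.t_disj]
    exact RO.mem_top p
  · refine RO.mem_iInf.2 fun x => RO.mem_himp.2 fun q _ hq => RO.mem_reg fun r hr => ?_
    rw [vm_onm, RO.mem_iSup] at hq
    obtain ⟨s, hs, k, hk⟩ := hq r hr
    have hs' : s ∈ ⨆ (n : ℕ) (k' : κ.ord.ToType) (_ : k < k'), b.t n k' := by
      rw [b.t_unb k]
      exact RO.mem_top s
    obtain ⟨s1, hs1, n, h1⟩ := RO.mem_iSup.1 hs' s le_rfl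
    obtain ⟨s2, hs2, k', h2⟩ := RO.mem_iSup.1 h1 s1 le_rfl
    obtain ⟨s3, hs3, hlt, h3⟩ := RO.mem_iSup.1 h2 s2 le_rfl
    refine ⟨s3, hs3.trans (hs2.trans (hs1.trans hs)), ?_⟩
    refine h5_sup (onm (n : Ordinal.{u})) (h5_sup (onm (Ordinal.ToType.toOrd k').1) ⟨⟨?_, ?_⟩, ?_⟩)
    · rw [vm_onm_lt (Ordinal.natCast_lt_omega0 n)]
      exact RO.mem_top s3
    · rw [vm_pair_relN]
      exact h3
    · refine vm_congr_left (onm (Ordinal.ToType.toOrd k).1) x _ s3 ⟨?_, ?_⟩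
      · rw [veq_comm]
        exact RO.mem_lower (hs3.trans (hs2.trans hs1)) hk
      · have hlt' : (Ordinal.ToType.toOrd k).1 < (Ordinal.ToType.toOrd k').1 := by
          exact Ordinal.ToType.mk.symm.lt_iff_lt.2 hlt
        rw [vm_onm_lt hlt']
        exact RO.mem_top s3

end Pool.Agent.Helper23.XB
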