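import Pool.Agent.Helper23.XB.E5a
import Pool.Agent.Helper23.XB.E2c

/-! # Project XB, module E5d -/

set_option autoImplicit false

namespace Pool.Agent.Helper23.XB

open Cardinal Filter Set Pool.Agent.Helper33.HM Pool.Agent.Helper33.HMG Pool.Agent.Helper32.HB
open Pool.Agent.Helper87.Sym (Fml cons Sat IsTransModelZF)

universe u v w

variable {P : Type u} [Preorder P] [OrderTop P] {κ μ : Cardinal.{u}}

namespace H17d

/-- the name of the set of all subsets of `β` of the ground model -/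
noncomputable def pn (P : Type u) [Preorder P] [OrderTop P] (β : Ordinal.{u}) : Nm P :=
  .mk (Set β.ToType) (fun A => nmK (fun k => ⨆ _ : k ∈ A, ⊤)) (fun _ => ⊤)

theorem mem_pn {β : Ordinal.{u}} (σ : Nm P) (p : P) :
    p ∈ vm σ (pn P β) ↔ ∀ q, q ≤ p → ∃ r, r ≤ q ∧ ∃ A : Set β.ToType,
      r ∈ veq σ (nmK (fun k => ⨆ _ : k ∈ A, ⊤)) := by
  rw [pn, vm_mk]
  constructor
  · intro h q hq
    obtain ⟨r, hr, A, _, hA⟩ := h q hq
    exact ⟨r, hr, A, hA⟩
  · intro h q hq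
    obtain ⟨r, hr, A, hA⟩ := h q hq
    exact ⟨r, hr, A, le_top, hA⟩

omit [OrderTop P] in
theorem mem_vSub {a b : Nm P} {p : P} :
    p ∈ vSub a b ↔ ∀ q, q ≤ p → ∀ x : Nm P, q ∈ vm x a → q ∈ vm x b := by
  rw [vSub, RO.mem_iInf]
  constructor
  · intro h q hq x hx
    exact RO.mem_himp.1 (h x) q hq hx
  · intro h x
    rw [RO.mem_himp]
    exact fun q hq hx => h q hq x hx

theorem vm_pn_of {β : Ordinal.{u}} (A : Set β.ToType) (p : P) :
    p ∈ vm (nmK (fun k => ⨆ _ : k ∈ A, ⊤)) (pn P β) := by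
  rw [mem_pn]
  intro q _
  refine ⟨q, le_rfl, A, ?_⟩
  rw [veq_refl]
  exact RO.mem_top q

end H17d

open H17d in
/-- E5d -/
theorem bf_SL (b : BF P κ.ord.ToType μ.ord.ToType)
    (hκ : IsInaccessible κ) : vSL (onm κ.ord : Nm P) = ⊤ := by
  apply RO.ext'
  intro p
  refine ⟨fun _ => RO.mem_top p, fun _ => ?_⟩
  rw [vSL, RO.mem_iInf]
  intro a
  rw [RO.mem_himp]
  intro q _ hqa
  rw [RO.mem_iSup]
  intro r hr
  have hra := RO.mem_lower hr hqa
  rw [vm_onm, RO.mem_iSup] at hra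
  obtain ⟨s, hs, i, hi⟩ := hra r le_rfl
  refine ⟨s, hs, ?_⟩
  set β : Ordinal.{u} := (Ordinal.ToType.toOrd i).1 with hβdef
  have hβ : β < κ.ord := (Ordinal.ToType.toOrd i).2
  have hβc : β.card < κ := by rwa [← lt_ord]
  have h2 : (2 : Cardinal.{u}) ^ β.card < κ := hκ.isStrongLimit.isStrongPrelimit hβc
  set γ : Ordinal.{u} := ((2 : Cardinal.{u}) ^ β.card).ord with hγdef
  have hγ : γ < κ.ord := ord_lt_ord.2 h2
  have hia : ∀ t, t ≤ s → ∀ x : Nm P, t ∈ vm x a ↔ t ∈ vm x (onm β) := by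
    intro t ht x
    have h1 := RO.mem_lower ht hi
    have h3 : t ∈ veq (onm β) a := by rw [veq_comm]; exact h1
    exact ⟨fun h => vm_congr_right x a (onm β) t ⟨h1, h⟩,
      fun h => vm_congr_right x (onm β) a t ⟨h3, h⟩⟩
  refine ⟨pn P β, ?_, ?_⟩
  · rw [← RO.mem_def, vPow, RO.mem_iInf]
    intro x
    refine ⟨?_, ?_⟩
    · rw [← RO.mem_def, RO.mem_himp]
      intro t ht hx
      rw [mem_pn] at hx
      refine RO.mem_reg fun w hw => ?_
      obtain ⟨r', hr', A, hA⟩ := hx w hw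
      refine ⟨r', hr', ?_⟩
      rw [mem_vSub]
      intro z hz y hy
      rw [hia z (hz.trans (hr'.trans (hw.trans ht)))]
      have h4 : z ∈ vm y (nmK (fun k => ⨆ _ : k ∈ A, ⊤)) :=
        vm_congr_right y x _ z ⟨RO.mem_lower hz hA, hy⟩
      have h5 : z ∈ vSub (nmK (fun k => ⨆ _ : k ∈ A, (⊤ : RO P))) (onm β) := by
        rw [vSub_nmK]
        exact RO.mem_top z
      exact mem_vSub.1 h5 z le_rfl y h4
    · rw [← RO.mem_def, RO.mem_himp]
      intro t ht hx
      rw [mem_pn]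
      intro w hw
      have h4 : w ∈ vSub x (onm β) := by
        rw [mem_vSub]
        intro z hz y hy
        rw [← hia z (hz.trans (hw.trans ht))]
        exact mem_vSub.1 hx z (hz.trans hw) y hy
      obtain ⟨r', hr', A, hA⟩ := bf_subset b hκ hβ x w h4
      exact ⟨r', hr', A, hA⟩
  · have hcard : #(γ.ToType) = #(Set β.ToType) := by
      rw [mk_toType, hγdef, card_ord, mk_set, mk_toType]
    obtain ⟨e⟩ := Cardinal.eq.1 hcard
    let h : γ.ToType → Nm P := fun i => nmK (fun k => ⨆ _ : k ∈ e i, ⊤)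
    rw [← RO.mem_def, RO.mem_iSup]
    intro t _
    refine ⟨t, le_rfl, onm γ, ?_⟩
    rw [RO.mem_iSup]
    intro w _
    refine ⟨w, le_rfl, fnN h, ?_, ?_, ?_⟩
    · rw [← RO.mem_def, vm_onm_lt hγ]
      exact RO.mem_top w
    · rw [← RO.mem_def]
      apply vFun_fnN h (pn P β)
      rw [RO.mem_iInf]
      intro i
      exact vm_pn_of (e i) w
    · rw [← RO.mem_def, RO.mem_iInf]
      intro y
      rw [RO.mem_himp]
      intro z _ hz
      rw [mem_pn] at hz
      rw [RO.mem_iSup]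
      intro z' hz'
      obtain ⟨r', hr', A, hA⟩ := hz z' hz'
      refine ⟨r', hr', onm (Ordinal.ToType.toOrd (e.symm A)).1, ?_, ?_⟩
      · rw [← RO.mem_def, vm_onm_lt (Ordinal.ToType.toOrd (e.symm A)).2]
        exact RO.mem_top r'
      · rw [← RO.mem_def, vm_pair_fnN]
        have : h (e.symm A) = nmK (fun k => ⨆ _ : k ∈ A, ⊤) := by
          simp only [h, Equiv.apply_symm_apply]
        rw [this]
        exact hA

end Pool.Agent.Helper23.XB
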