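import Pool.Agent.Helper23.XB.E2c

/-! # Project XB, module E5e -/

set_option autoImplicit false

namespace Pool.Agent.Helper23.XB

open Cardinal Filter Set Pool.Agent.Helper33.HM Pool.Agent.Helper33.HMG Pool.Agent.Helper32.HB
open Pool.Agent.Helper87.Sym (Fml cons Sat IsTransModelZF)

universe u v w

variable {P : Type u} [Preorder P] [OrderTop P] {κ μ : Cardinal.{u}}

/-- E5e: the ultrafilter, all but uniformity -/
theorem bf_ultra (b : BF P κ.ord.ToType μ.ord.ToType)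
    (hκ : IsInaccessible κ) :
    (⨅ x, (vm x (ultN b.W) ⇨ vSub x (onm κ.ord))) ⊓
  (⨅ x, ⨅ y, (vm x (ultN b.W) ⊓ vSub x y ⊓ vSub y (onm κ.ord) ⇨ vm y (ultN b.W))) ⊓
  (⨅ x, ⨅ y, ⨅ z, (vm x (ultN b.W) ⊓ vm y (ultN b.W) ⊓
    (⨅ w, ((vm w z ⇨ vm w x ⊓ vm w y) ⊓ (vm w x ⊓ vm w y ⇨ vm w z))) ⇨ vm z (ultN b.W))) ⊓
  (⨅ x, ⨅ y, (vSub x (onm κ.ord) ⊓
    (⨅ w, ((vm w y ⇨ vm w (onm κ.ord) ⊓ (vm w x)ᶜ) ⊓ (vm w (onm κ.ord) ⊓ (vm w x)ᶜ ⇨ vm w y))) ⇨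
      (vm x (ultN b.W) ⇨ (vm y (ultN b.W))ᶜ) ⊓ ((vm y (ultN b.W))ᶜ ⇨ vm x (ultN b.W)))) = ⊤ := by
  have hU : ∀ (σ : Nm P) (p : P), p ∈ vm σ (ultN b.W) ↔
      p ∈ vSub σ (onm κ.ord) ∧ p ∈ b.W (rlK σ) := by
    intro σ p
    rw [vm_ultN _ b.W_mono]
    exact RO.mem_inf
  have hA : ∀ (X Y : κ.ord.ToType → RO P) (p : P), p ∈ b.W X → (∀ k, p ∈ (X k ⇨ Y k)) →
      p ∈ b.W Y := by
    intro X Y p h1 h2
    exact b.W_mono X Y p ⟨h1, RO.mem_iInf.2 h2⟩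
  have hS : ∀ (x y : Nm P) (p : P), p ∈ vSub x y ↔ ∀ w q, q ≤ p → q ∈ vm w x → q ∈ vm w y := by
    intro x y p
    unfold vSub
    rw [RO.mem_iInf]
    exact forall_congr' fun w => RO.mem_himp
  rw [eq_top_iff]
  intro p _
  refine ⟨⟨⟨?_, ?_⟩, ?_⟩, ?_⟩
  · refine RO.mem_iInf.2 fun x => ?_
    rw [RO.mem_himp]
    intro q _ h
    exact ((hU x q).1 h).1
  · refine RO.mem_iInf.2 fun x => RO.mem_iInf.2 fun y => ?_
    rw [RO.mem_himp]
    rintro q _ ⟨⟨h1, h2⟩, h3⟩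
    have h1' := (hU x q).1 h1
    refine (hU y q).2 ⟨h3, hA _ _ q h1'.2 fun k => ?_⟩
    exact RO.mem_iInf.1 h2 (onm (Ordinal.ToType.toOrd k).1)
  · refine RO.mem_iInf.2 fun x => RO.mem_iInf.2 fun y => RO.mem_iInf.2 fun z => ?_
    rw [RO.mem_himp]
    rintro q _ ⟨⟨h1, h2⟩, h3⟩
    have h1' := (hU x q).1 h1
    have h2' := (hU y q).1 h2
    have h3' := RO.mem_iInf.1 h3
    refine (hU z q).2 ⟨?_, ?_⟩
    · rw [hS]
      intro w r hr hw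
      have h4 := (h3' w).1
      have h5 : r ∈ vm w x ⊓ vm w y := RO.mem_himp.1 h4 r hr hw
      exact (hS _ _ _).1 h1'.1 w r hr h5.1
    · refine hA _ _ q (b.W_inf _ _ q ⟨h1'.2, h2'.2⟩) fun k => ?_
      exact (h3' (onm (Ordinal.ToType.toOrd k).1)).2
  · refine RO.mem_iInf.2 fun x => RO.mem_iInf.2 fun y => ?_
    rw [RO.mem_himp]
    rintro q _ ⟨h1, h2⟩
    have h2' := RO.mem_iInf.1 h2
    have hlam : ∀ (k : κ.ord.ToType) (r : P),
        r ∈ vm (onm (Ordinal.ToType.toOrd k).1) (onm κ.ord) := by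
      intro k r
      rw [vm_onm_lt (Ordinal.ToType.toOrd k).2]
      exact RO.mem_top r
    have hy : q ∈ vSub y (onm κ.ord) := by
      rw [hS]
      intro w r hr hw
      exact (RO.mem_himp.1 (h2' w).1 r hr hw).1
    have e1 : ∀ k : κ.ord.ToType, q ∈ (rlK y k ⇨ (rlK x k)ᶜ) := by
      intro k
      rw [RO.mem_himp]
      intro r hr hw
      exact (RO.mem_himp.1 (h2' (onm (Ordinal.ToType.toOrd k).1)).1 r hr hw).2
    have e2 : ∀ k : κ.ord.ToType, q ∈ ((rlK x k)ᶜ ⇨ rlK y k) := by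
      intro k
      rw [RO.mem_himp]
      intro r hr hw
      exact RO.mem_himp.1 (h2' (onm (Ordinal.ToType.toOrd k).1)).2 r hr ⟨hlam k r, hw⟩
    refine ⟨?_, ?_⟩
    · change q ∈ (vm x (ultN b.W) ⇨ (vm y (ultN b.W))ᶜ)
      rw [RO.mem_himp]
      intro r hr hx
      rw [RO.mem_compl]
      intro s hs hys
      have hx' := ((hU x r).1 hx).2
      have hy' := ((hU y s).1 hys).2
      have h3 : s ∈ b.W (fun k => (rlK x k)ᶜ) :=
        hA (rlK y) (fun k => (rlK x k)ᶜ) s hy' fun k => RO.mem_lower (hs.trans hr) (e1 k)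
      rw [b.W_compl] at h3
      exact RO.mem_compl.1 h3 s le_rfl (RO.mem_lower hs hx')
    · change q ∈ ((vm y (ultN b.W))ᶜ ⇨ vm x (ultN b.W))
      rw [RO.mem_himp]
      intro r hr hyc
      refine (hU x r).2 ⟨RO.mem_lower hr h1, ?_⟩
      refine RO.mem_reg fun s hs => ?_
      by_contra hcon
      push Not at hcon
      have h3 : s ∈ (b.W (rlK x))ᶜ := RO.mem_compl.2 hcon
      rw [← b.W_compl] at h3
      have h4 : s ∈ b.W (rlK y) :=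
        hA (fun k => (rlK x k)ᶜ) (rlK y) s h3 fun k => RO.mem_lower (hs.trans hr) (e2 k)
      exact RO.mem_compl.1 hyc s hs ((hU y s).2 ⟨RO.mem_lower (hs.trans hr) hy, h4⟩)

end Pool.Agent.Helper23.XB
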