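import Pool.Agent.Helper23.XB.E2c
import Pool.Agent.Helper23.XB.E3

/-! # Project XB, module E5f -/

set_option autoImplicit false

namespace Pool.Agent.Helper23.XB

open Cardinal Filter Set Pool.Agent.Helper33.HM Pool.Agent.Helper33.HMG Pool.Agent.Helper32.HB
open Pool.Agent.Helper87.Sym (Fml cons Sat IsTransModelZF)

universe u v w

variable {P : Type u} [Preorder P] [OrderTop P] {κ μ : Cardinal.{u}}

namespace H77E5f

private theorem vFun_congr {a a' b f : Nm P} {p : P} (h : p ∈ veq a a') (hf : p ∈ vFun a b f) :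
    p ∈ vFun a' b f := by
  have h' : p ∈ veq a' a := by rwa [veq_comm]
  refine ⟨⟨RO.mem_iInf.2 fun z => ?_, RO.mem_iInf.2 fun x => ?_⟩, hf.2⟩
  · intro q hq hz
    have h1 := RO.mem_iInf.1 hf.1.1 z q hq hz
    rw [RO.mem_iSup] at h1 ⊢
    intro r hr
    obtain ⟨s, hs, x, hx⟩ := h1 r hr
    refine ⟨s, hs, x, ?_⟩
    rw [RO.mem_iSup] at hx ⊢
    intro t ht
    obtain ⟨w, hw, y, hy⟩ := hx t ht
    refine ⟨w, hw, y, ⟨?_, hy.1.2⟩, hy.2⟩
    exact vm_congr_right x a a' w ⟨RO.mem_lower (hw.trans (ht.trans (hs.trans (hr.trans hq)))) h,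
      hy.1.1⟩
  · intro q hq hz
    exact RO.mem_iInf.1 hf.1.2 x q hq (vm_congr_right x a' a q ⟨RO.mem_lower hq h', hz⟩)

private theorem vOnto_congr {a a' b f : Nm P} {p : P} (h : p ∈ veq a a') (hf : p ∈ vOnto a b f) :
    p ∈ vOnto a' b f := by
  refine ⟨vFun_congr h hf.1, RO.mem_iInf.2 fun y => ?_⟩
  intro q hq hy
  have h1 := RO.mem_iInf.1 hf.2 y q hq hy
  rw [RO.mem_iSup] at h1 ⊢
  intro r hr
  obtain ⟨s, hs, x, hx⟩ := h1 r hr
  exact ⟨s, hs, x, vm_congr_right x a a' s ⟨RO.mem_lower (hs.trans (hr.trans hq)) h, hx.1⟩, hx.2⟩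

end H77E5f

open H77E5f in
/-- E5f: uniformity -/
theorem bf_uniform (b : BF P κ.ord.ToType μ.ord.ToType)
    :
    ⨅ x, ⨅ a, ⨅ f, (vm x (ultN b.W) ⊓ vm a (onm κ.ord) ⇨ (vOnto a x f)ᶜ) = (⊤ : RO P) := by
  rw [eq_top_iff]
  intro p _
  refine RO.mem_iInf.2 fun x => RO.mem_iInf.2 fun a => RO.mem_iInf.2 fun f => ?_
  rintro q hq ⟨hx, ha⟩
  rw [RO.mem_compl]
  intro r hr hf
  rw [vm_onm] at ha
  obtain ⟨s, hs, i, hi⟩ := RO.mem_iSup.1 ha r hr
  have hx' := RO.mem_lower (hs.trans hr) hx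
  rw [vm_ultN b.W b.W_mono] at hx'
  have hf' : s ∈ vOnto (onm (Ordinal.ToType.toOrd i).1) x f :=
    vOnto_congr hi (RO.mem_lower hs hf)
  obtain ⟨h1, h2⟩ := mx_onto x f s hx'.1 hf'
  set e : Iio i → (Ordinal.ToType.toOrd i).1.ToType := fun j =>
    Ordinal.ToType.mk ⟨(Ordinal.ToType.toOrd j.1).1, by
      have : Ordinal.ToType.toOrd j.1 < Ordinal.ToType.toOrd i :=
        Ordinal.ToType.mk.symm.lt_iff_lt.2 j.2
      exact this⟩ with he
  have hes : Function.Surjective e := by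
    intro n
    have hn : (Ordinal.ToType.toOrd n).1 < (Ordinal.ToType.toOrd i).1 := (Ordinal.ToType.toOrd n).2
    have hn' : (Ordinal.ToType.toOrd n).1 < κ.ord := hn.trans (Ordinal.ToType.toOrd i).2
    have hlt : (Ordinal.ToType.mk ⟨(Ordinal.ToType.toOrd n).1, hn'⟩ : κ.ord.ToType) < i := by
      rw [← Ordinal.ToType.mk.symm.lt_iff_lt, OrderIso.symm_apply_apply]
      exact hn
    refine ⟨⟨_, hlt⟩, ?_⟩
    simp only [he]
    apply Ordinal.ToType.mk.symm.injective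
    apply Subtype.ext
    simp
  refine b.unif i (fun j k => mx f (e j) k) (rlK x) s hx'.2 (fun j k k' hk => h1 _ k k' hk) ?_
  intro k
  intro t ht htx
  have h3 := h2 k t ht htx
  rw [RO.mem_iSup] at h3 ⊢
  intro w hw
  obtain ⟨z, hz, n, hn⟩ := h3 w hw
  obtain ⟨j, rfl⟩ := hes n
  exact ⟨z, hz, j, hn⟩

end Pool.Agent.Helper23.XB
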