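import Pool.Agent.Helper23.XB.E2c

/-! # Project XB, module E5g -/

set_option autoImplicit false

namespace Pool.Agent.Helper23.XB

open Cardinal Filter Set Pool.Agent.Helper33.HM Pool.Agent.Helper33.HMG Pool.Agent.Helper32.HB
open Pool.Agent.Helper87.Sym (Fml cons Sat IsTransModelZF)

universe u v w

variable {P : Type u} [Preorder P] [OrderTop P] {κ μ : Cardinal.{u}}

private theorem h23_vl {σ σ' τ : Nm P} {p : P} (h : p ∈ veq σ σ') (h' : p ∈ vm σ τ) :
    p ∈ vm σ' τ := vm_congr_left σ σ' τ p ⟨h, h'⟩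

omit [OrderTop P] in
private theorem h23_sup {ι : Sort*} {f : ι → RO P} {p : P} (i : ι) (h : p ∈ f i) :
    p ∈ ⨆ i, f i :=
  RO.mem_iSup.2 fun q hq => ⟨q, le_rfl, i, RO.mem_lower hq h⟩

/-- E5g: the base -/
theorem bf_base (b : BF P κ.ord.ToType μ.ord.ToType)
    : vBase (ultN b.W) (onm μ.ord) (fnN fun m => nmK (b.B m)) = ⊤ := by
  rw [eq_top_iff]
  refine le_inf ?_ ?_
  · refine le_trans ?_ (vFun_fnN _ _)
    refine le_iInf fun m => ?_
    rw [vm_ultN_nmK b.W b.W_mono, b.base_mem]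
  · refine le_iInf fun x => ?_
    rw [le_himp_iff, top_inf_eq, vm_ultN b.W b.W_mono]
    rintro p ⟨-, hp⟩
    have h1 := RO.mem_iSup.1 (b.base _ p hp)
    refine RO.mem_reg fun q hq => ?_
    obtain ⟨r, hr, m, hm⟩ := h1 q hq
    refine ⟨r, hr, h23_sup (onm (Ordinal.ToType.toOrd m).1) (h23_sup (nmK (b.B m)) ⟨⟨?_, ?_⟩, ?_⟩)⟩
    · have h2 : r ∈ vm (onm (Ordinal.ToType.toOrd m).1) (onm μ.ord) := by
        rw [vm_onm_lt (Ordinal.ToType.toOrd m).2]
        exact RO.mem_top r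
      exact h2
    · have h2 : r ∈ vm (pairN (onm (Ordinal.ToType.toOrd m).1) (nmK (b.B m)))
          (fnN fun m => nmK (b.B m)) := by
        rw [vm_pair_fnN, veq_refl]
        exact RO.mem_top r
      exact h2
    · refine RO.mem_iInf.2 fun σ => ?_
      rw [RO.mem_himp]
      intro s hs hσ
      rw [vm_nmK, RO.mem_iSup] at hσ
      refine RO.mem_reg fun t ht => ?_
      obtain ⟨t', ht', k, hk1, hk2⟩ := hσ t ht
      have h3 := RO.mem_himp.1 (RO.mem_iInf.1 hm k) t' (ht'.trans (ht.trans hs)) hk2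
      refine ⟨t', ht', ?_⟩
      have hk1' : t' ∈ veq σ (onm (Ordinal.ToType.toOrd k).1) := hk1
      rw [veq_comm] at hk1'
      exact h23_vl hk1' h3

end Pool.Agent.Helper23.XB
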