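import Pool.Agent.Helper23.XB.E2c
import Pool.Agent.Helper23.XB.E3

/-! # Project XB, module E5h -/

set_option autoImplicit false

namespace Pool.Agent.Helper23.XB

open Cardinal Filter Set Pool.Agent.Helper33.HM Pool.Agent.Helper33.HMG Pool.Agent.Helper32.HB
open Pool.Agent.Helper87.Sym (Fml cons Sat IsTransModelZF)

universe u v w

variable {P : Type u} [Preorder P] [OrderTop P] {κ μ : Cardinal.{u}}

namespace H83

theorem mem_iSup2 {Q : Type u} [Preorder Q] {ι ι' : Sort*} {f : ι → ι' → RO Q} {p : Q} :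
    p ∈ (⨆ i, ⨆ j, f i j) ↔ ∀ q, q ≤ p → ∃ r, r ≤ q ∧ ∃ i j, r ∈ f i j := by
  rw [RO.mem_iSup]
  constructor
  · intro h q hq
    obtain ⟨r, hr, i, hi⟩ := h q hq
    obtain ⟨s, hs, j, hj⟩ := RO.mem_iSup.1 hi r le_rfl
    exact ⟨s, hs.trans hr, i, j, hj⟩
  · intro h q hq
    obtain ⟨r, hr, i, j, hij⟩ := h q hq
    exact ⟨r, hr, i, RO.mem_iSup.2 fun s hs => ⟨s, le_rfl, j, RO.mem_lower hs hij⟩⟩

/-- The value of `vFun a b f` depends only on the value of `a`. -/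
theorem vFun_congr {a a' b f : Nm P} {p : P} (ha : p ∈ veq a a') (h : p ∈ vFun a b f) :
    p ∈ vFun a' b f := by
  unfold vFun at h ⊢
  rw [RO.mem_inf, RO.mem_inf] at h ⊢
  obtain ⟨⟨h1, h2⟩, h3⟩ := h
  refine ⟨⟨?_, ?_⟩, h3⟩
  · rw [RO.mem_iInf] at h1 ⊢
    intro z
    have h4 := h1 z
    rw [RO.mem_himp] at h4 ⊢
    intro q hq hqz
    have h5 := h4 q hq hqz
    rw [mem_iSup2] at h5 ⊢
    intro r hr
    obtain ⟨s, hs, x, y, hxy⟩ := h5 r hr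
    refine ⟨s, hs, x, y, ?_⟩
    rw [RO.mem_inf, RO.mem_inf] at hxy ⊢
    refine ⟨⟨?_, hxy.1.2⟩, hxy.2⟩
    exact vm_congr_right x a a' s ⟨RO.mem_lower (hs.trans (hr.trans hq)) ha, hxy.1.1⟩
  · rw [RO.mem_iInf] at h2 ⊢
    intro x
    have h4 := h2 x
    rw [RO.mem_himp] at h4 ⊢
    intro q hq hqx
    apply h4 q hq
    have ha' : q ∈ veq a' a := by
      rw [veq_comm]
      exact RO.mem_lower hq ha
    exact vm_congr_right x a' a q ⟨ha', hqx⟩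

/-- The values of a function are elements of the range. -/
theorem vm_of_pair {a b f x y : Nm P} {p : P} (h : p ∈ vFun a b f) (hy : p ∈ vm (pairN x y) f) :
    p ∈ vm y b := by
  unfold vFun at h
  rw [RO.mem_inf, RO.mem_inf] at h
  obtain ⟨⟨h1, -⟩, -⟩ := h
  rw [RO.mem_iInf] at h1
  have h2 := RO.mem_himp.1 (h1 (pairN x y)) p le_rfl hy
  rw [mem_iSup2] at h2
  apply RO.mem_reg
  intro q hq
  obtain ⟨r, hr, x', y', hr'⟩ := h2 q hq
  refine ⟨r, hr, ?_⟩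
  rw [RO.mem_inf, RO.mem_inf, veq_pairN, RO.mem_inf] at hr'
  obtain ⟨⟨-, h3⟩, -, h4⟩ := hr'
  rw [veq_comm] at h4
  exact vm_congr_left y' y b r ⟨h4, h3⟩

end H83

open H83 in
/-- E5h: no smaller base -/
theorem bf_no_base (b : BF P κ.ord.ToType μ.ord.ToType)
    : ⨅ a, ⨅ f, (vm a (onm μ.ord) ⇨ (vBase (ultN b.W) a f)ᶜ) = (⊤ : RO P) := by
  rw [eq_top_iff]
  intro p _
  rw [RO.mem_iInf]
  intro a
  rw [RO.mem_iInf]
  intro f
  rw [RO.mem_himp]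
  intro q _ hqa
  rw [RO.mem_compl]
  intro r hr hB
  rw [vm_onm, RO.mem_iSup] at hqa
  obtain ⟨s, hs, i, hi⟩ := hqa r hr
  set ν : Ordinal.{u} := (Ordinal.ToType.toOrd i).1 with hν
  have hνlt : ν < μ.ord := (Ordinal.ToType.toOrd i).2
  have hcard : #ν.ToType < #μ.ord.ToType := by
    rw [mk_ord_toType, mk_toType]
    exact lt_ord.1 hνlt
  have hBs : s ∈ vBase (ultN b.W) a f := RO.mem_lower hs hB
  unfold vBase at hBs
  rw [RO.mem_inf, RO.mem_iInf] at hBs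
  obtain ⟨hF, hb⟩ := hBs
  obtain ⟨x, hx1, hx2⟩ := b.lower ν.ToType hcard (fun n => mxs f n)
  have hxU : s ∈ vm (nmK x) (ultN b.W) := by
    rw [vm_ultN_nmK b.W b.W_mono, hx1]
    exact RO.mem_top s
  have h1 := RO.mem_himp.1 (hb (nmK x)) s le_rfl hxU
  rw [mem_iSup2] at h1
  obtain ⟨t, ht, y, z, hyz⟩ := h1 s le_rfl
  rw [RO.mem_inf, RO.mem_inf] at hyz
  obtain ⟨⟨hya, hyzf⟩, hzx⟩ := hyz
  have hta : t ∈ veq a (onm ν) := RO.mem_lower ht hi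
  have hyν : t ∈ vm y (onm ν) := vm_congr_right y a (onm ν) t ⟨hta, hya⟩
  rw [vm_onm, RO.mem_iSup] at hyν
  obtain ⟨t', ht', n, hn⟩ := hyν t le_rfl
  have hpair : t' ∈ vm (pairN (onm (Ordinal.ToType.toOrd n).1) z) f := by
    apply vm_congr_left (pairN y z) _ f t'
    refine ⟨?_, RO.mem_lower ht' hyzf⟩
    rw [veq_pairN, veq_refl]
    exact ⟨hn, RO.mem_top _⟩
  have hF' : t' ∈ vFun (onm ν) (ultN b.W) f :=
    vFun_congr (RO.mem_lower ht' hta) (RO.mem_lower (ht'.trans ht) hF)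
  have hzU : t' ∈ vm z (ultN b.W) := vm_of_pair hF' hpair
  rw [vm_ultN b.W b.W_mono, RO.mem_inf] at hzU
  have hm : ∀ k : κ.ord.ToType, t' ∈ (mxs f n k ⇨ rlK z k) ⊓ (rlK z k ⇨ mxs f n k) :=
    fun k => mxs_eq (ultN b.W) f t' hF' n z hpair k
  have h2 : t' ∈ b.W (fun k => mxs f n k) := by
    apply b.W_mono (rlK z) (fun k => mxs f n k)
    refine ⟨hzU.2, ?_⟩
    show t' ∈ (⨅ k, (rlK z k ⇨ mxs f n k))
    rw [RO.mem_iInf]
    exact fun k => (hm k).2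
  have h3 : t' ∈ ⨅ k : κ.ord.ToType, (mxs f n k ⇨ x k) := by
    rw [RO.mem_iInf]
    intro k
    rw [RO.mem_himp]
    intro u hu hmu
    have h4 := RO.mem_himp.1 (hm k).1 u hu hmu
    have h5 : u ∈ vSub z (nmK x) := RO.mem_lower (hu.trans ht') hzx
    unfold vSub at h5
    rw [RO.mem_iInf] at h5
    have h6 := RO.mem_himp.1 (h5 (onm (Ordinal.ToType.toOrd k).1)) u le_rfl h4
    rwa [vm_onm_nmK] at h6
  have h4 : t' ∈ b.W (fun k => mxs f n k) ⊓ (⨅ k : κ.ord.ToType, (mxs f n k ⇨ x k)) := ⟨h2, h3⟩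
  have h5 := hx2 n
  have h6 : t' ∈ (⊥ : RO P) := by
    rw [← h5]
    exact h4
  exact RO.not_mem_bot _ h6

end Pool.Agent.Helper23.XB
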