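import Pool.Agent.Helper23.XB.E1b
import Pool.Agent.Helper23.XB.E3
import Pool.Agent.Helper23.XB.E4

/-! # Project XB, module E5i -/

set_option autoImplicit false

namespace Pool.Agent.Helper23.XB

open Cardinal Filter Set Pool.Agent.Helper33.HM Pool.Agent.Helper33.HMG Pool.Agent.Helper32.HB
open Pool.Agent.Helper87.Sym (Fml cons Sat IsTransModelZF)

universe u v w

variable {P : Type u} [Preorder P] [OrderTop P] {κ μ : Cardinal.{u}}

private theorem h28_onto_congr {a a' b f : Nm P} {p : P} (ha : p ∈ veq a a')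
    (h : p ∈ vOnto a b f) : p ∈ vOnto a' b f := by
  have h1 := H28E1b.val_fOnto 0 1 2 (cons a (cons b (fun _ => f)))
  have h2 := H28E1b.val_fOnto 0 1 2 (cons a' (cons b (fun _ => f)))
  have h3 : p ∈ H28E1b.val (fOnto 0 1 2) (cons a (cons b (fun _ => f))) := by
    rw [h1]
    exact h
  have h4 : p ∈ H28E1b.val (fOnto 0 1 2) (cons a' (cons b (fun _ => f))) := by
    refine Fc_congr (v := cons a (cons b (fun _ => f))) (fun i => ?_) h3
    rcases i with _ | i
    · exact ha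
    · exact feq_refl _ _
  rw [h2] at h4
  exact h4

/-- E5i -/
theorem bf_card_mu (b : BF P κ.ord.ToType μ.ord.ToType)
    (hμ : ℵ₀ ≤ μ) : vCard (onm μ.ord : Nm P) = ⊤ := by
  unfold vCard
  rw [vOrd_onm, vLim_onm _ (isSuccLimit_ord hμ), top_inf_eq, top_inf_eq, eq_top_iff]
  intro p _
  rw [RO.mem_iInf]
  intro a
  rw [RO.mem_iInf]
  intro f
  rw [RO.mem_himp]
  intro q _ hq
  rw [RO.mem_compl]
  intro r hr hr'
  rw [vm_onm, RO.mem_iSup] at hq
  obtain ⟨s, hs, i, hi⟩ := hq r hr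
  have hlt : (Ordinal.ToType.toOrd i).1 < μ.ord := (Ordinal.ToType.toOrd i).2
  have h1 : s ∈ vOnto (onm (Ordinal.ToType.toOrd i).1) (onm μ.ord) f :=
    h28_onto_congr hi (RO.mem_lower hs hr')
  have h2 : s ∈ vSub (onm μ.ord : Nm P) (onm μ.ord) := by
    unfold vSub
    rw [RO.mem_iInf]
    intro x
    rw [RO.mem_himp]
    exact fun _ _ h => h
  obtain ⟨h3, h4⟩ := mx_onto (onm μ.ord) f s h2 h1
  have hcard : #(Ordinal.ToType.toOrd i).1.ToType < #μ.ord.ToType := by
    rw [mk_toType, mk_toType, card_ord]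
    exact lt_ord.1 hlt
  obtain ⟨m, hm⟩ := b.cardM (Ordinal.ToType.toOrd i).1.ToType hcard (fun n k => mx f n k) s h3
  have h5 := h4 m
  rw [RO.mem_himp] at h5
  have h6 := h5 s le_rfl (by
    unfold rlK
    rw [vm_onm_lt (Ordinal.ToType.toOrd m).2]
    exact RO.mem_top s)
  rw [RO.mem_iSup] at h6
  obtain ⟨t, ht, n, hn⟩ := h6 s le_rfl
  exact hm n t ht hn

end Pool.Agent.Helper23.XB
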