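import Pool.Agent.Helper23.XB.E2b
import Pool.Agent.Helper23.XB.E3

/-! # Project XB, module E5j -/

set_option autoImplicit false

namespace Pool.Agent.Helper23.XB

open Cardinal Filter Set Pool.Agent.Helper33.HM Pool.Agent.Helper33.HMG Pool.Agent.Helper32.HB
open Pool.Agent.Helper87.Sym (Fml cons Sat IsTransModelZF)

universe u v w

variable {P : Type u} [Preorder P] [OrderTop P] {κ μ : Cardinal.{u}}

namespace H77E5j

/-- The name of the power set. -/
private noncomputable def pw (P : Type u) [Preorder P] [OrderTop P] (α : Ordinal.{u}) : Nm P :=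
  .mk (α.ToType → RO P) nmK (fun _ => ⊤)

private theorem vm_pw (α : Ordinal.{u}) (σ : Nm P) (p : P) :
    p ∈ vm σ (pw P α) ↔ ∀ q, q ≤ p → ∃ r, r ≤ q ∧ ∃ x : α.ToType → RO P, r ∈ veq σ (nmK x) := by
  rw [pw, vm_mk]
  refine forall_congr' fun q => imp_congr_right fun _ => exists_congr fun r => and_congr_right
    fun _ => exists_congr fun x => ?_
  exact ⟨fun h => h.2, fun h => ⟨le_top, h⟩⟩

private theorem vPow_pw (α : Ordinal.{u}) : vPow (onm α) (pw P α) = ⊤ := by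
  rw [eq_top_iff]
  intro p _
  refine RO.mem_iInf.2 fun x => ⟨?_, ?_⟩
  · intro q hq hx
    rw [vm_pw] at hx
    refine RO.mem_reg fun r hr => ?_
    obtain ⟨s, hs, y, hy⟩ := hx r hr
    refine ⟨s, hs, RO.mem_iInf.2 fun ρ => ?_⟩
    intro t ht hρ
    have h1 : t ∈ vm ρ (nmK y) := vm_congr_right ρ x (nmK y) t ⟨RO.mem_lower ht hy, hρ⟩
    have h2 : t ∈ vSub (nmK y) (onm α) := by
      rw [vSub_nmK]
      exact RO.mem_top t
    exact RO.mem_iInf.1 h2 ρ t le_rfl h1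
  · intro q hq hx
    rw [vm_pw]
    intro r hr
    exact ⟨r, le_rfl, _, RO.mem_lower hr (vSub_le_veq x q hx)⟩

end H77E5j

open H77E5j in
/-- E5j -/
theorem bf_nosurj (b : BF P κ.ord.ToType μ.ord.ToType)
    (hκ : IsInaccessible κ) : vNoSurj (onm κ.ord : Nm P) (onm μ.ord) = ⊤ := by
  rw [eq_top_iff]
  refine le_trans ?_ (le_iSup _ (pw P κ.ord))
  rw [vPow_pw, top_inf_eq]
  refine le_iInf fun f => ?_
  intro p _
  rw [RO.mem_compl]
  intro q hq hf
  obtain ⟨x, hx⟩ := b.pow fun m k => mxs f m k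
  have h1 : q ∈ vm (nmK x) (pw P κ.ord) := by
    rw [vm_pw]
    intro r _
    refine ⟨r, le_rfl, x, ?_⟩
    rw [veq_refl]
    exact RO.mem_top r
  have h2 := RO.mem_iInf.1 hf.2 (nmK x) q le_rfl h1
  rw [RO.mem_iSup] at h2
  obtain ⟨r, hr, y, hy1, hy2⟩ := h2 q le_rfl
  rw [vm_onm] at hy1
  obtain ⟨s, hs, i, hi⟩ := RO.mem_iSup.1 hy1 r le_rfl
  have h3 : s ∈ vm (pairN (onm (Ordinal.ToType.toOrd i).1) (nmK x)) f := by
    refine vm_congr_left (pairN y (nmK x)) _ f s ⟨?_, RO.mem_lower hs hy2⟩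
    rw [veq_pairN, veq_refl (nmK x), inf_top_eq]
    exact hi
  have h4 : s ∈ vFun (onm μ.ord) (pw P κ.ord) f := RO.mem_lower (hs.trans hr) hf.1
  have h5 : s ∈ (⊥ : RO P) := by
    rw [← hx i, RO.mem_iInf]
    intro k
    have := mxs_eq (pw P κ.ord) f s h4 i (nmK x) h3 k
    rw [rlK, vm_onm_nmK] at this
    exact this
  exact RO.not_mem_bot s h5

end Pool.Agent.Helper23.XB
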