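import Pool.Agent.Helper23.XB.Defs

/-! # Project XB, module E5k -/

set_option autoImplicit false

namespace Pool.Agent.Helper23.XB

open Cardinal Filter Set Pool.Agent.Helper33.HM

universe u v w

/-- E5k -/
theorem exists_cofinal {μ : Cardinal.{u}} (hμ : IsSingular μ) :
    ∃ β : Ordinal.{u}, β < μ.ord ∧ ∃ f : β.ToType → μ.ord.ToType, ∀ i, ∃ j, i < f j := by
  obtain ⟨s, hs, hc⟩ := Order.exists_cof_eq μ.ord.ToType
  have h1 : #s = #(μ.ord.cof.ord).ToType := by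
    rw [hc, Ordinal.cof_toType, Cardinal.mk_toType, Cardinal.card_ord]
  obtain ⟨e⟩ := Cardinal.eq.1 h1
  have : NoMaxOrder μ.ord.ToType := Cardinal.noMaxOrder hμ.aleph0_le
  refine ⟨μ.ord.cof.ord, Cardinal.ord_lt_ord.2 hμ.cof_ord_lt, fun j => (e.symm j : μ.ord.ToType),
    fun i => ?_⟩
  obtain ⟨i', hi'⟩ := exists_gt i
  obtain ⟨k, hk, hk'⟩ := hs i'
  refine ⟨e ⟨k, hk⟩, ?_⟩
  simp only [Equiv.symm_apply_apply]
  exact hi'.trans_le hk'

end Pool.Agent.Helper23.XB
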