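import Pool.Agent.Helper23.XB.E1a
import Pool.Agent.Helper23.XB.E1b
import Pool.Agent.Helper23.XB.E4
import Pool.Agent.Helper23.XB.E5c
import Pool.Agent.Helper23.XB.E5d
import Pool.Agent.Helper23.XB.E5e
import Pool.Agent.Helper23.XB.E5f
import Pool.Agent.Helper23.XB.E5g
import Pool.Agent.Helper23.XB.E5h
import Pool.Agent.Helper23.XB.E5i
import Pool.Agent.Helper23.XB.E5j
import Pool.Agent.Helper23.XB.E5k
import Pool.Agent.Helper32.HB.Cho
import Pool.Agent.Helper32.HB.Pnt

/-! # Project XB, assembly E6 -/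

set_option autoImplicit false

namespace Pool.Agent.Helper23.XB

open Cardinal Filter Set Pool.Agent.Helper33.HM Pool.Agent.Helper33.HMG Pool.Agent.Helper32.HB
open Pool.Agent.Helper87.Sym (Fml cons Sat IsTransModelZF)

universe u v w

theorem exists_model {P : Type u} [Preorder P] [OrderTop P] {κ μ : Cardinal.{u}}
    (hκ : IsInaccessible κ) (hμ : IsSingular μ) (b : BF P κ.ord.ToType μ.ord.ToType)
    :
    ∃ M : Set ZFSet.{0}, M.Countable ∧ IsTransModelZFC M ∧ SingularCharacter M := by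
  obtain ⟨β, hβ, f, hf⟩ := exists_cofinal hμ
  have h : ∀ p : P, p ∈ vSing (onm κ.ord : Nm P) ⊓ vSL (onm κ.ord) ⊓
      vUnif (onm κ.ord) (ultN b.W) ⊓ vChar (ultN b.W) (onm μ.ord) ⊓ vSing (onm μ.ord) ⊓
      vNoSurj (onm κ.ord) (onm μ.ord) := by
    intro p
    have e1 := bf_sing_lam b hκ
    have e2 := bf_SL b hκ
    have e3 := bf_ultra b hκ
    have e4 := bf_uniform b
    have e5 := bf_base b
    have e6 := bf_no_base b
    have e7 := vSing_of_cof hβ f hf (bf_card_mu b hμ.aleph0_le)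
    have e8 := bf_nosurj b hκ
    have e34 : vUnif (onm κ.ord) (ultN b.W) = ⊤ := by
      unfold vUnif
      rw [e3, e4, top_inf_eq]
    have e56 : vChar (ultN b.W) (onm μ.ord) = ⊤ := by
      unfold vChar
      rw [e6, inf_top_eq, eq_top_iff, ← e5]
      exact le_iSup (fun f => vBase (ultN b.W) (onm μ.ord) f) _
    rw [e1, e2, e34, e56, e7, e8]
    simp only [inf_top_eq]
    exact RO.mem_top p
  obtain ⟨R₁, W₁, g, hch, -, -⟩ := exists_point (P := P) (R := Empty) (R' := Empty)
    (fun r => r.elim) (fun r => r.elim) (fun r => r.elim)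
  refine ⟨g.M, g.countable_M, zfc_of_ch g hch, ?_⟩
  refine sat_phi g.M g.isModel (fun _ => g.val emptyN) ?_
  exact (g.truth fPhi (v := fun _ => emptyN) fun _ => g.empty_mem).1
    ⟨0, fc_phi _ _ _ _ (h _) _⟩


end Pool.Agent.Helper23.XB
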