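import Pool.Agent.Helper23.XB.Defs

/-! # Project XB, module Z1 -/

set_option autoImplicit false

namespace Pool.Agent.Helper23.XB

open Cardinal Filter Set Pool.Agent.Helper33.HM

universe u v w

/-- Z1 -/
theorem inac_ord {κ : Cardinal.{u}} (hκ : IsInaccessible κ) : Inac κ.ord.ToType where
  wf := inferInstance
  inacc := by rw [mk_toType, card_ord]; exact hκ
  small i := by
    rw [mk_toType, card_ord]
    exact mk_Iio_toType_ord_lt i

end Pool.Agent.Helper23.XB
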