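import Pool.Agent.Helper23.XB.Z1
import Pool.Agent.Helper23.XB.A0
import Pool.Agent.Helper23.XB.A1
import Pool.Agent.Helper23.XB.A11
import Pool.Agent.Helper23.XB.D13
import Pool.Agent.Helper23.XB.E6

/-! # Project XB, assembly Z2 -/

set_option autoImplicit false

namespace Pool.Agent.Helper23.XB

open Cardinal Filter Set Pool.Agent.Helper33.HM

universe u v w

theorem main (κ : Cardinal.{u}) (hκ : Supercompact κ) :
    ∃ M : Set ZFSet.{0}, M.Countable ∧ Pool.Agent.Helper32.HB.IsTransModelZFC M ∧
      SingularCharacter M := by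
  have hi := supercompact_inaccessible κ hκ
  obtain ⟨μ, h1, h2, h3, h4, h5⟩ := exists_mu κ hi.aleph0_lt.le
  have hinac : Inac κ.ord.ToType := inac_ord hi
  have eK : #κ.ord.ToType = κ := by rw [mk_toType, card_ord]
  have eM : #μ.ord.ToType = μ := by rw [mk_toType, card_ord]
  have eT : #(Order.succ μ).ord.ToType = Order.succ μ := by rw [mk_toType, card_ord]
  obtain ⟨X⟩ := exists_xsys κ hκ κ.ord.ToType μ.ord.ToType (Order.succ μ).ord.ToType eK
    (by rw [eK, eM]; exact h1) (by rw [eK, eM]; exact h5)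
  obtain ⟨b⟩ := exists_BF X (by rw [eK, eM]; exact h2) (by rw [eM, eT]; exact Order.lt_succ μ)
  exact exists_model hi h4 b


end Pool.Agent.Helper23.XB
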